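import Mathlib

/-!
# Gronwall at infinity

PROOF. phi(t) = sum_a |f_a(t)|^2 is differentiable on [1, oo), |phi'| <= 2 sum |f_a| |f'_a| <= 2 |C| (sum |f_b|)^2 <= K phi(t) with K = 2 |C| card(iota)
(Cauchy-Schwarz, C may be replaced by |C|).  So psi(t) = exp(K t) phi(t) has derivative exp(K t)(K phi + phi') >= 0: psi is monotone on [1, oo).
By hdec with m > K: psi(t) <= exp(K t) card A^2 exp(-2 m t) -> 0, so psi(t) <= lim psi = 0 for every t >= 1.  Hence phi = 0.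
-/

set_option linter.unusedSectionVars false

namespace Pool.Agent.Work.MP_dd0ddf_al.CW

open scoped ComplexConjugate ContDiff Topology
open Matrix MeasureTheory Filter

noncomputable section

theorem grI {ι : Type*} [Fintype ι] (f f' : ι → ℝ → ℂ) (C : ℝ)
    (hd : ∀ a t, 1 ≤ t → HasDerivAt (f a) (f' a t) t)
    (hb : ∀ a t, 1 ≤ t → ‖f' a t‖ ≤ C * ∑ b, ‖f b t‖)
    (hdec : ∀ m : ℕ, ∃ A : ℝ, ∀ a t, 1 ≤ t → ‖f a t‖ ≤ A * Real.exp (-(m : ℝ) * t)) :
    ∀ a t, 1 ≤ t → f a t = 0 := by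
  obtain ⟨φ, hφ⟩ : ∃ φ : ℝ → ℝ, φ = fun t => ∑ a, ‖f a t‖ ^ 2 := ⟨_, rfl⟩
  obtain ⟨φ', hφ'⟩ : ∃ φ' : ℝ → ℝ, φ' = fun t => ∑ a, 2 * inner ℝ (f a t) (f' a t) := ⟨_, rfl⟩
  obtain ⟨K, hK⟩ : ∃ K : ℝ, K = 2 * |C| * Fintype.card ι := ⟨_, rfl⟩
  have hK0 : 0 ≤ K := by
    rw [hK]
    positivity
  have hφd : ∀ t, 1 ≤ t → HasDerivAt φ (φ' t) t := by
    intro t ht
    rw [hφ, hφ']
    exact HasDerivAt.fun_sum fun a _ => (hd a t ht).norm_sq
  have hφ0 : ∀ t, 0 ≤ φ t := by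
    intro t
    rw [hφ]
    exact Finset.sum_nonneg fun a _ => by positivity
  have hφb : ∀ t, 1 ≤ t → |φ' t| ≤ K * φ t := by
    intro t ht
    have h1 : |φ' t| ≤ ∑ a, 2 * (‖f a t‖ * (|C| * ∑ b, ‖f b t‖)) := by
      rw [hφ']
      refine (Finset.abs_sum_le_sum_abs _ _).trans (Finset.sum_le_sum fun a _ => ?_)
      rw [abs_mul, abs_two]
      have h2 : |inner ℝ (f a t) (f' a t)| ≤ ‖f a t‖ * ‖f' a t‖ := abs_real_inner_le_norm _ _
      have h3 : ‖f' a t‖ ≤ |C| * ∑ b, ‖f b t‖ :=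
        (hb a t ht).trans (mul_le_mul_of_nonneg_right (le_abs_self C)
          (Finset.sum_nonneg fun b _ => norm_nonneg _))
      have h4 : ‖f a t‖ * ‖f' a t‖ ≤ ‖f a t‖ * (|C| * ∑ b, ‖f b t‖) :=
        mul_le_mul_of_nonneg_left h3 (norm_nonneg _)
      linarith
    have h2 : ∑ a, 2 * (‖f a t‖ * (|C| * ∑ b, ‖f b t‖)) = 2 * |C| * (∑ b, ‖f b t‖) ^ 2 := by
      rw [← Finset.mul_sum, ← Finset.sum_mul]
      ring
    have h3 : (∑ b, ‖f b t‖) ^ 2 ≤ Fintype.card ι * ∑ b, ‖f b t‖ ^ 2 := by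
      have := sq_sum_le_card_mul_sum_sq (s := (Finset.univ : Finset ι)) (f := fun b => ‖f b t‖)
      simpa using this
    have h4 : 2 * |C| * (∑ b, ‖f b t‖) ^ 2 ≤ 2 * |C| * (Fintype.card ι * ∑ b, ‖f b t‖ ^ 2) :=
      mul_le_mul_of_nonneg_left h3 (by positivity)
    rw [hK, hφ]
    calc |φ' t| ≤ 2 * |C| * (Fintype.card ι * ∑ b, ‖f b t‖ ^ 2) := by
          rw [h2] at h1
          exact h1.trans h4
      _ = 2 * |C| * Fintype.card ι * ∑ b, ‖f b t‖ ^ 2 := by ring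
  obtain ⟨ψ, hψ⟩ : ∃ ψ : ℝ → ℝ, ψ = fun t => Real.exp (K * t) * φ t := ⟨_, rfl⟩
  have hψd : ∀ t, 1 ≤ t → HasDerivAt ψ (Real.exp (K * t) * K * φ t + Real.exp (K * t) * φ' t) t := by
    intro t ht
    rw [hψ]
    have h1 : HasDerivAt (fun t : ℝ => K * t) K t := by
      simpa using (hasDerivAt_id t).const_mul K
    exact h1.exp.fun_mul (hφd t ht)
  have hmono : MonotoneOn ψ (Set.Ici 1) := by
    apply monotoneOn_of_deriv_nonneg (convex_Ici 1)
    · intro t ht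
      exact (hψd t ht).continuousAt.continuousWithinAt
    · intro t ht
      rw [interior_Ici] at ht
      exact (hψd t (le_of_lt ht)).differentiableAt.differentiableWithinAt
    · intro t ht
      rw [interior_Ici] at ht
      have ht' : 1 ≤ t := le_of_lt ht
      rw [(hψd t ht').deriv]
      have h1 := (abs_le.1 (hφb t ht')).1
      have h2 : Real.exp (K * t) * K * φ t + Real.exp (K * t) * φ' t =
        Real.exp (K * t) * (K * φ t + φ' t) := by ring
      rw [h2]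
      exact mul_nonneg (Real.exp_pos _).le (by linarith)
  obtain ⟨m, hm⟩ := exists_nat_gt K
  obtain ⟨A, hA⟩ := hdec m
  have hbd : ∀ s, 1 ≤ s → ψ s ≤ Fintype.card ι * A ^ 2 * Real.exp (-((2 * m - K) * s)) := by
    intro s hs
    have h1 : φ s ≤ ∑ _a : ι, (A * Real.exp (-(m : ℝ) * s)) ^ 2 := by
      rw [hφ]
      exact Finset.sum_le_sum fun a _ => pow_le_pow_left₀ (norm_nonneg _) (hA a s hs) 2
    rw [Finset.sum_const, Finset.card_univ, nsmul_eq_mul] at h1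
    have h2 : ψ s ≤ Real.exp (K * s) *
        ((Fintype.card ι : ℝ) * (A * Real.exp (-(m : ℝ) * s)) ^ 2) := by
      rw [hψ]
      exact mul_le_mul_of_nonneg_left h1 (Real.exp_pos _).le
    refine h2.trans (le_of_eq ?_)
    have h3 : Real.exp (-((2 * m - K) * s)) =
        Real.exp (K * s) * Real.exp (-(m : ℝ) * s) * Real.exp (-(m : ℝ) * s) := by
      rw [← Real.exp_add, ← Real.exp_add]
      congr 1
      ring
    rw [h3]
    ring
  have hlim : Tendsto (fun s : ℝ => Fintype.card ι * A ^ 2 * Real.exp (-((2 * m - K) * s)))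
      atTop (𝓝 0) := by
    have hpos : 0 < 2 * (m : ℝ) - K := by linarith
    have h1 : Tendsto (fun s : ℝ => (2 * m - K) * s) atTop atTop :=
      tendsto_id.const_mul_atTop hpos
    have h2 := (Real.tendsto_exp_neg_atTop_nhds_zero.comp h1).const_mul
      ((Fintype.card ι : ℝ) * A ^ 2)
    rw [mul_zero] at h2
    exact h2
  intro a t ht
  have h1 : ψ t ≤ 0 := by
    apply ge_of_tendsto hlim
    filter_upwards [eventually_ge_atTop t] with s hs
    exact (hmono ht (ht.trans hs) hs).trans (hbd s (ht.trans hs))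
  have h2 : φ t ≤ 0 := by
    rw [hψ] at h1
    by_contra h
    push Not at h
    have := mul_pos (Real.exp_pos (K * t)) h
    simp only at h1
    linarith
  have h3 : ‖f a t‖ ^ 2 ≤ φ t := by
    rw [hφ]
    exact Finset.single_le_sum (f := fun a => ‖f a t‖ ^ 2) (fun b _ => by positivity)
      (Finset.mem_univ a)
  have h4 : ‖f a t‖ ^ 2 = 0 := le_antisymm (h3.trans h2) (by positivity)
  exact norm_eq_zero.1 (pow_eq_zero_iff two_ne_zero |>.1 h4)

end

end Pool.Agent.Work.MP_dd0ddf_al.CW
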