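import Mathlib

/-!
# uniqueness for linear systems on (0, oo)

PROOF. Let t > 0 and 0 < s <= 1 with s <= t, t0 <= 1/s.  On [s, 1/s]: phi = sum |f_a|^2 satisfies |phi'| <= K phi, K = 2 |C| card(iota).
exp(K t) phi(t) is monotone and exp(-K t) phi(t) is antitone on [s, 1/s].  phi(t0) = 0.  If t >= t0: exp(-K t) phi(t) <= exp(-K t0) phi(t0) = 0;
if t <= t0: exp(K t) phi(t) <= exp(K t0) phi(t0) = 0.  (Or use the Gronwall inequality of Mathlib.)
-/

set_option linter.unusedSectionVars false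

namespace Pool.Agent.Work.MP_dd0ddf_al.CW

open scoped ComplexConjugate ContDiff Topology
open Matrix MeasureTheory Filter

noncomputable section

private theorem zero_of_gronwall {E : Type*} [NormedAddCommGroup E] [NormedSpace ℝ E]
    (F F' : ℝ → E) (K a b : ℝ) (hab : a ≤ b)
    (hd : ∀ x ∈ Set.Icc a b, HasDerivAt F (F' x) x)
    (hb : ∀ x ∈ Set.Icc a b, ‖F' x‖ ≤ K * ‖F x‖) (h0 : F a = 0) : F b = 0 := by
  have h := norm_le_gronwallBound_of_norm_deriv_right_le (f := F) (f' := F') (δ := 0) (K := K)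
    (ε := 0) (a := a) (b := b)
    (fun x hx => (hd x hx).continuousAt.continuousWithinAt)
    (fun x hx => (hd x (Set.Ico_subset_Icc_self hx)).hasDerivWithinAt)
    (by rw [h0, norm_zero])
    (fun x hx => by rw [add_zero]; exact hb x (Set.Ico_subset_Icc_self hx))
    b ⟨hab, le_rfl⟩
  rw [gronwallBound_ε0, zero_mul] at h
  exact norm_le_zero_iff.mp h

theorem grP {ι : Type*} [Fintype ι] (f f' : ι → ℝ → ℂ)
    (hd : ∀ a t, 0 < t → HasDerivAt (f a) (f' a t) t)
    (hb : ∀ s : ℝ, 0 < s → s ≤ 1 → ∃ C : ℝ, ∀ a t, s ≤ t → t ≤ s⁻¹ →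
      ‖f' a t‖ ≤ C * ∑ b, ‖f b t‖)
    (t0 : ℝ) (ht0 : 0 < t0) (h0 : ∀ a, f a t0 = 0) :
    ∀ a t, 0 < t → f a t = 0 := by
  intro a t ht
  set F : ℝ → (ι → ℂ) := fun x b => f b x with hF
  set F' : ℝ → (ι → ℂ) := fun x b => f' b x with hF'
  have hdF : ∀ x, 0 < x → HasDerivAt F (F' x) x := fun x hx =>
    hasDerivAt_pi.mpr fun b => hd b x hx
  set s : ℝ := min (min t t0) (min (max t t0)⁻¹ 1) with hs
  have hmax : 0 < max t t0 := lt_max_of_lt_left ht
  have hs0 : 0 < s := lt_min (lt_min ht ht0) (lt_min (inv_pos.mpr hmax) one_pos)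
  have hs1 : s ≤ 1 := (min_le_right _ _).trans (min_le_right _ _)
  have hst : s ≤ min t t0 := min_le_left _ _
  have hsi : max t t0 ≤ s⁻¹ := by
    rw [le_inv_comm₀ hmax hs0]
    exact (min_le_right _ _).trans (min_le_left _ _)
  obtain ⟨C, hC⟩ := hb s hs0 hs1
  have hK : ∀ x, s ≤ x → x ≤ s⁻¹ → ‖F' x‖ ≤ (|C| * Fintype.card ι) * ‖F x‖ := by
    intro x h1 h2
    refine (pi_norm_le_iff_of_nonneg (by positivity)).mpr fun b => ?_
    calc ‖F' x b‖ ≤ C * ∑ b, ‖f b x‖ := hC b x h1 h2
      _ ≤ |C| * ∑ b, ‖f b x‖ :=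
          mul_le_mul_of_nonneg_right (le_abs_self C) (Finset.sum_nonneg fun _ _ => norm_nonneg _)
      _ ≤ |C| * ∑ _b : ι, ‖F x‖ := by
          refine mul_le_mul_of_nonneg_left (Finset.sum_le_sum fun b _ => ?_) (abs_nonneg C)
          exact norm_le_pi_norm (F x) b
      _ = (|C| * Fintype.card ι) * ‖F x‖ := by
          rw [Finset.sum_const, Finset.card_univ, nsmul_eq_mul]; ring
  have hF0 : F t0 = 0 := funext h0
  have hFt : F t = 0 := by
    rcases le_total t0 t with h | h
    · refine zero_of_gronwall F F' (|C| * Fintype.card ι) t0 t h (fun x hx => ?_) (fun x hx => ?_) hF0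
      · exact hdF x (ht0.trans_le hx.1)
      · exact hK x (hst.trans ((min_le_right _ _).trans hx.1))
          ((hx.2.trans (le_max_left _ _)).trans hsi)
    · have := zero_of_gronwall (fun x => F (-x)) (fun x => -F' (-x)) (|C| * Fintype.card ι)
        (-t0) (-t) (neg_le_neg h) (fun x hx => ?_) (fun x hx => ?_) (by simpa using hF0)
      · simpa using this
      · have hx0 : 0 < -x := by have := hx.2; linarith
        have h1 := (hdF (-x) hx0).scomp x (hasDerivAt_neg x)
        simpa [Function.comp_def] using h1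
      · have h1 : t ≤ -x := by have := hx.2; linarith
        have h2 : -x ≤ t0 := by have := hx.1; linarith
        rw [norm_neg]
        exact hK (-x) (hst.trans ((min_le_left _ _).trans h1))
          ((h2.trans (le_max_right _ _)).trans hsi)
  exact congrFun hFt a

end

end Pool.Agent.Work.MP_dd0ddf_al.CW
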