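import Pool.Agent.Work.MP_dd0ddf_al.CW.Defs

/-!
# evaluation of polynomials at the commuting operators L_ii

The operators `L i i` commute (`GG.LL`).  There is a unital algebra homomorphism `ev` from polynomials to operators with `ev (X i) = L i i`, and
`ev (monomial m 1) = mon L m`.
PROOF. The subalgebra S = Algebra.adjoin ℂ (range (fun i => L i i)) is commutative (`Algebra.adjoinCommRingOfComm`); take MvPolynomial.aeval into S and compose
with the inclusion.  Or: `MvPolynomial.aeval` does not apply directly because End Y is not commutative.  `mon L m` is the product of the list of the `L i i ^ m i`;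
the image of monomial m 1 = prod X_i^(m i) is the same product (`List.prod_ofFn`, `Finset.prod` in S, `map_prod`, in the commutative ring S the product over Fin n is the list product).
-/

set_option linter.unusedSectionVars false

namespace Pool.Agent.Work.MP_dd0ddf_al.CW

open scoped Matrix.Norms.Elementwise ComplexConjugate ContDiff Topology
open Matrix MeasureTheory Filter
open Pool.Agent.Work.MP_dd0ddf_al.AR

noncomputable section

variable {n : ℕ} {Y : Type*} [AddCommGroup Y] [Module ℂ Y]

theorem mev (L R : Fin n → Fin n → Module.End ℂ Y) (gg : GG L R) :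
    ∃ ev : MvPolynomial (Fin n) ℂ →ₐ[ℂ] Module.End ℂ Y,
      (∀ i, ev (MvPolynomial.X i) = L i i) ∧
      ∀ m : Fin n →₀ ℕ, ev (MvPolynomial.monomial m 1) = mon L m := by
  have hc : ∀ a ∈ Set.range (fun i => L i i), ∀ b ∈ Set.range (fun i => L i i), a * b = b * a := by
    rintro _ ⟨i, rfl⟩ _ ⟨j, rfl⟩
    have h1 := gg.LL i i j j
    by_cases hij : i = j
    · subst hij
      rfl
    · rw [if_neg hij, if_neg hij, sub_zero, sub_eq_zero] at h1
      exact h1
  letI : CommRing (Algebra.adjoin ℂ (Set.range fun i => L i i)) :=
    Algebra.adjoinCommRingOfComm ℂ hc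
  let g : Fin n → Algebra.adjoin ℂ (Set.range fun i => L i i) :=
    fun i => ⟨L i i, Algebra.subset_adjoin ⟨i, rfl⟩⟩
  refine ⟨(Algebra.adjoin ℂ (Set.range fun i => L i i)).val.comp (MvPolynomial.aeval g), ?_, ?_⟩
  · intro i
    rw [AlgHom.comp_apply, MvPolynomial.aeval_X]
    rfl
  · intro m
    rw [AlgHom.comp_apply, MvPolynomial.aeval_monomial, map_one, one_mul,
      Finsupp.prod_fintype _ _ (fun i => pow_zero _), ← List.prod_ofFn, map_list_prod,
      List.map_ofFn]
    rfl

end

end Pool.Agent.Work.MP_dd0ddf_al.CW
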