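import Mathlib

/-!
# monomials of degree >= n^2 lie in the ideal of the power sums p_1, ..., p_n, with degrees

PROOF. Let N = sum m_i >= n*n.  Some m_i >= n (otherwise N <= n(n-1) < n*n as n >= 1).  In the ring of polynomials: prod_l (x_i - x_l) = 0, i.e.
x_i^n = sum_(j=1)^n (-1)^(j-1) e_j x_i^(n-j), e_j = esymm j (Mathlib: `MvPolynomial.esymm`, `Multiset.prod_X_add_C_eq_sum_esymm` or similar, evaluated at x_i).
Newton's identities (Mathlib: `MvPolynomial.mul_esymm_eq_sum` or `MvPolynomial.psum_eq_mul_esymm_sub_sum`): k e_k = (-1)^(k+1) sum_(i<k) (-1)^i e_i p_(k-i), so by induction (k invertible in C)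
e_k = sum_(j=1)^k c_(k,j) p_j with c_(k,j) homogeneous of degree k - j.  So x_i^n = sum_(k=1)^n r_k p_k with r_k homogeneous of degree n - k.
Multiply by the monomial x^m / x_i^n, of degree N - n.
-/

set_option linter.unusedSectionVars false

namespace Pool.Agent.Work.MP_dd0ddf_al.CW

open scoped ComplexConjugate ContDiff Topology
open Matrix MeasureTheory Filter

noncomputable section

private def PP (n N : ℕ) (f : MvPolynomial (Fin n) ℂ) : Prop :=
  ∃ q : ℕ → MvPolynomial (Fin n) ℂ,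
    (∀ k, k ≤ N → (q k).IsHomogeneous (N - k)) ∧ (∀ k, N < k → q k = 0) ∧
      f = ∑ k ∈ Finset.Icc 1 n, q k * MvPolynomial.psum (Fin n) ℂ k

private theorem PP_zero (n N : ℕ) : PP n N 0 := by
  refine ⟨fun _ => 0, fun k _ => MvPolynomial.isHomogeneous_zero _ _ _, fun _ _ => rfl, ?_⟩
  simp

private theorem PP_add {n N : ℕ} {f g : MvPolynomial (Fin n) ℂ} (hf : PP n N f)
    (hg : PP n N g) : PP n N (f + g) := by
  obtain ⟨q, h1, h2, rfl⟩ := hf
  obtain ⟨r, h3, h4, rfl⟩ := hg
  refine ⟨fun k => q k + r k, fun k hk => (h1 k hk).add (h3 k hk), fun k hk => ?_, ?_⟩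
  · beta_reduce
    rw [h2 k hk, h4 k hk, add_zero]
  · rw [← Finset.sum_add_distrib]
    exact Finset.sum_congr rfl fun k _ => by ring

private theorem PP_sum {n N : ℕ} {ι : Type*} (s : Finset ι) (f : ι → MvPolynomial (Fin n) ℂ)
    (h : ∀ i ∈ s, PP n N (f i)) : PP n N (∑ i ∈ s, f i) := by
  classical
  induction s using Finset.induction_on with
  | empty =>
    rw [Finset.sum_empty]
    exact PP_zero n N
  | insert i s hi ih =>
    rw [Finset.sum_insert hi]
    exact PP_add (h i (Finset.mem_insert_self i s))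
      (ih fun j hj => h j (Finset.mem_insert_of_mem hj))

private theorem PP_mul {n N d : ℕ} {f g : MvPolynomial (Fin n) ℂ} (hg : g.IsHomogeneous d)
    (hf : PP n N f) : PP n (d + N) (g * f) := by
  obtain ⟨q, h1, h2, rfl⟩ := hf
  refine ⟨fun k => g * q k, fun k hk => ?_, fun k hk => ?_, ?_⟩
  · by_cases hkN : k ≤ N
    · have e : d + N - k = d + (N - k) := by omega
      rw [e]
      exact hg.mul (h1 k hkN)
    · beta_reduce
      rw [h2 k (by omega), mul_zero]
      exact MvPolynomial.isHomogeneous_zero _ _ _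
  · beta_reduce
    rw [h2 k (by omega), mul_zero]
  · rw [Finset.mul_sum]
    exact Finset.sum_congr rfl fun k _ => by ring

private theorem esymm_hom (n k : ℕ) : (MvPolynomial.esymm (Fin n) ℂ k).IsHomogeneous k := by
  unfold MvPolynomial.esymm
  apply MvPolynomial.IsHomogeneous.sum
  intro t ht
  have h1 : (∑ _i ∈ t, 1) = k := by
    rw [Finset.sum_const, smul_eq_mul, mul_one]
    exact (Finset.mem_powersetCard.1 ht).2
  rw [← h1]
  exact MvPolynomial.IsHomogeneous.prod _ _ _ fun i _ => MvPolynomial.isHomogeneous_X ℂ i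

private theorem psum_PP {n j : ℕ} (h1 : 1 ≤ j) (h2 : j ≤ n) :
    PP n j (MvPolynomial.psum (Fin n) ℂ j) := by
  refine ⟨fun k => if k = j then 1 else 0, fun k hk => ?_, fun k hk => ?_, ?_⟩
  · by_cases h : k = j
    · subst h
      beta_reduce
      rw [if_pos rfl, Nat.sub_self]
      exact MvPolynomial.isHomogeneous_one _ _
    · beta_reduce
      rw [if_neg h]
      exact MvPolynomial.isHomogeneous_zero _ _ _
  · beta_reduce
    rw [if_neg (by omega)]
  · rw [Finset.sum_eq_single j]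
    · beta_reduce
      rw [if_pos rfl, one_mul]
    · intro k _ hk
      beta_reduce
      rw [if_neg hk, zero_mul]
    · intro h
      exact absurd (Finset.mem_Icc.2 ⟨h1, h2⟩) h

private theorem esymm_PP {n k : ℕ} (h1 : 1 ≤ k) (h2 : k ≤ n) :
    PP n k (MvPolynomial.esymm (Fin n) ℂ k) := by
  have hk : (k : ℂ) ≠ 0 := Nat.cast_ne_zero.2 (by omega)
  have h3 := MvPolynomial.mul_esymm_eq_sum (Fin n) ℂ k
  have h4 : MvPolynomial.esymm (Fin n) ℂ k = ∑ a ∈ Finset.HasAntidiagonal.antidiagonal k with a.1 < k,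
      (MvPolynomial.C ((k : ℂ)⁻¹ * (-1) ^ (k + 1) * (-1) ^ a.1) *
        MvPolynomial.esymm (Fin n) ℂ a.1) * MvPolynomial.psum (Fin n) ℂ a.2 := by
    have e1 : MvPolynomial.esymm (Fin n) ℂ k = MvPolynomial.C ((k : ℂ)⁻¹) *
        ((k : MvPolynomial (Fin n) ℂ) * MvPolynomial.esymm (Fin n) ℂ k) := by
      rw [← mul_assoc, ← map_natCast (MvPolynomial.C (R := ℂ) (σ := Fin n)) k, ← map_mul,
        inv_mul_cancel₀ hk, map_one, one_mul]
    rw [e1, h3, Finset.mul_sum, Finset.mul_sum]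
    refine Finset.sum_congr rfl fun a _ => ?_
    rw [map_mul, map_mul, map_pow, map_pow, map_neg, map_one]
    ring
  rw [h4]
  apply PP_sum
  intro a ha
  rw [Finset.mem_filter, Finset.HasAntidiagonal.mem_antidiagonal] at ha
  have h5 : PP n a.2 (MvPolynomial.psum (Fin n) ℂ a.2) := psum_PP (by omega) (by omega)
  have h6 : (MvPolynomial.C ((k : ℂ)⁻¹ * (-1) ^ (k + 1) * (-1) ^ a.1) *
      MvPolynomial.esymm (Fin n) ℂ a.1).IsHomogeneous a.1 := by
    have := (MvPolynomial.isHomogeneous_C (Fin n) ((k : ℂ)⁻¹ * (-1) ^ (k + 1) * (-1) ^ a.1)).mul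
      (esymm_hom n a.1)
    rwa [zero_add] at this
  have h7 := PP_mul h6 h5
  rwa [ha.1] at h7

private theorem X_pow_PP {n : ℕ} (hn : 0 < n) (i : Fin n) :
    PP n n ((MvPolynomial.X i : MvPolynomial (Fin n) ℂ) ^ n) := by
  have h1 := congrArg (Polynomial.eval (-(MvPolynomial.X i : MvPolynomial (Fin n) ℂ)))
    (MvPolynomial.prod_C_add_X_eq_sum_esymm ℂ (Fin n))
  rw [Polynomial.eval_prod, Finset.prod_eq_zero (Finset.mem_univ i) (by simp),
    Polynomial.eval_finsetSum, Fintype.card_fin, Finset.sum_range_succ'] at h1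
  simp only [Polynomial.eval_mul, Polynomial.eval_C, Polynomial.eval_pow, Polynomial.eval_X,
    MvPolynomial.esymm_zero, one_mul, Nat.sub_zero] at h1
  have h2 : (MvPolynomial.X i : MvPolynomial (Fin n) ℂ) ^ n = ∑ k ∈ Finset.range n,
      (MvPolynomial.C (-(-1 : ℂ) ^ n) * (-(MvPolynomial.X i : MvPolynomial (Fin n) ℂ)) ^
        (n - (k + 1))) * MvPolynomial.esymm (Fin n) ℂ (k + 1) := by
    have e1 : (MvPolynomial.X i : MvPolynomial (Fin n) ℂ) ^ n =
        MvPolynomial.C ((-1 : ℂ) ^ n) * (-(MvPolynomial.X i : MvPolynomial (Fin n) ℂ)) ^ n := by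
      rw [map_pow, map_neg, map_one, ← mul_pow, neg_mul_neg, one_mul]
    have e2 : (-(MvPolynomial.X i : MvPolynomial (Fin n) ℂ)) ^ n = -∑ k ∈ Finset.range n,
        MvPolynomial.esymm (Fin n) ℂ (k + 1) *
          (-(MvPolynomial.X i : MvPolynomial (Fin n) ℂ)) ^ (n - (k + 1)) := by
      rw [eq_neg_iff_add_eq_zero, add_comm]
      exact h1.symm
    rw [e1, e2, ← Finset.sum_neg_distrib, Finset.mul_sum]
    refine Finset.sum_congr rfl fun k _ => ?_
    rw [map_neg]
    ring
  rw [h2]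
  apply PP_sum
  intro k hk
  rw [Finset.mem_range] at hk
  have h3 : PP n (k + 1) (MvPolynomial.esymm (Fin n) ℂ (k + 1)) :=
    esymm_PP (by omega) (by omega)
  have h4 : (MvPolynomial.C (-(-1 : ℂ) ^ n) * (-(MvPolynomial.X i : MvPolynomial (Fin n) ℂ)) ^
      (n - (k + 1))).IsHomogeneous (n - (k + 1)) := by
    have h5 := ((MvPolynomial.isHomogeneous_X ℂ i).neg.pow (n - (k + 1)))
    have h6 := (MvPolynomial.isHomogeneous_C (Fin n) (-(-1 : ℂ) ^ n)).mul h5
    rwa [zero_add, one_mul] at h6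
  have h7 := PP_mul h4 h3
  have e : n - (k + 1) + (k + 1) = n := by omega
  rwa [e] at h7

theorem psg {n : ℕ} (hn : 0 < n) (m : Fin n →₀ ℕ) (hm : n * n ≤ ∑ i, m i) :
    ∃ q : ℕ → MvPolynomial (Fin n) ℂ,
      (∀ k, 1 ≤ k → k ≤ n → (q k).IsHomogeneous ((∑ i, m i) - k)) ∧
      MvPolynomial.monomial m (1 : ℂ) = ∑ k ∈ Finset.Icc 1 n, q k * MvPolynomial.psum (Fin n) ℂ k := by
  obtain ⟨i, hi⟩ : ∃ i, n ≤ m i := by
    by_contra hcon
    push Not at hcon
    have h1 : ∑ i, m i ≤ ∑ _i : Fin n, (n - 1) :=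
      Finset.sum_le_sum fun i _ => by have := hcon i; omega
    rw [Finset.sum_const, Finset.card_univ, Fintype.card_fin, smul_eq_mul] at h1
    have h2 : n * (n - 1) < n * n := Nat.mul_lt_mul_of_pos_left (by omega) hn
    omega
  have hdeg : (m - Finsupp.single i n).degree = (∑ i, m i) - n := by
    have h1 : m - Finsupp.single i n + Finsupp.single i n = m := by
      apply tsub_add_cancel_of_le
      exact Finsupp.single_le_iff.2 hi
    have h2 := congrArg Finsupp.degree h1
    rw [map_add, Finsupp.degree_single, Finsupp.degree_eq_sum m] at h2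
    omega
  have hmon : MvPolynomial.monomial m (1 : ℂ) =
      MvPolynomial.monomial (m - Finsupp.single i n) (1 : ℂ) * MvPolynomial.X i ^ n := by
    rw [MvPolynomial.X_pow_eq_monomial, MvPolynomial.monomial_mul, one_mul,
      tsub_add_cancel_of_le (Finsupp.single_le_iff.2 hi)]
  have h1 := PP_mul (MvPolynomial.isHomogeneous_monomial (1 : ℂ) hdeg) (X_pow_PP hn i)
  have hnn : n ≤ n * n := Nat.le_mul_of_pos_left n hn
  have e : (∑ i, m i) - n + n = ∑ i, m i := by omega
  rw [← hmon, e] at h1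
  obtain ⟨q, h2, -, h3⟩ := h1
  exact ⟨q, fun k _ hk => h2 k (by omega), h3⟩

end

end Pool.Agent.Work.MP_dd0ddf_al.CW
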