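import Pool.Agent.Work.MP_dd0ddf_al.CW.Defs

/-!
# word reduction (radial part)

Write w(t) = min(t,1), Bt = B t.  `NN .. e t` is monotone in e (nonnegative terms, more multi-indices).
(0) For al /= 0 real there is C with w(t) e^(t al)/|e^(t al) - e^(-t al)| <= C, w(t) e^(-t al)/|..| <= C, w(t)/|..| <= C for all t > 0 (near 0: |e^(t al)-e^(-t al)| >= 2 t |al|;
    for t >= 1 the quotients are bounded by 1/(1-e^(-2|al|))).
(1) Relations: Z := Zo L R i j = L_ij - R_ji, al = h_i - h_j, Zt := e^(-t al) L_ij - e^(t al) R_ji, B t l (Zt y) = B t (ZL i j l) y (field `rad`).  Hence for i /= j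
    (e^(t al) - e^(-t al)) L_ij y = e^(t al) Z y - Zt y   and   (e^(t al) - e^(-t al)) R_ji y = e^(-t al) Z y - Zt y, so
    |B t l (L_ij y)|, |B t l (R_ji y)| <= (C / w(t)) (|B t l (Z y)| + |B t (ZL i j l) y|).
(2) CLAIM by strong induction on d = length of w: for all l, v in V0 there is C with w(t)^d |B t l (wd w v)| <= C NN d t and, if w has an off-diagonal letter, <= C NN (d-1) t.
    d = 0: wd [] v = v = sum of the basis vectors of V0, l = sum of basis vectors of Lambda; mon L 0 = 1.
    w with an off-diagonal letter, d >= 1: write w = w1 ++ x :: w2 with w1 consisting of diagonal letters.  A diagonal letter y satisfies y x = x y + c x with c a number (GG; the letters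
    of the two kinds commute).  So wd w = wd (x :: w1 ++ w2) + combination of words of length d-1; these are fine (w(t)^d <= w(t)^(d-1), induction, NN (d-1)).
    For x :: w', w' of length d-1: by (1) w(t)^d |B t l (x (wd w' v))| <= C w(t)^(d-1) (|B t l (Z wd w' v)| + |B t l' (wd w' v)|), the second term is <= C NN (d-1) by induction.
    Z wd w' v = wd w' (Z v) + [Z, wd w'] v; Z v in V0 (hV); [Z, wd w'] is a combination of words of length d-1 (Z = L_ij - R_ji, the commutator with a letter is a combination of letters).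
    So everything is <= C NN (d-1).
    w with only diagonal letters: they all commute.  If there is a letter R_ii, move it to the right end: wd w v = wd w'' (R_ii v) = wd w'' (L_ii v) - wd w'' (Z_ii v), Z_ii = Zo L R i i,
    Z_ii v in V0: the last term is a word of length d-1 applied to V0 (w(t)^d <= w(t)^(d-1), NN (d-1) <= NN d); the first has fewer letters R (induction on their number).
    If all letters are L_ii: wd w v = mon L m v with |m| = d, expand v and l in the bases.
-/

set_option linter.unusedSectionVars false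

namespace Pool.Agent.Work.MP_dd0ddf_al.CW

open scoped Matrix.Norms.Elementwise ComplexConjugate ContDiff Topology
open Matrix MeasureTheory Filter
open Pool.Agent.Work.MP_dd0ddf_al.AR

noncomputable section

variable {n : ℕ} {Y : Type*} [AddCommGroup Y] [Module ℂ Y] {Λ : Type*} [AddCommGroup Λ] [Module ℂ Λ]

private theorem wpos {t : ℝ} (ht : 0 < t) : 0 < min t 1 := lt_min ht one_pos

/-- vectors `y` with `min(t,1)^d |B t l y| ≤ C N(t)` -/
private def PP (B : ℝ → Λ →ₗ[ℂ] Y →ₗ[ℂ] ℂ) (N : ℝ → ℝ) (d : ℕ) : Submodule ℂ Y where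
  carrier := {y | ∀ l, ∃ C : ℝ, ∀ t : ℝ, 0 < t → (min t 1) ^ d * ‖B t l y‖ ≤ C * N t}
  add_mem' := by
    intro y z hy hz l
    obtain ⟨C, hC⟩ := hy l
    obtain ⟨C', hC'⟩ := hz l
    refine ⟨C + C', fun t ht => ?_⟩
    have hw := (wpos ht).le
    have h1 := hC t ht
    have h2 := hC' t ht
    have h3 : ‖B t l (y + z)‖ ≤ ‖B t l y‖ + ‖B t l z‖ := by
      rw [map_add]
      exact norm_add_le _ _
    calc (min t 1) ^ d * ‖B t l (y + z)‖ ≤ (min t 1) ^ d * (‖B t l y‖ + ‖B t l z‖) :=
          mul_le_mul_of_nonneg_left h3 (pow_nonneg hw _)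
      _ ≤ (C + C') * N t := by
          rw [mul_add, add_mul]
          exact add_le_add h1 h2
  zero_mem' := by
    intro l
    refine ⟨0, fun t ht => ?_⟩
    simp
  smul_mem' := by
    intro c y hy l
    obtain ⟨C, hC⟩ := hy l
    refine ⟨‖c‖ * C, fun t ht => ?_⟩
    have h1 := hC t ht
    rw [map_smul, norm_smul]
    calc (min t 1) ^ d * (‖c‖ * ‖B t l y‖) = ‖c‖ * ((min t 1) ^ d * ‖B t l y‖) := by ring
      _ ≤ ‖c‖ * (C * N t) := mul_le_mul_of_nonneg_left h1 (norm_nonneg _)
      _ = ‖c‖ * C * N t := by ring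

private theorem PP_mono {B : ℝ → Λ →ₗ[ℂ] Y →ₗ[ℂ] ℂ} {N N' : ℝ → ℝ} {d d' : ℕ} (hd : d ≤ d')
    (hN : ∀ t, 0 < t → 0 ≤ N t ∧ N t ≤ N' t) : PP B N d ≤ PP B N' d' := by
  intro y hy l
  obtain ⟨C, hC⟩ := hy l
  refine ⟨|C|, fun t ht => ?_⟩
  have hw := (wpos ht).le
  have h1 := hC t ht
  have h2 : (min t 1 : ℝ) ^ d' ≤ (min t 1) ^ d :=
    pow_le_pow_of_le_one hw (min_le_right _ _) hd
  calc (min t 1 : ℝ) ^ d' * ‖B t l y‖ ≤ (min t 1) ^ d * ‖B t l y‖ :=
        mul_le_mul_of_nonneg_right h2 (norm_nonneg _)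
    _ ≤ C * N t := h1
    _ ≤ |C| * N t := mul_le_mul_of_nonneg_right (le_abs_self C) (hN t ht).1
    _ ≤ |C| * N' t := mul_le_mul_of_nonneg_left (hN t ht).2 (abs_nonneg _)

private theorem expo {a : ℝ} (ha : 0 < a) {t : ℝ} (ht : 0 < t) :
    2 * a * ((min t 1) * Real.exp (t * a)) ≤
      (1 + 2 * a) * (Real.exp (t * a) - Real.exp (-(t * a))) := by
  have hW0 : 0 < min t 1 := wpos ht
  have hW1 : min t 1 ≤ 1 := min_le_right _ _
  have hWt : min t 1 ≤ t := min_le_left _ _
  generalize min t 1 = W at hW0 hW1 hWt ⊢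
  have hE : 0 < Real.exp (t * a) := Real.exp_pos _
  have h1 : Real.exp (t * a) * Real.exp (-(t * a)) = 1 := by
    rw [← Real.exp_add, add_neg_cancel, Real.exp_zero]
  have h2 : 1 + 2 * (t * a) ≤ Real.exp (t * a) ^ 2 := by
    have h := Real.add_one_le_exp (2 * (t * a))
    have e : Real.exp (t * a) ^ 2 = Real.exp (2 * (t * a)) := by
      rw [← Real.exp_nat_mul]
      norm_num
    rw [e]
    linarith
  generalize Real.exp (-(t * a)) = F at h1 ⊢
  generalize Real.exp (t * a) = E at hE h1 h2 ⊢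
  have h0 : 0 ≤ 1 + 2 * a - 2 * a * W := by nlinarith
  have h4 : 1 + 2 * a * W ≤ E ^ 2 := by nlinarith
  have h3 : (1 + 2 * a) ≤ E ^ 2 * (1 + 2 * a - 2 * a * W) := by
    have h5 := mul_le_mul_of_nonneg_right h4 h0
    have h6 : 0 ≤ 4 * a ^ 2 * W * (1 - W) :=
      mul_nonneg (by positivity) (by linarith)
    nlinarith
  have h5 : (1 + 2 * a) * F ≤ E * (1 + 2 * a - 2 * a * W) := by
    have h6 : E * ((1 + 2 * a) * F) ≤ E * (E * (1 + 2 * a - 2 * a * W)) := by
      calc E * ((1 + 2 * a) * F) = (1 + 2 * a) * (E * F) := by ring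
        _ = 1 + 2 * a := by rw [h1, mul_one]
        _ ≤ E ^ 2 * (1 + 2 * a - 2 * a * W) := h3
        _ = E * (E * (1 + 2 * a - 2 * a * W)) := by ring
    exact le_of_mul_le_mul_left h6 hE
  nlinarith

private theorem expo1 {a : ℝ} (ha : 0 < a) : ∃ C : ℝ, 0 ≤ C ∧ ∀ t : ℝ, 0 < t →
    (min t 1) * Real.exp (t * a) ≤ C * |Real.exp (t * a) - Real.exp (-(t * a))| ∧
    (min t 1) * Real.exp (-(t * a)) ≤ C * |Real.exp (t * a) - Real.exp (-(t * a))| ∧
    (min t 1) ≤ C * |Real.exp (t * a) - Real.exp (-(t * a))| ∧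
    0 < |Real.exp (t * a) - Real.exp (-(t * a))| := by
  refine ⟨(1 + 2 * a) / (2 * a), by positivity, fun t ht => ?_⟩
  have hta : 0 < t * a := mul_pos ht ha
  have h0 : Real.exp (-(t * a)) < Real.exp (t * a) := Real.exp_lt_exp.2 (by linarith)
  have h1 : 1 < Real.exp (t * a) := Real.one_lt_exp_iff.2 hta
  have hW := wpos ht
  have habs : |Real.exp (t * a) - Real.exp (-(t * a))| =
      Real.exp (t * a) - Real.exp (-(t * a)) := abs_of_pos (by linarith)
  rw [habs]
  have h2 : (min t 1) * Real.exp (t * a) ≤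
      (1 + 2 * a) / (2 * a) * (Real.exp (t * a) - Real.exp (-(t * a))) := by
    rw [div_mul_eq_mul_div, le_div_iff₀ (by positivity)]
    have := expo ha ht
    linarith
  refine ⟨h2, (mul_le_mul_of_nonneg_left h0.le hW.le).trans h2, ?_, by linarith⟩
  refine le_trans ?_ h2
  nlinarith

private theorem expo2 {a : ℝ} (ha : a ≠ 0) : ∃ C : ℝ, 0 ≤ C ∧ ∀ t : ℝ, 0 < t →
    (min t 1) * Real.exp (t * a) ≤ C * |Real.exp (t * a) - Real.exp (-(t * a))| ∧
    (min t 1) * Real.exp (-(t * a)) ≤ C * |Real.exp (t * a) - Real.exp (-(t * a))| ∧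
    (min t 1) ≤ C * |Real.exp (t * a) - Real.exp (-(t * a))| ∧
    0 < |Real.exp (t * a) - Real.exp (-(t * a))| := by
  rcases lt_or_gt_of_ne ha with h | h
  · obtain ⟨C, hC, h1⟩ := expo1 (a := -a) (by linarith)
    refine ⟨C, hC, fun t ht => ?_⟩
    have h2 := h1 t ht
    have e : t * -a = -(t * a) := by ring
    rw [e, neg_neg, abs_sub_comm] at h2
    exact ⟨h2.2.1, h2.1, h2.2.2.1, h2.2.2.2⟩
  · exact expo1 h

private theorem offstep {h : Fin n → ℝ} {L R : Fin n → Fin n → Module.End ℂ Y}
    {ZΛ : Fin n → Fin n → Module.End ℂ Λ} {B : ℝ → Λ →ₗ[ℂ] Y →ₗ[ℂ] ℂ}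
    (hs : RadSys h L R ZΛ B) {N : ℝ → ℝ} {d : ℕ} {i j : Fin n} (hij : i ≠ j) {y : Y}
    (hy : y ∈ PP B N d) (hz : Zo L R i j y ∈ PP B N d) :
    L i j y ∈ PP B N (d + 1) ∧ R j i y ∈ PP B N (d + 1) := by
  obtain ⟨C, hC0, hC⟩ := expo2 (sub_ne_zero.2 (hs.reg i j hij))
  have key : ∀ (u : Y) (x : ℝ → ℝ),
      (∀ t, 0 < t → 0 ≤ x t ∧ (min t 1) * x t ≤
        C * |Real.exp (t * (h i - h j)) - Real.exp (-(t * (h i - h j)))|) →
      (∀ t l, 0 < t →
        ((Real.exp (t * (h i - h j)) - Real.exp (-(t * (h i - h j))) : ℝ) : ℂ) * B t l u =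
          ((x t : ℝ) : ℂ) * B t l (Zo L R i j y) - B t (ZΛ i j l) y) →
      u ∈ PP B N (d + 1) := by
    intro u x hx hu l
    obtain ⟨C1, h1⟩ := hz l
    obtain ⟨C2, h2⟩ := hy (ZΛ i j l)
    refine ⟨C * (C1 + C2), fun t ht => ?_⟩
    have h1' := h1 t ht
    have h2' := h2 t ht
    obtain ⟨hx0, hx1⟩ := hx t ht
    obtain ⟨-, -, hc3, hc4⟩ := hC t ht
    have hW := wpos ht
    have e := hu t l ht
    have e1 : |Real.exp (t * (h i - h j)) - Real.exp (-(t * (h i - h j)))| * ‖B t l u‖ ≤
        x t * ‖B t l (Zo L R i j y)‖ + ‖B t (ZΛ i j l) y‖ := by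
      have e2 : ‖((Real.exp (t * (h i - h j)) - Real.exp (-(t * (h i - h j))) : ℝ) : ℂ) *
          B t l u‖ = |Real.exp (t * (h i - h j)) - Real.exp (-(t * (h i - h j)))| *
            ‖B t l u‖ := by
        rw [norm_mul, Complex.norm_real, Real.norm_eq_abs]
      rw [← e2, e]
      refine (norm_sub_le _ _).trans ?_
      rw [norm_mul, Complex.norm_real, Real.norm_eq_abs, abs_of_nonneg hx0]
    generalize |Real.exp (t * (h i - h j)) - Real.exp (-(t * (h i - h j)))| = D at *
    generalize ‖B t l u‖ = b at *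
    have hz0 : 0 ≤ ‖B t l (Zo L R i j y)‖ := norm_nonneg _
    have hy0 : 0 ≤ ‖B t (ZΛ i j l) y‖ := norm_nonneg _
    generalize ‖B t l (Zo L R i j y)‖ = p at *
    generalize ‖B t (ZΛ i j l) y‖ = q at *
    generalize min t 1 = W at *
    have e3 : W * b ≤ C * (p + q) := by
      have e4 : D * (W * b) ≤ D * (C * (p + q)) := by
        calc D * (W * b) = W * (D * b) := by ring
          _ ≤ W * (x t * p + q) := mul_le_mul_of_nonneg_left e1 hW.le
          _ = (W * x t) * p + W * q := by ring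
          _ ≤ (C * D) * p + (C * D) * q :=
            add_le_add (mul_le_mul_of_nonneg_right hx1 hz0) (mul_le_mul_of_nonneg_right hc3 hy0)
          _ = D * (C * (p + q)) := by ring
      exact le_of_mul_le_mul_left e4 hc4
    calc W ^ (d + 1) * b = W ^ d * (W * b) := by ring
      _ ≤ W ^ d * (C * (p + q)) := mul_le_mul_of_nonneg_left e3 (pow_nonneg hW.le _)
      _ = C * (W ^ d * p + W ^ d * q) := by ring
      _ ≤ C * (C1 * N t + C2 * N t) :=
        mul_le_mul_of_nonneg_left (add_le_add h1' h2') hC0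
      _ = C * (C1 + C2) * N t := by ring
  constructor
  · refine key _ (fun t => Real.exp (t * (h i - h j)))
      (fun t ht => ⟨(Real.exp_pos _).le, (hC t ht).1⟩) ?_
    intro t l ht
    have hr := hs.rad t l y i j hij
    rw [← hr, map_sub, map_smul, map_smul, Zo, LinearMap.sub_apply, map_sub]
    simp only [smul_eq_mul]
    push_cast
    ring
  · refine key _ (fun t => Real.exp (-(t * (h i - h j))))
      (fun t ht => ⟨(Real.exp_pos _).le, (hC t ht).2.1⟩) ?_
    intro t l ht
    have hr := hs.rad t l y i j hij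
    rw [← hr, map_sub, map_smul, map_smul, Zo, LinearMap.sub_apply, map_sub]
    simp only [smul_eq_mul]
    push_cast
    ring

/-- words of length `d` applied to `V0` -/
private def FF (L R : Fin n → Fin n → Module.End ℂ Y) (V0 : Submodule ℂ Y) :
    ℕ → Submodule ℂ Y
  | 0 => V0
  | d + 1 => ⨆ x : Lt n, (FF L R V0 d).map (lop L R x)

private theorem FF_lop {L R : Fin n → Fin n → Module.End ℂ Y} {V0 : Submodule ℂ Y} {d : ℕ}
    {y : Y} (hy : y ∈ FF L R V0 d) (x : Lt n) : lop L R x y ∈ FF L R V0 (d + 1) :=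
  Submodule.mem_iSup_of_mem x (Submodule.mem_map_of_mem hy)

private theorem FF_L {L R : Fin n → Fin n → Module.End ℂ Y} {V0 : Submodule ℂ Y} {d : ℕ}
    {y : Y} (hy : y ∈ FF L R V0 d) (i j : Fin n) : L i j y ∈ FF L R V0 (d + 1) :=
  FF_lop hy (true, i, j)

private theorem FF_R {L R : Fin n → Fin n → Module.End ℂ Y} {V0 : Submodule ℂ Y} {d : ℕ}
    {y : Y} (hy : y ∈ FF L R V0 d) (i j : Fin n) : R i j y ∈ FF L R V0 (d + 1) :=
  FF_lop hy (false, i, j)

private theorem FF_le {L R : Fin n → Fin n → Module.End ℂ Y} {V0 : Submodule ℂ Y} {d : ℕ}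
    {S : Submodule ℂ Y} (h : ∀ x, ∀ y ∈ FF L R V0 d, lop L R x y ∈ S) :
    FF L R V0 (d + 1) ≤ S :=
  iSup_le fun x => Submodule.map_le_iff_le_comap.2 fun y hy => h x y hy

private theorem FF_Zo {L R : Fin n → Fin n → Module.End ℂ Y} (hg : GG L R)
    {V0 : Submodule ℂ Y} (hV : ∀ i j, ∀ v ∈ V0, Zo L R i j v ∈ V0) :
    ∀ (d : ℕ) (i j : Fin n), ∀ y ∈ FF L R V0 d, Zo L R i j y ∈ FF L R V0 d := by
  intro d
  induction d with
  | zero => exact hV
  | succ d ih =>
    intro i j
    have h1 : FF L R V0 (d + 1) ≤ (FF L R V0 (d + 1)).comap (Zo L R i j) := by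
      refine FF_le fun x y hy => ?_
      obtain ⟨b, k, l⟩ := x
      show Zo L R i j (lop L R (b, k, l) y) ∈ FF L R V0 (d + 1)
      cases b
      · show Zo L R i j (R k l y) ∈ FF L R V0 (d + 1)
        have e1 : L i j (R k l y) = R k l (L i j y) :=
          congrArg (fun f : Module.End ℂ Y => f y) (hg.LR i j k l)
        have e2 : R j i (R k l y) - R k l (R j i y) =
            ((if i = k then R j l else 0) - (if j = l then R k i else 0) :
              Module.End ℂ Y) y :=
          congrArg (fun f : Module.End ℂ Y => f y) (hg.RR j i k l)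
        have e : Zo L R i j (R k l y) = R k l (Zo L R i j y) -
            ((if i = k then R j l else 0) - (if j = l then R k i else 0) :
              Module.End ℂ Y) y := by
          rw [← e2]
          show L i j (R k l y) - R j i (R k l y) = R k l (L i j y - R j i y) - _
          rw [e1, map_sub]
          abel
        rw [e]
        refine Submodule.sub_mem _ (FF_R (ih i j y hy) k l) ?_
        rw [LinearMap.sub_apply]
        refine Submodule.sub_mem _ ?_ ?_
        · split_ifs
          · exact FF_R hy _ _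
          · exact Submodule.zero_mem _
        · split_ifs
          · exact FF_R hy _ _
          · exact Submodule.zero_mem _
      · show Zo L R i j (L k l y) ∈ FF L R V0 (d + 1)
        have e1 : L k l (R j i y) = R j i (L k l y) :=
          congrArg (fun f : Module.End ℂ Y => f y) (hg.LR k l j i)
        have e2 : L i j (L k l y) - L k l (L i j y) =
            ((if j = k then L i l else 0) - (if i = l then L k j else 0) :
              Module.End ℂ Y) y :=
          congrArg (fun f : Module.End ℂ Y => f y) (hg.LL i j k l)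
        have e : Zo L R i j (L k l y) = L k l (Zo L R i j y) +
            ((if j = k then L i l else 0) - (if i = l then L k j else 0) :
              Module.End ℂ Y) y := by
          rw [← e2]
          show L i j (L k l y) - R j i (L k l y) = L k l (L i j y - R j i y) + _
          rw [← e1, map_sub]
          abel
        rw [e]
        refine Submodule.add_mem _ (FF_L (ih i j y hy) k l) ?_
        rw [LinearMap.sub_apply]
        refine Submodule.sub_mem _ ?_ ?_
        · split_ifs
          · exact FF_L hy _ _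
          · exact Submodule.zero_mem _
        · split_ifs
          · exact FF_L hy _ _
          · exact Submodule.zero_mem _
    intro y hy
    exact h1 hy

private theorem diag_comm {L R : Fin n → Fin n → Module.End ℂ Y} (hg : GG L R) (x x' : Lt n)
    (hx : x.2.1 = x.2.2) : ∃ c : ℂ, ∀ y : Y,
      lop L R x (lop L R x' y) = lop L R x' (lop L R x y) + c • lop L R x' y := by
  obtain ⟨b, i, i'⟩ := x
  obtain ⟨b', k, l⟩ := x'
  simp only at hx
  subst hx
  have hL : ∀ y : Y, L i i (L k l y) - L k l (L i i y) =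
      ((if i = k then L i l else 0) - (if i = l then L k i else 0) : Module.End ℂ Y) y :=
    fun y => congrArg (fun f : Module.End ℂ Y => f y) (hg.LL i i k l)
  have hR : ∀ y : Y, R i i (R k l y) - R k l (R i i y) =
      ((if i = k then R i l else 0) - (if i = l then R k i else 0) : Module.End ℂ Y) y :=
    fun y => congrArg (fun f : Module.End ℂ Y => f y) (hg.RR i i k l)
  have hLR : ∀ y : Y, L i i (R k l y) = R k l (L i i y) :=
    fun y => congrArg (fun f : Module.End ℂ Y => f y) (hg.LR i i k l)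
  have hRL : ∀ y : Y, L k l (R i i y) = R i i (L k l y) :=
    fun y => congrArg (fun f : Module.End ℂ Y => f y) (hg.LR k l i i)
  cases b <;> cases b'
  · refine ⟨(if i = k then 1 else 0) - (if i = l then 1 else 0), fun y => ?_⟩
    show R i i (R k l y) = R k l (R i i y) + _ • R k l y
    rw [← sub_eq_iff_eq_add', hR]
    by_cases h1 : i = k <;> by_cases h2 : i = l
    · subst h1
      subst h2
      simp
    · subst h1
      simp [h2]
    · subst h2
      simp [h1]
    · simp [h1, h2]
  · refine ⟨0, fun y => ?_⟩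
    show R i i (L k l y) = L k l (R i i y) + (0 : ℂ) • L k l y
    rw [zero_smul, add_zero, hRL]
  · refine ⟨0, fun y => ?_⟩
    show L i i (R k l y) = R k l (L i i y) + (0 : ℂ) • R k l y
    rw [zero_smul, add_zero, hLR]
  · refine ⟨(if i = k then 1 else 0) - (if i = l then 1 else 0), fun y => ?_⟩
    show L i i (L k l y) = L k l (L i i y) + _ • L k l y
    rw [← sub_eq_iff_eq_add', hL]
    by_cases h1 : i = k <;> by_cases h2 : i = l
    · subst h1
      subst h2
      simp
    · subst h1
      simp [h2]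
    · subst h2
      simp [h1]
    · simp [h1, h2]

/-- words of length `d - 1`, and words of length `d` which begin with an off-diagonal letter -/
private def OP (L R : Fin n → Fin n → Module.End ℂ Y) (V0 : Submodule ℂ Y) :
    ℕ → Submodule ℂ Y
  | 0 => ⊥
  | d + 1 => FF L R V0 d ⊔ ⨆ x : {x : Lt n // x.2.1 ≠ x.2.2}, (FF L R V0 d).map (lop L R x.1)

private theorem OP_off {L R : Fin n → Fin n → Module.End ℂ Y} {V0 : Submodule ℂ Y} {d : ℕ}
    {y : Y} (hy : y ∈ FF L R V0 d) (x : Lt n) (hx : x.2.1 ≠ x.2.2) :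
    lop L R x y ∈ OP L R V0 (d + 1) :=
  Submodule.mem_sup_right (Submodule.mem_iSup_of_mem (⟨x, hx⟩ : {x : Lt n // x.2.1 ≠ x.2.2})
    (Submodule.mem_map_of_mem hy))

private theorem OP_FF {L R : Fin n → Fin n → Module.End ℂ Y} {V0 : Submodule ℂ Y} {d : ℕ}
    {y : Y} (hy : y ∈ FF L R V0 d) : y ∈ OP L R V0 (d + 1) :=
  Submodule.mem_sup_left hy

private theorem OP_le {L R : Fin n → Fin n → Module.End ℂ Y} {V0 : Submodule ℂ Y} {d : ℕ}
    {S : Submodule ℂ Y} (h1 : FF L R V0 d ≤ S)
    (h : ∀ x : Lt n, x.2.1 ≠ x.2.2 → ∀ y ∈ FF L R V0 d, lop L R x y ∈ S) :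
    OP L R V0 (d + 1) ≤ S :=
  sup_le h1 (iSup_le fun x => Submodule.map_le_iff_le_comap.2 fun y hy => h x.1 x.2 y hy)

private theorem OP_diag {L R : Fin n → Fin n → Module.End ℂ Y} (hg : GG L R)
    {V0 : Submodule ℂ Y} {d : ℕ} {y : Y} (hy : y ∈ OP L R V0 d) (x : Lt n)
    (hx : x.2.1 = x.2.2) : lop L R x y ∈ OP L R V0 (d + 1) := by
  cases d with
  | zero =>
    have h0 : y = 0 := (Submodule.mem_bot ℂ).1 hy
    rw [h0, map_zero]
    exact Submodule.zero_mem _
  | succ d =>
    have h1 : OP L R V0 (d + 1) ≤ (OP L R V0 (d + 1 + 1)).comap (lop L R x) := by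
      refine OP_le (fun z hz => ?_) fun x' hx' z hz => ?_
      · exact OP_FF (FF_lop hz x)
      · show lop L R x (lop L R x' z) ∈ OP L R V0 (d + 1 + 1)
        obtain ⟨c, hc⟩ := diag_comm hg x x' hx
        rw [hc]
        refine Submodule.add_mem _ (OP_off (FF_lop hz x) x' hx') ?_
        exact Submodule.smul_mem _ _ (OP_FF (FF_lop hz x'))
    exact h1 hy

private theorem wd_FF {L R : Fin n → Fin n → Module.End ℂ Y} {V0 : Submodule ℂ Y} {v : Y}
    (hv : v ∈ V0) : ∀ w : List (Lt n), wd L R w v ∈ FF L R V0 w.length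
  | [] => hv
  | x :: w => FF_lop (wd_FF hv w) x

private theorem wd_OP {L R : Fin n → Fin n → Module.End ℂ Y} (hg : GG L R)
    {V0 : Submodule ℂ Y} {v : Y} (hv : v ∈ V0) :
    ∀ w : List (Lt n), offd w → wd L R w v ∈ OP L R V0 w.length := by
  intro w
  induction w with
  | nil =>
    rintro ⟨l, hl, -⟩
    exact absurd hl List.not_mem_nil
  | cons x w ih =>
    intro hw
    by_cases hx : x.2.1 = x.2.2
    · have h1 : offd w := by
        obtain ⟨l, hl, hl'⟩ := hw
        rcases List.mem_cons.1 hl with rfl | hl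
        · exact absurd hx hl'
        · exact ⟨l, hl, hl'⟩
      exact OP_diag hg (ih h1) x hx
    · exact OP_off (wd_FF hv w) x hx

/-! ### monomials -/

private theorem ofFn_mul {M : Type*} [Monoid M] : ∀ {k : ℕ} (f g : Fin k → M),
    (∀ i j, Commute (f i) (g j)) →
      (List.ofFn fun i => f i * g i).prod = (List.ofFn f).prod * (List.ofFn g).prod
  | 0, f, g, _ => by simp
  | k + 1, f, g, h => by
    rw [List.ofFn_succ, List.ofFn_succ, List.ofFn_succ, List.prod_cons, List.prod_cons,
      List.prod_cons, ofFn_mul (fun i => f i.succ) (fun i => g i.succ) (fun i j => h _ _)]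
    have hc : Commute (List.ofFn fun i : Fin k => f i.succ).prod (g 0) := by
      apply Commute.list_prod_left
      intro x hx
      rw [List.mem_ofFn] at hx
      obtain ⟨i, rfl⟩ := hx
      exact h _ _
    rw [mul_assoc, mul_assoc, ← mul_assoc (g 0), ← hc.eq, mul_assoc]

private theorem ofFn_single {M : Type*} [Monoid M] : ∀ {k : ℕ} (i : Fin k) (x : M),
    (List.ofFn fun j => if j = i then x else 1).prod = x
  | 0, i, _ => i.elim0
  | k + 1, i, x => by
    rw [List.ofFn_succ, List.prod_cons]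
    refine Fin.cases ?_ (fun i => ?_) i
    · rw [if_pos rfl]
      have h1 : (List.ofFn fun j : Fin k => if j.succ = (0 : Fin (k + 1)) then x else 1).prod
          = 1 := by
        apply List.prod_eq_one
        intro y hy
        rw [List.mem_ofFn] at hy
        obtain ⟨j, rfl⟩ := hy
        exact if_neg (Fin.succ_ne_zero j)
      rw [h1, mul_one]
    · rw [if_neg (Fin.succ_ne_zero i).symm, one_mul]
      simp only [Fin.succ_inj]
      exact ofFn_single i x

private theorem comm_LL {L R : Fin n → Fin n → Module.End ℂ Y} (hg : GG L R) (i j : Fin n) :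
    Commute (L i i) (L j j) := by
  have h := hg.LL i i j j
  have h1 : ((if i = j then L i j else 0) - (if i = j then L j i else 0) :
      Module.End ℂ Y) = 0 := by
    by_cases h2 : i = j
    · subst h2
      simp
    · simp [h2]
  rw [h1] at h
  exact sub_eq_zero.1 h

private theorem mon_mul {L R : Fin n → Fin n → Module.End ℂ Y} (hg : GG L R) (i : Fin n)
    (m : Fin n → ℕ) : L i i * mon L m = mon L (fun j => (if j = i then 1 else 0) + m j) := by
  unfold mon
  have h1 : (fun j => L j j ^ ((if j = i then 1 else 0) + m j)) =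
      fun j => (if j = i then L i i else 1) * L j j ^ m j := by
    funext j
    rw [pow_add]
    by_cases h2 : j = i
    · subst h2
      simp
    · simp [h2]
  rw [h1, ofFn_mul, ofFn_single]
  intro a b
  by_cases h2 : a = i
  · simp only [h2, if_true]
    exact (comm_LL hg i b).pow_right _
  · simp only [h2, if_false]
    exact Commute.one_left _

private theorem mon_R {L R : Fin n → Fin n → Module.End ℂ Y} (hg : GG L R) (i : Fin n)
    (m : Fin n → ℕ) : R i i * mon L m = mon L m * R i i := by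
  have h1 : Commute (R i i) (mon L m) := by
    apply Commute.list_prod_right
    intro x hx
    rw [List.mem_ofFn] at hx
    obtain ⟨j, rfl⟩ := hx
    exact Commute.pow_right (hg.LR j j i i).symm _
  exact h1

private theorem mon_FF {L R : Fin n → Fin n → Module.End ℂ Y} {V0 : Submodule ℂ Y} {v : Y}
    (hv : v ∈ V0) (m : Fin n → ℕ) : mon L m v ∈ FF L R V0 (∑ i, m i) := by
  have h1 : ∀ (i : Fin n) (k d : ℕ) (y : Y), y ∈ FF L R V0 d →
      (L i i ^ k) y ∈ FF L R V0 (k + d) := by
    intro i k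
    induction k with
    | zero =>
      intro d y hy
      rw [Nat.zero_add]
      exact hy
    | succ k ih =>
      intro d y hy
      have h2 := ih (d + 1) _ (FF_L (i := i) (j := i) hy)
      rw [pow_succ]
      have h3 : k + 1 + d = k + (d + 1) := by omega
      rw [h3]
      exact h2
  have h2 : ∀ l : List (Fin n), (l.map fun i => L i i ^ m i).prod v ∈
      FF L R V0 (l.map m).sum := by
    intro l
    induction l with
    | nil => exact hv
    | cons i l ih =>
      simp only [List.map_cons, List.prod_cons, List.sum_cons]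
      exact h1 i (m i) _ _ ih
  have h3 := h2 (List.finRange n)
  have h4 : ((List.finRange n).map m).sum = ∑ i, m i := by
    rw [Fin.sum_univ_def]
  rw [h4, ← List.ofFn_eq_map] at h3
  exact h3

/-- monomials of degree `d` applied to `V0` -/
private def MM (L : Fin n → Fin n → Module.End ℂ Y) (V0 : Submodule ℂ Y) (d : ℕ) :
    Submodule ℂ Y :=
  Submodule.span ℂ {y | ∃ (m : Fin n → ℕ) (v : Y), v ∈ V0 ∧ ∑ i, m i = d ∧ y = mon L m v}

private theorem FF_MM {L R : Fin n → Fin n → Module.End ℂ Y} (hg : GG L R)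
    {V0 : Submodule ℂ Y} (hV : ∀ i j, ∀ v ∈ V0, Zo L R i j v ∈ V0) :
    ∀ d, FF L R V0 d ≤ MM L V0 d ⊔ OP L R V0 d := by
  intro d
  induction d with
  | zero =>
    intro v hv
    refine Submodule.mem_sup_left (Submodule.subset_span ⟨fun _ => 0, v, hv, by simp, ?_⟩)
    have h1 : mon L (fun _ => 0) = 1 := by
      unfold mon
      apply List.prod_eq_one
      intro y hy
      rw [List.mem_ofFn] at hy
      obtain ⟨j, rfl⟩ := hy
      exact pow_zero _
    rw [h1]
    rfl
  | succ d ih =>
    refine FF_le fun x y hy => ?_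
    by_cases hx : x.2.1 = x.2.2
    · have hLm : ∀ (i : Fin n) (m : Fin n → ℕ) (v : Y), v ∈ V0 → ∑ i, m i = d →
          L i i (mon L m v) ∈ MM L V0 (d + 1) := by
        intro i m v hv hm
        refine Submodule.subset_span ⟨fun j => (if j = i then 1 else 0) + m j, v, hv, ?_, ?_⟩
        · rw [Finset.sum_add_distrib, hm]
          simp [add_comm]
        · rw [← mon_mul hg]
          rfl
      have h1 : MM L V0 d ⊔ OP L R V0 d ≤
          (MM L V0 (d + 1) ⊔ OP L R V0 (d + 1)).comap (lop L R x) := by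
        refine sup_le ?_ ?_
        · refine Submodule.span_le.2 ?_
          rintro _ ⟨m, v, hv, hm, rfl⟩
          show lop L R x (mon L m v) ∈ MM L V0 (d + 1) ⊔ OP L R V0 (d + 1)
          obtain ⟨b, i, i'⟩ := x
          simp only at hx
          subst hx
          cases b
          · show R i i (mon L m v) ∈ MM L V0 (d + 1) ⊔ OP L R V0 (d + 1)
            have e1 : R i i (mon L m v) = mon L m (R i i v) :=
              congrArg (fun f : Module.End ℂ Y => f v) (mon_R hg i m)
            have e2 : mon L m (L i i v) = L i i (mon L m v) := by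
              have h3 : Commute (mon L m) (L i i) := by
                apply Commute.list_prod_left
                intro z hz
                rw [List.mem_ofFn] at hz
                obtain ⟨j, rfl⟩ := hz
                exact (comm_LL hg j i).pow_left _
              exact congrArg (fun f : Module.End ℂ Y => f v) h3.eq
            have e3 : R i i v = L i i v - Zo L R i i v := by
              show R i i v = L i i v - (L i i v - R i i v)
              abel
            rw [e1, e3, map_sub, e2]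
            refine Submodule.sub_mem _ (Submodule.mem_sup_left (hLm i m v hv hm)) ?_
            refine Submodule.mem_sup_right (OP_FF ?_)
            rw [← hm]
            exact mon_FF (hV i i v hv) m
          · exact Submodule.mem_sup_left (hLm i m v hv hm)
        · intro z hz
          exact Submodule.mem_sup_right (OP_diag hg hz x hx)
      exact h1 (ih hy)
    · exact Submodule.mem_sup_right (OP_off hy x hx)

/-! ### the sums -/

private theorem NN_nonneg (L : Fin n → Fin n → Module.End ℂ Y) (B : ℝ → Λ →ₗ[ℂ] Y →ₗ[ℂ] ℂ)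
    {α β : Type*} [Fintype α] [Fintype β] (l : α → Λ) (v : β → Y) (e : ℕ) {t : ℝ}
    (ht : 0 < t) : 0 ≤ NN L B l v e t := by
  refine Finset.sum_nonneg fun a _ => Finset.sum_nonneg fun b _ => Finset.sum_nonneg fun m _ => ?_
  exact mul_nonneg (pow_nonneg (wpos ht).le _) (norm_nonneg _)

private theorem NN_mono (L : Fin n → Fin n → Module.End ℂ Y) (B : ℝ → Λ →ₗ[ℂ] Y →ₗ[ℂ] ℂ)
    {α β : Type*} [Fintype α] [Fintype β] (l : α → Λ) (v : β → Y) {e e' : ℕ} (he : e ≤ e')
    {t : ℝ} (ht : 0 < t) : NN L B l v e t ≤ NN L B l v e' t := by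
  refine Finset.sum_le_sum fun a _ => Finset.sum_le_sum fun b _ => ?_
  refine Finset.sum_le_sum_of_subset_of_nonneg ?_ fun m _ _ =>
    mul_nonneg (pow_nonneg (wpos ht).le _) (norm_nonneg _)
  intro m hm
  simp only [mis, Finset.mem_filter, Fintype.mem_piFinset, Finset.mem_range] at hm ⊢
  exact ⟨fun i => lt_of_lt_of_le (hm.1 i) (by omega), hm.2.trans he⟩

private theorem NN_term (L : Fin n → Fin n → Module.End ℂ Y) (B : ℝ → Λ →ₗ[ℂ] Y →ₗ[ℂ] ℂ)
    {α β : Type*} [Fintype α] [Fintype β] (l : α → Λ) (v : β → Y) (m : Fin n → ℕ) (a : α)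
    (b : β) {t : ℝ} (ht : 0 < t) :
    (min t 1) ^ (∑ i, m i) * ‖B t (l a) (mon L m (v b))‖ ≤ NN L B l v (∑ i, m i) t := by
  have h0 : ∀ (a : α) (b : β) (m : Fin n → ℕ),
      0 ≤ (min t 1) ^ (∑ i, m i) * ‖B t (l a) (mon L m (v b))‖ := fun a b m =>
    mul_nonneg (pow_nonneg (wpos ht).le _) (norm_nonneg _)
  have hm : m ∈ mis n (∑ i, m i) := by
    simp only [mis, Finset.mem_filter, Fintype.mem_piFinset, Finset.mem_range, le_refl, and_true]
    intro i
    exact Nat.lt_succ_of_le (Finset.single_le_sum (f := m) (fun _ _ => Nat.zero_le _)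
      (Finset.mem_univ i))
  refine le_trans ?_ (Finset.single_le_sum
    (f := fun a => ∑ b, ∑ m ∈ mis n (∑ i, m i), (min t 1) ^ (∑ i, m i) *
      ‖B t (l a) (mon L m (v b))‖)
    (fun a _ => Finset.sum_nonneg fun b _ => Finset.sum_nonneg fun m _ => h0 a b m)
    (Finset.mem_univ a))
  refine le_trans ?_ (Finset.single_le_sum
    (f := fun b => ∑ m ∈ mis n (∑ i, m i), (min t 1) ^ (∑ i, m i) *
      ‖B t (l a) (mon L m (v b))‖)
    (fun b _ => Finset.sum_nonneg fun m _ => h0 a b m) (Finset.mem_univ b))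
  exact Finset.single_le_sum
    (f := fun m : Fin n → ℕ => (min t 1) ^ (∑ i, m i) * ‖B t (l a) (mon L m (v b))‖)
    (fun m _ => h0 a b m) hm

private theorem MM_PP {L : Fin n → Fin n → Module.End ℂ Y} {B : ℝ → Λ →ₗ[ℂ] Y →ₗ[ℂ] ℂ}
    {V0 : Submodule ℂ Y} {α β : Type*} [Fintype α] [Fintype β] (bl : Module.Basis α ℂ Λ)
    (bv : Module.Basis β ℂ V0) (d : ℕ) :
    MM L V0 d ≤ PP B (NN L B bl (fun b => (bv b : Y)) d) d := by
  refine Submodule.span_le.2 ?_
  rintro _ ⟨m, v, hv, rfl, rfl⟩
  have h1 : v = ∑ b, bv.repr ⟨v, hv⟩ b • (bv b : Y) := by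
    have h2 := congrArg (Submodule.subtype V0) (bv.sum_repr ⟨v, hv⟩)
    rw [map_sum] at h2
    simpa using h2.symm
  rw [h1, map_sum]
  refine Submodule.sum_mem _ fun b _ => ?_
  rw [map_smul]
  refine Submodule.smul_mem _ _ ?_
  intro l
  refine ⟨∑ a, ‖bl.repr l a‖, fun t ht => ?_⟩
  have h2 : B t l (mon L m (bv b : Y)) =
      ∑ a, bl.repr l a • B t (bl a) (mon L m (bv b : Y)) := by
    conv_lhs => rw [← bl.sum_repr l]
    rw [map_sum, LinearMap.sum_apply]
    refine Finset.sum_congr rfl fun a _ => ?_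
    rw [map_smul, LinearMap.smul_apply]
  rw [h2, Finset.sum_mul]
  calc (min t 1) ^ (∑ i, m i) * ‖∑ a, bl.repr l a • B t (bl a) (mon L m (bv b : Y))‖
      ≤ (min t 1) ^ (∑ i, m i) * ∑ a, ‖bl.repr l a • B t (bl a) (mon L m (bv b : Y))‖ :=
        mul_le_mul_of_nonneg_left (norm_sum_le _ _) (pow_nonneg (wpos ht).le _)
    _ = ∑ a, (min t 1) ^ (∑ i, m i) * ‖bl.repr l a • B t (bl a) (mon L m (bv b : Y))‖ :=
        Finset.mul_sum _ _ _
    _ ≤ ∑ a, ‖bl.repr l a‖ * NN L B bl (fun b => (bv b : Y)) (∑ i, m i) t := by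
        refine Finset.sum_le_sum fun a _ => ?_
        rw [norm_smul]
        have h3 := NN_term L B bl (fun b => (bv b : Y)) m a b ht
        calc (min t 1) ^ (∑ i, m i) * (‖bl.repr l a‖ * ‖B t (bl a) (mon L m (bv b : Y))‖)
            = ‖bl.repr l a‖ * ((min t 1) ^ (∑ i, m i) * ‖B t (bl a) (mon L m (bv b : Y))‖) := by
              ring
          _ ≤ _ := mul_le_mul_of_nonneg_left h3 (norm_nonneg _)

private theorem main_PP {h : Fin n → ℝ} {L R : Fin n → Fin n → Module.End ℂ Y}
    {ZΛ : Fin n → Fin n → Module.End ℂ Λ} {B : ℝ → Λ →ₗ[ℂ] Y →ₗ[ℂ] ℂ}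
    (hs : RadSys h L R ZΛ B) {V0 : Submodule ℂ Y} (hV : ∀ i j, ∀ v ∈ V0, Zo L R i j v ∈ V0)
    {α β : Type*} [Fintype α] [Fintype β] (bl : Module.Basis α ℂ Λ) (bv : Module.Basis β ℂ V0) :
    ∀ d, FF L R V0 d ≤ PP B (NN L B bl (fun b => (bv b : Y)) d) d ∧
      OP L R V0 (d + 1) ≤ PP B (NN L B bl (fun b => (bv b : Y)) d) (d + 1) := by
  have hoff : ∀ d, FF L R V0 d ≤ PP B (NN L B bl (fun b => (bv b : Y)) d) d →
      OP L R V0 (d + 1) ≤ PP B (NN L B bl (fun b => (bv b : Y)) d) (d + 1) := by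
    intro d hd
    refine OP_le (hd.trans (PP_mono (Nat.le_succ d) fun t ht =>
      ⟨NN_nonneg L B bl _ d ht, le_refl _⟩)) ?_
    intro x hx y hy
    obtain ⟨b, i, j⟩ := x
    cases b
    · exact (offstep hs (Ne.symm hx) (hd hy) (hd (FF_Zo hs.gg hV d _ _ y hy))).2
    · exact (offstep hs hx (hd hy) (hd (FF_Zo hs.gg hV d _ _ y hy))).1
  have h1 : ∀ d, FF L R V0 d ≤ PP B (NN L B bl (fun b => (bv b : Y)) d) d := by
    intro d
    induction d with
    | zero =>
      refine (FF_MM hs.gg hV 0).trans (sup_le (MM_PP bl bv 0) ?_)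
      exact bot_le
    | succ d ih =>
      refine (FF_MM hs.gg hV (d + 1)).trans (sup_le (MM_PP bl bv (d + 1)) ?_)
      refine (hoff d ih).trans (PP_mono le_rfl fun t ht => ?_)
      exact ⟨NN_nonneg L B bl _ d ht, NN_mono L B bl _ (Nat.le_succ d) ht⟩
  exact fun d => ⟨h1 d, hoff d (h1 d)⟩

open Classical in
theorem wred {h : Fin n → ℝ} {L R : Fin n → Fin n → Module.End ℂ Y}
    {ZΛ : Fin n → Fin n → Module.End ℂ Λ} {B : ℝ → Λ →ₗ[ℂ] Y →ₗ[ℂ] ℂ}
    (hs : RadSys h L R ZΛ B) {V0 : Submodule ℂ Y} (hV : ∀ i j, ∀ v ∈ V0, Zo L R i j v ∈ V0)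
    {α β : Type*} [Fintype α] [Fintype β] (bl : Module.Basis α ℂ Λ) (bv : Module.Basis β ℂ V0)
    (w : List (Lt n)) (l : Λ) (v : Y) (hv : v ∈ V0) :
    ∃ C : ℝ, ∀ t : ℝ, 0 < t → (min t 1) ^ w.length * ‖B t l (wd L R w v)‖ ≤
      C * NN L B bl (fun b => (bv b : Y)) (if offd w then w.length - 1 else w.length) t := by
  by_cases hw : offd w
  · rw [if_pos hw]
    have h1 := wd_OP hs.gg hv w hw
    cases w with
    | nil =>
      obtain ⟨x, hx, -⟩ := hw
      exact absurd hx List.not_mem_nil
    | cons x w => exact (main_PP hs hV bl bv w.length).2 h1 l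
  · rw [if_neg hw]
    exact (main_PP hs hV bl bv w.length).1 (wd_FF hv w) l

end

end Pool.Agent.Work.MP_dd0ddf_al.CW
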