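import Pool.Agent.Work.MP_dd0ddf_al.CW.Defs
import Pool.Agent.Work.MP_dd0ddf_al.CW.Psg
import Pool.Agent.Work.MP_dd0ddf_al.CW.Mev
import Pool.Agent.Work.MP_dd0ddf_al.CW.Wred

/-!
# reduction of the top degree

PROOF. By `psg` the monomial X^m is sum_k q_k p_k, q_k homogeneous of degree |m| - k.  Apply the homomorphism `ev` of `mev`: ev(p_k) = sum_i L_ii^k.  By `HasZ`:
(sum_i L_ii^k) y = zeta_k y - sum_w c_w wd w y, w of length k with an off-diagonal letter.  So
 mon L m v = sum_k zeta_k ev(q_k) v - sum_k sum_w c_w ev(q_k) (wd w v).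
ev(q_k) is a combination of monomials mon L m', |m'| = |m| - k <= |m| - 1; mon L m' (as an operator) is wd of a word with letters (true,i,i) of length |m'|.
First sum: `wred` for a diagonal word of length |m'| <= |m|-1: (min t 1)^|m| <= (min t 1)^|m'|, NN |m'| <= NN (|m|-1).
Second sum: words of length |m'| + k = |m| with an off-diagonal letter: `wred` gives NN (|m| - 1).
-/

set_option linter.unusedSectionVars false

namespace Pool.Agent.Work.MP_dd0ddf_al.CW

open scoped Matrix.Norms.Elementwise ComplexConjugate ContDiff Topology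
open Matrix MeasureTheory Filter
open Pool.Agent.Work.MP_dd0ddf_al.AR

noncomputable section

variable {n : ℕ} {Y : Type*} [AddCommGroup Y] [Module ℂ Y] {Λ : Type*} [AddCommGroup Λ] [Module ℂ Λ]

private def dw (m : Fin n → ℕ) : List (Lt n) :=
  (List.ofFn fun i => List.replicate (m i) ((true, i, i) : Lt n)).flatten

private theorem dw_length (m : Fin n → ℕ) : (dw m).length = ∑ i, m i := by
  unfold dw
  rw [List.length_flatten, List.map_ofFn, List.sum_ofFn]
  refine Finset.sum_congr rfl fun i _ => ?_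
  show (List.replicate (m i) ((true, i, i) : Lt n)).length = m i
  exact List.length_replicate

private theorem mon_eq (L R : Fin n → Fin n → Module.End ℂ Y) (m : Fin n → ℕ) :
    mon L m = wd L R (dw m) := by
  unfold mon wd dw
  rw [List.map_flatten, List.prod_flatten, List.map_ofFn, List.map_ofFn]
  congr 1
  congr 1
  funext i
  show L i i ^ m i = ((List.replicate (m i) ((true, i, i) : Lt n)).map (lop L R)).prod
  rw [List.map_replicate, List.prod_replicate]
  rfl

private theorem wd_append (L R : Fin n → Fin n → Module.End ℂ Y) (u w : List (Lt n)) (y : Y) :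
    wd L R (u ++ w) y = wd L R u (wd L R w y) := by
  unfold wd
  rw [List.map_append, List.prod_append]
  rfl

private theorem mis_mono {e e' : ℕ} (h : e ≤ e') : mis n e ⊆ mis n e' := by
  intro m hm
  unfold mis at hm ⊢
  rw [Finset.mem_filter, Fintype.mem_piFinset] at hm ⊢
  refine ⟨fun i => ?_, hm.2.trans h⟩
  have := Finset.mem_range.1 (hm.1 i)
  exact Finset.mem_range.2 (by omega)

private theorem NN_nonneg (L : Fin n → Fin n → Module.End ℂ Y) (B : ℝ → Λ →ₗ[ℂ] Y →ₗ[ℂ] ℂ)
    {α β : Type*} [Fintype α] [Fintype β] (l : α → Λ) (v : β → Y) (e : ℕ) {t : ℝ} (ht : 0 < t) :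
    0 ≤ NN L B l v e t := by
  unfold NN
  have h0 : 0 < min t 1 := lt_min ht one_pos
  exact Finset.sum_nonneg fun a _ => Finset.sum_nonneg fun b _ => Finset.sum_nonneg fun m _ =>
    mul_nonneg (pow_nonneg h0.le _) (norm_nonneg _)

private theorem NN_mono (L : Fin n → Fin n → Module.End ℂ Y) (B : ℝ → Λ →ₗ[ℂ] Y →ₗ[ℂ] ℂ)
    {α β : Type*} [Fintype α] [Fintype β] (l : α → Λ) (v : β → Y) {e e' : ℕ} (h : e ≤ e') {t : ℝ}
    (ht : 0 < t) : NN L B l v e t ≤ NN L B l v e' t := by
  unfold NN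
  have h0 : 0 < min t 1 := lt_min ht one_pos
  exact Finset.sum_le_sum fun a _ => Finset.sum_le_sum fun b _ =>
    Finset.sum_le_sum_of_subset_of_nonneg (mis_mono h) fun m _ _ =>
      mul_nonneg (pow_nonneg h0.le _) (norm_nonneg _)

theorem tred (hn : 0 < n) {h : Fin n → ℝ} {L R : Fin n → Fin n → Module.End ℂ Y}
    {ZΛ : Fin n → Fin n → Module.End ℂ Λ} {B : ℝ → Λ →ₗ[ℂ] Y →ₗ[ℂ] ℂ}
    (hs : RadSys h L R ZΛ B) {V0 : Submodule ℂ Y} (hV : ∀ i j, ∀ v ∈ V0, Zo L R i j v ∈ V0)
    {α β : Type*} [Fintype α] [Fintype β] (bl : Module.Basis α ℂ Λ) (bv : Module.Basis β ℂ V0)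
    (m : Fin n → ℕ) (hm : n * n ≤ ∑ i, m i) (l : Λ) (v : Y) (hv : v ∈ V0) :
    ∃ C : ℝ, ∀ t : ℝ, 0 < t → (min t 1) ^ (∑ i, m i) * ‖B t l (mon L m v)‖ ≤
      C * NN L B bl (fun b => (bv b : Y)) ((∑ i, m i) - 1) t := by
  obtain ⟨d, hd⟩ : ∃ d, d = ∑ i, m i := ⟨_, rfl⟩
  rw [← hd] at hm ⊢
  have hnn : n ≤ n * n := Nat.le_mul_of_pos_left n hn
  let S : Submodule ℂ Y :=
    { carrier := {y | ∃ C : ℝ, ∀ t : ℝ, 0 < t → (min t 1) ^ d * ‖B t l y‖ ≤
        C * NN L B bl (fun b => (bv b : Y)) (d - 1) t}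
      add_mem' := by
        rintro x y ⟨C, hC⟩ ⟨C', hC'⟩
        refine ⟨C + C', fun t ht => ?_⟩
        have h0 : 0 < min t 1 := lt_min ht one_pos
        rw [map_add, add_mul]
        calc (min t 1) ^ d * ‖B t l x + B t l y‖ ≤ (min t 1) ^ d * (‖B t l x‖ + ‖B t l y‖) :=
              mul_le_mul_of_nonneg_left (norm_add_le _ _) (pow_nonneg h0.le _)
          _ = (min t 1) ^ d * ‖B t l x‖ + (min t 1) ^ d * ‖B t l y‖ := mul_add _ _ _
          _ ≤ _ := add_le_add (hC t ht) (hC' t ht)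
      zero_mem' := ⟨0, fun t ht => by simp⟩
      smul_mem' := by
        rintro c x ⟨C, hC⟩
        refine ⟨‖c‖ * C, fun t ht => ?_⟩
        rw [map_smul, norm_smul, mul_left_comm, mul_assoc]
        exact mul_le_mul_of_nonneg_left (hC t ht) (norm_nonneg c) }
  have hS : ∀ y, y ∈ S → ∃ C : ℝ, ∀ t : ℝ, 0 < t → (min t 1) ^ d * ‖B t l y‖ ≤
        C * NN L B bl (fun b => (bv b : Y)) (d - 1) t := fun y hy => hy
  apply hS
  have hw : ∀ w : List (Lt n), w.length ≤ d → (offd w ∨ w.length < d) → wd L R w v ∈ S := by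
    intro w hl ho
    obtain ⟨C, hC⟩ := wred hs hV bl bv w l v hv
    refine ⟨|C|, fun t ht => ?_⟩
    have h0 : 0 < min t 1 := lt_min ht one_pos
    have h1 : min t 1 ≤ 1 := min_le_right _ _
    have h2 : (min t 1) ^ d * ‖B t l (wd L R w v)‖ ≤ (min t 1) ^ w.length * ‖B t l (wd L R w v)‖ :=
      mul_le_mul_of_nonneg_right (pow_le_pow_of_le_one h0.le h1 hl) (norm_nonneg _)
    refine h2.trans ((hC t ht).trans ?_)
    split_ifs with hof
    · refine (mul_le_mul_of_nonneg_right (le_abs_self C) (NN_nonneg _ _ _ _ _ ht)).trans ?_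
      exact mul_le_mul_of_nonneg_left (NN_mono _ _ _ _ (by omega) ht) (abs_nonneg C)
    · have h3 : w.length < d := ho.resolve_left hof
      refine (mul_le_mul_of_nonneg_right (le_abs_self C) (NN_nonneg _ _ _ _ _ ht)).trans ?_
      exact mul_le_mul_of_nonneg_left (NN_mono _ _ _ _ (by omega) ht) (abs_nonneg C)
  obtain ⟨ev, hX, hmon⟩ := mev L R hs.gg
  have hp : ∀ (p : MvPolynomial (Fin n) ℂ) (e : ℕ), p.IsHomogeneous e → ∀ w : List (Lt n),
      (∀ m' : Fin n → ℕ, ∑ i, m' i = e → wd L R (dw m' ++ w) v ∈ S) →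
        ev p (wd L R w v) ∈ S := by
    intro p e hpe w hall
    have e1 : ev p = ∑ m' ∈ p.support, MvPolynomial.coeff m' p • mon L m' := by
      conv_lhs => rw [MvPolynomial.as_sum p]
      rw [map_sum]
      refine Finset.sum_congr rfl fun m' _ => ?_
      have e2 : MvPolynomial.monomial m' (MvPolynomial.coeff m' p) =
          MvPolynomial.coeff m' p • MvPolynomial.monomial m' (1 : ℂ) := by
        rw [MvPolynomial.smul_monomial, smul_eq_mul, mul_one]
      rw [e2, map_smul, hmon]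
    rw [e1, LinearMap.sum_apply]
    refine S.sum_mem fun m' hm' => ?_
    rw [LinearMap.smul_apply]
    refine S.smul_mem _ ?_
    rw [mon_eq L R, ← wd_append]
    refine hall m' ?_
    by_contra hne
    have h1 : MvPolynomial.coeff m' p = 0 := hpe.coeff_eq_zero (by
      rw [Finsupp.degree_eq_sum]
      exact hne)
    exact (MvPolynomial.mem_support_iff.1 hm') h1
  obtain ⟨q, hq1, hq2⟩ := psg hn (Finsupp.equivFunOnFinite.symm m) (by
    rw [hd] at hm
    exact hm)
  have hq1' : ∀ k, 1 ≤ k → k ≤ n → (q k).IsHomogeneous (d - k) := by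
    intro k hk1 hk2
    rw [hd]
    exact hq1 k hk1 hk2
  have e1 : mon L m = ev (MvPolynomial.monomial (Finsupp.equivFunOnFinite.symm m) 1) := by
    rw [hmon]
    rfl
  rw [e1, hq2, map_sum, LinearMap.sum_apply]
  refine S.sum_mem fun k hk => ?_
  rw [Finset.mem_Icc] at hk
  rw [map_mul, Module.End.mul_apply]
  obtain ⟨c, ζ, hc1, hc2⟩ := hs.hz k hk.1 hk.2
  have e2 : ev (MvPolynomial.psum (Fin n) ℂ k) v =
      ζ • v - c.sum (fun w a => a • wd L R w v) := by
    rw [eq_sub_iff_add_eq, ← hc2 v]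
    congr 1
    rw [MvPolynomial.psum, map_sum, LinearMap.sum_apply]
    refine Finset.sum_congr rfl fun i _ => ?_
    rw [map_pow, hX]
  rw [e2, map_sub, map_smul, Finsupp.sum, map_sum]
  refine S.sub_mem (S.smul_mem _ ?_) (S.sum_mem fun w hwc => ?_)
  · have h1 := hp (q k) (d - k) (hq1' k hk.1 hk.2) [] (fun m' hm' => hw _ (by
      rw [List.length_append, dw_length, hm', List.length_nil]
      omega) (Or.inr (by
      rw [List.length_append, dw_length, hm', List.length_nil]
      omega)))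
    have h2 : wd L R [] v = v := rfl
    rw [h2] at h1
    exact h1
  · rw [map_smul]
    refine S.smul_mem _ ?_
    obtain ⟨hl, ho⟩ := hc1 w hwc
    refine hp (q k) (d - k) (hq1' k hk.1 hk.2) w fun m' hm' => hw _ (by
      rw [List.length_append, dw_length, hm', hl]
      omega) (Or.inl ?_)
    obtain ⟨x, hx, hx'⟩ := ho
    exact ⟨x, List.mem_append_right _ hx, hx'⟩

end

end Pool.Agent.Work.MP_dd0ddf_al.CW
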