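import Pool.Agent.Work.MP_dd0ddf_al.CW.Defs
import Pool.Agent.Work.MP_dd0ddf_al.CW.Wred
import Pool.Agent.Work.MP_dd0ddf_al.CW.Tred

/-!
# everything is controlled by the monomials of degree < n^2

PROOF. (a) For e >= n*n: NN e t <= C_e NN (e-1) t for t > 0: NN e - NN (e-1) is the finite sum over a, b and |m| = e of (min t 1)^e |B t (bl a) (mon L m (bv b))|, apply `tred` to each
(e >= n*n), take the maximum (nonnegative) of the constants.  By induction NN e t <= C NN (n*n-1) t for every e (for e <= n*n - 1 by monotonicity in e).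
(b) `wred` and (a).
-/

set_option linter.unusedSectionVars false

namespace Pool.Agent.Work.MP_dd0ddf_al.CW

open scoped Matrix.Norms.Elementwise ComplexConjugate ContDiff Topology
open Matrix MeasureTheory Filter
open Pool.Agent.Work.MP_dd0ddf_al.AR

noncomputable section

variable {n : ℕ} {Y : Type*} [AddCommGroup Y] [Module ℂ Y] {Λ : Type*} [AddCommGroup Λ] [Module ℂ Λ]

private theorem mem_mis' {e : ℕ} {m : Fin n → ℕ} : m ∈ mis n e ↔ ∑ i, m i ≤ e := by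
  unfold mis
  rw [Finset.mem_filter, Fintype.mem_piFinset]
  refine ⟨fun h => h.2, fun h => ⟨fun i => ?_, h⟩⟩
  have : m i ≤ ∑ j, m j := Finset.single_le_sum (f := m) (fun _ _ => Nat.zero_le _) (Finset.mem_univ i)
  rw [Finset.mem_range]
  omega

private theorem term_nonneg' {L : Fin n → Fin n → Module.End ℂ Y} {B : ℝ → Λ →ₗ[ℂ] Y →ₗ[ℂ] ℂ}
    (l : Λ) (v : Y) (m : Fin n → ℕ) {t : ℝ} (ht : 0 < t) :
    0 ≤ (min t 1) ^ (∑ i, m i) * ‖B t l (mon L m v)‖ :=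
  mul_nonneg (pow_nonneg (le_min ht.le zero_le_one) _) (norm_nonneg _)

private theorem NN_nonneg' {L : Fin n → Fin n → Module.End ℂ Y} {B : ℝ → Λ →ₗ[ℂ] Y →ₗ[ℂ] ℂ}
    {α β : Type*} [Fintype α] [Fintype β] (l : α → Λ) (v : β → Y) (e : ℕ) {t : ℝ} (ht : 0 < t) :
    0 ≤ NN L B l v e t :=
  Finset.sum_nonneg fun a _ => Finset.sum_nonneg fun b _ => Finset.sum_nonneg fun m _ =>
    term_nonneg' _ _ m ht

private theorem NN_mono' {L : Fin n → Fin n → Module.End ℂ Y} {B : ℝ → Λ →ₗ[ℂ] Y →ₗ[ℂ] ℂ}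
    {α β : Type*} [Fintype α] [Fintype β] (l : α → Λ) (v : β → Y) {e e' : ℕ} (he : e ≤ e')
    {t : ℝ} (ht : 0 < t) : NN L B l v e t ≤ NN L B l v e' t := by
  unfold NN
  refine Finset.sum_le_sum fun a _ => Finset.sum_le_sum fun b _ => ?_
  refine Finset.sum_le_sum_of_subset_of_nonneg ?_ fun m _ _ => term_nonneg' _ _ m ht
  intro m hm
  rw [mem_mis'] at hm ⊢
  omega

private theorem term_le_NN' {L : Fin n → Fin n → Module.End ℂ Y} {B : ℝ → Λ →ₗ[ℂ] Y →ₗ[ℂ] ℂ}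
    {α β : Type*} [Fintype α] [Fintype β] (l : α → Λ) (v : β → Y) {e : ℕ} (a : α) (b : β)
    {m : Fin n → ℕ} (hm : ∑ i, m i ≤ e) {t : ℝ} (ht : 0 < t) :
    (min t 1) ^ (∑ i, m i) * ‖B t (l a) (mon L m (v b))‖ ≤ NN L B l v e t := by
  unfold NN
  have h1 : (min t 1) ^ (∑ i, m i) * ‖B t (l a) (mon L m (v b))‖ ≤
      ∑ m ∈ mis n e, (min t 1) ^ (∑ i, m i) * ‖B t (l a) (mon L m (v b))‖ :=
    Finset.single_le_sum (f := fun m : Fin n → ℕ =>
      (min t 1) ^ (∑ i, m i) * ‖B t (l a) (mon L m (v b))‖)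
      (fun m _ => term_nonneg' _ _ m ht) (mem_mis'.mpr hm)
  have h2 : ∑ m ∈ mis n e, (min t 1) ^ (∑ i, m i) * ‖B t (l a) (mon L m (v b))‖ ≤
      ∑ b, ∑ m ∈ mis n e, (min t 1) ^ (∑ i, m i) * ‖B t (l a) (mon L m (v b))‖ :=
    Finset.single_le_sum (f := fun b : β => ∑ m ∈ mis n e,
      (min t 1) ^ (∑ i, m i) * ‖B t (l a) (mon L m (v b))‖)
      (fun b _ => Finset.sum_nonneg fun m _ => term_nonneg' _ _ m ht) (Finset.mem_univ b)
  have h3 : ∑ b, ∑ m ∈ mis n e, (min t 1) ^ (∑ i, m i) * ‖B t (l a) (mon L m (v b))‖ ≤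
      ∑ a, ∑ b, ∑ m ∈ mis n e, (min t 1) ^ (∑ i, m i) * ‖B t (l a) (mon L m (v b))‖ :=
    Finset.single_le_sum (f := fun a : α => ∑ b, ∑ m ∈ mis n e,
      (min t 1) ^ (∑ i, m i) * ‖B t (l a) (mon L m (v b))‖)
      (fun a _ => Finset.sum_nonneg fun b _ => Finset.sum_nonneg fun m _ => term_nonneg' _ _ m ht)
      (Finset.mem_univ a)
  exact h1.trans (h2.trans h3)

private theorem NN_step' (hn : 0 < n) {h : Fin n → ℝ} {L R : Fin n → Fin n → Module.End ℂ Y}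
    {ZΛ : Fin n → Fin n → Module.End ℂ Λ} {B : ℝ → Λ →ₗ[ℂ] Y →ₗ[ℂ] ℂ}
    (hs : RadSys h L R ZΛ B) {V0 : Submodule ℂ Y} (hV : ∀ i j, ∀ v ∈ V0, Zo L R i j v ∈ V0)
    {α β : Type*} [Fintype α] [Fintype β] (bl : Module.Basis α ℂ Λ) (bv : Module.Basis β ℂ V0)
    {e : ℕ} (he : n * n ≤ e + 1) :
    ∃ C : ℝ, 0 ≤ C ∧ ∀ t : ℝ, 0 < t → NN L B bl (fun b => (bv b : Y)) (e + 1) t ≤
      C * NN L B bl (fun b => (bv b : Y)) e t := by
  have key : ∀ (a : α) (b : β) (m : Fin n → ℕ), ∑ i, m i ≤ e + 1 → ∃ C : ℝ, 0 ≤ C ∧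
      ∀ t : ℝ, 0 < t → (min t 1) ^ (∑ i, m i) * ‖B t (bl a) (mon L m (bv b : Y))‖ ≤
        C * NN L B bl (fun b => (bv b : Y)) e t := by
    intro a b m hm
    rcases Nat.lt_or_ge e (∑ i, m i) with h1 | h1
    · have h2 : ∑ i, m i = e + 1 := by omega
      obtain ⟨C, hC⟩ := tred hn hs hV bl bv m (by omega) (bl a) (bv b : Y) (bv b).2
      refine ⟨max C 0, le_max_right _ _, fun t ht => ?_⟩
      have h3 := hC t ht
      have h4 : (∑ i, m i) - 1 = e := by omega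
      rw [h4] at h3
      exact h3.trans (mul_le_mul_of_nonneg_right (le_max_left _ _) (NN_nonneg' _ _ _ ht))
    · refine ⟨1, zero_le_one, fun t ht => ?_⟩
      rw [one_mul]
      exact term_le_NN' _ (fun b => (bv b : Y)) a b h1 ht
  choose! C hC0 hC using key
  refine ⟨∑ a, ∑ b, ∑ m ∈ mis n (e + 1), C a b m, ?_, fun t ht => ?_⟩
  · exact Finset.sum_nonneg fun a _ => Finset.sum_nonneg fun b _ => Finset.sum_nonneg fun m hm =>
      hC0 a b m (mem_mis'.mp hm)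
  · rw [Finset.sum_mul]
    conv_lhs => unfold NN
    refine Finset.sum_le_sum fun a _ => ?_
    rw [Finset.sum_mul]
    refine Finset.sum_le_sum fun b _ => ?_
    rw [Finset.sum_mul]
    exact Finset.sum_le_sum fun m hm => hC a b m (mem_mis'.mp hm) t ht

private theorem NN_all' (hn : 0 < n) {h : Fin n → ℝ} {L R : Fin n → Fin n → Module.End ℂ Y}
    {ZΛ : Fin n → Fin n → Module.End ℂ Λ} {B : ℝ → Λ →ₗ[ℂ] Y →ₗ[ℂ] ℂ}
    (hs : RadSys h L R ZΛ B) {V0 : Submodule ℂ Y} (hV : ∀ i j, ∀ v ∈ V0, Zo L R i j v ∈ V0)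
    {α β : Type*} [Fintype α] [Fintype β] (bl : Module.Basis α ℂ Λ) (bv : Module.Basis β ℂ V0)
    (e : ℕ) :
    ∃ C : ℝ, 0 ≤ C ∧ ∀ t : ℝ, 0 < t → NN L B bl (fun b => (bv b : Y)) e t ≤
      C * NN L B bl (fun b => (bv b : Y)) (n * n - 1) t := by
  induction e with
  | zero =>
    refine ⟨1, zero_le_one, fun t ht => ?_⟩
    rw [one_mul]
    exact NN_mono' _ _ (Nat.zero_le _) ht
  | succ e ih =>
    rcases Nat.lt_or_ge (e + 1) (n * n) with h1 | h1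
    · refine ⟨1, zero_le_one, fun t ht => ?_⟩
      rw [one_mul]
      exact NN_mono' _ _ (by omega) ht
    · obtain ⟨C, hC0, hC⟩ := ih
      obtain ⟨D, hD0, hD⟩ := NN_step' hn hs hV bl bv h1
      refine ⟨D * C, mul_nonneg hD0 hC0, fun t ht => ?_⟩
      rw [mul_assoc]
      exact (hD t ht).trans (mul_le_mul_of_nonneg_left (hC t ht) hD0)

theorem nred (hn : 0 < n) {h : Fin n → ℝ} {L R : Fin n → Fin n → Module.End ℂ Y}
    {ZΛ : Fin n → Fin n → Module.End ℂ Λ} {B : ℝ → Λ →ₗ[ℂ] Y →ₗ[ℂ] ℂ}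
    (hs : RadSys h L R ZΛ B) {V0 : Submodule ℂ Y} (hV : ∀ i j, ∀ v ∈ V0, Zo L R i j v ∈ V0)
    {α β : Type*} [Fintype α] [Fintype β] (bl : Module.Basis α ℂ Λ) (bv : Module.Basis β ℂ V0)
    (w : List (Lt n)) (l : Λ) (v : Y) (hv : v ∈ V0) :
    ∃ C : ℝ, 0 ≤ C ∧ ∀ t : ℝ, 0 < t → (min t 1) ^ w.length * ‖B t l (wd L R w v)‖ ≤
      C * NN L B bl (fun b => (bv b : Y)) (n * n - 1) t := by
  classical
  obtain ⟨e, C, hC⟩ : ∃ (e : ℕ) (C : ℝ), ∀ t : ℝ, 0 < t →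
      (min t 1) ^ w.length * ‖B t l (wd L R w v)‖ ≤ C * NN L B bl (fun b => (bv b : Y)) e t :=
    ⟨_, wred hs hV bl bv w l v hv⟩
  obtain ⟨D, hD0, hD⟩ := NN_all' hn hs hV bl bv e
  refine ⟨max C 0 * D, mul_nonneg (le_max_right _ _) hD0, fun t ht => ?_⟩
  refine (hC t ht).trans ?_
  rw [mul_assoc]
  refine (mul_le_mul_of_nonneg_right (le_max_left C 0) (NN_nonneg' _ _ _ ht)).trans ?_
  exact mul_le_mul_of_nonneg_left (hD t ht) (le_max_right _ _)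

end

end Pool.Agent.Work.MP_dd0ddf_al.CW
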