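import Pool.Agent.Work.MP_dd0ddf_al.CW.Defs
import Pool.Agent.Work.MP_dd0ddf_al.CW.GrI
import Pool.Agent.Work.MP_dd0ddf_al.CW.GrP
import Pool.Agent.Work.MP_dd0ddf_al.CW.Nred

/-!
# radial uniqueness at infinity

PROOF. Take bases bl of Lambda, bv of V0 (finite).  Index set I = {(a, b, m) : |m| <= n*n - 1} (m in mis n (n*n-1), a Finset; use the subtype), f_(a,b,m)(t) = B t (bl a) (mon L m (bv b)),
f' = B t (bl a) (sum_i h_i (L_ii + R_ii) mon L m (bv b)) (field `der`).  mon L m is wd of a word with letters (true,i,i); so f' is a combination of B t (bl a) (wd w (bv b)), w of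
length |m| + 1, and by `nred` (min t 1)^(|m|+1) |f'| <= C NN (n*n-1) t <= C sum |f| (as (min t 1)^k <= 1).  On t >= 1 this is hypothesis hb of `grI`; hdec of `grI` is the hypothesis
hdec here for y = mon L m (bv b).  So all f vanish on [1, oo).  `grP` with t0 = 1 (on [s, 1/s]: min t 1 >= s) gives f = 0 on (0, oo).  So NN (n*n-1) t = 0 for t > 0 and `nred` gives
(min t 1)^length * |B t l (wd w v)| <= 0.
-/

set_option linter.unusedSectionVars false

namespace Pool.Agent.Work.MP_dd0ddf_al.CW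

open scoped Matrix.Norms.Elementwise ComplexConjugate ContDiff Topology
open Matrix MeasureTheory Filter
open Pool.Agent.Work.MP_dd0ddf_al.AR

noncomputable section

variable {n : ℕ} {Y : Type*} [AddCommGroup Y] [Module ℂ Y] {Λ : Type*} [AddCommGroup Λ] [Module ℂ Λ]

private def rW (m : Fin n → ℕ) : List (Lt n) :=
  (List.ofFn fun i => List.replicate (m i) (true, i, i)).flatten

private theorem wd_rW (L R : Fin n → Fin n → Module.End ℂ Y) (m : Fin n → ℕ) :
    wd L R (rW m) = mon L m := by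
  unfold wd rW mon
  rw [List.map_flatten, List.prod_flatten, List.map_map, List.map_ofFn]
  congr 2
  funext i
  simp only [Function.comp_apply, List.map_replicate, List.prod_replicate]
  rfl

private theorem wd_cons' (L R : Fin n → Fin n → Module.End ℂ Y) (x : Lt n) (w : List (Lt n)) :
    wd L R (x :: w) = lop L R x * wd L R w := by
  unfold wd
  rw [List.map_cons, List.prod_cons]

/-- a bound of one word by `NN` on `[s, oo)` -/
private theorem rad_word (hn : 0 < n) {h : Fin n → ℝ} {L R : Fin n → Fin n → Module.End ℂ Y}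
    {ZΛ : Fin n → Fin n → Module.End ℂ Λ} {B : ℝ → Λ →ₗ[ℂ] Y →ₗ[ℂ] ℂ}
    (hs : RadSys h L R ZΛ B) {V0 : Submodule ℂ Y} (hV : ∀ i j, ∀ v ∈ V0, Zo L R i j v ∈ V0)
    {α β : Type*} [Fintype α] [Fintype β] (bl : Module.Basis α ℂ Λ) (bv : Module.Basis β ℂ V0)
    (w : List (Lt n)) (l : Λ) (v : Y) (hv : v ∈ V0) (s : ℝ) (hs0 : 0 < s) (hs1 : s ≤ 1) :
    ∃ C : ℝ, 0 ≤ C ∧ ∀ t : ℝ, s ≤ t → ‖B t l (wd L R w v)‖ ≤
      C * NN L B bl (fun b => (bv b : Y)) (n * n - 1) t := by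
  obtain ⟨C, hC, h1⟩ := nred hn hs hV bl bv w l v hv
  refine ⟨C / s ^ w.length, by positivity, fun t ht => ?_⟩
  have h2 := h1 t (lt_of_lt_of_le hs0 ht)
  have h3 : s ^ w.length ≤ (min t 1) ^ w.length :=
    pow_le_pow_left₀ hs0.le (le_min ht hs1) _
  have h4 := (mul_le_mul_of_nonneg_right h3 (norm_nonneg (B t l (wd L R w v)))).trans h2
  have h5 : 0 < s ^ w.length := pow_pos hs0 _
  rw [div_mul_eq_mul_div, le_div_iff₀ h5]
  linarith

theorem radI (hn : 0 < n) {h : Fin n → ℝ} {L R : Fin n → Fin n → Module.End ℂ Y}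
    {ZΛ : Fin n → Fin n → Module.End ℂ Λ} {B : ℝ → Λ →ₗ[ℂ] Y →ₗ[ℂ] ℂ}
    (hs : RadSys h L R ZΛ B) [FiniteDimensional ℂ Λ] {V0 : Submodule ℂ Y} [FiniteDimensional ℂ V0]
    (hV : ∀ i j, ∀ v ∈ V0, Zo L R i j v ∈ V0)
    (hdec : ∀ (l : Λ) (y : Y) (m : ℕ), ∃ C : ℝ, ∀ t : ℝ, 1 ≤ t →
      ‖B t l y‖ ≤ C * Real.exp (-(m : ℝ) * t)) :
    ∀ (l : Λ), ∀ v ∈ V0, ∀ (w : List (Lt n)) (t : ℝ), 0 < t → B t l (wd L R w v) = 0 := by
  classical
  intro l v hv w t ht
  let bl := Module.finBasis ℂ Λ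
  let bv := Module.finBasis ℂ V0
  let e := n * n - 1
  let ι := (Fin (Module.finrank ℂ Λ)) × (Fin (Module.finrank ℂ V0)) × {m // m ∈ mis n e}
  let y : ι → Y := fun a => mon L a.2.2.1 (bv a.2.1 : Y)
  let f : ι → ℝ → ℂ := fun a t => B t (bl a.1) (y a)
  let f' : ι → ℝ → ℂ := fun a t =>
    B t (bl a.1) (∑ i, (h i : ℂ) • (L i i (y a) + R i i (y a)))
  have hd : ∀ a t, HasDerivAt (f a) (f' a t) t := fun a t => hs.der t (bl a.1) (y a)
  have hNN : ∀ t : ℝ, NN L B bl (fun b => (bv b : Y)) e t =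
      ∑ a : ι, (min t 1) ^ (∑ i, a.2.2.1 i) * ‖f a t‖ := by
    intro t
    unfold NN
    rw [Fintype.sum_prod_type]
    refine Finset.sum_congr rfl fun a _ => ?_
    rw [Fintype.sum_prod_type]
    refine Finset.sum_congr rfl fun b _ => ?_
    rw [← Finset.sum_coe_sort]
  have hNf : ∀ t : ℝ, 0 < t → NN L B bl (fun b => (bv b : Y)) e t ≤ ∑ a : ι, ‖f a t‖ := by
    intro t ht
    rw [hNN]
    refine Finset.sum_le_sum fun a _ => ?_
    have h1 : (min t 1) ^ (∑ i, a.2.2.1 i) ≤ 1 :=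
      pow_le_one₀ (le_min ht.le zero_le_one) (min_le_right _ _)
    exact (mul_le_mul_of_nonneg_right h1 (norm_nonneg _)).trans (one_mul _).le
  have hy : ∀ a : ι, y a = wd L R (rW a.2.2.1) (bv a.2.1 : Y) := fun a => by
    rw [wd_rW]
  have hone : ∀ (s : ℝ), 0 < s → s ≤ 1 → ∀ a : ι, ∃ C : ℝ, 0 ≤ C ∧ ∀ t, s ≤ t →
      ‖f' a t‖ ≤ C * NN L B bl (fun b => (bv b : Y)) e t := by
    intro s hs0 hs1 a
    have hL : ∀ i : Fin n, ∃ C : ℝ, 0 ≤ C ∧ ∀ t, s ≤ t → ‖B t (bl a.1) (L i i (y a))‖ ≤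
        C * NN L B bl (fun b => (bv b : Y)) e t := by
      intro i
      have h1 := rad_word hn hs hV bl bv ((true, i, i) :: rW a.2.2.1) (bl a.1) (bv a.2.1 : Y)
        (bv a.2.1).2 s hs0 hs1
      have h2 : wd L R ((true, i, i) :: rW a.2.2.1) (bv a.2.1 : Y) = L i i (y a) := by
        rw [wd_cons', hy a]
        rfl
      rw [h2] at h1
      exact h1
    have hR : ∀ i : Fin n, ∃ C : ℝ, 0 ≤ C ∧ ∀ t, s ≤ t → ‖B t (bl a.1) (R i i (y a))‖ ≤
        C * NN L B bl (fun b => (bv b : Y)) e t := by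
      intro i
      have h1 := rad_word hn hs hV bl bv ((false, i, i) :: rW a.2.2.1) (bl a.1) (bv a.2.1 : Y)
        (bv a.2.1).2 s hs0 hs1
      have h2 : wd L R ((false, i, i) :: rW a.2.2.1) (bv a.2.1 : Y) = R i i (y a) := by
        rw [wd_cons', hy a]
        rfl
      rw [h2] at h1
      exact h1
    choose CL hCL0 hCL using hL
    choose CR hCR0 hCR using hR
    refine ⟨∑ i, |h i| * (CL i + CR i), Finset.sum_nonneg fun i _ =>
      mul_nonneg (abs_nonneg _) (add_nonneg (hCL0 i) (hCR0 i)), fun t ht => ?_⟩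
    have h3 : f' a t = ∑ i, (h i : ℂ) * (B t (bl a.1) (L i i (y a)) +
        B t (bl a.1) (R i i (y a))) := by
      change B t (bl a.1) (∑ i, (h i : ℂ) • (L i i (y a) + R i i (y a))) = _
      rw [map_sum]
      refine Finset.sum_congr rfl fun i _ => ?_
      rw [map_smul, map_add, smul_eq_mul]
    rw [h3, Finset.sum_mul]
    refine (norm_sum_le _ _).trans (Finset.sum_le_sum fun i _ => ?_)
    rw [norm_mul, Complex.norm_real, Real.norm_eq_abs, mul_assoc]
    refine mul_le_mul_of_nonneg_left ?_ (abs_nonneg _)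
    rw [add_mul]
    exact (norm_add_le _ _).trans (add_le_add (hCL i t ht) (hCR i t ht))
  have hall : ∀ (s : ℝ), 0 < s → s ≤ 1 → ∃ C : ℝ, ∀ (a : ι) t, s ≤ t →
      ‖f' a t‖ ≤ C * ∑ b, ‖f b t‖ := by
    intro s hs0 hs1
    choose C hC0 hC using hone s hs0 hs1
    refine ⟨∑ a, C a, fun a t ht => ?_⟩
    have ht0 : 0 < t := lt_of_lt_of_le hs0 ht
    calc ‖f' a t‖ ≤ C a * NN L B bl (fun b => (bv b : Y)) e t := hC a t ht
      _ ≤ C a * ∑ b, ‖f b t‖ := mul_le_mul_of_nonneg_left (hNf t ht0) (hC0 a)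
      _ ≤ (∑ a, C a) * ∑ b, ‖f b t‖ :=
          mul_le_mul_of_nonneg_right
            (Finset.single_le_sum (fun b _ => hC0 b) (Finset.mem_univ a))
            (Finset.sum_nonneg fun _ _ => norm_nonneg _)
  have hinf : ∀ (a : ι) t, 1 ≤ t → f a t = 0 := by
    obtain ⟨C, hC⟩ := hall 1 one_pos le_rfl
    refine grI f f' C (fun a t _ => hd a t) hC fun m => ?_
    have h1 : ∀ a : ι, ∃ A : ℝ, ∀ t, 1 ≤ t → ‖f a t‖ ≤ A * Real.exp (-(m : ℝ) * t) :=
      fun a => hdec (bl a.1) (y a) m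
    choose A hA using h1
    refine ⟨∑ a, |A a|, fun a t ht => (hA a t ht).trans ?_⟩
    refine mul_le_mul_of_nonneg_right ?_ (Real.exp_pos _).le
    exact (le_abs_self _).trans
      (Finset.single_le_sum (f := fun a => |A a|) (fun b _ => abs_nonneg _) (Finset.mem_univ a))
  have hpos : ∀ (a : ι) t, 0 < t → f a t = 0 := by
    refine grP f f' (fun a t _ => hd a t) (fun s hs0 hs1 => ?_) 1 one_pos
      fun a => hinf a 1 le_rfl
    obtain ⟨C, hC⟩ := hall s hs0 hs1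
    exact ⟨C, fun a t h1 _ => hC a t h1⟩
  obtain ⟨C, hC0, hC⟩ := nred hn hs hV bl bv w l v hv
  have h1 := hC t ht
  have h2 : NN L B bl (fun b => (bv b : Y)) (n * n - 1) t = 0 := by
    refine (hNN t).trans (Finset.sum_eq_zero fun a _ => ?_)
    rw [hpos a t ht, norm_zero, mul_zero]
  rw [h2, mul_zero] at h1
  have h3 : 0 < (min t 1) ^ w.length := pow_pos (lt_min ht one_pos) _
  have h4 : ‖B t l (wd L R w v)‖ ≤ 0 := by
    by_contra h5
    exact absurd h1 (not_le.2 (mul_pos h3 (not_le.1 h5)))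
  exact norm_le_zero_iff.1 h4

end

end Pool.Agent.Work.MP_dd0ddf_al.CW
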