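import Pool.Agent.Work.MP_dd0ddf_al.AR.Op

/-!
# MP_dd0ddf_al, archimedean part: Casselman-Wallach representations of `GL_n(ℂ)`

* `IsFre X`: `X` is a Frechet space (with `CompleteSpace X`, `T2Space X`);
* `SR π D`: `π` is a smooth admissible Frechet representation of moderate growth of `GL_n(ℂ)`,
  `D : M_n(ℂ) → End X` its derivative;
* `Irr π`: `π` is (topologically) irreducible;
* algebra: `GG L R`: representation of `gl_n × gl_n` (the complexification of the real Lie algebra
  `gl_n(ℂ)`; `L` is the complex linear part, `R` the antilinear part), words, filtrations;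
* the unitary group `UU n`, its circle subgroups `cu v`, the spaces of vectors (`XR`), functionals
  (`YR`) and functions (`SU`) of bounded frequency.
-/

set_option linter.unusedSectionVars false

namespace Pool.Agent.Work.MP_dd0ddf_al.CW

open scoped Matrix.Norms.Elementwise ComplexConjugate ContDiff Topology
open Matrix MeasureTheory Filter
open Pool.Agent.Work.MP_dd0ddf_al.AR

noncomputable section

variable {n : ℕ}

/-! ## exponentials, unitary group -/

/-- the exponential of a matrix as an element of `GL_n(ℂ)` -/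
def ex (Y : Mat n) : GLn n where
  val := NormedSpace.exp Y
  inv := NormedSpace.exp (-Y)
  val_inv := by
    rw [Matrix.exp_neg]
    exact Matrix.mul_nonsing_inv _ ((Matrix.isUnit_iff_isUnit_det _).mp (Matrix.isUnit_exp Y))
  inv_val := by
    rw [Matrix.exp_neg]
    exact Matrix.nonsing_inv_mul _ ((Matrix.isUnit_iff_isUnit_det _).mp (Matrix.isUnit_exp Y))

/-- the unitary group `U(n)` -/
abbrev UU (n : ℕ) := Matrix.unitaryGroup (Fin n) ℂ

instance : MeasurableSpace (UU n) := borel _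
instance : BorelSpace (UU n) := ⟨rfl⟩

instance : ProperSpace (Mat n) := FiniteDimensional.proper ℂ (Mat n)
instance : LocallyCompactSpace (Mat n) := inferInstanceAs (LocallyCompactSpace (Fin n → Fin n → ℂ))
instance : SecondCountableTopology (Mat n) :=
  inferInstanceAs (SecondCountableTopology (Fin n → Fin n → ℂ))
instance : SecondCountableTopology (UU n) := TopologicalSpace.Subtype.secondCountableTopology _
instance : T2Space (UU n) := by infer_instance

instance : CompactSpace (UU n) := by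
  apply isCompact_iff_compactSpace.mp
  have hb : Bornology.IsBounded ((Matrix.unitaryGroup (Fin n) ℂ : Set (Mat n))) := by
    refine (Metric.isBounded_closedBall (x := (0 : Mat n)) (r := 1)).subset ?_
    intro U hU
    simpa using entrywise_sup_norm_bound_of_unitary hU
  have hc : IsClosed ((Matrix.unitaryGroup (Fin n) ℂ : Set (Mat n))) := by
    have : (Matrix.unitaryGroup (Fin n) ℂ : Set (Mat n)) = {U : Mat n | U * star U = 1} := by
      ext U
      exact Matrix.mem_unitaryGroup_iff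
    rw [this]
    exact isClosed_eq (continuous_id.mul continuous_star) continuous_const
  exact Metric.isCompact_of_isClosed_isBounded hc hb

/-- the normalised Haar measure of `U(n)` -/
def hK (n : ℕ) : Measure (UU n) := Measure.haarMeasure ⊤

instance : (hK n).IsHaarMeasure := by unfold hK; infer_instance

instance : IsProbabilityMeasure (hK n) := ⟨by
  have := Measure.haarMeasure_self (K₀ := (⊤ : TopologicalSpace.PositiveCompacts (UU n)))
  simpa [hK] using this⟩

instance : MeasurableSpace (GLn n) := borel _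
instance : BorelSpace (GLn n) := ⟨rfl⟩
instance : LocallyCompactSpace (GLn n) :=
  inferInstanceAs (LocallyCompactSpace (Matrix (Fin n) (Fin n) ℂ)ˣ)
instance : SecondCountableTopology (GLn n) := by
  have : SecondCountableTopology ((Matrix (Fin n) (Fin n) ℂ)ᵐᵒᵖ) :=
    MulOpposite.opHomeomorph.symm.isEmbedding.secondCountableTopology
  exact (Units.isEmbedding_embedProduct
    (M := Matrix (Fin n) (Fin n) ℂ)).secondCountableTopology

/-- a Haar measure of `GL_n(ℂ)` -/
def hG (n : ℕ) : Measure (GLn n) := Measure.haar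

instance : (hG n).IsHaarMeasure := by unfold hG; infer_instance
instance : (hG n).Regular := by unfold hG; infer_instance

/-- `U(n) → GL_n(ℂ)` -/
def kg : UU n →* GLn n := Unitary.toUnits

/-- the exponential of a skew-Hermitian matrix -/
def exu (Y : Mat n) (hY : star Y = -Y) : UU n :=
  ⟨NormedSpace.exp Y, by
    rw [Matrix.mem_unitaryGroup_iff, star_eq_conjTranspose, ← Matrix.exp_conjTranspose,
      ← star_eq_conjTranspose, hY, Matrix.exp_neg]
    exact Matrix.mul_nonsing_inv _ ((Matrix.isUnit_iff_isUnit_det _).mp (Matrix.isUnit_exp Y))⟩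

/-- the generator `i v v^*` of a circle subgroup (`v` a unit vector) -/
def cY (v : Fin n → ℂ) : Mat n := Complex.I • Matrix.vecMulVec v (star v)

theorem star_cY (v : Fin n → ℂ) (θ : ℝ) : star (θ • cY v) = -(θ • cY v) := by
  ext i j
  simp [cY, Matrix.star_apply, Matrix.vecMulVec_apply, mul_comm]

/-- the circle subgroup `exp(i θ v v^*) = 1 + (e^{iθ} - 1) v v^*` -/
def cu (v : Fin n → ℂ) (θ : ℝ) : UU n := exu (θ • cY v) (star_cY v θ)

/-- `v` is a unit vector -/
def uni (v : Fin n → ℂ) : Prop := star v ⬝ᵥ v = 1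

/-- trigonometric polynomials of degree at most `R` -/
def TPs (R : ℕ) : Submodule ℂ (ℝ → ℂ) :=
  Submodule.span ℂ {f | ∃ m : ℤ, |m| ≤ (R : ℤ) ∧
    f = fun θ : ℝ => Complex.exp ((m : ℂ) * (θ : ℂ) * Complex.I)}

/-- continuous functions on `U(n)` of frequency at most `R` along all circle subgroups -/
def SU (n R : ℕ) : Submodule ℂ (UU n → ℂ) where
  carrier := {f | Continuous f ∧ ∀ (x : UU n) (v : Fin n → ℂ), uni v →
    (fun θ : ℝ => f (x * cu v θ)) ∈ TPs R}
  add_mem' := by
    intro f g hf hg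
    exact ⟨hf.1.add hg.1, fun x v hv => (TPs R).add_mem (hf.2 x v hv) (hg.2 x v hv)⟩
  zero_mem' := ⟨continuous_const, fun _ _ _ => (TPs R).zero_mem⟩
  smul_mem' := by
    intro c f hf
    exact ⟨continuous_const.mul hf.1, fun x v hv => (TPs R).smul_mem c (hf.2 x v hv)⟩

/-! ## algebra: representations of `gl_n × gl_n` -/

section algebra

variable {Y : Type*} [AddCommGroup Y] [Module ℂ Y]

/-- representation of `gl_n × gl_n` on `Y`: `L i j`, `R i j` are the actions of the two copies of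
the elementary matrix `E_ij` -/
structure GG (L R : Fin n → Fin n → Module.End ℂ Y) : Prop where
  LL : ∀ i j k l, L i j * L k l - L k l * L i j =
    (if j = k then L i l else 0) - (if i = l then L k j else 0)
  RR : ∀ i j k l, R i j * R k l - R k l * R i j =
    (if j = k then R i l else 0) - (if i = l then R k j else 0)
  LR : ∀ i j k l, L i j * R k l = R k l * L i j

/-- letters: `(true, i, j)` stands for `L i j`, `(false, i, j)` for `R i j` -/
abbrev Lt (n : ℕ) := Bool × Fin n × Fin n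

/-- the operator attached to a letter -/
def lop (L R : Fin n → Fin n → Module.End ℂ Y) (l : Lt n) : Module.End ℂ Y :=
  if l.1 then L l.2.1 l.2.2 else R l.2.1 l.2.2

/-- the operator attached to a word -/
def wd (L R : Fin n → Fin n → Module.End ℂ Y) (w : List (Lt n)) : Module.End ℂ Y :=
  (w.map (lop L R)).prod

/-- the word contains an off-diagonal letter -/
def offd (w : List (Lt n)) : Prop := ∃ l ∈ w, l.2.1 ≠ l.2.2

/-- the element `Z_ij = L_ij - R_ji` of the complexified Lie algebra of `U(n)` -/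
def Zo (L R : Fin n → Fin n → Module.End ℂ Y) (i j : Fin n) : Module.End ℂ Y := L i j - R j i

/-- monomial in the diagonal operators `L_ii` -/
def mon (L : Fin n → Fin n → Module.End ℂ Y) (m : Fin n → ℕ) : Module.End ℂ Y :=
  (List.ofFn fun i => L i i ^ m i).prod

/-- for `k = 1, ..., n` there is an operator of the form `∑ L_ii^k +` (combination of words of
length `k` with an off-diagonal letter) which acts as a scalar -/
def HasZ (L R : Fin n → Fin n → Module.End ℂ Y) : Prop :=
  ∀ k : ℕ, 1 ≤ k → k ≤ n → ∃ (c : List (Lt n) →₀ ℂ) (ζ : ℂ),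
    (∀ w ∈ c.support, w.length = k ∧ offd w) ∧
    ∀ y : Y, (∑ i, (L i i ^ k) y) + c.sum (fun w a => a • wd L R w y) = ζ • y

/-- the trace of the `k`-th power of the matrix of operators `L` (a Gelfand invariant) -/
def tz (L : Fin n → Fin n → Module.End ℂ Y) (k : ℕ) : Module.End ℂ Y :=
  Matrix.trace ((Matrix.of L) ^ k)

/-- the span of the images of `L_ij`, `R_ij`, `i < j` -/
def nY (L R : Fin n → Fin n → Module.End ℂ Y) : Submodule ℂ Y :=
  ⨆ (i : Fin n) (j : Fin n) (_ : i < j), (LinearMap.range (L i j) ⊔ LinearMap.range (R i j))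

variable {Λ : Type*} [AddCommGroup Λ] [Module ℂ Λ]

/-- a system of functions `t ↦ B t l y` (in the applications `B t l y = l(π(exp(tH)) y)`,
`H = diag(h_1, ..., h_n)` with distinct `h_i`, or a difference of two such functions), satisfying
the differential equation and the relation of `exp(-tH) Z_ij exp(tH)` with the action of `Z_ij` on
the space of functionals `Λ` -/
structure RadSys (h : Fin n → ℝ) (L R : Fin n → Fin n → Module.End ℂ Y)
    (ZΛ : Fin n → Fin n → Module.End ℂ Λ) (B : ℝ → Λ →ₗ[ℂ] Y →ₗ[ℂ] ℂ) : Prop where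
  gg : GG L R
  hz : HasZ L R
  reg : ∀ i j, i ≠ j → h i ≠ h j
  der : ∀ (t : ℝ) (l : Λ) (y : Y), HasDerivAt (fun s : ℝ => B s l y)
    (B t l (∑ i, (h i : ℂ) • (L i i y + R i i y))) t
  rad : ∀ (t : ℝ) (l : Λ) (y : Y) (i j : Fin n), i ≠ j →
    B t l (((Real.exp (-(t * (h i - h j))) : ℝ) : ℂ) • L i j y -
      ((Real.exp (t * (h i - h j)) : ℝ) : ℂ) • R j i y) = B t (ZΛ i j l) y

/-- multi-indices of degree at most `e` -/
def mis (n e : ℕ) : Finset (Fin n → ℕ) :=
  (Fintype.piFinset fun _ : Fin n => Finset.range (e + 1)).filter fun m => ∑ i, m i ≤ e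

/-- the sum of the `min(t,1)^|m| |B t (l_a) (L^m v_b)|`, `|m| ≤ e` -/
def NN (L : Fin n → Fin n → Module.End ℂ Y) (B : ℝ → Λ →ₗ[ℂ] Y →ₗ[ℂ] ℂ) {α β : Type*}
    [Fintype α] [Fintype β] (l : α → Λ) (v : β → Y) (e : ℕ) (t : ℝ) : ℝ :=
  ∑ a, ∑ b, ∑ m ∈ mis n e, (min t 1) ^ (∑ i, m i) * ‖B t (l a) (mon L m (v b))‖

/-- `sl_2 × sl_2` acting on a space `M` of formal vectors, with the projectors `Pi l` on the
isotypic components of the diagonal (compact) `sl_2` spanned by `E = e - f'`, `F = f - e'`,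
`H = h - h'` -/
structure SlS {M : Type*} [AddCommGroup M] [Module ℂ M] (e f h e' f' h' : Module.End ℂ M)
    (Pi : ℕ → Module.End ℂ M) : Prop where
  he : h * e - e * h = 2 • e
  hf : h * f - f * h = -(2 • f)
  ef : e * f - f * e = h
  he' : h' * e' - e' * h' = 2 • e'
  hf' : h' * f' - f' * h' = -(2 • f')
  ef' : e' * f' - f' * e' = h'
  cm : ∀ x ∈ ({e, f, h} : Set (Module.End ℂ M)), ∀ y ∈ ({e', f', h'} : Set (Module.End ℂ M)),
    x * y = y * x
  p1 : ∀ l m, Pi l * Pi m = if l = m then Pi l else 0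
  p2 : ∀ w, (∀ l, Pi l w = 0) → w = 0
  p3 : ∀ x : ℕ → M, ∃ w, ∀ l, Pi l w = Pi l (x l)
  p4 : ∀ x ∈ ({e - f', f - e', h - h'} : Set (Module.End ℂ M)), ∀ l, x * Pi l = Pi l * x
  p5 : ∀ l : ℕ, ((h - h') * (h - h') + 2 • (h - h') + 4 • ((f - e') * (e - f'))) * Pi l =
    ((l : ℂ) * (l + 2)) • Pi l
  p6 : ∀ (l : ℕ) (w : M) (κ : ℂ), (h - h') (Pi l w) = κ • Pi l w → Pi l w ≠ 0 →
    ∃ j : ℕ, j ≤ l ∧ κ = (l : ℂ) - 2 * j
  p7 : ∀ x ∈ ({e, f, h, e', f', h'} : Set (Module.End ℂ M)), ∀ (m : ℕ) (w : M),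
    Pi m (x w) = Pi m (x (Pi m w)) + Pi m (x (Pi (m + 2) w)) +
      (if 2 ≤ m then Pi m (x (Pi (m - 2) w)) else 0)

/-- killed by all `L_pq`, `R_pq` with `p < q`, `(p,q) ≠ (i,j)` -/
def Nst {M : Type*} [AddCommGroup M] [Module ℂ M] (L R : Fin n → Fin n → Module.End ℂ M)
    (i j : Fin n) (x : M) : Prop :=
  ∀ p q, p < q → (p, q) ≠ (i, j) → L p q x = 0 ∧ R p q x = 0

/-- the structure given by the subgroup `SU(2)` of `U(n)` at the places `i, j` (`j = i + 1`) -/
structure KS {M : Type*} [AddCommGroup M] [Module ℂ M] (L R : Fin n → Fin n → Module.End ℂ M)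
    (i j : Fin n) (Pi : ℕ → Module.End ℂ M) (W W' : Module.End ℂ M) : Prop where
  sl : SlS (L i j) (L j i) (L i i - L j j) (R i j) (R j i) (R i i - R j j) Pi
  ww : W * W' = 1
  ww' : W' * W = 1
  cl : ∀ p q, ∃ c : ℂ, c ≠ 0 ∧ (p = q → c = 1) ∧
    W * L p q = c • (L (Equiv.swap i j p) (Equiv.swap i j q) * W)
  cr : ∀ p q, ∃ c : ℂ, c ≠ 0 ∧ (p = q → c = 1) ∧
    W * R p q = c • (R (Equiv.swap i j p) (Equiv.swap i j q) * W)
  nst : ∀ x, Nst L R i j x ↔ ∀ l, Nst L R i j (Pi l x)
  car : ∀ q l, q ≠ i → q ≠ j → L q q * Pi l = Pi l * L q q ∧ R q q * Pi l = Pi l * R q q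
  cas : ∀ l, (L i i + L j j) * Pi l = Pi l * (L i i + L j j) ∧
    (R i i + R j j) * Pi l = Pi l * (R i i + R j j)

/-- `x` is a highest weight vector of weight `(a, b)` (possibly zero) -/
def HV {M : Type*} [AddCommGroup M] [Module ℂ M] (L R : Fin n → Fin n → Module.End ℂ M)
    (a b : Fin n → ℂ) (x : M) : Prop :=
  (∀ p q, p < q → L p q x = 0 ∧ R p q x = 0) ∧ ∀ p, L p p x = a p • x ∧ R p p x = b p • x

/-- the pairing of the weight with `2 rho` -/
def rhoS (a b : Fin n → ℂ) : ℝ := ∑ p : Fin n, ((n : ℝ) - 1 - 2 * (p : ℕ)) * (a p + b p).re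

end algebra

/-! ## Frechet representations -/

section rep

/-- Frechet space (together with `CompleteSpace`, `T2Space`) -/
class IsFre (X : Type*) [AddCommGroup X] [Module ℂ X] [UniformSpace X] : Prop where
  ex : ∃ p : ℕ → Seminorm ℂ X, WithSeminorms p

variable {X : Type*} [AddCommGroup X] [Module ℂ X] [UniformSpace X] [IsUniformAddGroup X]
  [ContinuousSMul ℂ X] [CompleteSpace X] [T2Space X] [IsFre X]

/-- intertwining operators from a finite dimensional representation of `U(n)` -/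
def intw (π : GLn n →* (X →L[ℂ] X)) {m : ℕ} (τ : UU n →* GL (Fin m) ℂ) :
    Submodule ℂ ((Fin m → ℂ) →ₗ[ℂ] X) where
  carrier := {T | ∀ (k : UU n) (v : Fin m → ℂ),
    T (((τ k : GL (Fin m) ℂ) : Matrix (Fin m) (Fin m) ℂ) *ᵥ v) = π (kg k) (T v)}
  add_mem' := by
    intro S T hS hT k v
    simp [hS k v, hT k v]
  zero_mem' := by
    intro k v
    simp
  smul_mem' := by
    intro c T hT k v
    simp [hT k v]

/-- `π` is a smooth admissible Frechet representation of moderate growth of `GL_n(ℂ)`, and `D` is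
its derivative: a representation of the Lie algebra `M_n(ℂ)` (real linear in `Y`) -/
structure SR (π : GLn n →* (X →L[ℂ] X)) (D : Mat n →ₗ[ℝ] (X →L[ℂ] X)) : Prop where
  cont : Continuous fun p : GLn n × X => π p.1 p.2
  der : ∀ (Y : Mat n) (x : X),
    Tendsto (fun t : ℝ => ((t : ℂ)⁻¹) • (π (ex (t • Y)) x - x)) (𝓝[≠] 0) (𝓝 (D Y x))
  grow : ∀ p : Seminorm ℂ X, Continuous p → ∃ (q : Seminorm ℂ X) (N : ℕ), Continuous q ∧
    ∀ (g : GLn n) (x : X), p (π g x) ≤ (‖(g : Mat n)‖ + ‖((g⁻¹ : GLn n) : Mat n)‖) ^ N * q x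
  adm : ∀ (m : ℕ) (τ : UU n →* GL (Fin m) ℂ), Continuous τ → FiniteDimensional ℂ (intw π τ)

/-- topological irreducibility -/
structure Irr (π : GLn n →* (X →L[ℂ] X)) : Prop where
  nontriv : Nontrivial X
  irr : ∀ S : Submodule ℂ X, IsClosed (S : Set X) → (∀ g, ∀ x ∈ S, π g x ∈ S) → S = ⊥ ∨ S = ⊤

/-- the complex linear part of the derivative -/
def DL (D : Mat n →ₗ[ℝ] (X →L[ℂ] X)) (i j : Fin n) : X →L[ℂ] X :=
  (1 / 2 : ℂ) • (D (Matrix.single i j 1) - Complex.I • D (Matrix.single i j Complex.I))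

/-- the antilinear part of the derivative -/
def DR (D : Mat n →ₗ[ℝ] (X →L[ℂ] X)) (i j : Fin n) : X →L[ℂ] X :=
  (1 / 2 : ℂ) • (D (Matrix.single i j 1) + Complex.I • D (Matrix.single i j Complex.I))

/-- vectors of frequency at most `R` along all circle subgroups of `U(n)` -/
def XR (π : GLn n →* (X →L[ℂ] X)) (R : ℕ) : Submodule ℂ X where
  carrier := {x | ∀ (l : X →L[ℂ] ℂ) (v : Fin n → ℂ), uni v →
    (fun θ : ℝ => l (π (kg (cu v θ)) x)) ∈ TPs R}
  add_mem' := by
    intro x y hx hy l v hv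
    have h := (TPs R).add_mem (hx l v hv) (hy l v hv)
    convert h using 1
    funext θ
    simp
  zero_mem' := by
    intro l v hv
    have h := (TPs R).zero_mem
    convert h using 1
    funext θ
    simp
  smul_mem' := by
    intro c x hx l v hv
    have h := (TPs R).smul_mem c (hx l v hv)
    convert h using 1
    funext θ
    simp

/-- continuous linear functionals of frequency at most `R` along all circle subgroups of `U(n)` -/
def YR (π : GLn n →* (X →L[ℂ] X)) (R : ℕ) : Submodule ℂ (X →ₗ[ℂ] ℂ) where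
  carrier := {l | Continuous l ∧ ∀ (x : X) (v : Fin n → ℂ), uni v →
    (fun θ : ℝ => l (π (kg (cu v θ)) x)) ∈ TPs R}
  add_mem' := by
    intro l m hl hm
    exact ⟨hl.1.add hm.1, fun x v hv => (TPs R).add_mem (hl.2 x v hv) (hm.2 x v hv)⟩
  zero_mem' := ⟨continuous_const, fun x v hv => (TPs R).zero_mem⟩
  smul_mem' := by
    intro c l hl
    exact ⟨continuous_const.smul hl.1, fun x v hv => (TPs R).smul_mem c (hl.2 x v hv)⟩

theorem TPs_mono {R S : ℕ} (h : R ≤ S) : TPs R ≤ TPs S := by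
  apply Submodule.span_mono
  rintro f ⟨m, hm, hf⟩
  exact ⟨m, hm.trans (by exact_mod_cast h), hf⟩

/-- `U(n)`-finite vectors -/
def Xf (π : GLn n →* (X →L[ℂ] X)) : Submodule ℂ X where
  carrier := {x | ∃ R, x ∈ XR π R}
  add_mem' := by
    rintro x y ⟨R, hx⟩ ⟨S, hy⟩
    exact ⟨max R S, (XR π _).add_mem (fun l v hv => TPs_mono (le_max_left R S) (hx l v hv))
      (fun l v hv => TPs_mono (le_max_right R S) (hy l v hv))⟩
  zero_mem' := ⟨0, (XR π 0).zero_mem⟩
  smul_mem' := by
    rintro c x ⟨R, hx⟩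
    exact ⟨R, (XR π R).smul_mem c hx⟩

/-- `U(n)`-finite functionals -/
def Yf (π : GLn n →* (X →L[ℂ] X)) : Submodule ℂ (X →ₗ[ℂ] ℂ) where
  carrier := {l | ∃ R, l ∈ YR π R}
  add_mem' := by
    rintro x y ⟨R, hx⟩ ⟨S, hy⟩
    exact ⟨max R S, (YR π _).add_mem
      ⟨hx.1, fun l v hv => TPs_mono (le_max_left R S) (hx.2 l v hv)⟩
      ⟨hy.1, fun l v hv => TPs_mono (le_max_right R S) (hy.2 l v hv)⟩⟩
  zero_mem' := ⟨0, (YR π 0).zero_mem⟩
  smul_mem' := by
    rintro c x ⟨R, hx⟩
    exact ⟨R, (YR π R).smul_mem c hx⟩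

/-- `u` (a formal vector, i.e. a linear functional on `Yf π`) has polynomial growth -/
def PG (π : GLn n →* (X →L[ℂ] X)) (u : Yf π →ₗ[ℂ] ℂ) : Prop :=
  ∀ p : Seminorm ℂ X, Continuous p → ∃ (C : ℝ) (A : ℕ), ∀ (R : ℕ) (l : Yf π),
    (l : X →ₗ[ℂ] ℂ) ∈ YR π R → ∀ c : ℝ, (∀ x, ‖(l : X →ₗ[ℂ] ℂ) x‖ ≤ c * p x) →
      ‖u l‖ ≤ C * (1 + R) ^ A * c

end rep

end

end Pool.Agent.Work.MP_dd0ddf_al.CW
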