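import Pool.Agent.Work.MP_dd0ddf_al.CW.Defs

/-!
# vector operators: basic relations

Notation: E = e - f', F = f - e', H = h - h' (compact sl_2), Pp = e + f', Pm = f + e', P0 = h + h'.  From the relations of SlS:
[E,F]=H, [H,E]=2E, [H,F]=-2F, [H,Pp]=2Pp, [H,Pm]=-2Pm, [H,P0]=0, [E,Pp]=0, [F,Pm]=0, [E,P0]=-2Pp, [F,P0]=2Pm, [E,Pm]=P0, [F,Pp]=-P0.
C = H^2+2H+4FE = H^2-2H+4EF.  [C,Pp] = 4 Pp H + 8 Pp - 4 P0 E, [C,Pm] = -4 Pm H + 8 Pm + 4 P0 F  (noncommutative ring computation, use `noncomm_ring` or linear_combination after expanding).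
PROOF. Pi T commutes with E, F, H, C (p4), C Pi_l = l(l+2) Pi_l (p5).  Apply [C,Pp] to v = Pi l v and project by Pi T: (T(T+2) - l(l+2)) Pi T Pp v = (4 kap + 8) Pi T Pp v - 4 Pi T P0 E v: item 1.
Item 2: E Pi T P0 v = Pi T E P0 v = Pi T (P0 E - 2 Pp) v.  Items 3, 4 in the same way with F, Pm.  Item 5: [E,Pm]=P0; item 6: [F,Pp]=-P0.
Item 7: locality: by (p7) and (p1), Pi T (x v) = 0 unless T = l, T + 2 = l or T = l + 2.
-/

set_option linter.unusedSectionVars false

namespace Pool.Agent.Work.MP_dd0ddf_al.CW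

open scoped Matrix.Norms.Elementwise ComplexConjugate ContDiff Topology
open Matrix MeasureTheory Filter
open Pool.Agent.Work.MP_dd0ddf_al.AR

noncomputable section

variable {M : Type*} [AddCommGroup M] [Module ℂ M] {e f h e' f' h' : Module.End ℂ M}
  {Pi : ℕ → Module.End ℂ M}

/-- the pointwise relations -/
private structure Rel (e f h e' f' h' : Module.End ℂ M) : Prop where
  he : ∀ w, h (e w) = e (h w) + (2 : ℂ) • e w
  hf : ∀ w, h (f w) = f (h w) - (2 : ℂ) • f w
  ef : ∀ w, e (f w) = f (e w) + h w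
  he' : ∀ w, h' (e' w) = e' (h' w) + (2 : ℂ) • e' w
  hf' : ∀ w, h' (f' w) = f' (h' w) - (2 : ℂ) • f' w
  ef' : ∀ w, e' (f' w) = f' (e' w) + h' w
  c1 : ∀ w, e (e' w) = e' (e w)
  c2 : ∀ w, e (f' w) = f' (e w)
  c3 : ∀ w, e (h' w) = h' (e w)
  c4 : ∀ w, f (e' w) = e' (f w)
  c5 : ∀ w, f (f' w) = f' (f w)
  c6 : ∀ w, f (h' w) = h' (f w)
  c7 : ∀ w, h (e' w) = e' (h w)
  c8 : ∀ w, h (f' w) = f' (h w)
  c9 : ∀ w, h (h' w) = h' (h w)

private theorem two_nsmul_end (x : Module.End ℂ M) (w : M) : (2 • x) w = (2 : ℂ) • x w := by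
  rw [LinearMap.smul_apply, ← Nat.cast_smul_eq_nsmul ℂ]
  norm_num

private theorem rel (hS : SlS e f h e' f' h' Pi) : Rel e f h e' f' h' := by
  have key : ∀ x ∈ ({e, f, h} : Set (Module.End ℂ M)),
      ∀ y ∈ ({e', f', h'} : Set (Module.End ℂ M)), ∀ w, x (y w) = y (x w) := by
    intro x hx y hy w
    exact LinearMap.congr_fun (hS.cm x hx y hy) w
  refine ⟨?_, ?_, ?_, ?_, ?_, ?_, ?_, ?_, ?_, ?_, ?_, ?_, ?_, ?_, ?_⟩
  · intro w
    have h1 := LinearMap.congr_fun hS.he w
    rw [two_nsmul_end] at h1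
    change h (e w) - e (h w) = _ at h1
    rw [← h1]
    abel
  · intro w
    have h1 := LinearMap.congr_fun hS.hf w
    rw [LinearMap.neg_apply, two_nsmul_end] at h1
    change h (f w) - f (h w) = _ at h1
    rw [sub_eq_add_neg, ← h1]
    abel
  · intro w
    have h1 := LinearMap.congr_fun hS.ef w
    change e (f w) - f (e w) = _ at h1
    rw [← h1]
    abel
  · intro w
    have h1 := LinearMap.congr_fun hS.he' w
    rw [two_nsmul_end] at h1
    change h' (e' w) - e' (h' w) = _ at h1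
    rw [← h1]
    abel
  · intro w
    have h1 := LinearMap.congr_fun hS.hf' w
    rw [LinearMap.neg_apply, two_nsmul_end] at h1
    change h' (f' w) - f' (h' w) = _ at h1
    rw [sub_eq_add_neg, ← h1]
    abel
  · intro w
    have h1 := LinearMap.congr_fun hS.ef' w
    change e' (f' w) - f' (e' w) = _ at h1
    rw [← h1]
    abel
  all_goals exact key _ (by simp) _ (by simp)

private structure Rel2 (e f h e' f' h' : Module.End ℂ M) : Prop where
  HE : ∀ w, (h - h') ((e - f') w) = (e - f') ((h - h') w) + (2 : ℂ) • (e - f') w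
  HF : ∀ w, (h - h') ((f - e') w) = (f - e') ((h - h') w) - (2 : ℂ) • (f - e') w
  EF : ∀ w, (e - f') ((f - e') w) = (f - e') ((e - f') w) + (h - h') w
  HPp : ∀ w, (h - h') ((e + f') w) = (e + f') ((h - h') w) + (2 : ℂ) • (e + f') w
  HPm : ∀ w, (h - h') ((f + e') w) = (f + e') ((h - h') w) - (2 : ℂ) • (f + e') w
  EPp : ∀ w, (e - f') ((e + f') w) = (e + f') ((e - f') w)
  FPm : ∀ w, (f - e') ((f + e') w) = (f + e') ((f - e') w)
  EP0 : ∀ w, (e - f') ((h + h') w) = (h + h') ((e - f') w) - (2 : ℂ) • (e + f') w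
  FP0 : ∀ w, (f - e') ((h + h') w) = (h + h') ((f - e') w) + (2 : ℂ) • (f + e') w
  EPm : ∀ w, (e - f') ((f + e') w) = (f + e') ((e - f') w) + (h + h') w
  FPp : ∀ w, (f - e') ((e + f') w) = (e + f') ((f - e') w) - (h + h') w

private theorem rel2 (r : Rel e f h e' f' h') : Rel2 e f h e' f' h' := by
  refine ⟨?_, ?_, ?_, ?_, ?_, ?_, ?_, ?_, ?_, ?_, ?_⟩ <;> intro w <;>
    simp only [LinearMap.sub_apply, LinearMap.add_apply, map_sub, map_add, r.he, r.hf, r.ef,
      r.he', r.hf', r.ef', r.c1, r.c2, r.c3, r.c4, r.c5, r.c6, r.c7, r.c8] <;> module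

private theorem cas (hS : SlS e f h e' f' h' Pi) (l : ℕ) (w : M) :
    (h - h') ((h - h') (Pi l w)) + (2 : ℂ) • (h - h') (Pi l w) +
      (4 : ℂ) • (f - e') ((e - f') (Pi l w)) = ((l : ℂ) * (l + 2)) • Pi l w := by
  have h1 := LinearMap.congr_fun (hS.p5 l) w
  rw [LinearMap.smul_apply] at h1
  rw [← h1]
  have h2 : (4 • ((f - e') * (e - f'))) (Pi l w) = (4 : ℂ) • (f - e') ((e - f') (Pi l w)) := by
    rw [LinearMap.smul_apply, ← Nat.cast_smul_eq_nsmul ℂ]
    norm_num
  change _ = ((h - h') * (h - h')) (Pi l w) + (2 • (h - h')) (Pi l w) +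
    (4 • ((f - e') * (e - f'))) (Pi l w)
  rw [h2, two_nsmul_end]
  rfl

private theorem cE (hS : SlS e f h e' f' h' Pi) (l : ℕ) (w : M) :
    (e - f') (Pi l w) = Pi l ((e - f') w) :=
  LinearMap.congr_fun (hS.p4 (e - f') (by simp) l) w

private theorem cF (hS : SlS e f h e' f' h' Pi) (l : ℕ) (w : M) :
    (f - e') (Pi l w) = Pi l ((f - e') w) :=
  LinearMap.congr_fun (hS.p4 (f - e') (by simp) l) w

private theorem cH (hS : SlS e f h e' f' h' Pi) (l : ℕ) (w : M) :
    (h - h') (Pi l w) = Pi l ((h - h') w) :=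
  LinearMap.congr_fun (hS.p4 (h - h') (by simp) l) w

/-- the Casimir operator commutes with the projectors -/
private theorem cas2 (hS : SlS e f h e' f' h' Pi) (l : ℕ) (w : M) :
    Pi l ((h - h') ((h - h') w) + (2 : ℂ) • (h - h') w + (4 : ℂ) • (f - e') ((e - f') w)) =
      ((l : ℂ) * (l + 2)) • Pi l w := by
  rw [← cas hS l w, cE hS, cF hS, cH hS, cH hS, map_add, map_add, map_smul, map_smul]

theorem swe (hS : SlS e f h e' f' h' Pi) (l T : ℕ) (v : M) (hv : Pi l v = v) (κ : ℂ)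
    (hκ : (h - h') v = κ • v) :
    ((4 : ℂ) • Pi T ((h + h') ((e - f') v)) =
      (4 * κ + 8 - ((T : ℂ) * (T + 2) - l * (l + 2))) • Pi T ((e + f') v)) ∧
    ((e - f') (Pi T ((h + h') v)) =
      Pi T ((h + h') ((e - f') v)) - (2 : ℂ) • Pi T ((e + f') v)) ∧
    ((4 : ℂ) • Pi T ((h + h') ((f - e') v)) =
      (4 * κ - 8 + ((T : ℂ) * (T + 2) - l * (l + 2))) • Pi T ((f + e') v)) ∧
    ((f - e') (Pi T ((h + h') v)) =
      Pi T ((h + h') ((f - e') v)) + (2 : ℂ) • Pi T ((f + e') v)) ∧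
    ((e - f') (Pi T ((f + e') v)) = Pi T ((f + e') ((e - f') v)) + Pi T ((h + h') v)) ∧
    ((f - e') (Pi T ((e + f') v)) = Pi T ((e + f') ((f - e') v)) - Pi T ((h + h') v)) := by
  have r := rel2 (rel hS)
  have c0 := cas hS l v
  rw [hv, hκ, map_smul, hκ] at c0
  refine ⟨?_, ?_, ?_, ?_, ?_, ?_⟩
  · -- `C (Pp v)`
    have h1 : (h - h') ((h - h') ((e + f') v)) + (2 : ℂ) • (h - h') ((e + f') v) +
        (4 : ℂ) • (f - e') ((e - f') ((e + f') v)) =
        (4 * κ + 8 + (l : ℂ) * (l + 2)) • (e + f') v - (4 : ℂ) • (h + h') ((e - f') v) := by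
      have h2 : (h - h') ((e + f') v) = (κ + 2) • (e + f') v := by
        rw [r.HPp, hκ, map_smul]
        module
      have h3 : (4 : ℂ) • (e + f') ((f - e') ((e - f') v)) =
          ((l : ℂ) * (l + 2) - κ * κ - 2 * κ) • (e + f') v := by
        have h4 : (4 : ℂ) • (f - e') ((e - f') v) =
            ((l : ℂ) * (l + 2) - κ * κ - 2 * κ) • v := by
          have h5 : (4 : ℂ) • (f - e') ((e - f') v) =
              ((l : ℂ) * (l + 2)) • v - (κ • κ • v + (2 : ℂ) • κ • v) := by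
            rw [← c0]
            abel
          rw [h5]
          module
        rw [← map_smul, h4, map_smul]
      rw [h2, map_smul, h2, r.EPp, r.FPp, smul_sub, h3]
      module
    have h5 := cas2 hS T ((e + f') v)
    rw [h1, map_sub, map_smul, map_smul] at h5
    have h6 : (4 : ℂ) • Pi T ((h + h') ((e - f') v)) =
        (4 * κ + 8 + (l : ℂ) * (l + 2)) • Pi T ((e + f') v) -
          ((T : ℂ) * (T + 2)) • Pi T ((e + f') v) := by
      rw [← h5]
      abel
    rw [h6]
    module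
  · rw [cE hS, r.EP0, map_sub, map_smul]
  · have h1 : (h - h') ((h - h') ((f + e') v)) + (2 : ℂ) • (h - h') ((f + e') v) +
        (4 : ℂ) • (f - e') ((e - f') ((f + e') v)) =
        (8 - 4 * κ + (l : ℂ) * (l + 2)) • (f + e') v + (4 : ℂ) • (h + h') ((f - e') v) := by
      have h2 : (h - h') ((f + e') v) = (κ - 2) • (f + e') v := by
        rw [r.HPm, hκ, map_smul]
        module
      have h3 : (f - e') ((e - f') ((f + e') v)) =
          (f + e') ((e - f') ((f - e') v)) + (h + h') ((f - e') v) - (κ - 2) • (f + e') v := by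
        have h4 := r.EF ((f + e') v)
        rw [h2] at h4
        have h5 : (f - e') ((e - f') ((f + e') v)) =
            (e - f') ((f - e') ((f + e') v)) - (κ - 2) • (f + e') v := by
          rw [h4]
          abel
        rw [h5, r.FPm, r.EPm]
      have h6 : (4 : ℂ) • (e - f') ((f - e') v) =
          ((l : ℂ) * (l + 2) - κ * κ + 2 * κ) • v := by
        rw [r.EF, hκ]
        have h4 : (4 : ℂ) • (f - e') ((e - f') v) =
            ((l : ℂ) * (l + 2)) • v - (κ • κ • v + (2 : ℂ) • κ • v) := by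
          rw [← c0]
          abel
        rw [smul_add, h4]
        module
      have h7 : (4 : ℂ) • (f + e') ((e - f') ((f - e') v)) =
          ((l : ℂ) * (l + 2) - κ * κ + 2 * κ) • (f + e') v := by
        rw [← map_smul, h6, map_smul]
      rw [h3, h2, map_smul, h2, smul_sub, smul_add, h7]
      module
    have h5 := cas2 hS T ((f + e') v)
    rw [h1, map_add, map_smul, map_smul] at h5
    have h6 : (4 : ℂ) • Pi T ((h + h') ((f - e') v)) =
        ((T : ℂ) * (T + 2)) • Pi T ((f + e') v) -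
          (8 - 4 * κ + (l : ℂ) * (l + 2)) • Pi T ((f + e') v) := by
      rw [← h5]
      abel
    rw [h6]
    module
  · rw [cF hS, r.FP0, map_add, map_smul]
  · rw [cE hS, r.EPm, map_add]
  · rw [cF hS, r.FPp, map_sub]

/-- the operators change the type by at most 2 -/
theorem swe_loc (hS : SlS e f h e' f' h' Pi) (l T : ℕ) (v : M) (hv : Pi l v = v)
    (h1 : T ≠ l) (h2 : T ≠ l + 2) (h3 : T + 2 ≠ l) :
    ∀ x ∈ ({e, f, h, e', f', h'} : Set (Module.End ℂ M)), Pi T (x v) = 0 := by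
  intro x hx
  have key : ∀ m, m ≠ l → Pi m v = 0 := by
    intro m hm
    have h4 := LinearMap.congr_fun (hS.p1 m l) v
    rw [if_neg hm] at h4
    change Pi m (Pi l v) = 0 at h4
    rwa [hv] at h4
  rw [hS.p7 x hx T v, key T h1, key (T + 2) h3, map_zero, map_zero, zero_add, zero_add]
  split_ifs with h5
  · rw [key (T - 2) (by omega), map_zero, map_zero]
  · rfl

/-- weights: raising and lowering on the isotypic components -/
theorem swe_wt (hS : SlS e f h e' f' h' Pi) (l : ℕ) (v : M) (hv : Pi l v = v) (κ : ℂ)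
    (hκ : (h - h') v = κ • v) :
    (h - h') ((e - f') v) = (κ + 2) • (e - f') v ∧ (h - h') ((f - e') v) = (κ - 2) • (f - e') v ∧
    Pi l ((e - f') v) = (e - f') v ∧ Pi l ((f - e') v) = (f - e') v ∧
    ((e - f') v = 0 → v = 0 ∨ κ = l ∨ κ = -((l : ℂ) + 2)) ∧
    ((f - e') v = 0 → v = 0 ∨ κ = -(l : ℂ) ∨ κ = (l : ℂ) + 2) := by
  have r := rel2 (rel hS)
  have c0 := cas hS l v
  rw [hv, hκ, map_smul, hκ] at c0
  refine ⟨?_, ?_, ?_, ?_, ?_, ?_⟩
  · rw [r.HE, hκ, map_smul]
    module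
  · rw [r.HF, hκ, map_smul]
    module
  · rw [← cE hS, hv]
  · rw [← cF hS, hv]
  · intro h0
    by_cases hv0 : v = 0
    · exact Or.inl hv0
    · right
      rw [h0, map_zero, smul_zero, add_zero] at c0
      have h4 : ((κ - l) * (κ + (l + 2))) • v = 0 := by
        have h5 : ((κ - l) * (κ + (l + 2))) • v =
            (κ • κ • v + (2 : ℂ) • κ • v) - ((l : ℂ) * (l + 2)) • v := by
          module
        rw [h5, c0, sub_self]
      rcases mul_eq_zero.1 ((smul_eq_zero.1 h4).resolve_right hv0) with h6 | h6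
      · exact Or.inl (sub_eq_zero.1 h6)
      · exact Or.inr (eq_neg_of_add_eq_zero_left h6)
  · intro h0
    by_cases hv0 : v = 0
    · exact Or.inl hv0
    · right
      have h7 := r.EF v
      rw [h0, map_zero, hκ] at h7
      have h8 : (f - e') ((e - f') v) = -(κ • v) := (neg_eq_of_add_eq_zero_left h7.symm).symm
      rw [h8] at c0
      have h4 : ((κ + l) * (κ - (l + 2))) • v = 0 := by
        have h5 : ((κ + l) * (κ - (l + 2))) • v =
            (κ • κ • v + (2 : ℂ) • κ • v + (4 : ℂ) • -(κ • v)) - ((l : ℂ) * (l + 2)) • v := by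
          module
        rw [h5, c0, sub_self]
      rcases mul_eq_zero.1 ((smul_eq_zero.1 h4).resolve_right hv0) with h6 | h6
      · exact Or.inl (eq_neg_of_add_eq_zero_left h6)
      · exact Or.inr (sub_eq_zero.1 h6)

end

end Pool.Agent.Work.MP_dd0ddf_al.CW
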