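import Pool.Agent.Work.MP_dd0ddf_al.CW.Defs
import Pool.Agent.Work.MP_dd0ddf_al.CW.Swe

/-!
# the diagonal part of a vector operator

Q = H P0 + Pm E + F Pp + Pp F + E Pm (notation of `Swe`) commutes with E, F, H (computation with the commutators), hence with C; so Q commutes with every Pi T: by (p7) applied twice
Pi T (Q w) is a finite sum of Pi T (Q Pi_l w), |l - T| <= 4, and C Pi_T Q Pi_l w = T(T+2)(..), also = Pi_T Q C Pi_l w = l(l+2)(..), so only l = T remains.
Let v = Pi T v, H v = kap v, y = Pi T P0 v, y+ = Pi T Pp v, y- = Pi T Pm v, c = T(T+2).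
By `swe` with l = T: E y = kap y+, F y = kap y- , E y- = Pi T Pm E v + y, F y+ = Pi T Pp F v - y.
(1) Pi T Q v = kap y + (E y- - y) + F y+ + (F y+ + y) + E y- = kap y + 2 E y- + 2 F y+.
(2) E y- = F y+ + y: apply `swe` to E v (weight kap+2, type T): F Pi T P0 E v = (kap+2) Pi T Pm E v and Pi T P0 E v = (kap+2) y+, so (kap+2)(F y+ - Pi T Pm E v) = 0; if kap /= -2: F y+ = E y- - y.
    If kap = -2 use F v (weight kap-2): E Pi T P0 F v = (kap-2) Pi T Pp F v, Pi T P0 F v = (kap-2) y-, so (kap-2)(E y- - Pi T Pp F v) = 0 and Pi T Pp F v = F y+ + y.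
(3) c y = kap Pi T Q v: C y = c y, H y = kap y.  kap Pi T Q v = kap^2 y + 2 E F y + 2 F E y = C y (as EF - FE = H).
(4) Pi T Q v = (kap+2) y + 4 F y+, so E Pi T Q v = (kap+2) kap y+ + 4 E F y+ = (kap+2)(kap+4) y+ + 4 F E y+ = C y+ = c y+ (y+ has weight kap+2, type T).
(5) Pi T Q v = (kap-2) y + 4 E y-, F Pi T Q v = (kap-2) kap y- + 4 F E y- = C y- = c y- (y- has weight kap-2).
(6) if T = 0: v has type 0, so kap = 0 or v = 0 (p6), E v = F v = 0 (weights +-2 do not occur in type 0), y+ = y- = 0 (weights +-2), y = E y- - Pi Pm E v = 0.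
-/

set_option linter.unusedSectionVars false

namespace Pool.Agent.Work.MP_dd0ddf_al.CW

open scoped Matrix.Norms.Elementwise ComplexConjugate ContDiff Topology
open Matrix MeasureTheory Filter
open Pool.Agent.Work.MP_dd0ddf_al.AR

noncomputable section

variable {M : Type*} [AddCommGroup M] [Module ℂ M] {e f h e' f' h' : Module.End ℂ M}
  {Pi : ℕ → Module.End ℂ M}

/-- the pointwise relations -/
private structure Rel (e f h e' f' h' : Module.End ℂ M) : Prop where
  he : ∀ w, h (e w) = e (h w) + (2 : ℂ) • e w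
  hf : ∀ w, h (f w) = f (h w) - (2 : ℂ) • f w
  ef : ∀ w, e (f w) = f (e w) + h w
  he' : ∀ w, h' (e' w) = e' (h' w) + (2 : ℂ) • e' w
  hf' : ∀ w, h' (f' w) = f' (h' w) - (2 : ℂ) • f' w
  ef' : ∀ w, e' (f' w) = f' (e' w) + h' w
  c1 : ∀ w, e (e' w) = e' (e w)
  c2 : ∀ w, e (f' w) = f' (e w)
  c3 : ∀ w, e (h' w) = h' (e w)
  c4 : ∀ w, f (e' w) = e' (f w)
  c5 : ∀ w, f (f' w) = f' (f w)
  c6 : ∀ w, f (h' w) = h' (f w)
  c7 : ∀ w, h (e' w) = e' (h w)
  c8 : ∀ w, h (f' w) = f' (h w)
  c9 : ∀ w, h (h' w) = h' (h w)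

private theorem two_nsmul_end (x : Module.End ℂ M) (w : M) : (2 • x) w = (2 : ℂ) • x w := by
  rw [LinearMap.smul_apply, ← Nat.cast_smul_eq_nsmul ℂ]
  norm_num

private theorem rel (hS : SlS e f h e' f' h' Pi) : Rel e f h e' f' h' := by
  have key : ∀ x ∈ ({e, f, h} : Set (Module.End ℂ M)),
      ∀ y ∈ ({e', f', h'} : Set (Module.End ℂ M)), ∀ w, x (y w) = y (x w) := by
    intro x hx y hy w
    exact LinearMap.congr_fun (hS.cm x hx y hy) w
  refine ⟨?_, ?_, ?_, ?_, ?_, ?_, ?_, ?_, ?_, ?_, ?_, ?_, ?_, ?_, ?_⟩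
  · intro w
    have h1 := LinearMap.congr_fun hS.he w
    rw [two_nsmul_end] at h1
    change h (e w) - e (h w) = _ at h1
    rw [← h1]
    abel
  · intro w
    have h1 := LinearMap.congr_fun hS.hf w
    rw [LinearMap.neg_apply, two_nsmul_end] at h1
    change h (f w) - f (h w) = _ at h1
    rw [sub_eq_add_neg, ← h1]
    abel
  · intro w
    have h1 := LinearMap.congr_fun hS.ef w
    change e (f w) - f (e w) = _ at h1
    rw [← h1]
    abel
  · intro w
    have h1 := LinearMap.congr_fun hS.he' w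
    rw [two_nsmul_end] at h1
    change h' (e' w) - e' (h' w) = _ at h1
    rw [← h1]
    abel
  · intro w
    have h1 := LinearMap.congr_fun hS.hf' w
    rw [LinearMap.neg_apply, two_nsmul_end] at h1
    change h' (f' w) - f' (h' w) = _ at h1
    rw [sub_eq_add_neg, ← h1]
    abel
  · intro w
    have h1 := LinearMap.congr_fun hS.ef' w
    change e' (f' w) - f' (e' w) = _ at h1
    rw [← h1]
    abel
  all_goals exact key _ (by simp) _ (by simp)

private structure Rel2 (e f h e' f' h' : Module.End ℂ M) : Prop where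
  HE : ∀ w, (h - h') ((e - f') w) = (e - f') ((h - h') w) + (2 : ℂ) • (e - f') w
  HF : ∀ w, (h - h') ((f - e') w) = (f - e') ((h - h') w) - (2 : ℂ) • (f - e') w
  EF : ∀ w, (e - f') ((f - e') w) = (f - e') ((e - f') w) + (h - h') w
  HPp : ∀ w, (h - h') ((e + f') w) = (e + f') ((h - h') w) + (2 : ℂ) • (e + f') w
  HPm : ∀ w, (h - h') ((f + e') w) = (f + e') ((h - h') w) - (2 : ℂ) • (f + e') w
  EPp : ∀ w, (e - f') ((e + f') w) = (e + f') ((e - f') w)
  FPm : ∀ w, (f - e') ((f + e') w) = (f + e') ((f - e') w)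
  EP0 : ∀ w, (e - f') ((h + h') w) = (h + h') ((e - f') w) - (2 : ℂ) • (e + f') w
  FP0 : ∀ w, (f - e') ((h + h') w) = (h + h') ((f - e') w) + (2 : ℂ) • (f + e') w
  EPm : ∀ w, (e - f') ((f + e') w) = (f + e') ((e - f') w) + (h + h') w
  FPp : ∀ w, (f - e') ((e + f') w) = (e + f') ((f - e') w) - (h + h') w

private theorem rel2 (r : Rel e f h e' f' h') : Rel2 e f h e' f' h' := by
  refine ⟨?_, ?_, ?_, ?_, ?_, ?_, ?_, ?_, ?_, ?_, ?_⟩ <;> intro w <;>
    simp only [LinearMap.sub_apply, LinearMap.add_apply, map_sub, map_add, r.he, r.hf, r.ef,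
      r.he', r.hf', r.ef', r.c1, r.c2, r.c3, r.c4, r.c5, r.c6, r.c7, r.c8] <;> module

private theorem cas (hS : SlS e f h e' f' h' Pi) (l : ℕ) (w : M) :
    (h - h') ((h - h') (Pi l w)) + (2 : ℂ) • (h - h') (Pi l w) +
      (4 : ℂ) • (f - e') ((e - f') (Pi l w)) = ((l : ℂ) * (l + 2)) • Pi l w := by
  have h1 := LinearMap.congr_fun (hS.p5 l) w
  rw [LinearMap.smul_apply] at h1
  rw [← h1]
  have h2 : (4 • ((f - e') * (e - f'))) (Pi l w) = (4 : ℂ) • (f - e') ((e - f') (Pi l w)) := by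
    rw [LinearMap.smul_apply, ← Nat.cast_smul_eq_nsmul ℂ]
    norm_num
  change _ = ((h - h') * (h - h')) (Pi l w) + (2 • (h - h')) (Pi l w) +
    (4 • ((f - e') * (e - f'))) (Pi l w)
  rw [h2, two_nsmul_end]
  rfl

private theorem cE (hS : SlS e f h e' f' h' Pi) (l : ℕ) (w : M) :
    (e - f') (Pi l w) = Pi l ((e - f') w) :=
  LinearMap.congr_fun (hS.p4 (e - f') (by simp) l) w

private theorem cF (hS : SlS e f h e' f' h' Pi) (l : ℕ) (w : M) :
    (f - e') (Pi l w) = Pi l ((f - e') w) :=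
  LinearMap.congr_fun (hS.p4 (f - e') (by simp) l) w

private theorem cH (hS : SlS e f h e' f' h' Pi) (l : ℕ) (w : M) :
    (h - h') (Pi l w) = Pi l ((h - h') w) :=
  LinearMap.congr_fun (hS.p4 (h - h') (by simp) l) w

/-- the Casimir operator commutes with the projectors -/
private theorem cas2 (hS : SlS e f h e' f' h' Pi) (l : ℕ) (w : M) :
    Pi l ((h - h') ((h - h') w) + (2 : ℂ) • (h - h') w + (4 : ℂ) • (f - e') ((e - f') w)) =
      ((l : ℂ) * (l + 2)) • Pi l w := by
  rw [← cas hS l w, cE hS, cF hS, cH hS, cH hS, map_add, map_add, map_smul, map_smul]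

/-- operators which change the type by at most two -/
private def Loc (Pi : ℕ → Module.End ℂ M) (x : Module.End ℂ M) : Prop :=
  ∀ (m : ℕ) (w : M), Pi m (x w) = Pi m (x (Pi m w)) + Pi m (x (Pi (m + 2) w)) +
      (if 2 ≤ m then Pi m (x (Pi (m - 2) w)) else 0)

private theorem Loc.add {x y : Module.End ℂ M} (hx : Loc Pi x) (hy : Loc Pi y) :
    Loc Pi (x + y) := by
  intro m w
  simp only [LinearMap.add_apply, map_add]
  rw [hx m w, hy m w]
  split_ifs <;> abel

private theorem Loc.sub {x y : Module.End ℂ M} (hx : Loc Pi x) (hy : Loc Pi y) :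
    Loc Pi (x - y) := by
  intro m w
  simp only [LinearMap.sub_apply, map_sub]
  rw [hx m w, hy m w]
  split_ifs <;> abel

private theorem Loc.mulr {x y : Module.End ℂ M} (hx : Loc Pi x)
    (hy : ∀ l w, y (Pi l w) = Pi l (y w)) : Loc Pi (x * y) := by
  intro m w
  simp only [Module.End.mul_apply]
  rw [hx m (y w), hy, hy, hy]

private theorem Loc.mull {x y : Module.End ℂ M} (hx : Loc Pi x)
    (hy : ∀ l w, y (Pi l w) = Pi l (y w)) : Loc Pi (y * x) := by
  intro m w
  simp only [Module.End.mul_apply]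
  rw [← hy, hx m w, map_add, map_add, hy, hy]
  split_ifs
  · rw [hy]
  · rw [map_zero]

private theorem swd_apply {Q : Module.End ℂ M}
    (hQ : Q = (h - h') * (h + h') + (f + e') * (e - f') + (f - e') * (e + f') +
      (e + f') * (f - e') + (e - f') * (f + e')) (w : M) :
    Q w = (h - h') ((h + h') w) + (f + e') ((e - f') w) + (f - e') ((e + f') w) +
      (e + f') ((f - e') w) + (e - f') ((f + e') w) := by
  rw [hQ]
  rfl

private theorem swd_HP0 (hS : SlS e f h e' f' h' Pi) (w : M) :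
    (h - h') ((h + h') w) = (h + h') ((h - h') w) := by
  have r := rel hS
  simp only [LinearMap.sub_apply, LinearMap.add_apply, map_sub, map_add, r.c9]
  module

private theorem swd_QE (hS : SlS e f h e' f' h' Pi) {Q : Module.End ℂ M}
    (hQ : Q = (h - h') * (h + h') + (f + e') * (e - f') + (f - e') * (e + f') +
      (e + f') * (f - e') + (e - f') * (f + e')) (w : M) :
    Q ((e - f') w) = (e - f') (Q w) := by
  have r := rel2 (rel hS)
  have r0 := swd_HP0 hS
  rw [swd_apply hQ, swd_apply hQ]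
  simp only [map_add, map_sub, map_smul, r.HE, r.HF, r.EF, r.HPp, r.HPm, r.EPp, r.FPm, r.EP0,
    r.FP0, r.EPm, r.FPp, r0]
  module

private theorem swd_QF (hS : SlS e f h e' f' h' Pi) {Q : Module.End ℂ M}
    (hQ : Q = (h - h') * (h + h') + (f + e') * (e - f') + (f - e') * (e + f') +
      (e + f') * (f - e') + (e - f') * (f + e')) (w : M) :
    Q ((f - e') w) = (f - e') (Q w) := by
  have r := rel2 (rel hS)
  have r0 := swd_HP0 hS
  rw [swd_apply hQ, swd_apply hQ]
  simp only [map_add, map_sub, map_smul, r.HE, r.HF, r.EF, r.HPp, r.HPm, r.EPp, r.FPm, r.EP0,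
    r.FP0, r.EPm, r.FPp, r0]
  module

private theorem swd_QH (hS : SlS e f h e' f' h' Pi) {Q : Module.End ℂ M}
    (hQ : Q = (h - h') * (h + h') + (f + e') * (e - f') + (f - e') * (e + f') +
      (e + f') * (f - e') + (e - f') * (f + e')) (w : M) :
    Q ((h - h') w) = (h - h') (Q w) := by
  have r := rel2 (rel hS)
  have r0 := swd_HP0 hS
  rw [swd_apply hQ, swd_apply hQ]
  simp only [map_add, map_sub, map_smul, r.HE, r.HF, r.EF, r.HPp, r.HPm, r.EPp, r.FPm, r.EP0,
    r.FP0, r.EPm, r.FPp, r0]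
  module


private theorem swd_loc (hS : SlS e f h e' f' h' Pi) {Q : Module.End ℂ M}
    (hQ : Q = (h - h') * (h + h') + (f + e') * (e - f') + (f - e') * (e + f') +
      (e + f') * (f - e') + (e - f') * (f + e')) : Loc Pi Q := by
  have lx : ∀ x ∈ ({e, f, h, e', f', h'} : Set (Module.End ℂ M)), Loc Pi x :=
    fun x hx m w => hS.p7 x hx m w
  have le : Loc Pi e := lx _ (by simp)
  have lf : Loc Pi f := lx _ (by simp)
  have lh : Loc Pi h := lx _ (by simp)
  have le' : Loc Pi e' := lx _ (by simp)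
  have lf' : Loc Pi f' := lx _ (by simp)
  have lh' : Loc Pi h' := lx _ (by simp)
  rw [hQ]
  exact (((((lh.add lh').mull (cH hS)).add ((lf.add le').mulr (cE hS))).add
    ((le.add lf').mull (cF hS))).add ((le.add lf').mulr (cF hS))).add
    ((lf.add le').mull (cE hS))

private theorem swd_QPi (hS : SlS e f h e' f' h' Pi) {Q : Module.End ℂ M}
    (hQ : Q = (h - h') * (h + h') + (f + e') * (e - f') + (f - e') * (e + f') +
      (e + f') * (f - e') + (e - f') * (f + e')) (T : ℕ) (w : M) : Q (Pi T w) = Pi T (Q w) := by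
  -- different types
  have hdiff : ∀ (m l : ℕ) (w : M), m ≠ l → Pi m (Q (Pi l w)) = 0 := by
    intro m l w hml
    have h1 := cas2 hS m (Q (Pi l w))
    have h2 : (h - h') ((h - h') (Q (Pi l w))) + (2 : ℂ) • (h - h') (Q (Pi l w)) +
        (4 : ℂ) • (f - e') ((e - f') (Q (Pi l w))) = ((l : ℂ) * (l + 2)) • Q (Pi l w) := by
      rw [← map_smul Q, ← cas hS l w, map_add, map_add, map_smul, map_smul, swd_QH hS hQ,
        swd_QH hS hQ, swd_QF hS hQ, swd_QE hS hQ]
    rw [h2, map_smul] at h1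
    have h3 : (((l : ℂ) * (l + 2)) - ((m : ℂ) * (m + 2))) • Pi m (Q (Pi l w)) = 0 := by
      rw [sub_smul, h1, sub_self]
    have h4 : (((l : ℂ) * (l + 2)) - ((m : ℂ) * (m + 2))) ≠ 0 := by
      have h5 : (((l : ℂ) * (l + 2)) - ((m : ℂ) * (m + 2))) = ((l : ℂ) - m) * (l + m + 2) := by
        ring
      rw [h5]
      refine mul_ne_zero ?_ ?_
      · intro h6
        exact hml (by exact_mod_cast (sub_eq_zero.1 h6).symm)
      · exact_mod_cast Nat.succ_ne_zero (l + m + 1)
    exact (smul_eq_zero.1 h3).resolve_left h4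
  have hsame : ∀ (m : ℕ) (w : M), Pi m (Q w) = Pi m (Q (Pi m w)) := by
    intro m w
    have h1 := swd_loc hS hQ m w
    rw [hdiff m (m + 2) w (by omega), add_zero] at h1
    split_ifs at h1 with h2
    · rw [hdiff m (m - 2) w (by omega), add_zero] at h1
      exact h1
    · rw [add_zero] at h1
      exact h1
  have hpp : ∀ (m : ℕ) (w : M), Pi m (Pi m w) = Pi m w := by
    intro m w
    have h1 := LinearMap.congr_fun (hS.p1 m m) w
    rw [if_pos rfl] at h1
    exact h1
  have hpq : ∀ (m l : ℕ) (w : M), m ≠ l → Pi m (Pi l w) = 0 := by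
    intro m l w hml
    have h1 := LinearMap.congr_fun (hS.p1 m l) w
    rw [if_neg hml] at h1
    exact h1
  have h0 : Q (Pi T w) - Pi T (Q w) = 0 := by
    apply hS.p2
    intro m
    rw [map_sub]
    by_cases hm : m = T
    · subst hm
      rw [hpp, hsame m w, sub_self]
    · rw [hdiff m T w hm, hpq m T _ hm, sub_self]
  exact sub_eq_zero.1 h0

theorem swd (hS : SlS e f h e' f' h' Pi) (T : ℕ) (v : M) (hv : Pi T v = v) (κ : ℂ)
    (hκ : (h - h') v = κ • v) (Q : Module.End ℂ M)
    (hQ : Q = (h - h') * (h + h') + (f + e') * (e - f') + (f - e') * (e + f') +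
      (e + f') * (f - e') + (e - f') * (f + e')) :
    (((T : ℂ) * (T + 2)) • Pi T ((h + h') v) = κ • Q v) ∧
    (((T : ℂ) * (T + 2)) • Pi T ((e + f') v) = (e - f') (Q v)) ∧
    (((T : ℂ) * (T + 2)) • Pi T ((f + e') v) = (f - e') (Q v)) ∧
    (T = 0 → Pi T ((h + h') v) = 0 ∧ Pi T ((e + f') v) = 0 ∧ Pi T ((f + e') v) = 0) := by
  have r := rel2 (rel hS)
  have r0 := swd_HP0 hS
  -- the vectors `E v`, `F v`
  have hEv : Pi T ((e - f') v) = (e - f') v := by rw [← cE hS, hv]
  have hFv : Pi T ((f - e') v) = (f - e') v := by rw [← cF hS, hv]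
  have hκE : (h - h') ((e - f') v) = (κ + 2) • (e - f') v := by
    rw [r.HE, hκ, map_smul]
    module
  have hκF : (h - h') ((f - e') v) = (κ - 2) • (f - e') v := by
    rw [r.HF, hκ, map_smul]
    module
  obtain ⟨s1, s2, s3, s4, s5, s6⟩ := swe hS T T v hv κ hκ
  obtain ⟨-, -, t3, t4, -, -⟩ := swe hS T T ((e - f') v) hEv (κ + 2) hκE
  obtain ⟨u1, u2, -, -, -, -⟩ := swe hS T T ((f - e') v) hFv (κ - 2) hκF
  obtain ⟨y, hy⟩ : ∃ y, y = Pi T ((h + h') v) := ⟨_, rfl⟩
  obtain ⟨yp, hyp⟩ : ∃ y, y = Pi T ((e + f') v) := ⟨_, rfl⟩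
  obtain ⟨ym, hym⟩ : ∃ y, y = Pi T ((f + e') v) := ⟨_, rfl⟩
  obtain ⟨pe, hpe⟩ : ∃ y, y = Pi T ((f + e') ((e - f') v)) := ⟨_, rfl⟩
  obtain ⟨pf, hpf⟩ : ∃ y, y = Pi T ((e + f') ((f - e') v)) := ⟨_, rfl⟩
  have four : (4 : ℂ) ≠ 0 := by norm_num
  have e1 : Pi T ((h + h') ((e - f') v)) = (κ + 2) • yp := by
    have h1 : (4 : ℂ) • Pi T ((h + h') ((e - f') v)) = (4 : ℂ) • ((κ + 2) • yp) := by
      rw [s1, hyp]
      module
    exact smul_right_injective M four h1
  have e3 : Pi T ((h + h') ((f - e') v)) = (κ - 2) • ym := by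
    have h1 : (4 : ℂ) • Pi T ((h + h') ((f - e') v)) = (4 : ℂ) • ((κ - 2) • ym) := by
      rw [s3, hym]
      module
    exact smul_right_injective M four h1
  have e2 : (e - f') y = κ • yp := by
    rw [hy, s2, e1, ← hyp]
    module
  have e4 : (f - e') y = κ • ym := by
    rw [hy, s4, e3, ← hym]
    module
  have e5 : (e - f') ym = pe + y := by rw [hym, s5, ← hpe, ← hy]
  have e6 : (f - e') yp = pf - y := by rw [hyp, s6, ← hpf, ← hy]
  have wy : (h - h') y = κ • y := by
    rw [hy, cH hS, r0, hκ, map_smul, map_smul]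
  have wyp : (h - h') yp = (κ + 2) • yp := by
    rw [hyp, cH hS, r.HPp, hκ, map_add, map_smul, map_smul, map_smul]
    module
  have wym : (h - h') ym = (κ - 2) • ym := by
    rw [hym, cH hS, r.HPm, hκ, map_sub, map_smul, map_smul, map_smul]
    module
  -- relation (2)
  have key : (e - f') ym = (f - e') yp + y := by
    by_cases h2 : κ = -2
    · have h3 : (4 : ℂ) • Pi T ((h + h') ((e - f') ((f - e') v))) =
          (4 : ℂ) • (κ • pf) := by
        rw [u1, hpf]
        module
      have h4 := smul_right_injective M four h3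
      rw [h4, e3, map_smul, ← hpf] at u2
      have h5 : (κ - 2) • (e - f') ym = (κ - 2) • pf := by
        rw [u2]
        module
      have h6 : (κ - 2) ≠ 0 := by
        rw [h2]
        norm_num
      have h7 : (e - f') ym = pf := smul_right_injective M h6 h5
      rw [h7, e6]
      abel
    · have h3 : (4 : ℂ) • Pi T ((h + h') ((f - e') ((e - f') v))) =
          (4 : ℂ) • (κ • pe) := by
        rw [t3, hpe]
        module
      have h4 := smul_right_injective M four h3
      rw [h4, e1, map_smul, ← hpe] at t4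
      have h5 : (κ + 2) • (f - e') yp = (κ + 2) • pe := by
        rw [t4]
        module
      have h6 : (κ + 2) ≠ 0 := by
        intro h7
        exact h2 (eq_neg_of_add_eq_zero_left h7)
      have h7 : (f - e') yp = pe := smul_right_injective M h6 h5
      rw [h7, e5]
  -- `Q v`
  have hQv : Q v = κ • y + (2 : ℂ) • (e - f') ym + (2 : ℂ) • (f - e') yp := by
    have h1 : Q v = Pi T (Q v) := by
      rw [← swd_QPi hS hQ, hv]
    rw [h1, swd_apply hQ, map_add, map_add, map_add, map_add, ← cH hS, ← cF hS, ← cE hS, ← hy,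
      ← hpe, ← hyp, ← hpf, ← hym, wy, e5, e6]
    module
  have cy := cas hS T ((h + h') v)
  rw [← hy, wy, map_smul, wy, e2, map_smul] at cy
  have cyp := cas hS T ((e + f') v)
  rw [← hyp, wyp, map_smul, wyp] at cyp
  have cym := cas hS T ((f + e') v)
  rw [← hym, wym, map_smul, wym] at cym
  refine ⟨?_, ?_, ?_, ?_⟩
  · rw [← hy, ← cy, hQv, key]
    module
  · rw [← hyp, ← cyp, hQv, key]
    have h1 : (e - f') ((f - e') yp) = (f - e') ((e - f') yp) + (κ + 2) • yp := by
      rw [r.EF, wyp]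
    simp only [map_add, map_smul, h1, e2]
    module
  · rw [← hym, ← cym, hQv]
    have h1 : (f - e') yp = (e - f') ym - y := by
      rw [key]
      abel
    rw [h1]
    simp only [map_add, map_sub, map_smul, e4]
    module
  · intro hT
    rw [← hy, ← hyp, ← hym]
    have hzero : ∀ (w : M) (μ : ℂ), (h - h') (Pi T w) = μ • Pi T w → μ ≠ 0 → Pi T w = 0 := by
      intro w μ hw hμ
      by_contra hne
      obtain ⟨j, hj, hj2⟩ := hS.p6 T w μ hw hne
      apply hμ
      rw [hj2, hT]
      have : j = 0 := by omega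
      rw [this]
      norm_num
    by_cases hκ0 : κ = 0
    · have hE0 : (e - f') v = 0 := by
        have h1 := hzero ((e - f') v) (κ + 2) (by rw [hEv, hκE]) (by rw [hκ0]; norm_num)
        rwa [hEv] at h1
      have hF0 : (f - e') v = 0 := by
        have h1 := hzero ((f - e') v) (κ - 2) (by rw [hFv, hκF]) (by rw [hκ0]; norm_num)
        rwa [hFv] at h1
      have hp0 : yp = 0 := by
        rw [hyp]
        exact hzero _ (κ + 2) (by rw [← hyp, wyp]) (by rw [hκ0]; norm_num)
      have hm0 : ym = 0 := by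
        rw [hym]
        exact hzero _ (κ - 2) (by rw [← hym, wym]) (by rw [hκ0]; norm_num)
      refine ⟨?_, hp0, hm0⟩
      have h1 : pe = 0 := by rw [hpe, hE0, map_zero, map_zero]
      rw [hm0, map_zero, h1, zero_add] at e5
      exact e5.symm
    · have hv0 : v = 0 := by
        have h1 := hzero v κ (by rw [hv, hκ]) hκ0
        rwa [hv] at h1
      rw [hy, hyp, hym, hv0]
      refine ⟨?_, ?_, ?_⟩ <;> rw [map_zero, map_zero]

theorem swd_comm (hS : SlS e f h e' f' h' Pi) (Q : Module.End ℂ M)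
    (hQ : Q = (h - h') * (h + h') + (f + e') * (e - f') + (f - e') * (e + f') +
      (e + f') * (f - e') + (e - f') * (f + e')) :
    Q * (e - f') = (e - f') * Q ∧ Q * (f - e') = (f - e') * Q ∧ Q * (h - h') = (h - h') * Q ∧
    ∀ T, Q * Pi T = Pi T * Q :=
  ⟨LinearMap.ext (swd_QE hS hQ), LinearMap.ext (swd_QF hS hQ), LinearMap.ext (swd_QH hS hQ),
    fun T => LinearMap.ext (swd_QPi hS hQ T)⟩

end

end Pool.Agent.Work.MP_dd0ddf_al.CW
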