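import Pool.Agent.Work.MP_dd0ddf_al.CW.Defs
import Pool.Agent.Work.MP_dd0ddf_al.CW.Swe
import Pool.Agent.Work.MP_dd0ddf_al.CW.Swd

/-!
# the vector operators on the components of a highest weight vector

Notation of `Swe`, `Swd`; u_T = Pi T u.
(0) Q u = kap S u: Q u = kap (S-2) u + Pm E u + F Pp u + Pp F u + E Pm u; Pm E u = E Pm u - P0 u = E F u - (S-2) u, F Pp u = -F E u, Pp F u = F Pp u + P0 u = -F E u + (S-2) u, E Pm u = E F u;
    the sum is kap (S-2) u + 2 (EF - FE) u = kap S u.  So Q u_T = kap S u_T (`swd_comm`).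
(1) third and fourth statement: `swd` for v = u_T (weight kap since H commutes with Pi T).
(2) Let x = Pi T P0 u_(T-2) (0 if T < 2), y = Pi T P0 u_T, z = Pi T P0 u_(T+2).  By (p7) for h and h': x + y + z = Pi T P0 u = (S-2) u_T.
(3) [C,P0] = 8 (Pm E - F Pp).  [C,P0] u = 8 (E F u - (S-2) u + F E u) = 4 (C - kap^2) u - 8 (S-2) u (2 EF + 2 FE = C - H^2).  So P0 C u = (S-6) C u + 4 kap^2 u + 8 (S-2) u.  Pi T, (p7), and
    Pi_l C u = l(l+2) u_l: (T-2)T x + T(T+2) y + (T+2)(T+4) z = ((S-6) T (T+2) + 4 kap^2 + 8 (S-2)) u_T   (for T < 2: x = 0).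
(4) T(T+2) y = kap^2 S u_T.  For T >= 2 eliminate: subtract (T-2)T times (2) from (3): 8(T+1) z + (T(T+2) - T(T-2)) y = ..., multiply by T+2 and insert (4):
    8(T+1)(T+2) z = 4 (S-T-2)((T+2)^2 - kap^2) u_T, then x from (2):  2T(T+1) x = (S+T)(T^2-kap^2) u_T.
    T = 1: u_1 = 0 or kap^2 = 1 (p6), x = 0, 3 y = kap^2 S u_1, z = (S-2) u_1 - y: 12 z = (S-3)(9-kap^2) u_1 ok.  T = 0: u_0 = 0 or kap = 0, x = y = 0 (swd, last item), z = (S-2) u_0: 4 z = (S-2) 4 u_0 ok.
-/

set_option linter.unusedSectionVars false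

namespace Pool.Agent.Work.MP_dd0ddf_al.CW

open scoped Matrix.Norms.Elementwise ComplexConjugate ContDiff Topology
open Matrix MeasureTheory Filter
open Pool.Agent.Work.MP_dd0ddf_al.AR

noncomputable section

variable {M : Type*} [AddCommGroup M] [Module ℂ M] {e f h e' f' h' : Module.End ℂ M}
  {Pi : ℕ → Module.End ℂ M}

private theorem cEF (hS : SlS e f h e' f' h' Pi) :
    (e - f') * (f - e') - (f - e') * (e - f') = h - h' := by
  have h1 := hS.ef
  have h2 := hS.ef'
  have h3 : e * e' = e' * e := hS.cm e (by simp) e' (by simp)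
  have h4 : f * f' = f' * f := hS.cm f (by simp) f' (by simp)
  linear_combination (norm := noncomm_ring) h1 - h2 - h3 + h4

private theorem cEPm (hS : SlS e f h e' f' h' Pi) :
    (e - f') * (f + e') - (f + e') * (e - f') = h + h' := by
  have h1 := hS.ef
  have h2 := hS.ef'
  have h3 : e * e' = e' * e := hS.cm e (by simp) e' (by simp)
  have h4 : f * f' = f' * f := hS.cm f (by simp) f' (by simp)
  linear_combination (norm := noncomm_ring) h1 + h2 + h3 + h4

private theorem cFPp (hS : SlS e f h e' f' h' Pi) :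
    (f - e') * (e + f') - (e + f') * (f - e') = -(h + h') := by
  have h1 := hS.ef
  have h2 := hS.ef'
  have h3 : e * e' = e' * e := hS.cm e (by simp) e' (by simp)
  have h4 : f * f' = f' * f := hS.cm f (by simp) f' (by simp)
  linear_combination (norm := noncomm_ring) -h1 - h2 + h3 + h4

private theorem cEP0 (hS : SlS e f h e' f' h' Pi) :
    (e - f') * (h + h') - (h + h') * (e - f') = -(2 • (e + f')) := by
  have h1 := hS.he
  have h2 := hS.hf'
  have h3 : e * h' = h' * e := hS.cm e (by simp) h' (by simp)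
  have h4 : h * f' = f' * h := hS.cm h (by simp) f' (by simp)
  linear_combination (norm := noncomm_ring) -h1 + h2 + h3 + h4

private theorem cFP0 (hS : SlS e f h e' f' h' Pi) :
    (f - e') * (h + h') - (h + h') * (f - e') = 2 • (f + e') := by
  have h1 := hS.hf
  have h2 := hS.he'
  have h3 : f * h' = h' * f := hS.cm f (by simp) h' (by simp)
  have h4 : h * e' = e' * h := hS.cm h (by simp) e' (by simp)
  linear_combination (norm := noncomm_ring) -h1 + h2 + h3 + h4

private theorem cHP0 (hS : SlS e f h e' f' h' Pi) :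
    (h - h') * (h + h') = (h + h') * (h - h') := by
  have h3 : h * h' = h' * h := hS.cm h (by simp) h' (by simp)
  linear_combination (norm := noncomm_ring) 2 * h3


/-- basic facts on the component `Pi T u` -/
private theorem comp (hS : SlS e f h e' f' h' Pi) (u : M) (κ : ℂ) (hH : (h - h') u = κ • u)
    (T : ℕ) : Pi T (Pi T u) = Pi T u ∧ (h - h') (Pi T u) = κ • Pi T u := by
  refine ⟨?_, ?_⟩
  · have h1 := hS.p1 T T
    rw [if_pos rfl] at h1
    have h2 := congrArg (fun A : Module.End ℂ M => A u) h1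
    exact h2
  · have h1 := hS.p4 (h - h') (by simp) T
    have h2 := congrArg (fun A : Module.End ℂ M => A u) h1
    simp only [Module.End.mul_apply] at h2
    rw [h2, hH, map_smul]

/-- `E F u - F E u = κ u` -/
private theorem efu (hS : SlS e f h e' f' h' Pi) (u : M) (κ : ℂ) (hH : (h - h') u = κ • u) :
    (e - f') ((f - e') u) - (f - e') ((e - f') u) = κ • u := by
  have h1 := congrArg (fun A : Module.End ℂ M => A u) (cEF hS)
  simp only [LinearMap.sub_apply, Module.End.mul_apply] at h1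
  simp only [LinearMap.sub_apply] at hH ⊢
  rw [h1, hH]

/-- the invariant operator on u -/
theorem sso_Q (hS : SlS e f h e' f' h' Pi) (u : M) (κ S : ℂ) (hH : (h - h') u = κ • u)
    (hp : (e + f') u = -((e - f') u)) (hm : (f + e') u = (f - e') u)
    (h0 : (h + h') u = (S - 2) • u) (Q : Module.End ℂ M)
    (hQ : Q = (h - h') * (h + h') + (f + e') * (e - f') + (f - e') * (e + f') +
      (e + f') * (f - e') + (e - f') * (f + e')) (T : ℕ) :
    Q (Pi T u) = (κ * S) • Pi T u := by
  obtain ⟨-, -, -, hc⟩ := swd_comm hS Q hQ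
  have h1 : Q (Pi T u) = Pi T (Q u) := by
    have h2 := congrArg (fun A : Module.End ℂ M => A u) (hc T)
    exact h2
  rw [h1]
  have hE : Q u = (κ * S) • u := by
    have e1 := efu hS u κ hH
    set E : Module.End ℂ M := e - f' with hEd
    set F : Module.End ℂ M := f - e' with hFd
    set H : Module.End ℂ M := h - h' with hHd
    set Pp : Module.End ℂ M := e + f' with hPp
    set Pm : Module.End ℂ M := f + e' with hPm
    set P0 : Module.End ℂ M := h + h' with hP0
    have hq : Q u = H (P0 u) + Pm (E u) + F (Pp u) + Pp (F u) + E (Pm u) := by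
      rw [hQ]
      simp only [LinearMap.add_apply, Module.End.mul_apply]
    have f1 : Pm (E u) = E (F u) - (S - 2) • u := by
      have h2 := congrArg (fun A : Module.End ℂ M => A u) (cEPm hS)
      have h3 : E (Pm u) - Pm (E u) = P0 u := h2
      rw [hm, h0] at h3
      rw [← h3]
      abel
    have f2 : Pp (F u) = -(F (E u)) + (S - 2) • u := by
      have h2 := congrArg (fun A : Module.End ℂ M => A u) (cFPp hS)
      have h3 : F (Pp u) - Pp (F u) = -(P0 u) := h2
      rw [hp, h0, map_neg] at h3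
      have h4 : Pp (F u) = -(F (E u)) - (-(F (E u)) - Pp (F u)) := by abel
      rw [h4, h3]
      abel
    rw [hq, h0, map_smul, hH, f1, f2, hp, hm, map_neg]
    have e2 : E (F u) = κ • u + F (E u) := by
      rw [← e1]
      abel
    rw [e2]
    module
  rw [hE, map_smul]

/-- the projection of `P0` onto the components, twice -/
private theorem proj (hS : SlS e f h e' f' h' Pi) (w : M) (T : ℕ) :
    Pi T ((h + h') w) = Pi T ((h + h') (Pi T w)) + Pi T ((h + h') (Pi (T + 2) w)) +
      (if 2 ≤ T then Pi T ((h + h') (Pi (T - 2) w)) else 0) := by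
  have h1 := hS.p7 h (by simp) T w
  have h2 := hS.p7 h' (by simp) T w
  simp only [LinearMap.add_apply, map_add]
  rw [h1, h2]
  split_ifs
  · abel
  · abel

/-- the Casimir operator -/
private def Cs (e f h e' f' h' : Module.End ℂ M) : Module.End ℂ M :=
  (h - h') * (h - h') + 2 • (h - h') + 4 • ((f - e') * (e - f'))

private theorem Cs_comp (hS : SlS e f h e' f' h' Pi) (w : M) (l : ℕ) :
    Pi l (Cs e f h e' f' h' w) = ((l : ℂ) * (l + 2)) • Pi l w := by
  have h1 := congrArg (fun A : Module.End ℂ M => A w) (hS.p5 l)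
  have hc : Cs e f h e' f' h' (Pi l w) = ((l : ℂ) * (l + 2)) • Pi l w := h1
  rw [← hc]
  have q1 : ∀ v, Pi l ((h - h') v) = (h - h') (Pi l v) := fun v =>
    (congrArg (fun A : Module.End ℂ M => A v) (hS.p4 (h - h') (by simp) l)).symm
  have q2 : ∀ v, Pi l ((e - f') v) = (e - f') (Pi l v) := fun v =>
    (congrArg (fun A : Module.End ℂ M => A v) (hS.p4 (e - f') (by simp) l)).symm
  have q3 : ∀ v, Pi l ((f - e') v) = (f - e') (Pi l v) := fun v =>
    (congrArg (fun A : Module.End ℂ M => A v) (hS.p4 (f - e') (by simp) l)).symm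
  set E : Module.End ℂ M := e - f' with hEd
  set F : Module.End ℂ M := f - e' with hFd
  set H : Module.End ℂ M := h - h' with hHd
  have hx : ∀ v, Cs e f h e' f' h' v = H (H v) + 2 • H v + 4 • F (E v) := by
    intro v
    unfold Cs
    simp only [LinearMap.add_apply, Module.End.mul_apply, LinearMap.smul_apply]
    rfl
  rw [hx, hx, map_add, map_add, map_nsmul, map_nsmul, q1, q1, q3, q2]

/-- `P0 C u = (S - 6) C u + (4 κ^2 + 8 (S - 2)) u` -/
private theorem P0C (hS : SlS e f h e' f' h' Pi) (u : M) (κ S : ℂ) (hH : (h - h') u = κ • u)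
    (hp : (e + f') u = -((e - f') u)) (hm : (f + e') u = (f - e') u)
    (h0 : (h + h') u = (S - 2) • u) :
    (h + h') (Cs e f h e' f' h' u) =
      (S - 6) • Cs e f h e' f' h' u + (4 * κ ^ 2 + 8 * (S - 2)) • u := by
  have e1 := efu hS u κ hH
  have c1 := cHP0 hS
  have c2 := cEP0 hS
  have c3 := cFP0 hS
  have c4 := cEPm hS
  have c5 := cFPp hS
  set E : Module.End ℂ M := e - f' with hEd
  set F : Module.End ℂ M := f - e' with hFd
  set H : Module.End ℂ M := h - h' with hHd
  set Pp : Module.End ℂ M := e + f' with hPp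
  set Pm : Module.End ℂ M := f + e' with hPm
  set P0 : Module.End ℂ M := h + h' with hP0
  have hx : ∀ v, Cs e f h e' f' h' v = H (H v) + (2 : ℂ) • H v + (4 : ℂ) • F (E v) := by
    intro v
    unfold Cs
    rw [← hEd, ← hFd, ← hHd]
    simp only [LinearMap.add_apply, Module.End.mul_apply, LinearMap.smul_apply]
    rw [ofNat_smul_eq_nsmul ℂ 2, ofNat_smul_eq_nsmul ℂ 4]
  have d1 : ∀ v, H (P0 v) = P0 (H v) := fun v =>
    congrArg (fun A : Module.End ℂ M => A v) c1
  have d2 : ∀ v, E (P0 v) - P0 (E v) = -((2 : ℂ) • Pp v) := by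
    intro v
    have := congrArg (fun A : Module.End ℂ M => A v) c2
    rw [ofNat_smul_eq_nsmul ℂ 2]
    exact this
  have d3 : ∀ v, F (P0 v) - P0 (F v) = (2 : ℂ) • Pm v := by
    intro v
    have := congrArg (fun A : Module.End ℂ M => A v) c3
    rw [ofNat_smul_eq_nsmul ℂ 2]
    exact this
  have f1 : Pm (E u) = E (F u) - (S - 2) • u := by
    have h2 := congrArg (fun A : Module.End ℂ M => A u) c4
    have h3 : E (Pm u) - Pm (E u) = P0 u := h2
    rw [hm, h0] at h3
    rw [← h3]
    abel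
  have g1 : P0 (F (E u)) = F (P0 (E u)) - (2 : ℂ) • Pm (E u) := by
    rw [← d3 (E u)]
    abel
  have g2 : P0 (E u) = E (P0 u) + (2 : ℂ) • Pp u := by
    have := d2 u
    have h4 : P0 (E u) = E (P0 u) - (E (P0 u) - P0 (E u)) := by abel
    rw [h4, this]
    module
  have g3 : P0 (E u) = (S - 4) • E u := by
    rw [g2, h0, map_smul, hp]
    module
  have e2 : E (F u) = κ • u + F (E u) := by
    rw [← e1]
    abel
  rw [hx, map_add, map_add, map_smul, map_smul, ← d1, ← d1, h0, map_smul, hH, g1, g3, f1, e2]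
  simp only [map_smul, hH]
  module

theorem sso (hS : SlS e f h e' f' h' Pi) (u : M) (κ S : ℂ) (hH : (h - h') u = κ • u)
    (hp : (e + f') u = -((e - f') u)) (hm : (f + e') u = (f - e') u)
    (h0 : (h + h') u = (S - 2) • u) (T : ℕ) :
    (2 ≤ T → (2 * (T : ℂ) * (T + 1)) • Pi T ((h + h') (Pi (T - 2) u)) =
      ((S + T) * ((T : ℂ) ^ 2 - κ ^ 2)) • Pi T u) ∧
    ((2 * ((T : ℂ) + 1) * (T + 2)) • Pi T ((h + h') (Pi (T + 2) u)) =
      ((S - T - 2) * (((T : ℂ) + 2) ^ 2 - κ ^ 2)) • Pi T u) ∧
    (((T : ℂ) * (T + 2)) • Pi T ((h + h') (Pi T u)) = (κ ^ 2 * S) • Pi T u) ∧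
    (((T : ℂ) * (T + 2)) • Pi T ((e + f') (Pi T u)) = (κ * S) • (e - f') (Pi T u)) ∧
    (((T : ℂ) * (T + 2)) • Pi T ((f + e') (Pi T u)) = (κ * S) • (f - e') (Pi T u)) ∧
    (T = 0 → Pi T ((h + h') (Pi T u)) = 0 ∧ Pi T ((e + f') (Pi T u)) = 0 ∧
      Pi T ((f + e') (Pi T u)) = 0) := by
  obtain ⟨hc1, hc2⟩ := comp hS u κ hH T
  obtain ⟨s1, s2, s3, s4⟩ := swd hS T (Pi T u) hc1 κ hc2 _ rfl
  have hq := sso_Q hS u κ S hH hp hm h0 _ rfl T
  rw [hq] at s1 s2 s3
  have t3 : ((T : ℂ) * (T + 2)) • Pi T ((h + h') (Pi T u)) = (κ ^ 2 * S) • Pi T u := by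
    rw [s1, smul_smul]
    congr 1
    ring
  -- the two equations (2) and (3)
  have k2 := proj hS u T
  rw [h0, map_smul] at k2
  have k3 := proj hS (Cs e f h e' f' h' u) T
  rw [P0C hS u κ S hH hp hm h0, map_add, map_smul, map_smul, Cs_comp hS u T,
    Cs_comp hS u (T + 2), Cs_comp hS u (T - 2), map_smul, map_smul, map_smul, map_smul,
    map_smul, map_smul] at k3
  have hN1 : (T : ℂ) + 1 ≠ 0 := by exact_mod_cast Nat.succ_ne_zero T
  have hN2 : (T : ℂ) + 2 ≠ 0 := by
    have : ((T + 2 : ℕ) : ℂ) ≠ 0 := by exact_mod_cast (by omega : T + 2 ≠ 0)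
    push_cast at this
    exact this
  have key : (2 ≤ T → (2 * (T : ℂ) * (T + 1)) • Pi T ((h + h') (Pi (T - 2) u)) =
      ((S + T) * ((T : ℂ) ^ 2 - κ ^ 2)) • Pi T u) ∧
    ((2 * ((T : ℂ) + 1) * (T + 2)) • Pi T ((h + h') (Pi (T + 2) u)) =
      ((S - T - 2) * (((T : ℂ) + 2) ^ 2 - κ ^ 2)) • Pi T u) := by
    set y := Pi T ((h + h') (Pi T u)) with hy
    set z := Pi T ((h + h') (Pi (T + 2) u)) with hz
    set x := Pi T ((h + h') (Pi (T - 2) u)) with hxd
    set v := Pi T u with hvd
    by_cases h2T : 2 ≤ T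
    · rw [if_pos h2T] at k2 k3
      have hcast : ((T - 2 : ℕ) : ℂ) = (T : ℂ) - 2 := by
        rw [Nat.cast_sub h2T]
        norm_num
      rw [hcast] at k3
      push_cast at k3
      have z2 : (2 * ((T : ℂ) + 1) * (T + 2)) • z =
          ((S - T - 2) * (((T : ℂ) + 2) ^ 2 - κ ^ 2)) • v := by
        have : (4 : ℂ) • ((2 * ((T : ℂ) + 1) * (T + 2)) • z -
          ((S - T - 2) * (((T : ℂ) + 2) ^ 2 - κ ^ 2)) • v) = 0 := by
          linear_combination (norm := module) (-((T : ℂ) + 2)) • k3 +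
            (((T : ℂ) + 2) * ((T : ℂ) - 2) * T) • k2 - (4 : ℂ) • t3
        have h4 : (4 : ℂ) ≠ 0 := by norm_num
        exact sub_eq_zero.mp ((smul_eq_zero.mp this).resolve_left h4)
      refine ⟨fun _ => ?_, z2⟩
      have : ((T : ℂ) + 2) • ((2 * (T : ℂ) * (T + 1)) • x -
          ((S + T) * ((T : ℂ) ^ 2 - κ ^ 2)) • v) = 0 := by
        linear_combination (norm := module) (-(2 * (T : ℂ) * (T + 1) * (T + 2))) • k2 -
          (2 * ((T : ℂ) + 1)) • t3 - (T : ℂ) • z2
      exact sub_eq_zero.mp ((smul_eq_zero.mp this).resolve_left hN2)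
    · rw [if_neg h2T] at k2 k3
      refine ⟨fun hh => absurd hh h2T, ?_⟩
      have hT : T = 0 ∨ T = 1 := by omega
      by_cases hv0 : v = 0
      · rw [hv0, smul_zero] at k2
        rw [hv0, smul_zero]
        have hyz : z = 0 := by
          have hy0 : y = 0 := by
            rw [hy, hv0]
            simp
          rw [hy0, zero_add, add_zero] at k2
          exact k2.symm
        rw [hyz, smul_zero]
      · obtain ⟨j, hj, hκj⟩ := hS.p6 T u κ hc2 hv0
        rcases hT with hT | hT
        · subst hT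
          have hj0 : j = 0 := by omega
          have hκ0 : κ = 0 := by
            rw [hκj, hj0]
            simp
          have hy0 : y = 0 := (s4 rfl).1
          rw [hy0] at k2
          rw [hκ0]
          push_cast
          linear_combination (norm := module) (-(4 : ℂ)) • k2
        · subst hT
          have hκ2 : κ ^ 2 = 1 := by
            have hj01 : j = 0 ∨ j = 1 := by omega
            rcases hj01 with hj0 | hj0
            · rw [hκj, hj0]
              norm_num
            · rw [hκj, hj0]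
              norm_num
          rw [hκ2] at t3 ⊢
          push_cast at t3 ⊢
          linear_combination (norm := module) (-(12 : ℂ)) • k2 - (4 : ℂ) • t3
  rw [map_smul] at s2 s3
  exact ⟨key.1, key.2, t3, s2, s3, s4⟩

end

end Pool.Agent.Work.MP_dd0ddf_al.CW
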