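import Pool.Agent.Work.MP_dd0ddf_al.CW.Defs
import Pool.Agent.Work.MP_dd0ddf_al.CW.Swe
import Pool.Agent.Work.MP_dd0ddf_al.CW.Swd
import Pool.Agent.Work.MP_dd0ddf_al.CW.Sso

/-!
# the left reflected vector

Notation of `Swe`; u_T = Pi T u, u_T = 0 for T < l0, S = -l0, l0 = kap + 2p = -kap + 2r.  By (p6) u_T /= 0 implies T = kap mod 2, so T = l0 + 2k.  Let a = E^p; E^p u_T has weight l0, type T.
Define d on l0 + 2k: d(l0) = 1, d(l+2) (l+2-kap)(l+2+l0) = d(l) (l+2-l0)(l+2+kap) (all factors nonzero for l >= l0: l + 2 - kap >= l0 + 2 - kap = 2p + 2 > 0, l+2+kap >= 2r+2), so d(l) /= 0; d(T) = 0 otherwise.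
up: (p3) with x T = d(T) E^p u_T.  Pi T up = d(T) E^p u_T, H up = l0 up.
(0) iterated relations.  For v of type l, weight kap (v = u_l), and j with kap_j = kap + 2j:
    up (T = l+2): items 1,2 of `swe` give Pi T P0 E w = ((l - k')/(l + 2 - k')) E Pi T P0 w for w of weight k' (k' /= l+2), so Pi T P0 E^p u_l = ((l+2-l0)/(l+2-kap)) E^p Pi T P0 u_l  (telescoping product; l >= l0 > kap_j).
    down (T = l-2): Pi T P0 E w = ((l + k' + 2)/(l + k')) E Pi T P0 w (l + k' > 0), so Pi T P0 E^p u_l = ((l + l0)/(l + kap)) E^p Pi T P0 u_l.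
    diagonal: Q E^p u_T = E^p Q u_T = -kap l0 E^p u_T (`sso_Q`, `swd_comm`), so by `swd`: T(T+2) Pi T P0 E^p u_T = -kap l0^2 E^p u_T, T(T+2) Pi T Pp E^p u_T = -kap l0 E^(p+1) u_T,
    T(T+2) Pi T Pm E^p u_T = -kap l0 F E^p u_T  (T >= l0 >= 1).
(1) P0 up = (-kap-2) up.  T >= l0: with x, z from `sso` (S = -l0): 2T(T+1) x = (T-l0)(T^2-kap^2) u_T, 2(T+1)(T+2) z = -(T+2+l0)((T+2)^2-kap^2) u_T:
    x-term: d(T-2) ((T-l0)/(T-kap)) E^p x = d(T) (T^2-l0^2)(T-kap)/(2T(T+1)) E^p u_T (recursion at l = T-2; if T = l0 both sides 0),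
    z-term: d(T+2) ((T+2+l0)/(T+2+kap)) E^p z = -d(T) ((T+2)^2-l0^2)(T+2+kap)/(2(T+1)(T+2)) E^p u_T.
    (T^2-l0^2)(T-kap)/(2T(T+1)) - kap l0^2/(T(T+2)) - ((T+2)^2-l0^2)(T+2+kap)/(2(T+1)(T+2)) = -kap - 2   (field_simp; ring).
    T < l0: Pi T up = 0 and Pi T P0 up = d(T+2) Pi T P0 E^p u_(T+2), only T + 2 = l0, has weight l0 > T: 0 (p6).
(2) Pp up = -E up.  T >= l0: Pi T Pp E^p u_(T-2): item 2 up: E Pi T P0 w = -(T - k'') Pi T Pp w for w of weight k'' = l0, type T-2; T > l0 there (d(T-2) /= 0 needs T-2 >= l0): = -(1/(T-kap)) E^(p+1) x;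
    Pi T Pp E^p u_(T+2) = (1/(T+2+l0)) E Pi T P0 E^p u_(T+2) = (1/(T+2+kap)) E^(p+1) z.
    Sum/d(T): -[(T-kap)(T+l0)(T+2) + 2 kap l0 (T+1) + T(T+2-l0)(T+2+kap)]/(2T(T+1)(T+2)) = -1.   T < l0: weight l0+2 > T, zero.
(3) Pm up = F up.  T >= l0: item 4 up: F Pi T P0 w = (T + l0) Pi T Pm w (w type T-2, weight l0); down: F Pi T P0 w = -(T+2-l0) Pi T Pm w (w type T+2), T+2-l0 > 0.
    Sum/d(T) = [(T-kap)(T-l0)(T+2) - 2 kap l0 (T+1) + T(T+2+l0)(T+2+kap)]/(2T(T+1)(T+2)) = 1.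
    T < l0: only T = l0 - 2 matters: need Pi T Pm E^p u_(l0) = 0 (Pi T (F up) = 0).  By `sso` (B) at T = l0-2 and u_T = 0: Pi T P0 u_(l0) = 0.  Hence by items 1-4 (l = l0, T = l0-2; the factors l0 + kap, l0 - kap are
    nonzero) Pi T Pp u_l0 = Pi T Pm u_l0 = Pi T P0 E u_l0 = 0; inductively Pi T P0 E^j u_l0 = 0 (as in (0)) and Pi T Pm E^(j+1) u_l0 = E Pi T Pm E^j u_l0 - Pi T P0 E^j u_l0 = 0 (item 5).
(4) u /= 0: some u_T /= 0, T >= l0; E^p u_T /= 0 by `swe_wt` (weights kap, kap+2, ..., l0-2 are /= T, /= -(T+2)), d(T) /= 0, so up /= 0.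
-/

set_option linter.unusedSectionVars false

namespace Pool.Agent.Work.MP_dd0ddf_al.CW

open scoped Matrix.Norms.Elementwise ComplexConjugate ContDiff Topology
open Matrix MeasureTheory Filter
open Pool.Agent.Work.MP_dd0ddf_al.AR

noncomputable section

variable {M : Type*} [AddCommGroup M] [Module ℂ M] {e f h e' f' h' : Module.End ℂ M}
  {Pi : ℕ → Module.End ℂ M}

/-- the relations of the vector operators -/
private structure Vr (E F H A B C : Module.End ℂ M) (Pi : ℕ → Module.End ℂ M) : Prop where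
  cE : ∀ T w, Pi T (E w) = E (Pi T w)
  cF : ∀ T w, Pi T (F w) = F (Pi T w)
  cH : ∀ T w, Pi T (H w) = H (Pi T w)
  pp : ∀ l w, Pi l (Pi l w) = Pi l w
  sep : ∀ w, (∀ l, Pi l w = 0) → w = 0
  glue : ∀ x : ℕ → M, ∃ w, ∀ l, Pi l w = Pi l (x l)
  wt : ∀ (l : ℕ) (w : M) (κ : ℂ), Pi l w = w → H w = κ • w → w ≠ 0 →
    ∃ j : ℕ, j ≤ l ∧ κ = (l : ℂ) - 2 * j
  locA : ∀ m w, Pi m (A w) = Pi m (A (Pi m w)) + Pi m (A (Pi (m + 2) w)) +
    (if 2 ≤ m then Pi m (A (Pi (m - 2) w)) else 0)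
  locB : ∀ m w, Pi m (B w) = Pi m (B (Pi m w)) + Pi m (B (Pi (m + 2) w)) +
    (if 2 ≤ m then Pi m (B (Pi (m - 2) w)) else 0)
  locC : ∀ m w, Pi m (C w) = Pi m (C (Pi m w)) + Pi m (C (Pi (m + 2) w)) +
    (if 2 ≤ m then Pi m (C (Pi (m - 2) w)) else 0)
  wE : ∀ (v : M) (κ : ℂ), H v = κ • v → H (E v) = (κ + 2) • E v
  wA : ∀ (v : M) (κ : ℂ), H v = κ • v → H (A v) = (κ + 2) • A v
  wC : ∀ (v : M) (κ : ℂ), H v = κ • v → H (C v) = κ • C v
  inj : ∀ (l : ℕ) (v : M) (κ : ℂ), Pi l v = v → H v = κ • v → E v = 0 →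
    v = 0 ∨ κ = l ∨ κ = -((l : ℂ) + 2)
  s : ∀ (l T : ℕ) (v : M) (κ : ℂ), Pi l v = v → H v = κ • v →
    ((4 : ℂ) • Pi T (C (E v)) = (4 * κ + 8 - ((T : ℂ) * (T + 2) - l * (l + 2))) • Pi T (A v)) ∧
    (E (Pi T (C v)) = Pi T (C (E v)) - (2 : ℂ) • Pi T (A v)) ∧
    ((4 : ℂ) • Pi T (C (F v)) = (4 * κ - 8 + ((T : ℂ) * (T + 2) - l * (l + 2))) • Pi T (B v)) ∧
    (F (Pi T (C v)) = Pi T (C (F v)) + (2 : ℂ) • Pi T (B v)) ∧
    (E (Pi T (B v)) = Pi T (B (E v)) + Pi T (C v))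

private lemma vr_of (hS : SlS e f h e' f' h' Pi) :
    Vr (e - f') (f - e') (h - h') (e + f') (f + e') (h + h') Pi := by
  have ap : ∀ {X Y : Module.End ℂ M}, X = Y → ∀ v, X v = Y v := fun hXY v => by rw [hXY]
  have hp4 : ∀ x ∈ ({e - f', f - e', h - h'} : Set (Module.End ℂ M)), ∀ T w,
      Pi T (x w) = x (Pi T w) := by
    intro x hx T w
    have := ap (hS.p4 x hx T) w
    exact this.symm
  have hcm : ∀ x ∈ ({e, f, h} : Set (Module.End ℂ M)), ∀ y ∈ ({e', f', h'} : Set (Module.End ℂ M)),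
      ∀ w, x (y w) = y (x w) := fun x hx y hy w => ap (hS.cm x hx y hy) w
  have r1 : ∀ w, h (e w) = e (h w) + (2 : ℂ) • e w := by
    intro w
    have h1 := ap hS.he w
    simp only [LinearMap.sub_apply, Module.End.mul_apply, LinearMap.smul_apply] at h1
    linear_combination (norm := module) h1
  have r2 : ∀ w, h' (f' w) = f' (h' w) - (2 : ℂ) • f' w := by
    intro w
    have h1 := ap hS.hf' w
    simp only [LinearMap.sub_apply, Module.End.mul_apply, LinearMap.smul_apply,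
      LinearMap.neg_apply] at h1
    linear_combination (norm := module) h1
  have hh : ∀ w, h (f' w) = f' (h w) := fun w => hcm h (by simp) f' (by simp) w
  have he2 : ∀ w, e (h' w) = h' (e w) := fun w => hcm e (by simp) h' (by simp) w
  have hh2 : ∀ w, h (h' w) = h' (h w) := fun w => hcm h (by simp) h' (by simp) w
  refine
    { cE := hp4 _ (by simp)
      cF := hp4 _ (by simp)
      cH := hp4 _ (by simp)
      pp := ?_
      sep := hS.p2
      glue := hS.p3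
      wt := ?_
      locA := ?_
      locB := ?_
      locC := ?_
      wE := ?_
      wA := ?_
      wC := ?_
      inj := ?_
      s := ?_ }
  · intro l w
    have := ap (hS.p1 l l) w
    simpa using this
  · intro l w κ h1 h2 h3
    exact hS.p6 l w κ (by rw [h1]; exact h2) (by rw [h1]; exact h3)
  · intro m w
    have a1 := hS.p7 e (by simp) m w
    have a2 := hS.p7 f' (by simp) m w
    simp only [LinearMap.add_apply, map_add]
    rw [a1, a2]
    split_ifs <;> abel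
  · intro m w
    have a1 := hS.p7 f (by simp) m w
    have a2 := hS.p7 e' (by simp) m w
    simp only [LinearMap.add_apply, map_add]
    rw [a1, a2]
    split_ifs <;> abel
  · intro m w
    have a1 := hS.p7 h (by simp) m w
    have a2 := hS.p7 h' (by simp) m w
    simp only [LinearMap.add_apply, map_add]
    rw [a1, a2]
    split_ifs <;> abel
  · intro v κ hv
    have h1 := congrArg e hv
    have h2 := congrArg f' hv
    simp only [LinearMap.sub_apply, map_sub, map_smul] at h1 h2 ⊢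
    rw [r1, r2, hh, ← he2]
    linear_combination (norm := module) h1 - h2
  · intro v κ hv
    have h1 := congrArg e hv
    have h2 := congrArg f' hv
    simp only [LinearMap.sub_apply, LinearMap.add_apply, map_sub, map_add, map_smul] at h1 h2 ⊢
    rw [r1, r2, hh, ← he2]
    linear_combination (norm := module) h1 + h2
  · intro v κ hv
    have h1 := congrArg h hv
    have h2 := congrArg h' hv
    simp only [LinearMap.sub_apply, LinearMap.add_apply, map_sub, map_add, map_smul] at h1 h2 ⊢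
    rw [hh2] at h1 ⊢
    linear_combination (norm := module) h1 + h2
  · intro l v κ h1 h2 h3
    exact (swe_wt hS l v h1 κ h2).2.2.2.2.1 h3
  · intro l T v κ h1 h2
    obtain ⟨a1, a2, a3, a4, a5, -⟩ := swe hS l T v h1 κ h2
    exact ⟨a1, a2, a3, a4, a5⟩

section Rel

variable {E F H A B C : Module.End ℂ M}

private lemma pow_app (E : Module.End ℂ M) (j : ℕ) (v : M) : (E ^ (j + 1)) v = E ((E ^ j) v) := by
  rw [pow_succ', Module.End.mul_apply]

private lemma can4 {x y : M} (h : (4 : ℂ) • x = (4 : ℂ) • y) : x = y := by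
  have h4 : (4 : ℂ) ≠ 0 := by norm_num
  exact (smul_right_injective M h4) h

private lemma canz {x y : M} {a : ℂ} (ha : a ≠ 0) (h : a • x = a • y) : x = y :=
  (smul_right_injective M ha) h

/-- powers -/
private lemma powE (V : Vr E F H A B C Pi) {l : ℕ} {v : M} (hv : Pi l v = v) {κ : ℂ}
    (hκ : H v = κ • v) (j : ℕ) :
    Pi l ((E ^ j) v) = (E ^ j) v ∧ H ((E ^ j) v) = (κ + 2 * j) • (E ^ j) v := by
  induction j with
  | zero => simp [hv, hκ]
  | succ j ih =>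
    rw [pow_app]
    refine ⟨by rw [V.cE, ih.1], ?_⟩
    rw [V.wE _ _ ih.2]
    congr 1
    push_cast
    ring

private lemma up_step (V : Vr E F H A B C Pi) {l : ℕ} {w : M} (hw : Pi l w = w) {k : ℂ}
    (hk : H w = k • w) :
    (((l : ℂ) + 2 - k) • Pi (l + 2) (C (E w)) = ((l : ℂ) - k) • E (Pi (l + 2) (C w))) ∧
    (E (Pi (l + 2) (C w)) = (k - l - 2) • Pi (l + 2) (A w)) ∧
    (F (Pi (l + 2) (C w)) = (k + l + 2) • Pi (l + 2) (B w)) := by
  obtain ⟨a1, a2, a3, a4, -⟩ := V.s l (l + 2) w k hw hk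
  push_cast at a1 a3
  have b1 : Pi (l + 2) (C (E w)) = (k - l) • Pi (l + 2) (A w) := by
    apply can4
    rw [a1]
    module
  have b3 : Pi (l + 2) (C (F w)) = (k + l) • Pi (l + 2) (B w) := by
    apply can4
    rw [a3]
    module
  refine ⟨?_, ?_, ?_⟩
  · rw [a2, b1]
    module
  · rw [a2, b1]
    module
  · rw [a4, b3]
    module

private lemma dn_step (V : Vr E F H A B C Pi) {T : ℕ} {w : M} (hw : Pi (T + 2) w = w) {k : ℂ}
    (hk : H w = k • w) :
    (((T : ℂ) + 2 + k) • Pi T (C (E w)) = ((T : ℂ) + 2 + k + 2) • E (Pi T (C w))) ∧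
    (E (Pi T (C w)) = ((T : ℂ) + 2 + k) • Pi T (A w)) ∧
    (F (Pi T (C w)) = (k - T - 2) • Pi T (B w)) := by
  obtain ⟨a1, a2, a3, a4, -⟩ := V.s (T + 2) T w k hw hk
  push_cast at a1 a3
  have b1 : Pi T (C (E w)) = ((T : ℂ) + 2 + k + 2) • Pi T (A w) := by
    apply can4
    rw [a1]
    module
  have b3 : Pi T (C (F w)) = (k - T - 4) • Pi T (B w) := by
    apply can4
    rw [a3]
    module
  refine ⟨?_, ?_, ?_⟩
  · rw [a2, b1]
    module
  · rw [a2, b1]
    module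
  · rw [a4, b3]
    module

private lemma up_iter (V : Vr E F H A B C Pi) {l : ℕ} {v : M} (hv : Pi l v = v) {κ : ℂ}
    (hκ : H v = κ • v) (p : ℕ) (hne : ∀ i < p, (l : ℂ) + 2 - κ - 2 * i ≠ 0) :
    ((l : ℂ) + 2 - κ) • Pi (l + 2) (C ((E ^ p) v)) =
      ((l : ℂ) + 2 - κ - 2 * p) • (E ^ p) (Pi (l + 2) (C v)) := by
  induction p with
  | zero => simp
  | succ j ih =>
    have ih' := ih (fun i hi => hne i (by omega))
    obtain ⟨w1, w2⟩ := powE V hv hκ j
    obtain ⟨s1, -, -⟩ := up_step V w1 w2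
    rw [pow_app, pow_app]
    have h1 := congrArg E ih'
    rw [map_smul, map_smul] at h1
    apply canz (hne j (by omega))
    have e1 : ((l : ℂ) + 2 - κ - 2 * j) = (l : ℂ) + 2 - (κ + 2 * j) := by ring
    calc ((l : ℂ) + 2 - κ - 2 * j) • ((l : ℂ) + 2 - κ) • Pi (l + 2) (C (E ((E ^ j) v)))
        = ((l : ℂ) + 2 - κ) • (((l : ℂ) + 2 - (κ + 2 * j)) • Pi (l + 2) (C (E ((E ^ j) v)))) := by
          rw [e1]
          module
      _ = ((l : ℂ) - (κ + 2 * j)) • (((l : ℂ) + 2 - κ) • E (Pi (l + 2) (C ((E ^ j) v)))) := by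
          rw [s1]
          module
      _ = _ := by
          rw [h1]
          push_cast
          module

private lemma dn_iter (V : Vr E F H A B C Pi) {T : ℕ} {v : M} (hv : Pi (T + 2) v = v) {κ : ℂ}
    (hκ : H v = κ • v) (p : ℕ) (hne : ∀ i < p, (T : ℂ) + 2 + κ + 2 * i ≠ 0) :
    ((T : ℂ) + 2 + κ) • Pi T (C ((E ^ p) v)) =
      ((T : ℂ) + 2 + κ + 2 * p) • (E ^ p) (Pi T (C v)) := by
  induction p with
  | zero => simp
  | succ j ih =>
    have ih' := ih (fun i hi => hne i (by omega))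
    obtain ⟨w1, w2⟩ := powE V hv hκ j
    obtain ⟨s1, -, -⟩ := dn_step V w1 w2
    rw [pow_app, pow_app]
    have h1 := congrArg E ih'
    rw [map_smul, map_smul] at h1
    apply canz (hne j (by omega))
    have e1 : ((T : ℂ) + 2 + κ + 2 * j) = (T : ℂ) + 2 + (κ + 2 * j) := by ring
    calc ((T : ℂ) + 2 + κ + 2 * j) • ((T : ℂ) + 2 + κ) • Pi T (C (E ((E ^ j) v)))
        = ((T : ℂ) + 2 + κ) • (((T : ℂ) + 2 + (κ + 2 * j)) • Pi T (C (E ((E ^ j) v)))) := by
          rw [e1]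
          module
      _ = ((T : ℂ) + 2 + (κ + 2 * j) + 2) • (((T : ℂ) + 2 + κ) • E (Pi T (C ((E ^ j) v)))) := by
          rw [s1]
          module
      _ = _ := by
          rw [h1]
          push_cast
          module

private lemma low_lem (V : Vr E F H A B C Pi) (p r s : ℕ) (hp : 1 ≤ p) {v w : M}
    (hv : Pi (p + r + s) v = v) {κ : ℂ} (hκ : H v = κ • v) (hκ' : κ = (r : ℂ) - p)
    (hx : (2 * ((p : ℂ) + r + s + 2) * ((p : ℂ) + r + s + 3)) • Pi (p + r + s + 2) (C v) =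
      (((s : ℂ) + 2) * ((2 * (p : ℂ) + s + 2) * (2 * (r : ℂ) + s + 2))) • w) :
    (Pi (p + r + s + 2) (C ((E ^ p) v)) = (((s : ℂ) + 2) ^ 2 * (2 * (r : ℂ) + s + 2) /
      (2 * ((p : ℂ) + r + s + 2) * ((p : ℂ) + r + s + 3))) • (E ^ p) w) ∧
    (Pi (p + r + s + 2) (A ((E ^ p) v)) = (-(((s : ℂ) + 2) * (2 * (r : ℂ) + s + 2) /
      (2 * ((p : ℂ) + r + s + 2) * ((p : ℂ) + r + s + 3)))) • E ((E ^ p) w)) ∧
    (Pi (p + r + s + 2) (B ((E ^ p) v)) = (((s : ℂ) + 2) ^ 2 * (2 * (r : ℂ) + s + 2) /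
      (2 * ((p : ℂ) + r + s + 2) * ((p : ℂ) + r + s + 3) * (2 * (p : ℂ) + 2 * r + s + 2))) •
        F ((E ^ p) w)) := by
  have n1 : ((p : ℂ) + r + s + 2) ≠ 0 := by exact_mod_cast (by omega : p + r + s + 2 ≠ 0)
  have n2 : ((p : ℂ) + r + s + 3) ≠ 0 := by exact_mod_cast (by omega : p + r + s + 3 ≠ 0)
  have n3 : (2 * (p : ℂ) + s + 2) ≠ 0 := by exact_mod_cast (by omega : 2 * p + s + 2 ≠ 0)
  have n4 : (2 * (r : ℂ) + s + 2) ≠ 0 := by exact_mod_cast (by omega : 2 * r + s + 2 ≠ 0)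
  have n5 : (2 * (p : ℂ) + 2 * r + s + 2) ≠ 0 := by
    exact_mod_cast (by omega : 2 * p + 2 * r + s + 2 ≠ 0)
  have n6 : ((s : ℂ) + 2) ≠ 0 := by exact_mod_cast (by omega : s + 2 ≠ 0)
  have n7 : (2 * ((p : ℂ) + r) + s + 2) ≠ 0 := by
    exact_mod_cast (by omega : 2 * (p + r) + s + 2 ≠ 0)
  have hit := up_iter V hv hκ p (by
    intro i hi
    have e : (((p + r + s : ℕ) : ℂ) + 2 - κ - 2 * i) = ((2 * (p - i) + s + 2 : ℕ) : ℂ) := by
      rw [hκ']
      push_cast [Nat.cast_sub hi.le]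
      ring
    rw [e]
    exact_mod_cast (by omega : 2 * (p - i) + s + 2 ≠ 0))
  have e1 : (((p + r + s : ℕ) : ℂ) + 2 - κ) = 2 * (p : ℂ) + s + 2 := by
    rw [hκ']
    push_cast
    ring
  have e2 : (2 * (p : ℂ) + s + 2 - 2 * p) = (s : ℂ) + 2 := by ring
  rw [e1, e2] at hit
  have hx2 := congrArg (E ^ p) hx
  rw [map_smul, map_smul] at hx2
  have hC : Pi (p + r + s + 2) (C ((E ^ p) v)) = (((s : ℂ) + 2) ^ 2 * (2 * (r : ℂ) + s + 2) /
      (2 * ((p : ℂ) + r + s + 2) * ((p : ℂ) + r + s + 3))) • (E ^ p) w := by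
    apply canz (mul_ne_zero (mul_ne_zero (mul_ne_zero two_ne_zero n1) n2) n3)
    calc (2 * ((p : ℂ) + r + s + 2) * ((p : ℂ) + r + s + 3) * (2 * (p : ℂ) + s + 2)) •
          Pi (p + r + s + 2) (C ((E ^ p) v))
        = (2 * ((p : ℂ) + r + s + 2) * ((p : ℂ) + r + s + 3)) • ((2 * (p : ℂ) + s + 2) •
          Pi (p + r + s + 2) (C ((E ^ p) v))) := by rw [smul_smul]
      _ = ((s : ℂ) + 2) • ((2 * ((p : ℂ) + r + s + 2) * ((p : ℂ) + r + s + 3)) •
          (E ^ p) (Pi (p + r + s + 2) (C v))) := by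
          rw [hit, smul_smul, smul_smul, mul_comm]
      _ = _ := by
          rw [hx2, smul_smul, smul_smul]
          congr 1
          field_simp
  obtain ⟨w1, w2⟩ := powE V hv hκ p
  obtain ⟨-, s2, s3⟩ := up_step V w1 w2
  have e3 : (κ + 2 * (p : ℂ) - ((p + r + s : ℕ) : ℂ) - 2) = -((s : ℂ) + 2) := by
    rw [hκ']
    push_cast
    ring
  have e4 : (κ + 2 * (p : ℂ) + ((p + r + s : ℕ) : ℂ) + 2) = 2 * (p : ℂ) + 2 * r + s + 2 := by
    rw [hκ']
    push_cast
    ring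
  rw [hC, map_smul, e3] at s2
  rw [hC, map_smul, e4] at s3
  refine ⟨hC, ?_, ?_⟩
  · apply canz (neg_ne_zero.mpr n6)
    rw [← s2, smul_smul]
    congr 1
    field_simp
  · apply canz n5
    rw [← s3, smul_smul]
    congr 1
    field_simp

private lemma high_lem (V : Vr E F H A B C Pi) (p r t : ℕ) (hp : 1 ≤ p) (hr : 1 ≤ r) {v w : M}
    (hv : Pi (p + r + t + 2) v = v) {κ : ℂ} (hκ : H v = κ • v) (hκ' : κ = (r : ℂ) - p)
    (hx : (2 * ((p : ℂ) + r + t + 1) * ((p : ℂ) + r + t + 2)) • Pi (p + r + t) (C v) =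
      (-((2 * (p : ℂ) + 2 * r + t + 2) * ((2 * (p : ℂ) + t + 2) * (2 * (r : ℂ) + t + 2)))) • w) :
    (Pi (p + r + t) (C ((E ^ p) v)) = (-((2 * (p : ℂ) + 2 * r + t + 2) ^ 2 *
      (2 * (p : ℂ) + t + 2) /
      (2 * ((p : ℂ) + r + t + 1) * ((p : ℂ) + r + t + 2)))) • (E ^ p) w) ∧
    (Pi (p + r + t) (A ((E ^ p) v)) = (-((2 * (p : ℂ) + 2 * r + t + 2) *
      (2 * (p : ℂ) + t + 2) /
      (2 * ((p : ℂ) + r + t + 1) * ((p : ℂ) + r + t + 2)))) • E ((E ^ p) w)) ∧
    (Pi (p + r + t) (B ((E ^ p) v)) = ((2 * (p : ℂ) + 2 * r + t + 2) ^ 2 *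
      (2 * (p : ℂ) + t + 2) /
      (2 * ((p : ℂ) + r + t + 1) * ((p : ℂ) + r + t + 2) * ((t : ℂ) + 2))) • F ((E ^ p) w)) := by
  have n1 : ((p : ℂ) + r + t + 1) ≠ 0 := by exact_mod_cast (by omega : p + r + t + 1 ≠ 0)
  have n2 : ((p : ℂ) + r + t + 2) ≠ 0 := by exact_mod_cast (by omega : p + r + t + 2 ≠ 0)
  have n3 : (2 * (p : ℂ) + t + 2) ≠ 0 := by exact_mod_cast (by omega : 2 * p + t + 2 ≠ 0)
  have n4 : (2 * (r : ℂ) + t + 2) ≠ 0 := by exact_mod_cast (by omega : 2 * r + t + 2 ≠ 0)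
  have n5 : (2 * (p : ℂ) + 2 * r + t + 2) ≠ 0 := by
    exact_mod_cast (by omega : 2 * p + 2 * r + t + 2 ≠ 0)
  have n6 : ((t : ℂ) + 2) ≠ 0 := by exact_mod_cast (by omega : t + 2 ≠ 0)
  have hit := dn_iter V hv hκ p (by
    intro i hi
    have e : (((p + r + t : ℕ) : ℂ) + 2 + κ + 2 * i) = ((2 * r + t + 2 + 2 * i : ℕ) : ℂ) := by
      rw [hκ']
      push_cast
      ring
    rw [e]
    exact_mod_cast (by omega : 2 * r + t + 2 + 2 * i ≠ 0))
  have e1 : (((p + r + t : ℕ) : ℂ) + 2 + κ) = 2 * (r : ℂ) + t + 2 := by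
    rw [hκ']
    push_cast
    ring
  have e2 : (2 * (r : ℂ) + t + 2 + 2 * p) = 2 * (p : ℂ) + 2 * r + t + 2 := by ring
  rw [e1, e2] at hit
  have hx2 := congrArg (E ^ p) hx
  rw [map_smul, map_smul] at hx2
  have hC : Pi (p + r + t) (C ((E ^ p) v)) = (-((2 * (p : ℂ) + 2 * r + t + 2) ^ 2 *
      (2 * (p : ℂ) + t + 2) /
      (2 * ((p : ℂ) + r + t + 1) * ((p : ℂ) + r + t + 2)))) • (E ^ p) w := by
    apply canz (mul_ne_zero (mul_ne_zero (mul_ne_zero two_ne_zero n1) n2) n4)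
    calc (2 * ((p : ℂ) + r + t + 1) * ((p : ℂ) + r + t + 2) * (2 * (r : ℂ) + t + 2)) •
          Pi (p + r + t) (C ((E ^ p) v))
        = (2 * ((p : ℂ) + r + t + 1) * ((p : ℂ) + r + t + 2)) • ((2 * (r : ℂ) + t + 2) •
          Pi (p + r + t) (C ((E ^ p) v))) := by rw [smul_smul]
      _ = (2 * (p : ℂ) + 2 * r + t + 2) • ((2 * ((p : ℂ) + r + t + 1) * ((p : ℂ) + r + t + 2)) •
          (E ^ p) (Pi (p + r + t) (C v))) := by
          rw [hit, smul_smul, smul_smul, mul_comm]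
      _ = _ := by
          rw [hx2, smul_smul, smul_smul]
          congr 1
          field_simp
  obtain ⟨w1, w2⟩ := powE V hv hκ p
  obtain ⟨-, s2, s3⟩ := dn_step V w1 w2
  have e3 : (((p + r + t : ℕ) : ℂ) + 2 + (κ + 2 * (p : ℂ))) = 2 * (p : ℂ) + 2 * r + t + 2 := by
    rw [hκ']
    push_cast
    ring
  have e4 : (κ + 2 * (p : ℂ) - ((p + r + t : ℕ) : ℂ) - 2) = -((t : ℂ) + 2) := by
    rw [hκ']
    push_cast
    ring
  rw [hC, map_smul, e3] at s2
  rw [hC, map_smul, e4] at s3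
  refine ⟨hC, ?_, ?_⟩
  · apply canz n5
    rw [← s2, smul_smul]
    congr 1
    field_simp
  · apply canz (neg_ne_zero.mpr n6)
    rw [← s3, smul_smul]
    congr 1
    field_simp

/-- the coefficients -/
private def gk (l0 : ℕ) (κ : ℂ) : ℕ → ℂ
  | 0 => 1
  | 1 => 1
  | (k + 2) => gk l0 κ k * ((((k : ℂ) + 2) * ((l0 : ℂ) + k + 2 + κ)) /
      (((l0 : ℂ) + k + 2 - κ) * (2 * (l0 : ℂ) + k + 2)))

end Rel

private lemma gk_ne (p r : ℕ) (t : ℕ) : gk (p + r) ((r : ℂ) - p) t ≠ 0 := by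
  induction t using Nat.strong_induction_on with
  | _ t ih =>
    match t with
    | 0 => simp [gk]
    | 1 => simp [gk]
    | (k + 2) =>
      rw [gk]
      refine mul_ne_zero (ih k (by omega)) (div_ne_zero (mul_ne_zero ?_ ?_) (mul_ne_zero ?_ ?_))
      · exact_mod_cast (by omega : k + 2 ≠ 0)
      · have e : (((p + r : ℕ) : ℂ) + k + 2 + ((r : ℂ) - p)) = ((2 * r + k + 2 : ℕ) : ℂ) := by
          push_cast
          ring
        rw [e]
        exact_mod_cast (by omega : 2 * r + k + 2 ≠ 0)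
      · have e : (((p + r : ℕ) : ℂ) + k + 2 - ((r : ℂ) - p)) = ((2 * p + k + 2 : ℕ) : ℂ) := by
          push_cast
          ring
        rw [e]
        exact_mod_cast (by omega : 2 * p + k + 2 ≠ 0)
      · have e : (2 * ((p + r : ℕ) : ℂ) + k + 2) = ((2 * p + 2 * r + k + 2 : ℕ) : ℂ) := by
          push_cast
          ring
        rw [e]
        exact_mod_cast (by omega : 2 * p + 2 * r + k + 2 ≠ 0)

private lemma gk_rec (p r : ℕ) (t : ℕ) :
    gk (p + r) ((r : ℂ) - p) (t + 2) * ((2 * (p : ℂ) + t + 2) * (2 * (p : ℂ) + 2 * r + t + 2)) =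
      gk (p + r) ((r : ℂ) - p) t * (((t : ℂ) + 2) * (2 * (r : ℂ) + t + 2)) := by
  have n3 : (2 * (p : ℂ) + t + 2) ≠ 0 := by exact_mod_cast (by omega : 2 * p + t + 2 ≠ 0)
  have n5 : (2 * (p : ℂ) + 2 * r + t + 2) ≠ 0 := by
    exact_mod_cast (by omega : 2 * p + 2 * r + t + 2 ≠ 0)
  have e1 : (((p + r : ℕ) : ℂ) + t + 2 + ((r : ℂ) - p)) = 2 * (r : ℂ) + t + 2 := by
    push_cast
    ring
  have e2 : (((p + r : ℕ) : ℂ) + t + 2 - ((r : ℂ) - p)) = 2 * (p : ℂ) + t + 2 := by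
    push_cast
    ring
  have e3 : (2 * ((p + r : ℕ) : ℂ) + t + 2) = 2 * (p : ℂ) + 2 * r + t + 2 := by
    push_cast
    ring
  rw [gk, e1, e2, e3, mul_assoc]
  congr 1
  rw [div_mul_cancel₀ _ (mul_ne_zero n3 n5)]

private lemma gk_le (p r : ℕ) (t : ℕ) : ‖gk (p + r) ((r : ℂ) - p) t‖ ≤ 1 := by
  induction t using Nat.strong_induction_on with
  | _ t ih =>
    match t with
    | 0 => simp [gk]
    | 1 => simp [gk]
    | (k + 2) =>
      have h := congrArg (fun z : ℂ => ‖z‖) (gk_rec p r k)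
      simp only [norm_mul] at h
      have e1 : ‖(2 * (p : ℂ) + k + 2)‖ = 2 * (p : ℝ) + k + 2 := by
        have : (2 * (p : ℂ) + k + 2) = ((2 * p + k + 2 : ℕ) : ℂ) := by push_cast; ring
        rw [this, Complex.norm_natCast]
        push_cast
        ring
      have e2 : ‖(2 * (p : ℂ) + 2 * r + k + 2)‖ = 2 * (p : ℝ) + 2 * r + k + 2 := by
        have : (2 * (p : ℂ) + 2 * r + k + 2) = ((2 * p + 2 * r + k + 2 : ℕ) : ℂ) := by
          push_cast
          ring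
        rw [this, Complex.norm_natCast]
        push_cast
        ring
      have e3 : ‖((k : ℂ) + 2)‖ = (k : ℝ) + 2 := by
        have : ((k : ℂ) + 2) = ((k + 2 : ℕ) : ℂ) := by push_cast; ring
        rw [this, Complex.norm_natCast]
        push_cast
        ring
      have e4 : ‖(2 * (r : ℂ) + k + 2)‖ = 2 * (r : ℝ) + k + 2 := by
        have : (2 * (r : ℂ) + k + 2) = ((2 * r + k + 2 : ℕ) : ℂ) := by push_cast; ring
        rw [this, Complex.norm_natCast]
        push_cast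
        ring
      rw [e1, e2, e3, e4] at h
      have h1 := ih k (by omega)
      have hp : (0 : ℝ) ≤ p := Nat.cast_nonneg p
      have hr : (0 : ℝ) ≤ r := Nat.cast_nonneg r
      have hk : (0 : ℝ) ≤ k := Nat.cast_nonneg k
      have hpos : 0 < (2 * (p : ℝ) + k + 2) * (2 * (p : ℝ) + 2 * r + k + 2) := by positivity
      have h2 : ((k : ℝ) + 2) * (2 * (r : ℝ) + k + 2) ≤
          (2 * (p : ℝ) + k + 2) * (2 * (p : ℝ) + 2 * r + k + 2) := by
        apply mul_le_mul <;> nlinarith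
      have h3 : ‖gk (p + r) ((r : ℂ) - p) (k + 2)‖ *
          ((2 * (p : ℝ) + k + 2) * (2 * (p : ℝ) + 2 * r + k + 2)) ≤
          1 * ((2 * (p : ℝ) + k + 2) * (2 * (p : ℝ) + 2 * r + k + 2)) := by
        rw [h]
        exact mul_le_mul h1 h2 (by positivity) zero_le_one
      exact le_of_mul_le_mul_right h3 hpos

section Core

variable {E F H A B C : Module.End ℂ M}

private lemma zero_wt (V : Vr E F H A B C Pi) {T n : ℕ} {w : M} (hw : Pi T w = w)
    (hk : H w = (n : ℂ) • w) (hTn : T < n) : w = 0 := by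
  by_contra hne
  obtain ⟨j, hj, he⟩ := V.wt T w _ hw hk hne
  have h1 : ((n + 2 * j : ℕ) : ℂ) = (T : ℂ) := by
    push_cast
    rw [he]
    ring
  have h2 : n + 2 * j = T := by exact_mod_cast h1
  omega

private lemma odd_zero (V : Vr E F H A B C Pi) {p r t : ℕ} {u : M} {κ : ℂ}
    (hH : H u = κ • u) (hκ' : κ = (r : ℂ) - p) (ht : ¬ Even t) : Pi (p + r + t) u = 0 := by
  by_contra hne
  obtain ⟨j, hj, he⟩ := V.wt (p + r + t) (Pi (p + r + t) u) κ (V.pp _ _)
    (by rw [← V.cH, hH, map_smul]) hne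
  have h1 : ((r + 2 * j : ℕ) : ℂ) = ((p + r + t + p : ℕ) : ℂ) := by
    rw [hκ'] at he
    push_cast at he ⊢
    linear_combination he
  have h2 : r + 2 * j = p + r + t + p := by exact_mod_cast h1
  apply ht
  exact ⟨j - p, by omega⟩

private lemma special (V : Vr E F H A B C Pi) {p r T : ℕ} (hp : 1 ≤ p) (hr : 1 ≤ r)
    (hT : T + 2 = p + r) {w : M} (hw : Pi (T + 2) w = w) {κ : ℂ} (hk : H w = κ • w)
    (hκ' : κ = (r : ℂ) - p) (h0 : Pi T (C w) = 0) (j : ℕ) :
    Pi T (C ((E ^ j) w)) = 0 ∧ Pi T (B ((E ^ j) w)) = 0 := by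
  have hTc : (T : ℂ) + 2 = (p : ℂ) + r := by exact_mod_cast hT
  induction j with
  | zero =>
    refine ⟨by simpa using h0, ?_⟩
    obtain ⟨-, -, s3⟩ := dn_step V hw hk
    rw [h0, map_zero] at s3
    have e : (κ - T - 2) ≠ 0 := by
      have e1 : κ - T - 2 = -((2 * p : ℕ) : ℂ) := by
        rw [hκ']
        push_cast
        linear_combination - hTc
      rw [e1, neg_ne_zero]
      exact_mod_cast (by omega : 2 * p ≠ 0)
    simpa using (smul_eq_zero.mp s3.symm).resolve_left e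
  | succ j ih =>
    obtain ⟨w1, w2⟩ := powE V hw hk j
    obtain ⟨s1, -, -⟩ := dn_step V w1 w2
    obtain ⟨-, -, -, -, s5⟩ := V.s (T + 2) T _ _ w1 w2
    rw [pow_app]
    have e : ((T : ℂ) + 2 + (κ + 2 * j)) ≠ 0 := by
      have e1 : ((T : ℂ) + 2 + (κ + 2 * j)) = ((2 * r + 2 * j : ℕ) : ℂ) := by
        rw [hκ', hTc]
        push_cast
        ring
      rw [e1]
      exact_mod_cast (by omega : 2 * r + 2 * j ≠ 0)
    rw [ih.1, map_zero, smul_zero] at s1
    rw [ih.1, ih.2, map_zero, add_zero] at s5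
    exact ⟨(smul_eq_zero.mp s1).resolve_left e, s5.symm⟩

/-- the three components of the operators on the glued vector -/
private lemma parts (V : Vr E F H A B C Pi) (p r : ℕ) (hp : 1 ≤ p) (hr : 1 ≤ r) (u up : M)
    (κ : ℂ) (hκ' : κ = (r : ℂ) - p) (hH : H u = κ • u)
    (S1 : ∀ T : ℕ, 2 ≤ T → (2 * (T : ℂ) * (T + 1)) • Pi T (C (Pi (T - 2) u)) =
      ((-((p + r : ℕ) : ℂ) + T) * ((T : ℂ) ^ 2 - κ ^ 2)) • Pi T u)
    (S2 : ∀ T : ℕ, (2 * ((T : ℂ) + 1) * (T + 2)) • Pi T (C (Pi (T + 2) u)) =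
      ((-((p + r : ℕ) : ℂ) - T - 2) * (((T : ℂ) + 2) ^ 2 - κ ^ 2)) • Pi T u)
    (hup : ∀ T, Pi T up = (if p + r ≤ T then gk (p + r) ((r : ℂ) - p) (T - (p + r)) else 0) •
      (E ^ p) (Pi T u)) (t : ℕ) :
    ((Pi (p + r + t) (C (Pi (p + r + t + 2) up)) = (-(gk (p + r) ((r : ℂ) - p) t *
        (((t : ℂ) + 2) * (2 * (r : ℂ) + t + 2) * (2 * (p : ℂ) + 2 * r + t + 2) /
        (2 * ((p : ℂ) + r + t + 1) * ((p : ℂ) + r + t + 2))))) • (E ^ p) (Pi (p + r + t) u)) ∧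
      (Pi (p + r + t) (A (Pi (p + r + t + 2) up)) = (-(gk (p + r) ((r : ℂ) - p) t *
        (((t : ℂ) + 2) * (2 * (r : ℂ) + t + 2) /
        (2 * ((p : ℂ) + r + t + 1) * ((p : ℂ) + r + t + 2))))) • E ((E ^ p) (Pi (p + r + t) u))) ∧
      (Pi (p + r + t) (B (Pi (p + r + t + 2) up)) = (gk (p + r) ((r : ℂ) - p) t *
        ((2 * (r : ℂ) + t + 2) * (2 * (p : ℂ) + 2 * r + t + 2) /
        (2 * ((p : ℂ) + r + t + 1) * ((p : ℂ) + r + t + 2)))) • F ((E ^ p) (Pi (p + r + t) u)))) ∧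
    ((Pi (p + r + t) (C (Pi (p + r + t - 2) up)) = (gk (p + r) ((r : ℂ) - p) t *
        ((t : ℂ) * (2 * (p : ℂ) + t) * (2 * (p : ℂ) + 2 * r + t) /
        (2 * ((p : ℂ) + r + t) * ((p : ℂ) + r + t + 1)))) • (E ^ p) (Pi (p + r + t) u)) ∧
      (Pi (p + r + t) (A (Pi (p + r + t - 2) up)) = (-(gk (p + r) ((r : ℂ) - p) t *
        ((2 * (p : ℂ) + t) * (2 * (p : ℂ) + 2 * r + t) /
        (2 * ((p : ℂ) + r + t) * ((p : ℂ) + r + t + 1))))) • E ((E ^ p) (Pi (p + r + t) u))) ∧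
      (Pi (p + r + t) (B (Pi (p + r + t - 2) up)) = (gk (p + r) ((r : ℂ) - p) t *
        ((t : ℂ) * (2 * (p : ℂ) + t) /
        (2 * ((p : ℂ) + r + t) * ((p : ℂ) + r + t + 1)))) • F ((E ^ p) (Pi (p + r + t) u)))) := by
  have hHT : ∀ T, H (Pi T u) = κ • Pi T u := by
    intro T
    rw [← V.cH, hH, map_smul]
  constructor
  · have hx : (2 * ((p : ℂ) + r + t + 1) * ((p : ℂ) + r + t + 2)) •
        Pi (p + r + t) (C (Pi (p + r + t + 2) u)) =
      (-((2 * (p : ℂ) + 2 * r + t + 2) * ((2 * (p : ℂ) + t + 2) * (2 * (r : ℂ) + t + 2)))) •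
        Pi (p + r + t) u := by
      have h1 := S2 (p + r + t)
      have e1 : (2 * (((p + r + t : ℕ) : ℂ) + 1) * (((p + r + t : ℕ) : ℂ) + 2)) =
          2 * ((p : ℂ) + r + t + 1) * ((p : ℂ) + r + t + 2) := by
        push_cast
        ring
      have e2 : ((-((p + r : ℕ) : ℂ) - ((p + r + t : ℕ) : ℂ) - 2) *
          ((((p + r + t : ℕ) : ℂ) + 2) ^ 2 - κ ^ 2)) =
          -((2 * (p : ℂ) + 2 * r + t + 2) * ((2 * (p : ℂ) + t + 2) * (2 * (r : ℂ) + t + 2))) := by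
        rw [hκ']
        push_cast
        ring
      rw [e1, e2] at h1
      exact h1
    obtain ⟨c1, c2, c3⟩ := high_lem V p r t hp hr (V.pp (p + r + t + 2) u) (hHT _) hκ' hx
    have hc : Pi (p + r + t + 2) up = gk (p + r) ((r : ℂ) - p) (t + 2) •
        (E ^ p) (Pi (p + r + t + 2) u) := by
      rw [hup, if_pos (by omega)]
      congr 2
      omega
    have hrec := gk_rec p r t
    have n1 : ((p : ℂ) + r + t + 1) ≠ 0 := by exact_mod_cast (by omega : p + r + t + 1 ≠ 0)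
    have n2 : ((p : ℂ) + r + t + 2) ≠ 0 := by exact_mod_cast (by omega : p + r + t + 2 ≠ 0)
    have n6 : ((t : ℂ) + 2) ≠ 0 := by exact_mod_cast (by omega : t + 2 ≠ 0)
    rw [hc]
    simp only [map_smul, c1, c2, c3, smul_smul]
    refine ⟨?_, ?_, ?_⟩
    · congr 1
      field_simp
      linear_combination (-(2 * (p : ℂ) + 2 * r + t + 2)) * hrec
    · congr 1
      field_simp
      linear_combination - hrec
    · congr 1
      field_simp
      linear_combination (2 * (p : ℂ) + 2 * r + t + 2) * hrec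
  · match t with
    | 0 =>
      have hc : Pi (p + r + 0 - 2) up = 0 := by
        rw [hup, if_neg (by omega), zero_smul]
      obtain ⟨w1, w2⟩ := powE V (V.pp (p + r + 0) u) (hHT (p + r + 0)) p
      have w3 := V.wE _ _ w2
      have hE0 : E ((E ^ p) (Pi (p + r + 0) u)) = 0 := by
        apply zero_wt V (T := p + r + 0) (n := p + r + 2) _ _ (by omega)
        · rw [V.cE, w1]
        · rw [w3, hκ']
          congr 1
          push_cast
          ring
      rw [hc, hE0]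
      simp
    | 1 =>
      have hc : Pi (p + r + 1 - 2) up = 0 := by
        rw [hup, if_neg (by omega), zero_smul]
      have h0 : Pi (p + r + 1) u = 0 := odd_zero V hH hκ' (by decide)
      rw [hc, h0]
      simp
    | (s + 2) =>
      have hsub : p + r + (s + 2) - 2 = p + r + s := by omega
      have hx : (2 * ((p : ℂ) + r + s + 2) * ((p : ℂ) + r + s + 3)) •
          Pi (p + r + s + 2) (C (Pi (p + r + s) u)) =
          (((s : ℂ) + 2) * ((2 * (p : ℂ) + s + 2) * (2 * (r : ℂ) + s + 2))) •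
          Pi (p + r + s + 2) u := by
        have h1 := S1 (p + r + s + 2) (by omega)
        have e1 : (2 * ((p + r + s + 2 : ℕ) : ℂ) * (((p + r + s + 2 : ℕ) : ℂ) + 1)) =
            2 * ((p : ℂ) + r + s + 2) * ((p : ℂ) + r + s + 3) := by
          push_cast
          ring
        have e2 : ((-((p + r : ℕ) : ℂ) + ((p + r + s + 2 : ℕ) : ℂ)) *
            (((p + r + s + 2 : ℕ) : ℂ) ^ 2 - κ ^ 2)) =
            ((s : ℂ) + 2) * ((2 * (p : ℂ) + s + 2) * (2 * (r : ℂ) + s + 2)) := by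
          rw [hκ']
          push_cast
          ring
        rw [e1, e2] at h1
        exact h1
      obtain ⟨c1, c2, c3⟩ := low_lem V p r s hp (V.pp (p + r + s) u) (hHT _) hκ' hx
      have hc : Pi (p + r + s) up = gk (p + r) ((r : ℂ) - p) s •
          (E ^ p) (Pi (p + r + s) u) := by
        rw [hup, if_pos (by omega)]
        congr 2
        omega
      have hrec := gk_rec p r s
      have n1 : ((p : ℂ) + r + s + 2) ≠ 0 := by exact_mod_cast (by omega : p + r + s + 2 ≠ 0)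
      have n2 : ((p : ℂ) + r + s + 3) ≠ 0 := by exact_mod_cast (by omega : p + r + s + 3 ≠ 0)
      have n5 : (2 * (p : ℂ) + 2 * r + s + 2) ≠ 0 := by
        exact_mod_cast (by omega : 2 * p + 2 * r + s + 2 ≠ 0)
      have n7 : (2 * ((p : ℂ) + r) + s + 2) ≠ 0 := by
        exact_mod_cast (by omega : 2 * (p + r) + s + 2 ≠ 0)
      have hs : ((s + 2 : ℕ) : ℂ) = (s : ℂ) + 2 := by push_cast; ring
      have m1 : (p : ℂ) + r + ((s : ℂ) + 2) = (p : ℂ) + r + s + 2 := by ring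
      have m2 : (p : ℂ) + r + ((s : ℂ) + 2) + 1 = (p : ℂ) + r + s + 3 := by ring
      have m3 : 2 * (p : ℂ) + ((s : ℂ) + 2) = 2 * (p : ℂ) + s + 2 := by ring
      have m4 : 2 * (p : ℂ) + 2 * r + ((s : ℂ) + 2) = 2 * (p : ℂ) + 2 * r + s + 2 := by ring
      have hnat : p + r + (s + 2) = p + r + s + 2 := by ring
      rw [hs, m2, m1, m3, m4, hsub, hnat, hc]
      simp only [map_smul, c1, c2, c3, smul_smul]
      refine ⟨?_, ?_, ?_⟩
      · congr 1
        rw [← mul_div_assoc, ← mul_div_assoc]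
        congr 1
        linear_combination (-((s : ℂ) + 2)) * hrec
      · congr 1
        rw [mul_neg, ← mul_div_assoc, ← mul_div_assoc]
        congr 2
        linear_combination - hrec
      · congr 1
        rw [← mul_div_assoc, ← mul_div_assoc, div_eq_div_iff
          (mul_ne_zero (mul_ne_zero (mul_ne_zero two_ne_zero n1) n2) n5)
          (mul_ne_zero (mul_ne_zero two_ne_zero n1) n2)]
        linear_combination (-((s : ℂ) + 2) * (2 * ((p : ℂ) + r + s + 2) *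
          ((p : ℂ) + r + s + 3))) * hrec

private lemma core (V : Vr E F H A B C Pi) (p r : ℕ) (hp : 1 ≤ p) (hr : 1 ≤ r) (u : M)
    (κ : ℂ) (hκ' : κ = (r : ℂ) - p) (hH : H u = κ • u)
    (S1 : ∀ T : ℕ, 2 ≤ T → (2 * (T : ℂ) * (T + 1)) • Pi T (C (Pi (T - 2) u)) =
      ((-((p + r : ℕ) : ℂ) + T) * ((T : ℂ) ^ 2 - κ ^ 2)) • Pi T u)
    (S2 : ∀ T : ℕ, (2 * ((T : ℂ) + 1) * (T + 2)) • Pi T (C (Pi (T + 2) u)) =
      ((-((p + r : ℕ) : ℂ) - T - 2) * (((T : ℂ) + 2) ^ 2 - κ ^ 2)) • Pi T u)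
    (D1 : ∀ T : ℕ, ((T : ℂ) * (T + 2)) • Pi T (C ((E ^ p) (Pi T u))) =
      (-(κ * ((p : ℂ) + r) ^ 2)) • (E ^ p) (Pi T u))
    (D2 : ∀ T : ℕ, ((T : ℂ) * (T + 2)) • Pi T (A ((E ^ p) (Pi T u))) =
      (-(κ * ((p : ℂ) + r))) • E ((E ^ p) (Pi T u)))
    (D3 : ∀ T : ℕ, ((T : ℂ) * (T + 2)) • Pi T (B ((E ^ p) (Pi T u))) =
      (-(κ * ((p : ℂ) + r))) • F ((E ^ p) (Pi T u)))
    (hz : ∀ T < p + r, Pi T u = 0) :
    ∃ (c : ℕ → ℂ) (up : M), (∀ T, ‖c T‖ ≤ 1) ∧ (∀ T, Pi T up = c T • (E ^ p) (Pi T u)) ∧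
      H up = ((p : ℂ) + r) • up ∧ A up = -(E up) ∧ B up = F up ∧ C up = (-κ - 2) • up ∧
      (u ≠ 0 → up ≠ 0) := by
  set c : ℕ → ℂ := fun T => if p + r ≤ T then gk (p + r) ((r : ℂ) - p) (T - (p + r)) else 0 with hc
  have hHT : ∀ T, H (Pi T u) = κ • Pi T u := by
    intro T
    rw [← V.cH, hH, map_smul]
  have hV1 : ∀ T, Pi T ((E ^ p) (Pi T u)) = (E ^ p) (Pi T u) := fun T =>
    (powE V (V.pp T u) (hHT T) p).1
  have hV2 : ∀ T, H ((E ^ p) (Pi T u)) = ((p : ℂ) + r) • (E ^ p) (Pi T u) := by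
    intro T
    rw [(powE V (V.pp T u) (hHT T) p).2, hκ']
    congr 1
    ring
  obtain ⟨up, hup0⟩ := V.glue (fun T => c T • (E ^ p) (Pi T u))
  have hup : ∀ T, Pi T up = c T • (E ^ p) (Pi T u) := by
    intro T
    rw [hup0, map_smul, hV1]
  have hcv : ∀ t, c (p + r + t) = gk (p + r) ((r : ℂ) - p) t := by
    intro t
    rw [hc]
    simp only
    rw [if_pos (by omega)]
    congr 1
    omega
  have hc0 : ∀ T < p + r, c T = 0 := by
    intro T hT
    rw [hc]
    simp only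
    rw [if_neg (by omega)]
  -- the vanishing of the operators below
  have hlow : ∀ T < p + r, Pi T (C (Pi (T + 2) up)) = 0 ∧ Pi T (A (Pi (T + 2) up)) = 0 ∧
      Pi T (B (Pi (T + 2) up)) = 0 := by
    intro T hT
    by_cases h1 : T + 2 < p + r
    · rw [hup, hc0 _ h1]
      simp
    by_cases h2 : T + 2 = p + r
    · obtain ⟨w1, w2⟩ := powE V (V.pp (T + 2) u) (hHT (T + 2)) p
      have w2' := hV2 (T + 2)
      have hn : ((p : ℂ) + r) = ((p + r : ℕ) : ℂ) := by push_cast; ring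
      have hz1 : Pi T (C ((E ^ p) (Pi (T + 2) u))) = 0 := by
        apply zero_wt V (T := T) (n := p + r) (V.pp _ _) _ (by omega)
        rw [← V.cH, V.wC _ _ w2', map_smul, hn]
      have hz2 : Pi T (A ((E ^ p) (Pi (T + 2) u))) = 0 := by
        apply zero_wt V (T := T) (n := p + r + 2) (V.pp _ _) _ (by omega)
        rw [← V.cH, V.wA _ _ w2', map_smul]
        congr 1
        push_cast
        ring
      have hT0 : Pi T (C (Pi (T + 2) u)) = 0 := by
        have h3 := S2 T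
        rw [hz T hT, smul_zero] at h3
        have n1 : ((T : ℂ) + 1) ≠ 0 := by exact_mod_cast (by omega : T + 1 ≠ 0)
        have n2 : ((T : ℂ) + 2) ≠ 0 := by exact_mod_cast (by omega : T + 2 ≠ 0)
        exact (smul_eq_zero.mp h3).resolve_left (mul_ne_zero (mul_ne_zero two_ne_zero n1) n2)
      have hz3 := (special V hp hr h2 (V.pp (T + 2) u) (hHT (T + 2)) hκ' hT0 p).2
      rw [hup]
      simp [hz1, hz2, hz3]
    · have h3 : T + 2 = p + r + 1 := by omega
      have h4 : Pi (T + 2) u = 0 := by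
        rw [h3]
        exact odd_zero V hH hκ' (by decide)
      rw [hup, h4]
      simp
  have hlow2 : ∀ T < p + r, 2 ≤ T → Pi (T - 2) up = 0 := by
    intro T hT h2
    rw [hup, hc0 _ (by omega), zero_smul]
  have hkeyC : ∀ T, Pi T (C up) = (-κ - 2) • Pi T up := by
    intro T
    rw [V.locC T up]
    by_cases hT : T < p + r
    · rw [(hlow T hT).1, hup T, hc0 T hT, zero_smul, map_zero, map_zero]
      split_ifs with h2
      · rw [hlow2 T hT h2]
        simp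
      · simp
    · obtain ⟨t, rfl⟩ := Nat.exists_eq_add_of_le (not_lt.mp hT)
      obtain ⟨⟨a1, -, -⟩, ⟨b1, -, -⟩⟩ := parts V p r hp hr u up κ hκ' hH S1 S2 hup t
      rw [a1, if_pos (by omega), b1, hup, hcv, map_smul, map_smul]
      have d1 := D1 (p + r + t)
      have n0 : ((p : ℂ) + r + t) ≠ 0 := by exact_mod_cast (by omega : p + r + t ≠ 0)
      have n1 : ((p : ℂ) + r + t + 1) ≠ 0 := by exact_mod_cast (by omega : p + r + t + 1 ≠ 0)
      have n2 : ((p : ℂ) + r + t + 2) ≠ 0 := by exact_mod_cast (by omega : p + r + t + 2 ≠ 0)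
      have d2 : Pi (p + r + t) (C ((E ^ p) (Pi (p + r + t) u))) =
          (-(κ * ((p : ℂ) + r) ^ 2) / (((p : ℂ) + r + t) * ((p : ℂ) + r + t + 2))) •
            (E ^ p) (Pi (p + r + t) u) := by
        apply canz (mul_ne_zero n0 n2)
        rw [smul_smul, mul_div_cancel₀ _ (mul_ne_zero n0 n2), ← d1]
        congr 1
        push_cast
        ring
      rw [d2, smul_smul, smul_smul, ← add_smul, ← add_smul]
      congr 1
      rw [hκ']
      field_simp
      ring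
  have hkeyA : ∀ T, Pi T (A up) = -(E (Pi T up)) := by
    intro T
    rw [V.locA T up]
    by_cases hT : T < p + r
    · rw [(hlow T hT).2.1, hup T, hc0 T hT, zero_smul, map_zero, map_zero]
      split_ifs with h2
      · rw [hlow2 T hT h2]
        simp
      · simp
    · obtain ⟨t, rfl⟩ := Nat.exists_eq_add_of_le (not_lt.mp hT)
      obtain ⟨⟨-, a1, -⟩, ⟨-, b1, -⟩⟩ := parts V p r hp hr u up κ hκ' hH S1 S2 hup t
      rw [a1, if_pos (by omega), b1, hup, hcv, map_smul, map_smul, map_smul]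
      have d1 := D2 (p + r + t)
      have n0 : ((p : ℂ) + r + t) ≠ 0 := by exact_mod_cast (by omega : p + r + t ≠ 0)
      have n1 : ((p : ℂ) + r + t + 1) ≠ 0 := by exact_mod_cast (by omega : p + r + t + 1 ≠ 0)
      have n2 : ((p : ℂ) + r + t + 2) ≠ 0 := by exact_mod_cast (by omega : p + r + t + 2 ≠ 0)
      have d2 : Pi (p + r + t) (A ((E ^ p) (Pi (p + r + t) u))) =
          (-(κ * ((p : ℂ) + r)) / (((p : ℂ) + r + t) * ((p : ℂ) + r + t + 2))) •
            E ((E ^ p) (Pi (p + r + t) u)) := by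
        apply canz (mul_ne_zero n0 n2)
        rw [smul_smul, mul_div_cancel₀ _ (mul_ne_zero n0 n2), ← d1]
        congr 1
        push_cast
        ring
      rw [d2, smul_smul, ← add_smul, ← add_smul, ← neg_smul]
      congr 1
      rw [hκ']
      field_simp
      ring
  have hkeyB : ∀ T, Pi T (B up) = F (Pi T up) := by
    intro T
    rw [V.locB T up]
    by_cases hT : T < p + r
    · rw [(hlow T hT).2.2, hup T, hc0 T hT, zero_smul, map_zero, map_zero]
      split_ifs with h2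
      · rw [hlow2 T hT h2]
        simp
      · simp
    · obtain ⟨t, rfl⟩ := Nat.exists_eq_add_of_le (not_lt.mp hT)
      obtain ⟨⟨-, -, a1⟩, ⟨-, -, b1⟩⟩ := parts V p r hp hr u up κ hκ' hH S1 S2 hup t
      rw [a1, if_pos (by omega), b1, hup, hcv, map_smul, map_smul, map_smul]
      have d1 := D3 (p + r + t)
      have n0 : ((p : ℂ) + r + t) ≠ 0 := by exact_mod_cast (by omega : p + r + t ≠ 0)
      have n1 : ((p : ℂ) + r + t + 1) ≠ 0 := by exact_mod_cast (by omega : p + r + t + 1 ≠ 0)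
      have n2 : ((p : ℂ) + r + t + 2) ≠ 0 := by exact_mod_cast (by omega : p + r + t + 2 ≠ 0)
      have d2 : Pi (p + r + t) (B ((E ^ p) (Pi (p + r + t) u))) =
          (-(κ * ((p : ℂ) + r)) / (((p : ℂ) + r + t) * ((p : ℂ) + r + t + 2))) •
            F ((E ^ p) (Pi (p + r + t) u)) := by
        apply canz (mul_ne_zero n0 n2)
        rw [smul_smul, mul_div_cancel₀ _ (mul_ne_zero n0 n2), ← d1]
        congr 1
        push_cast
        ring
      rw [d2, smul_smul, ← add_smul, ← add_smul]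
      congr 1
      rw [hκ']
      field_simp
      ring
  have hcb : ∀ T, ‖c T‖ ≤ 1 := by
    intro T
    by_cases hT : p + r ≤ T
    · obtain ⟨t, rfl⟩ := Nat.exists_eq_add_of_le hT
      rw [hcv]
      exact gk_le p r t
    · rw [hc0 T (by omega), norm_zero]
      exact zero_le_one
  refine ⟨c, up, hcb, hup, ?_, ?_, ?_, ?_, ?_⟩
  · rw [← sub_eq_zero]
    apply V.sep
    intro T
    rw [map_sub, map_smul, V.cH, hup, map_smul, hV2, smul_comm, sub_self]
  · rw [← sub_eq_zero]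
    apply V.sep
    intro T
    rw [map_sub, map_neg, V.cE, hkeyA, sub_self]
  · rw [← sub_eq_zero]
    apply V.sep
    intro T
    rw [map_sub, V.cF, hkeyB, sub_self]
  · rw [← sub_eq_zero]
    apply V.sep
    intro T
    rw [map_sub, map_smul, hkeyC, sub_self]
  · intro hu hup1
    obtain ⟨T, hT⟩ : ∃ T, Pi T u ≠ 0 := by
      by_contra hcon
      push Not at hcon
      exact hu (V.sep u hcon)
    have hTl : p + r ≤ T := by
      by_contra hlt
      exact hT (hz T (by omega))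
    obtain ⟨t, rfl⟩ := Nat.exists_eq_add_of_le hTl
    have h1 := hup (p + r + t)
    rw [hup1, map_zero, hcv] at h1
    have h2 := (smul_eq_zero.mp h1.symm).resolve_left (gk_ne p r t)
    have h3 : ∀ j ≤ p, (E ^ j) (Pi (p + r + t) u) ≠ 0 := by
      intro j
      induction j with
      | zero => intro _; simpa using hT
      | succ j ih =>
        intro hj h0
        rw [pow_app] at h0
        obtain ⟨w1, w2⟩ := powE V (V.pp (p + r + t) u) (hHT (p + r + t)) j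
        rcases V.inj _ _ _ w1 w2 h0 with h4 | h4 | h4
        · exact ih (by omega) h4
        · rw [hκ'] at h4
          have h5 : ((r + 2 * j : ℕ) : ℂ) = ((p + r + t + p : ℕ) : ℂ) := by
            push_cast at h4 ⊢
            linear_combination h4
          have h6 : r + 2 * j = p + r + t + p := by exact_mod_cast h5
          omega
        · rw [hκ'] at h4
          have h5 : ((r + 2 * j + r + t + 2 : ℕ) : ℂ) = ((0 : ℕ) : ℂ) := by
            push_cast at h4 ⊢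
            linear_combination h4
          have h6 : r + 2 * j + r + t + 2 = 0 := by exact_mod_cast h5
          omega
    exact h3 p le_rfl h2

end Core

theorem slpB (hS : SlS e f h e' f' h' Pi) (u : M) (κ S : ℂ) (hH : (h - h') u = κ • u)
    (hp : (e + f') u = -((e - f') u)) (hm : (f + e') u = (f - e') u)
    (h0 : (h + h') u = (S - 2) • u) (l0 p r : ℕ) (hl : S = -(l0 : ℂ)) (hp1 : 1 ≤ p) (hr1 : 1 ≤ r)
    (h1 : (l0 : ℂ) = κ + 2 * p) (h2 : (l0 : ℂ) = -κ + 2 * r) (hz : ∀ T < l0, Pi T u = 0) :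
    ∃ (c : ℕ → ℂ) (up : M), (∀ T, ‖c T‖ ≤ 1) ∧ (∀ T, Pi T up = c T • ((e - f') ^ p) (Pi T u)) ∧
      (h - h') up = (l0 : ℂ) • up ∧ (e + f') up = -((e - f') up) ∧ (f + e') up = (f - e') up ∧
      (h + h') up = (-κ - 2) • up ∧ (u ≠ 0 → up ≠ 0) := by
  have hl0 : l0 = p + r := by
    have h3 : ((2 * l0 : ℕ) : ℂ) = ((2 * (p + r) : ℕ) : ℂ) := by
      push_cast
      linear_combination h1 + h2
    have h4 : 2 * l0 = 2 * (p + r) := by exact_mod_cast h3
    omega
  subst hl0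
  have hκ' : κ = (r : ℂ) - p := by
    push_cast at h1
    linear_combination - h1
  have V := vr_of hS
  have hHT : ∀ T, (h - h') (Pi T u) = κ • Pi T u := by
    intro T
    rw [← V.cH, hH, map_smul]
  have hS1 : ∀ T : ℕ, 2 ≤ T → (2 * (T : ℂ) * (T + 1)) • Pi T ((h + h') (Pi (T - 2) u)) =
      ((-((p + r : ℕ) : ℂ) + T) * ((T : ℂ) ^ 2 - κ ^ 2)) • Pi T u := by
    intro T hT
    have := (sso hS u κ S hH hp hm h0 T).1 hT
    rw [hl] at this
    exact this
  have hS2 : ∀ T : ℕ, (2 * ((T : ℂ) + 1) * (T + 2)) • Pi T ((h + h') (Pi (T + 2) u)) =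
      ((-((p + r : ℕ) : ℂ) - T - 2) * (((T : ℂ) + 2) ^ 2 - κ ^ 2)) • Pi T u := by
    intro T
    have := (sso hS u κ S hH hp hm h0 T).2.1
    rw [hl] at this
    exact this
  set Q : Module.End ℂ M := (h - h') * (h + h') + (f + e') * (e - f') + (f - e') * (e + f') +
      (e + f') * (f - e') + (e - f') * (f + e') with hQ
  have hQu := sso_Q hS u κ S hH hp hm h0 Q hQ
  have hQE := (swd_comm hS Q hQ).1
  have hQp : ∀ (j T : ℕ), Q (((e - f') ^ j) (Pi T u)) = (κ * S) • ((e - f') ^ j) (Pi T u) := by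
    intro j T
    induction j with
    | zero => simpa using hQu T
    | succ j ih =>
      rw [pow_app]
      have h3 : Q ((e - f') (((e - f') ^ j) (Pi T u))) = (e - f') (Q (((e - f') ^ j) (Pi T u))) := by
        have := congrArg (fun x : Module.End ℂ M => x (((e - f') ^ j) (Pi T u))) hQE
        exact this
      rw [h3, ih, map_smul]
  have hd : ∀ T : ℕ, _ := fun T => swd hS T (((e - f') ^ p) (Pi T u))
    (powE V (V.pp T u) (hHT T) p).1 (κ + 2 * p) (powE V (V.pp T u) (hHT T) p).2 Q hQ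
  have hcore := core V p r hp1 hr1 u κ hκ' hH hS1 hS2 ?_ ?_ ?_ hz
  · obtain ⟨c, up, k0, k1, k2, k3, k4, k5, k6⟩ := hcore
    refine ⟨c, up, k0, k1, ?_, k3, k4, k5, k6⟩
    rw [k2]
    push_cast
    rfl
  · intro T
    rw [(hd T).1, hQp, smul_smul]
    congr 1
    rw [hl, hκ']
    push_cast
    ring
  · intro T
    rw [(hd T).2.1, hQp, map_smul]
    congr 1
    rw [hl]
    push_cast
    ring
  · intro T
    rw [(hd T).2.2.1, hQp, map_smul]
    congr 1
    rw [hl]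
    push_cast
    ring

theorem slp (hS : SlS e f h e' f' h' Pi) (u : M) (κ S : ℂ) (hH : (h - h') u = κ • u)
    (hp : (e + f') u = -((e - f') u)) (hm : (f + e') u = (f - e') u)
    (h0 : (h + h') u = (S - 2) • u) (l0 p r : ℕ) (hl : S = -(l0 : ℂ)) (hp1 : 1 ≤ p) (hr1 : 1 ≤ r)
    (h1 : (l0 : ℂ) = κ + 2 * p) (h2 : (l0 : ℂ) = -κ + 2 * r) (hz : ∀ T < l0, Pi T u = 0) :
    ∃ (c : ℕ → ℂ) (up : M), (∀ T, Pi T up = c T • ((e - f') ^ p) (Pi T u)) ∧
      (h - h') up = (l0 : ℂ) • up ∧ (e + f') up = -((e - f') up) ∧ (f + e') up = (f - e') up ∧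
      (h + h') up = (-κ - 2) • up ∧ (u ≠ 0 → up ≠ 0) := by
  obtain ⟨c, up, -, h⟩ := slpB hS u κ S hH hp hm h0 l0 p r hl hp1 hr1 h1 h2 hz
  exact ⟨c, up, h⟩

end

end Pool.Agent.Work.MP_dd0ddf_al.CW
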