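import Pool.Agent.Work.MP_dd0ddf_al.CW.Defs

/-!
# GL_n(ℂ) is unimodular

PROOF. Mathlib: `MeasureTheory.Measure.modularCharacter` (file MeasureTheory/Group/ModularCharacter): a continuous homomorphism D : G -> R>=0 with map (. * g) mu = D(g) mu.  D has values in the abelian group R_(>0).
(a) transvections t = 1 + x E_ij, i /= j: with the diagonal matrix s = diag(1,..,2 at i,..,1): s t s^-1 = 1 + 2x E_ij = t^2, so D(t) = D(t)^2, D(t) = 1.
(b) d_i(z) = diag(1, .., z at i, .., 1): all conjugate by permutation matrices, so D(d_i(z)) is independent of i; the product over i is the scalar z, central, D(z) = 1 (right multiplication by a central element = left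
    multiplication); so D(d_i(z))^n = 1, D(d_i(z)) = 1 (n >= 1; n = 0: trivial group).
(c) G is generated by transvections and diagonal matrices (`Matrix.Pivot.exists_list_transvec_mul_diagonal_mul_list_transvec`).  So D = 1.
-/

set_option linter.unusedSectionVars false

namespace Pool.Agent.Work.MP_dd0ddf_al.CW

open scoped Matrix.Norms.Elementwise ComplexConjugate ContDiff Topology
open Matrix MeasureTheory Filter
open Pool.Agent.Work.MP_dd0ddf_al.AR

noncomputable section

variable {n : ℕ}

private def unPsi (n : ℕ) : (Fin n → ℂˣ) →* GLn n where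
  toFun u :=
    { val := Matrix.diagonal fun i => (u i : ℂ)
      inv := Matrix.diagonal fun i => ((u i)⁻¹ : ℂˣ)
      val_inv := by
        rw [Matrix.diagonal_mul_diagonal, ← Matrix.diagonal_one]
        congr 1
        funext i
        exact Units.mul_inv (u i)
      inv_val := by
        rw [Matrix.diagonal_mul_diagonal, ← Matrix.diagonal_one]
        congr 1
        funext i
        exact Units.inv_mul (u i) }
  map_one' := by
    apply Units.ext
    show Matrix.diagonal (fun _ => (((1 : ℂˣ)) : ℂ)) = 1
    simp
  map_mul' u v := by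
    apply Units.ext
    show Matrix.diagonal (fun i => ((u i * v i : ℂˣ) : ℂ)) =
      Matrix.diagonal (fun i => (u i : ℂ)) * Matrix.diagonal (fun i => (v i : ℂ))
    rw [Matrix.diagonal_mul_diagonal]
    simp

private theorem unPsi_coe (u : Fin n → ℂˣ) :
    ((unPsi n u : GLn n) : Mat n) = Matrix.diagonal fun i => (u i : ℂ) := rfl

private def unW (σ : Equiv.Perm (Fin n)) : GLn n where
  val := (1 : Mat n).submatrix σ id
  inv := (1 : Mat n).submatrix id σ
  val_inv := by
    have h : ((1 : Mat n).submatrix σ id) * ((1 : Mat n).submatrix id σ) =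
        ((1 : Mat n) * (1 : Mat n)).submatrix σ σ :=
      Matrix.submatrix_mul_equiv (1 : Mat n) (1 : Mat n) σ (Equiv.refl _) σ
    rw [h]
    simp
  inv_val := by
    have h : ((1 : Mat n).submatrix id σ) * ((1 : Mat n).submatrix σ id) =
        ((1 : Mat n) * (1 : Mat n)).submatrix id id :=
      Matrix.submatrix_mul_equiv (1 : Mat n) (1 : Mat n) id σ id
    rw [h]
    simp

private theorem unW_conj (σ : Equiv.Perm (Fin n)) (u : Fin n → ℂˣ) :
    unW σ * unPsi n u = unPsi n (fun i => u (σ i)) * unW σ := by
  apply Units.ext
  show (1 : Mat n).submatrix σ id * Matrix.diagonal (fun i => (u i : ℂ)) =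
    Matrix.diagonal (fun i => (u (σ i) : ℂ)) * (1 : Mat n).submatrix σ id
  ext i j
  rw [Matrix.mul_diagonal, Matrix.diagonal_mul]
  simp only [Matrix.submatrix_apply, id, Matrix.one_apply]
  by_cases h : σ i = j
  · rw [if_pos h, h]
    ring
  · rw [if_neg h]
    ring

private def unChi (n : ℕ) : GLn n →* NNReal := Measure.modularCharacter

private theorem unChi_pos (g : GLn n) : unChi n g ≠ 0 := (Measure.modularCharacterFun_pos g).ne'

private theorem un_hsf (μ' : Measure (GLn n)) [IsFiniteMeasureOnCompacts μ']
    [μ'.IsMulLeftInvariant] (h : μ' = hG n) : μ'.haarScalarFactor (hG n) = 1 := by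
  subst h
  exact Measure.haarScalarFactor_self _

private theorem unChi_central (g : GLn n) (hg : ∀ h : GLn n, h * g = g * h) : unChi n g = 1 := by
  show Measure.modularCharacterFun g = 1
  rw [Measure.modularCharacterFun_eq_haarScalarFactor (hG n) g]
  have h : (fun x : GLn n => x * g) = fun x => g * x := funext fun x => hg x
  refine un_hsf _ ?_
  rw [h]
  exact map_mul_left_eq_self (hG n) g

private theorem unChi_diag (u : Fin n → ℂˣ) : unChi n (unPsi n u) = 1 := by
  rcases Nat.eq_zero_or_pos n with rfl | hn
  · have : u = 1 := Subsingleton.elim _ _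
    rw [this, map_one, map_one]
  · haveI : NeZero n := ⟨hn.ne'⟩
    have h1 : ∀ σ : Equiv.Perm (Fin n), unChi n (unPsi n (fun i => u (σ i))) =
        unChi n (unPsi n u) := by
      intro σ
      have h := congrArg (unChi n) (unW_conj σ u)
      rw [map_mul, map_mul, mul_comm] at h
      exact (mul_right_cancel₀ (unChi_pos _) h).symm
    have h2 : unChi n (unPsi n (∏ k : Fin n, fun i => u (i + k))) = (unChi n (unPsi n u)) ^ n := by
      have hp := map_prod ((unChi n).comp (unPsi n)) (fun k : Fin n => fun i => u (i + k))
        Finset.univ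
      simp only [MonoidHom.comp_apply] at hp
      rw [hp]
      have : ∀ k ∈ (Finset.univ : Finset (Fin n)), unChi n (unPsi n (fun i => u (i + k))) =
          unChi n (unPsi n u) := fun k _ => h1 (Equiv.addRight k)
      rw [Finset.prod_congr rfl this, Finset.prod_const, Finset.card_univ, Fintype.card_fin]
    have h3 : (∏ k : Fin n, fun i => u (i + k)) = fun _ => ∏ j, u j := by
      funext i
      rw [Finset.prod_apply]
      exact Equiv.prod_comp (Equiv.addLeft i) u
    have h4 : unChi n (unPsi n (fun _ => ∏ j, u j)) = 1 := by
      apply unChi_central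
      intro h
      apply Units.ext
      show (h : Mat n) * Matrix.diagonal (fun _ => ((∏ j, u j : ℂˣ) : ℂ)) =
        Matrix.diagonal (fun _ => ((∏ j, u j : ℂˣ) : ℂ)) * (h : Mat n)
      ext i j
      rw [Matrix.mul_diagonal, Matrix.diagonal_mul, mul_comm]
    rw [h3, h4] at h2
    exact (pow_eq_one_iff_of_nonneg zero_le hn.ne').mp h2.symm

private theorem unChi_trans {i j : Fin n} (hij : i ≠ j) (c : ℂ) (g : GLn n)
    (hg : (g : Mat n) = Matrix.transvection i j c) : unChi n g = 1 := by
  classical
  let s : GLn n := unPsi n (Function.update 1 i (Units.mk0 2 two_ne_zero))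
  have h : s * g = (g * g) * s := by
    apply Units.ext
    show (s : Mat n) * (g : Mat n) = ((g : Mat n) * (g : Mat n)) * (s : Mat n)
    rw [hg, Matrix.transvection_mul_transvection_same _ _ hij]
    show Matrix.diagonal _ * _ = _ * Matrix.diagonal _
    ext k l
    rw [Matrix.mul_diagonal, Matrix.diagonal_mul]
    simp only [Matrix.transvection, Matrix.add_apply, Matrix.one_apply, Matrix.single_apply]
    by_cases hk : i = k
    · subst hk
      by_cases hl : j = l
      · subst hl
        simp [hij, Function.update_of_ne (Ne.symm hij)]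
        ring
      · by_cases hl' : i = l
        · subst hl'
          simp [hl]
        · simp [hl, hl']
    · by_cases hl : k = l
      · subst hl
        simp [hk]
      · simp [hk, hl]
  have h1 := congrArg (unChi n) h
  rw [map_mul, map_mul, map_mul, mul_comm] at h1
  have h2 := mul_right_cancel₀ (unChi_pos s) h1
  have h3 : unChi n g * 1 = unChi n g * unChi n g := by rw [mul_one]; exact h2
  exact (mul_left_cancel₀ (unChi_pos g) h3).symm

private theorem unChi_one (g : GLn n) : unChi n g = 1 := by
  have hdet : ∀ g : GLn n, (g : Mat n).det ≠ 0 := fun g =>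
    ((Matrix.isUnit_iff_isUnit_det _).mp g.isUnit).ne_zero
  have key : ∀ g' : GLn n, (g' : Mat n) = (g : Mat n) → unChi n g' = 1 := by
    refine Matrix.diagonal_transvection_induction_of_det_ne_zero
      (fun M => ∀ g' : GLn n, (g' : Mat n) = M → unChi n g' = 1) (g : Mat n) (hdet g) ?_ ?_ ?_
    · intro D hD g' hg'
      rw [Matrix.det_diagonal, Finset.prod_ne_zero_iff] at hD
      have : g' = unPsi n (fun i => Units.mk0 (D i) (hD i (Finset.mem_univ i))) := by
        apply Units.ext
        rw [hg']
        rfl
      rw [this]
      exact unChi_diag _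
    · intro t g' hg'
      exact unChi_trans t.hij t.c g' hg'
    · intro A B hA hB hPA hPB g' hg'
      let gA : GLn n := Matrix.GeneralLinearGroup.mkOfDetNeZero A hA
      let gB : GLn n := Matrix.GeneralLinearGroup.mkOfDetNeZero B hB
      have : g' = gA * gB := by
        apply Units.ext
        rw [hg']
        rfl
      rw [this, map_mul, hPA gA rfl, hPB gB rfl, one_mul]
  exact key g rfl

instance hG_right : (hG n).IsMulRightInvariant := by
  refine ⟨fun g => ?_⟩
  rw [Measure.map_right_mul_eq_modularCharacterFun_smul (hG n) g]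
  have h : Measure.modularCharacterFun g = 1 := unChi_one g
  rw [h, one_smul]

end

end Pool.Agent.Work.MP_dd0ddf_al.CW
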