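import Pool.Agent.Work.MP_dd0ddf_al.CW.Defs
import Pool.Agent.Work.MP_dd0ddf_al.CW.Psg
import Pool.Agent.Work.MP_dd0ddf_al.CW.Mev

/-!
# the coinvariants Y / nY are finite dimensional

PROOF (the same induction as in `Wred`, `Tred`, with subspaces).  N := nY L R contains L_ij y and R_ij y for i < j.  M_e := span {mon L m v : |m| <= e, v in V0} + N.
CLAIM (strong induction on d = length of w): wd w v in M_d, and in M_(d-1) if w has an off-diagonal letter.
 - off-diagonal letter: move the first one, x, to the front through the diagonal letters on its left (y x = x y + c x): words of length d-1 are fine by induction.  x :: w':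
   x = L_ij or R_ij with i < j: in N.  x = L_ij, i > j: L_ij y = Z y + R_ji y, Z = Zo L R i j, R_ji y in N (j < i), Z wd w' v = wd w' (Z v) + (words of length d-1) v, in M_(d-1).
   x = R_ij, i > j: Zo L R j i = L_ji - R_ij, R_ij y = L_ji y - Zo L R j i y, L_ji y in N.
 - only diagonal letters: they commute; replace R_ii by L_ii - Z_ii at the right end as in `Wred`.
For |m| >= n*n: X^m = sum q_k p_k (`psg`), `mev`, `HasZ`: mon L m v = sum_k zeta_k ev(q_k) v - sum_k sum_w c_w ev(q_k) wd w v in M_(|m|-1).  By induction every M_e <= M_(n*n-1)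
(n = 0: trivially M_0 = everything).  So everything (hgen) lies in S + N with S = span {mon L m (bv b) : |m| <= n*n-1, b}, finite dimensional.
-/

set_option linter.unusedSectionVars false

namespace Pool.Agent.Work.MP_dd0ddf_al.CW

open scoped Matrix.Norms.Elementwise ComplexConjugate ContDiff Topology
open Matrix MeasureTheory Filter
open Pool.Agent.Work.MP_dd0ddf_al.AR

noncomputable section

variable {n : ℕ} {Y : Type*} [AddCommGroup Y] [Module ℂ Y]

private theorem coi_app (L R : Fin n → Fin n → Module.End ℂ Y) (w1 w2 : List (Lt n)) :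
    wd L R (w1 ++ w2) = wd L R w1 * wd L R w2 := by
  unfold wd
  rw [List.map_append, List.prod_append]

private theorem coi_cons (L R : Fin n → Fin n → Module.End ℂ Y) (x : Lt n) (w : List (Lt n)) :
    wd L R (x :: w) = lop L R x * wd L R w := by
  unfold wd
  rw [List.map_cons, List.prod_cons]

private theorem coi_nil (L R : Fin n → Fin n → Module.End ℂ Y) : wd L R [] = 1 := rfl

/-- combinations of words of length at most `d` -/
private def Wf (L R : Fin n → Fin n → Module.End ℂ Y) (d : ℕ) :
    Submodule ℂ (Module.End ℂ Y) :=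
  Submodule.span ℂ {T | ∃ w : List (Lt n), w.length ≤ d ∧ T = wd L R w}

private theorem wf_wd (L R : Fin n → Fin n → Module.End ℂ Y) {w : List (Lt n)} {d : ℕ}
    (h : w.length ≤ d) : wd L R w ∈ Wf L R d :=
  Submodule.subset_span ⟨w, h, rfl⟩

private theorem wf_lop (L R : Fin n → Fin n → Module.End ℂ Y) (x : Lt n) :
    lop L R x ∈ Wf L R 1 := by
  have h : lop L R x = wd L R [x] := by
    rw [coi_cons, coi_nil, mul_one]
  rw [h]
  exact wf_wd L R (by simp)

private theorem wf_mono (L R : Fin n → Fin n → Module.End ℂ Y) {a b : ℕ} (h : a ≤ b) :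
    Wf L R a ≤ Wf L R b := by
  apply Submodule.span_mono
  rintro _ ⟨w, hw, rfl⟩
  exact ⟨w, hw.trans h, rfl⟩

private theorem wf_mul {L R : Fin n → Fin n → Module.End ℂ Y} {a b : ℕ}
    {S T : Module.End ℂ Y} (hS : S ∈ Wf L R a) (hT : T ∈ Wf L R b) :
    S * T ∈ Wf L R (a + b) := by
  unfold Wf at hS hT
  induction hS using Submodule.span_induction with
  | mem S hS =>
    obtain ⟨w, hw, rfl⟩ := hS
    induction hT using Submodule.span_induction with
    | mem T hT =>
      obtain ⟨w', hw', rfl⟩ := hT
      rw [← coi_app]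
      exact wf_wd L R (by rw [List.length_append]; omega)
    | zero =>
      rw [mul_zero]
      exact Submodule.zero_mem _
    | add x y _ _ hx hy =>
      rw [mul_add]
      exact Submodule.add_mem _ hx hy
    | smul c x _ hx =>
      rw [mul_smul_comm]
      exact Submodule.smul_mem _ c hx
  | zero =>
    rw [zero_mul]
    exact Submodule.zero_mem _
  | add x y _ _ hx hy =>
    rw [add_mul]
    exact Submodule.add_mem _ hx hy
  | smul c x _ hx =>
    rw [smul_mul_assoc]
    exact Submodule.smul_mem _ c hx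

private theorem wf_lie {L R : Fin n → Fin n → Module.End ℂ Y} (gg : GG L R) (x y : Lt n) :
    lop L R x * lop L R y - lop L R y * lop L R x ∈ Wf L R 1 := by
  have hL : ∀ i j, L i j ∈ Wf L R 1 := fun i j => wf_lop L R (true, i, j)
  have hR : ∀ i j, R i j ∈ Wf L R 1 := fun i j => wf_lop L R (false, i, j)
  obtain ⟨b, i, j⟩ := x
  obtain ⟨c, k, l⟩ := y
  cases b
  · cases c
    · change R i j * R k l - R k l * R i j ∈ Wf L R 1
      rw [gg.RR i j k l]
      apply Submodule.sub_mem
      · split_ifs
        · exact hR _ _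
        · exact Submodule.zero_mem _
      · split_ifs
        · exact hR _ _
        · exact Submodule.zero_mem _
    · change R i j * L k l - L k l * R i j ∈ Wf L R 1
      rw [gg.LR k l i j, sub_self]
      exact Submodule.zero_mem _
  · cases c
    · change L i j * R k l - R k l * L i j ∈ Wf L R 1
      rw [gg.LR i j k l, sub_self]
      exact Submodule.zero_mem _
    · change L i j * L k l - L k l * L i j ∈ Wf L R 1
      rw [gg.LL i j k l]
      apply Submodule.sub_mem
      · split_ifs
        · exact hL _ _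
        · exact Submodule.zero_mem _
      · split_ifs
        · exact hL _ _
        · exact Submodule.zero_mem _

private theorem wf_comm_wd {L R : Fin n → Fin n → Module.End ℂ Y} (gg : GG L R) (x : Lt n)
    (w : List (Lt n)) :
    lop L R x * wd L R w - wd L R w * lop L R x ∈ Wf L R w.length := by
  induction w with
  | nil =>
    rw [coi_nil, mul_one, one_mul, sub_self]
    exact Submodule.zero_mem _
  | cons y w ih =>
    have h : lop L R x * wd L R (y :: w) - wd L R (y :: w) * lop L R x =
        (lop L R x * lop L R y - lop L R y * lop L R x) * wd L R w +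
          lop L R y * (lop L R x * wd L R w - wd L R w * lop L R x) := by
      rw [coi_cons]
      noncomm_ring
    rw [h, List.length_cons, add_comm w.length 1]
    exact Submodule.add_mem _ (wf_mul (wf_lie gg x y) (wf_wd L R le_rfl))
      (wf_mul (wf_lop L R y) ih)

private theorem wf_comm {L R : Fin n → Fin n → Module.End ℂ Y} (gg : GG L R) (x : Lt n)
    {d : ℕ} {T : Module.End ℂ Y} (hT : T ∈ Wf L R d) :
    lop L R x * T - T * lop L R x ∈ Wf L R d := by
  unfold Wf at hT
  induction hT using Submodule.span_induction with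
  | mem T hT =>
    obtain ⟨w, hw, rfl⟩ := hT
    exact wf_mono L R hw (wf_comm_wd gg x w)
  | zero =>
    rw [mul_zero, zero_mul, sub_self]
    exact Submodule.zero_mem _
  | add S T _ _ hS hT =>
    have h : lop L R x * (S + T) - (S + T) * lop L R x =
        (lop L R x * S - S * lop L R x) + (lop L R x * T - T * lop L R x) := by
      noncomm_ring
    rw [h]
    exact Submodule.add_mem _ hS hT
  | smul c T _ hT =>
    rw [mul_smul_comm, smul_mul_assoc, ← smul_sub]
    exact Submodule.smul_mem _ c hT

/-- the subspaces `M_d` -/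
private def Mf (L R : Fin n → Fin n → Module.End ℂ Y) (V0 : Submodule ℂ Y) (d : ℕ) :
    Submodule ℂ Y :=
  (⨆ m ∈ mis n d, V0.map (mon L m)) ⊔ nY L R

private theorem mis_mem {d : ℕ} {m : Fin n → ℕ} : m ∈ mis n d ↔ ∑ i, m i ≤ d := by
  unfold mis
  rw [Finset.mem_filter, Fintype.mem_piFinset]
  constructor
  · exact fun h => h.2
  · intro h
    refine ⟨fun i => ?_, h⟩
    rw [Finset.mem_range]
    have h1 : m i ≤ ∑ i, m i := Finset.single_le_sum (fun _ _ => Nat.zero_le _) (Finset.mem_univ i)
    omega

private theorem mf_mon {L R : Fin n → Fin n → Module.End ℂ Y} {V0 : Submodule ℂ Y} {d : ℕ}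
    {m : Fin n → ℕ} (hm : ∑ i, m i ≤ d) {v : Y} (hv : v ∈ V0) : mon L m v ∈ Mf L R V0 d := by
  have h1 : V0.map (mon L m) ≤ Mf L R V0 d :=
    (le_iSup₂ (f := fun (m : Fin n → ℕ) (_ : m ∈ mis n d) => V0.map (mon L m)) m
      (mis_mem.2 hm)).trans le_sup_left
  exact h1 (Submodule.mem_map_of_mem hv)

private theorem mf_mono {L R : Fin n → Fin n → Module.End ℂ Y} {V0 : Submodule ℂ Y} {a b : ℕ}
    (h : a ≤ b) : Mf L R V0 a ≤ Mf L R V0 b := by
  unfold Mf
  refine sup_le_sup_right ?_ _
  refine iSup₂_le fun m hm => ?_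
  exact le_iSup₂_of_le m (mis_mem.2 ((mis_mem.1 hm).trans h)) le_rfl

private theorem mf_nL {L R : Fin n → Fin n → Module.End ℂ Y} {V0 : Submodule ℂ Y} {d : ℕ}
    {i j : Fin n} (h : i < j) (y : Y) : L i j y ∈ Mf L R V0 d := by
  have h1 : LinearMap.range (L i j) ⊔ LinearMap.range (R i j) ≤ Mf L R V0 d := by
    refine le_trans ?_ (le_sup_right : nY L R ≤ _)
    unfold nY
    exact le_iSup_of_le i (le_iSup_of_le j (le_iSup_of_le h le_rfl))
  exact h1 (Submodule.mem_sup_left ⟨y, rfl⟩)

private theorem mf_nR {L R : Fin n → Fin n → Module.End ℂ Y} {V0 : Submodule ℂ Y} {d : ℕ}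
    {i j : Fin n} (h : i < j) (y : Y) : R i j y ∈ Mf L R V0 d := by
  have h1 : LinearMap.range (L i j) ⊔ LinearMap.range (R i j) ≤ Mf L R V0 d := by
    refine le_trans ?_ (le_sup_right : nY L R ≤ _)
    unfold nY
    exact le_iSup_of_le i (le_iSup_of_le j (le_iSup_of_le h le_rfl))
  exact h1 (Submodule.mem_sup_right ⟨y, rfl⟩)

section main

variable {L R : Fin n → Fin n → Module.End ℂ Y} {V0 : Submodule ℂ Y}

private theorem coi_zo (gg : GG L R) (hV : ∀ i j, ∀ v ∈ V0, Zo L R i j v ∈ V0) {d : ℕ}
    (hP : ∀ T ∈ Wf L R d, ∀ v ∈ V0, T v ∈ Mf L R V0 d) (i j : Fin n) {T : Module.End ℂ Y}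
    (hT : T ∈ Wf L R d) {v : Y} (hv : v ∈ V0) : Zo L R i j (T v) ∈ Mf L R V0 d := by
  have h1 := wf_comm gg (true, i, j) hT
  have h2 := wf_comm gg (false, j, i) hT
  change L i j * T - T * L i j ∈ Wf L R d at h1
  change R j i * T - T * R j i ∈ Wf L R d at h2
  have h3 : Zo L R i j (T v) = T (Zo L R i j v) + (L i j * T - T * L i j) v -
      (R j i * T - T * R j i) v := by
    unfold Zo
    simp only [LinearMap.sub_apply, Module.End.mul_apply, map_sub]
    abel
  rw [h3]
  exact Submodule.sub_mem _ (Submodule.add_mem _ (hP T hT _ (hV i j v hv)) (hP _ h1 v hv))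
    (hP _ h2 v hv)

private theorem coi_front (gg : GG L R) (hV : ∀ i j, ∀ v ∈ V0, Zo L R i j v ∈ V0) {d : ℕ}
    (hP : ∀ T ∈ Wf L R d, ∀ v ∈ V0, T v ∈ Mf L R V0 d) (x : Lt n) (hx : x.2.1 ≠ x.2.2)
    {T : Module.End ℂ Y} (hT : T ∈ Wf L R d) {v : Y} (hv : v ∈ V0) :
    lop L R x (T v) ∈ Mf L R V0 d := by
  obtain ⟨b, i, j⟩ := x
  change i ≠ j at hx
  rcases lt_or_gt_of_ne hx with h | h
  · cases b
    · exact mf_nR h _
    · exact mf_nL h _
  · cases b
    · change R i j (T v) ∈ Mf L R V0 d
      have h1 : R i j (T v) = L j i (T v) - Zo L R j i (T v) := by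
        unfold Zo
        rw [LinearMap.sub_apply]
        abel
      rw [h1]
      exact Submodule.sub_mem _ (mf_nL h _) (coi_zo gg hV hP j i hT hv)
    · change L i j (T v) ∈ Mf L R V0 d
      have h1 : L i j (T v) = Zo L R i j (T v) + R j i (T v) := by
        unfold Zo
        rw [LinearMap.sub_apply]
        abel
      rw [h1]
      exact Submodule.add_mem _ (coi_zo gg hV hP i j hT hv) (mf_nR h _)

private theorem coi_off (gg : GG L R) (hV : ∀ i j, ∀ v ∈ V0, Zo L R i j v ∈ V0) {d : ℕ}
    (hP : ∀ T ∈ Wf L R d, ∀ v ∈ V0, T v ∈ Mf L R V0 d) {w : List (Lt n)} (hw : offd w)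
    (hl : w.length ≤ d + 1) {v : Y} (hv : v ∈ V0) : wd L R w v ∈ Mf L R V0 d := by
  obtain ⟨x, hxw, hx⟩ := hw
  obtain ⟨w1, w2, rfl⟩ := List.append_of_mem hxw
  rw [List.length_append, List.length_cons] at hl
  have h1 : wd L R (w1 ++ x :: w2) = lop L R x * wd L R (w1 ++ w2) -
      (lop L R x * wd L R w1 - wd L R w1 * lop L R x) * wd L R w2 := by
    rw [coi_app, coi_app, coi_cons]
    noncomm_ring
  rw [h1, LinearMap.sub_apply]
  apply Submodule.sub_mem
  · rw [Module.End.mul_apply]
    exact coi_front gg hV hP x hx (wf_wd L R (by rw [List.length_append]; omega)) hv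
  · apply hP _ _ v hv
    exact wf_mono L R (by omega) (wf_mul (wf_comm gg x (wf_wd L R (le_refl w1.length)))
      (wf_wd L R (le_refl w2.length)))

private theorem coi_diag (ev : MvPolynomial (Fin n) ℂ →ₐ[ℂ] Module.End ℂ Y)
    (h1 : ∀ i, ev (MvPolynomial.X i) = L i i) (w : List (Lt n))
    (hw : ∀ l ∈ w, l.1 = true ∧ l.2.1 = l.2.2) :
    ∃ m : Fin n →₀ ℕ, ∑ i, m i = w.length ∧ wd L R w = ev (MvPolynomial.monomial m 1) := by
  induction w with
  | nil =>
    refine ⟨0, by simp, ?_⟩
    rw [coi_nil, MvPolynomial.monomial_zero', map_one, map_one]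
  | cons x w ih =>
    obtain ⟨m, hm, hm'⟩ := ih fun l hl => hw l (List.mem_cons_of_mem _ hl)
    obtain ⟨hx1, hx2⟩ := hw x List.mem_cons_self
    refine ⟨Finsupp.single x.2.1 1 + m, ?_, ?_⟩
    · rw [List.length_cons, ← hm]
      simp only [Finsupp.add_apply, Finset.sum_add_distrib]
      rw [add_comm]
      congr 1
      simp [Finsupp.single_apply]
    · have h2 : lop L R x = ev (MvPolynomial.X x.2.1) := by
        rw [h1]
        unfold lop
        rw [if_pos hx1, ← hx2]
      rw [coi_cons, h2, hm', ← map_mul]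
      congr 1
      unfold MvPolynomial.X
      rw [MvPolynomial.monomial_mul, one_mul]

private theorem coi_step (gg : GG L R) (hV : ∀ i j, ∀ v ∈ V0, Zo L R i j v ∈ V0) {d : ℕ}
    (hP : ∀ T ∈ Wf L R d, ∀ v ∈ V0, T v ∈ Mf L R V0 d) (k : ℕ) :
    ∀ w : List (Lt n), w.countP (fun l => !l.1) = k → w.length ≤ d + 1 → ∀ v ∈ V0,
      wd L R w v ∈ Mf L R V0 (d + 1) := by
  obtain ⟨ev, h1, h2⟩ := mev L R gg
  induction k with
  | zero =>
    intro w hk hl v hv
    by_cases ho : offd w
    · exact mf_mono (Nat.le_succ d) (coi_off gg hV hP ho hl hv)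
    · have h3 : ∀ l ∈ w, l.1 = true ∧ l.2.1 = l.2.2 := by
        intro l hlw
        constructor
        · have h4 := (List.countP_eq_zero.1 hk) l hlw
          simpa using h4
        · by_contra h5
          exact ho ⟨l, hlw, h5⟩
      obtain ⟨m, hm, hm'⟩ := coi_diag (R := R) ev h1 w h3
      rw [hm', h2]
      exact mf_mon (by rw [hm]; exact hl) hv
  | succ k ih =>
    intro w hk hl v hv
    by_cases ho : offd w
    · exact mf_mono (Nat.le_succ d) (coi_off gg hV hP ho hl hv)
    · obtain ⟨x, hxw, hx⟩ : ∃ x ∈ w, (!x.1) = true := by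
        apply List.countP_pos_iff.1
        omega
      have hd : x.2.1 = x.2.2 := by
        by_contra h5
        exact ho ⟨x, hxw, h5⟩
      obtain ⟨w1, w2, rfl⟩ := List.append_of_mem hxw
      have hlen := hl
      rw [List.length_append, List.length_cons] at hlen
      obtain ⟨b, i, j⟩ := x
      change i = j at hd
      subst hd
      have hb : b = false := by simpa using hx
      subst hb
      have h3 : wd L R (w1 ++ (false, i, i) :: w2) = wd L R (w1 ++ w2) * R i i +
          wd L R w1 * (lop L R (false, i, i) * wd L R w2 -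
            wd L R w2 * lop L R (false, i, i)) := by
        rw [coi_app, coi_app, coi_cons]
        change wd L R w1 * (R i i * wd L R w2) = wd L R w1 * wd L R w2 * R i i +
          wd L R w1 * (R i i * wd L R w2 - wd L R w2 * R i i)
        noncomm_ring
      have h4 : (wd L R (w1 ++ w2) * R i i) v = wd L R (w1 ++ w2 ++ [(true, i, i)]) v -
          wd L R (w1 ++ w2) (Zo L R i i v) := by
        rw [coi_app L R (w1 ++ w2), coi_cons, coi_nil, mul_one]
        change wd L R (w1 ++ w2) (R i i v) = wd L R (w1 ++ w2) (L i i v) -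
          wd L R (w1 ++ w2) (L i i v - R i i v)
        rw [map_sub]
        abel
      rw [h3, LinearMap.add_apply, h4]
      apply Submodule.add_mem
      · apply Submodule.sub_mem
        · apply ih _ _ _ v hv
          · rw [List.countP_append, List.countP_cons] at hk
            rw [List.countP_append, List.countP_append]
            simp at hk ⊢
            omega
          · rw [List.length_append, List.length_append]
            simp
            omega
        · exact mf_mono (Nat.le_succ d) (hP _ (wf_wd L R (by rw [List.length_append]; omega)) _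
            (hV i i v hv))
      · apply mf_mono (Nat.le_succ d)
        apply hP _ _ v hv
        exact wf_mono L R (by omega) (wf_mul (wf_wd L R (le_refl w1.length))
          (wf_comm gg (false, i, i) (wf_wd L R (le_refl w2.length))))

private theorem coi_P (gg : GG L R) (hV : ∀ i j, ∀ v ∈ V0, Zo L R i j v ∈ V0) (d : ℕ) :
    ∀ T ∈ Wf L R d, ∀ v ∈ V0, T v ∈ Mf L R V0 d := by
  have key : ∀ d : ℕ, (∀ w : List (Lt n), w.length ≤ d → ∀ v ∈ V0,
      wd L R w v ∈ Mf L R V0 d) → ∀ T ∈ Wf L R d, ∀ v ∈ V0, T v ∈ Mf L R V0 d := by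
    intro d h T hT v hv
    unfold Wf at hT
    induction hT using Submodule.span_induction with
    | mem T hT =>
      obtain ⟨w, hw, rfl⟩ := hT
      exact h w hw v hv
    | zero =>
      rw [LinearMap.zero_apply]
      exact Submodule.zero_mem _
    | add S T _ _ hS hT =>
      rw [LinearMap.add_apply]
      exact Submodule.add_mem _ hS hT
    | smul c T _ hT =>
      rw [LinearMap.smul_apply]
      exact Submodule.smul_mem _ c hT
  induction d with
  | zero =>
    apply key
    intro w hw v hv
    have h1 : w = [] := List.length_eq_zero_iff.1 (Nat.le_zero.1 hw)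
    subst h1
    have h2 : mon L (fun _ : Fin n => 0) = 1 := by
      unfold mon
      apply List.prod_eq_one
      intro x hx
      rw [List.mem_ofFn] at hx
      obtain ⟨i, rfl⟩ := hx
      exact pow_zero _
    rw [coi_nil, ← h2]
    exact mf_mon (by simp) hv
  | succ d ih =>
    apply key
    intro w hw v hv
    exact coi_step gg hV ih _ w rfl hw v hv

private theorem coi_hom (ev : MvPolynomial (Fin n) ℂ →ₐ[ℂ] Module.End ℂ Y)
    (h2 : ∀ m : Fin n →₀ ℕ, ev (MvPolynomial.monomial m 1) = mon L m)
    {q : MvPolynomial (Fin n) ℂ} {e : ℕ} (hq : q.IsHomogeneous e) : ev q ∈ Wf L R e := by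
  have hw : ∀ m : Fin n → ℕ, mon L m ∈ Wf L R (∑ i, m i) := by
    intro m
    have h3 : mon L m =
        wd L R (List.ofFn fun i => List.replicate (m i) ((true, i, i) : Lt n)).flatten := by
      unfold mon wd
      rw [List.map_flatten, List.prod_flatten, List.map_ofFn, List.map_ofFn]
      congr 1
      apply congrArg
      funext i
      change L i i ^ m i = (List.map (lop L R) (List.replicate (m i) (true, i, i))).prod
      rw [List.map_replicate, List.prod_replicate]
      rfl
    rw [h3]
    apply wf_wd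
    rw [List.length_flatten, List.map_ofFn, List.sum_ofFn]
    apply le_of_eq
    apply Finset.sum_congr rfl
    intro i _
    exact List.length_replicate
  rw [MvPolynomial.as_sum q, map_sum]
  apply Submodule.sum_mem
  intro m hm
  have h3 : MvPolynomial.monomial m (q.coeff m) =
      (q.coeff m) • MvPolynomial.monomial m (1 : ℂ) := by
    rw [MvPolynomial.smul_monomial, smul_eq_mul, mul_one]
  rw [h3, map_smul, h2]
  apply Submodule.smul_mem
  have h4 : ∑ i, m i = e := by
    have h5 := hq (MvPolynomial.mem_support_iff.1 hm)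
    rw [← h5]
    simp [Finsupp.weight_apply, Finsupp.sum_fintype]
  rw [← h4]
  exact hw m

private theorem coi_top (hn : 0 < n) (gg : GG L R) (hz : HasZ L R)
    (hV : ∀ i j, ∀ v ∈ V0, Zo L R i j v ∈ V0) {d : ℕ} (m : Fin n → ℕ)
    (hm : ∑ i, m i = d + 1) (hmn : n * n ≤ d + 1) {v : Y} (hv : v ∈ V0) :
    mon L m v ∈ Mf L R V0 d := by
  obtain ⟨ev, h1, h2⟩ := mev L R gg
  have hP := coi_P gg hV d
  obtain ⟨m', hm'⟩ : ∃ m' : Fin n →₀ ℕ, (m' : Fin n → ℕ) = m :=
    ⟨Finsupp.equivFunOnFinite.symm m, rfl⟩
  subst hm'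
  obtain ⟨q, hq, hmon⟩ := psg hn m' (by rw [hm]; exact hmn)
  have h3 : mon L m' v = ∑ k ∈ Finset.Icc 1 n, ev (q k) (∑ i, (L i i ^ k) v) := by
    rw [← h2, hmon, map_sum, LinearMap.sum_apply]
    apply Finset.sum_congr rfl
    intro k _
    rw [map_mul, Module.End.mul_apply]
    congr 1
    unfold MvPolynomial.psum
    rw [map_sum, LinearMap.sum_apply]
    apply Finset.sum_congr rfl
    intro i _
    rw [map_pow, h1]
  rw [h3]
  apply Submodule.sum_mem
  intro k hk
  rw [Finset.mem_Icc] at hk
  have hqk := hq k hk.1 hk.2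
  rw [hm] at hqk
  have hev := coi_hom (R := R) ev h2 hqk
  obtain ⟨c, ζ, hc, hy⟩ := hz k hk.1 hk.2
  have h4 : ∑ i, (L i i ^ k) v = ζ • v - c.sum (fun w a => a • wd L R w v) := by
    rw [← hy v]
    abel
  rw [h4, map_sub, map_smul]
  apply Submodule.sub_mem
  · apply Submodule.smul_mem
    exact hP _ (wf_mono L R (by omega) hev) v hv
  · unfold Finsupp.sum
    rw [map_sum]
    apply Submodule.sum_mem
    intro w hw
    obtain ⟨hwl, hwo⟩ := hc w hw
    rw [map_smul]
    apply Submodule.smul_mem
    -- words of length at most `d + 1 - k` applied to `wd w v`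
    have h5 : ∀ T ∈ Wf L R (d + 1 - k), T (wd L R w v) ∈ Mf L R V0 d := by
      intro T hT
      unfold Wf at hT
      induction hT using Submodule.span_induction with
      | mem T hT =>
        obtain ⟨w', hw', rfl⟩ := hT
        rw [← Module.End.mul_apply, ← coi_app]
        apply coi_off gg hV hP _ _ hv
        · obtain ⟨l, hl, hl'⟩ := hwo
          exact ⟨l, List.mem_append_right _ hl, hl'⟩
        · rw [List.length_append]
          have hkn : n ≤ n * n := Nat.le_mul_self n
          omega
      | zero =>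
        rw [LinearMap.zero_apply]
        exact Submodule.zero_mem _
      | add S T _ _ hS hT =>
        rw [LinearMap.add_apply]
        exact Submodule.add_mem _ hS hT
      | smul c T _ hT =>
        rw [LinearMap.smul_apply]
        exact Submodule.smul_mem _ c hT
    exact h5 _ hev

private theorem coi_all (hn : 0 < n) (gg : GG L R) (hz : HasZ L R)
    (hV : ∀ i j, ∀ v ∈ V0, Zo L R i j v ∈ V0) (e : ℕ) :
    Mf L R V0 (n * n - 1 + e) ≤ Mf L R V0 (n * n - 1) := by
  induction e with
  | zero => exact le_rfl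
  | succ e ih =>
    refine le_trans ?_ ih
    have hnn : 0 < n * n := Nat.mul_pos hn hn
    unfold Mf
    refine sup_le (iSup₂_le fun m hm => ?_) le_sup_right
    rintro _ ⟨v, hv, rfl⟩
    rcases Nat.lt_or_ge (n * n - 1 + e) (∑ i, m i) with h | h
    · have h1 := mis_mem.1 hm
      exact coi_top hn gg hz hV m (by omega) (by omega) hv
    · exact mf_mon h hv

end main

theorem coi (hn : 0 < n) {L R : Fin n → Fin n → Module.End ℂ Y} (gg : GG L R) (hz : HasZ L R)
    {V0 : Submodule ℂ Y} [FiniteDimensional ℂ V0] (hV : ∀ i j, ∀ v ∈ V0, Zo L R i j v ∈ V0)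
    (hgen : ∀ y : Y, y ∈ Submodule.span ℂ {z | ∃ (w : List (Lt n)) (v : Y), v ∈ V0 ∧
      z = wd L R w v}) :
    ∃ S : Submodule ℂ Y, FiniteDimensional ℂ S ∧ S ⊔ nY L R = ⊤ := by
  refine ⟨⨆ m ∈ mis n (n * n - 1), V0.map (mon L m), ?_, ?_⟩
  · rw [← Finset.sup_eq_iSup]
    exact Submodule.finiteDimensional_finset_sup _ (fun m : Fin n → ℕ => V0.map (mon L m))
  · rw [eq_top_iff]
    intro y _
    have h1 : Submodule.span ℂ {z | ∃ (w : List (Lt n)) (v : Y), v ∈ V0 ∧ z = wd L R w v} ≤
        Mf L R V0 (n * n - 1) := by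
      rw [Submodule.span_le]
      rintro _ ⟨w, v, hv, rfl⟩
      have h2 := coi_P gg hV w.length _ (wf_wd L R le_rfl) v hv
      exact coi_all hn gg hz hV w.length (mf_mono (Nat.le_add_left _ _) h2)
    exact h1 (hgen y)

end

end Pool.Agent.Work.MP_dd0ddf_al.CW
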