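import Pool.Agent.Work.MP_dd0ddf_al.CW.Defs

/-!
# MP_dd0ddf_al, archimedean part: further definitions

* `Hd h`, `ag h t = exp(t diag(h))`;
* `IsKer`, `eK`: the reproducing kernel of the space `SU n R` of functions on `U(n)`;
* `xop`, `yop`, `mop`: an operator `T` of `X` acting on the `U(n)`-finite vectors, on the
  `U(n)`-finite functionals (by `l ↦ l ∘ T`, a right action), and on the linear functionals on
  them (a left action);
* `xL`, `xR`, `yL`, `yR`, `mL`, `mR`: the corresponding representations of `gl_n × gl_n`.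
-/

set_option linter.unusedSectionVars false

namespace Pool.Agent.Work.MP_dd0ddf_al.CW

open scoped Matrix.Norms.Elementwise ComplexConjugate ContDiff Topology
open Matrix MeasureTheory Filter
open Pool.Agent.Work.MP_dd0ddf_al.AR

noncomputable section

variable {n : ℕ}

/-- the real diagonal matrix `diag(h)` -/
def Hd (h : Fin n → ℝ) : Mat n := Matrix.diagonal fun i => ((h i : ℝ) : ℂ)

/-- `exp(t diag(h))` -/
def ag (h : Fin n → ℝ) (t : ℝ) : GLn n := ex (t • Hd h)

/-- the standard regular direction `diag(n-1, n-3, ..., 1-n)` -/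
def h0 (n : ℕ) : Fin n → ℝ := fun i => (n : ℝ) - 1 - 2 * (i : ℕ)

/-- the sum of the Frobenius norms of `g` and `g⁻¹` -/
def nF (g : GLn n) : ℝ :=
  √(∑ i, ∑ j, ‖(g : Mat n) i j‖ ^ 2) + √(∑ i, ∑ j, ‖((g⁻¹ : GLn n) : Mat n) i j‖ ^ 2)

/-- reproducing kernel of `SU n R` -/
structure IsKer (n R : ℕ) (e : UU n → ℂ) : Prop where
  mem : e ∈ SU n R
  rep : ∀ f ∈ SU n R, ∫ k, e k * f k ∂(hK n) = f 1
  inv : ∀ k, e k⁻¹ = e k
  central : ∀ k k', e (k * k' * k⁻¹) = e k'
  bound : ∀ k, ‖e k‖ ≤ Module.finrank ℂ (SU n R)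

open Classical in
/-- the reproducing kernel of `SU n R` -/
def eK (n R : ℕ) : UU n → ℂ := if h : ∃ e, IsKer n R e then Classical.choose h else 0

section rep

variable {X : Type*} [AddCommGroup X] [Module ℂ X] [UniformSpace X] [IsUniformAddGroup X]
  [ContinuousSMul ℂ X] [CompleteSpace X] [T2Space X] [IsFre X]

open Classical in
/-- the operator `T` on the `U(n)`-finite vectors (if it preserves them) -/
def xop (π : GLn n →* (X →L[ℂ] X)) (T : X →L[ℂ] X) : Module.End ℂ (Xf π) :=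
  if h : ∀ x ∈ Xf π, T x ∈ Xf π then (T : X →ₗ[ℂ] X).restrict h else 0

open Classical in
/-- `l ↦ l ∘ T` on the `U(n)`-finite functionals (if it preserves them) -/
def yop (π : GLn n →* (X →L[ℂ] X)) (T : X →L[ℂ] X) : Module.End ℂ (Yf π) :=
  if h : ∀ l ∈ Yf π, l.comp (T : X →ₗ[ℂ] X) ∈ Yf π then
    { toFun := fun l => ⟨(l : X →ₗ[ℂ] ℂ).comp (T : X →ₗ[ℂ] X), h l l.2⟩
      map_add' := fun l m => rfl
      map_smul' := fun c l => rfl }
  else 0

/-- the operator `T` on the linear functionals on `Yf π`: `(T u)(l) = u(l ∘ T)` -/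
def mop (π : GLn n →* (X →L[ℂ] X)) (T : X →L[ℂ] X) : Module.End ℂ (Yf π →ₗ[ℂ] ℂ) where
  toFun := fun u => u.comp (yop π T)
  map_add' := fun u v => by
    ext l
    simp
  map_smul' := fun c u => by
    ext l
    simp

/-- action of the complex linear part of the Lie algebra on `U(n)`-finite vectors -/
def xL (π : GLn n →* (X →L[ℂ] X)) (D : Mat n →ₗ[ℝ] (X →L[ℂ] X)) (i j : Fin n) :
    Module.End ℂ (Xf π) := xop π (DL D i j)

/-- action of the antilinear part of the Lie algebra on `U(n)`-finite vectors -/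
def xR (π : GLn n →* (X →L[ℂ] X)) (D : Mat n →ₗ[ℝ] (X →L[ℂ] X)) (i j : Fin n) :
    Module.End ℂ (Xf π) := xop π (DR D i j)

/-- contragredient action on `U(n)`-finite functionals, `l ↦ - l ∘ L_ij` -/
def yL (π : GLn n →* (X →L[ℂ] X)) (D : Mat n →ₗ[ℝ] (X →L[ℂ] X)) (i j : Fin n) :
    Module.End ℂ (Yf π) := -yop π (DL D i j)

/-- contragredient action on `U(n)`-finite functionals, `l ↦ - l ∘ R_ij` -/
def yR (π : GLn n →* (X →L[ℂ] X)) (D : Mat n →ₗ[ℝ] (X →L[ℂ] X)) (i j : Fin n) :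
    Module.End ℂ (Yf π) := -yop π (DR D i j)

/-- action on formal vectors (linear functionals on `Yf π`) -/
def mL (π : GLn n →* (X →L[ℂ] X)) (D : Mat n →ₗ[ℝ] (X →L[ℂ] X)) (i j : Fin n) :
    Module.End ℂ (Yf π →ₗ[ℂ] ℂ) := mop π (DL D i j)

/-- action on formal vectors (linear functionals on `Yf π`) -/
def mR (π : GLn n →* (X →L[ℂ] X)) (D : Mat n →ₗ[ℝ] (X →L[ℂ] X)) (i j : Fin n) :
    Module.End ℂ (Yf π →ₗ[ℂ] ℂ) := mop π (DR D i j)

/-- the operators `DL D i j` as linear maps -/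
def dL (D : Mat n →ₗ[ℝ] (X →L[ℂ] X)) (i j : Fin n) : Module.End ℂ X := (DL D i j : X →ₗ[ℂ] X)

/-- the operators `DR D i j` as linear maps -/
def dR (D : Mat n →ₗ[ℝ] (X →L[ℂ] X)) (i j : Fin n) : Module.End ℂ X := (DR D i j : X →ₗ[ℂ] X)

end rep

end

end Pool.Agent.Work.MP_dd0ddf_al.CW
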