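import Pool.Agent.Work.MP_dd0ddf_al.CW.Defs

/-!
# the traces commute with the group

PROOF. Let EE = Matrix.of L over the (noncommutative) ring End(Y), A = (g_ki) as a matrix of scalar operators: A_ik = g_ki, A'_lj = (g^-1)_jl.  Then (entrywise) P (EE)_ij Q = (A EE A')_ij and
A' A = 1, A A' = 1 (g^-1 g = 1 transposed).  P (EE^k)_ij Q = (A EE^k A')_ij by induction on k (insert Q P = 1 between the factors and A' A = 1).
Trace: sum_i (A EE^k A')_ii = sum_(i,a,b) g_ai (g^-1)_ib' ... = sum_(a,b) (EE^k)_ab sum_i g_ai (g^-1)_ib = sum_a (EE^k)_aa since g g^-1 = 1 (scalars commute with operators).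
-/

set_option linter.unusedSectionVars false

namespace Pool.Agent.Work.MP_dd0ddf_al.CW

open scoped Matrix.Norms.Elementwise ComplexConjugate ContDiff Topology
open Matrix MeasureTheory Filter
open Pool.Agent.Work.MP_dd0ddf_al.AR

noncomputable section

variable {n : ℕ} {Y : Type*} [AddCommGroup Y] [Module ℂ Y]

private theorem trc_pow {M : Type*} [Monoid M] {a b : M} (hab : a * b = 1) (hba : b * a = 1)
    (x : M) (k : ℕ) : (a * x * b) ^ k = a * x ^ k * b := by
  induction k with
  | zero => rw [pow_zero, pow_zero, mul_one, hab]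
  | succ k ih =>
    rw [pow_succ, ih, pow_succ]
    calc a * x ^ k * b * (a * x * b) = a * x ^ k * (b * a) * x * b := by simp only [mul_assoc]
      _ = a * (x ^ k * x) * b := by rw [hba, mul_one]; simp only [mul_assoc]

private theorem trc_cyc {S : Type*} [Ring S] [Algebra ℂ S] (A : Matrix (Fin n) (Fin n) ℂ)
    (N : Matrix (Fin n) (Fin n) S) :
    Matrix.trace ((algebraMap ℂ S).mapMatrix A * N) =
      Matrix.trace (N * (algebraMap ℂ S).mapMatrix A) := by
  simp only [Matrix.trace, Matrix.diag, Matrix.mul_apply, RingHom.mapMatrix_apply,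
    Matrix.map_apply]
  rw [Finset.sum_comm]
  refine Finset.sum_congr rfl fun i _ => Finset.sum_congr rfl fun j _ => ?_
  rw [Algebra.commutes]

theorem trc (L : Fin n → Fin n → Module.End ℂ Y) (g g' : Matrix (Fin n) (Fin n) ℂ)
    (hg : g * g' = 1) (hg' : g' * g = 1) (P Q : Module.End ℂ Y) (hPQ : P * Q = 1) (hQP : Q * P = 1)
    (h : ∀ i j, P * L i j * Q = ∑ k, ∑ l, (g k i * g' j l) • L k l) (k : ℕ) :
    P * tz L k * Q = tz L k := by
  set M : Matrix (Fin n) (Fin n) (Module.End ℂ Y) := Matrix.of L with hM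
  set φ := (algebraMap ℂ (Module.End ℂ Y)).mapMatrix (m := Fin n) with hφ
  have hA'A : φ g'ᵀ * φ gᵀ = 1 := by
    rw [← map_mul, ← Matrix.transpose_mul, hg, Matrix.transpose_one, map_one]
  have hAA' : φ gᵀ * φ g'ᵀ = 1 := by
    rw [← map_mul, ← Matrix.transpose_mul, hg', Matrix.transpose_one, map_one]
  have hS1 : Matrix.scalar (Fin n) P * Matrix.scalar (Fin n) Q = 1 := by
    rw [← map_mul, hPQ, map_one]
  have hS2 : Matrix.scalar (Fin n) Q * Matrix.scalar (Fin n) P = 1 := by
    rw [← map_mul, hQP, map_one]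
  have hent : ∀ (N : Matrix (Fin n) (Fin n) (Module.End ℂ Y)) (i j : Fin n),
      (Matrix.scalar (Fin n) P * N * Matrix.scalar (Fin n) Q) i j = P * N i j * Q := by
    intro N i j
    rw [Matrix.scalar_apply, Matrix.scalar_apply, Matrix.mul_diagonal, Matrix.diagonal_mul]
  have hkey : Matrix.scalar (Fin n) P * M * Matrix.scalar (Fin n) Q = φ gᵀ * M * φ g'ᵀ := by
    ext1 i j
    rw [hent, hM, Matrix.of_apply, h]
    simp only [Matrix.mul_apply, Finset.sum_mul]
    rw [Finset.sum_comm]
    refine Finset.sum_congr rfl fun a _ => Finset.sum_congr rfl fun b _ => ?_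
    simp only [hφ, RingHom.mapMatrix_apply, Matrix.map_apply, Matrix.transpose_apply,
      Matrix.of_apply]
    rw [Algebra.smul_def, map_mul, mul_assoc, mul_assoc]
    congr 1
    exact Algebra.commutes _ _
  have hpow : Matrix.scalar (Fin n) P * M ^ k * Matrix.scalar (Fin n) Q =
      φ gᵀ * M ^ k * φ g'ᵀ := by
    rw [← trc_pow hS1 hS2, hkey, trc_pow hAA' hA'A]
  have htr : Matrix.trace (Matrix.scalar (Fin n) P * M ^ k * Matrix.scalar (Fin n) Q) =
      P * Matrix.trace (M ^ k) * Q := by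
    simp only [Matrix.trace, Matrix.diag, hent]
    rw [Finset.mul_sum, Finset.sum_mul]
  unfold tz
  rw [← hM, ← htr, hpow, mul_assoc, hφ, trc_cyc, ← hφ, mul_assoc, hA'A, mul_one]

end

end Pool.Agent.Work.MP_dd0ddf_al.CW
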