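import Pool.Agent.Work.MP_dd0ddf_al.CW.Defs

/-!
# expansion of the traces

PROOF. tz L k = sum over index functions (i_0, ..., i_(k-1)) of L_(i0 i1) L_(i1 i2) ... L_(i_(k-1) i_0) (induction on k for the entries of the power of the matrix: ((of L)^k)_(ij) = sum over
paths).  The constant functions give sum_i L_ii^k; a nonconstant function has two consecutive (cyclically) different values, so the word
[(true,i0,i1), (true,i1,i2), ..., (true,i_(k-1),i0)] has an off-diagonal letter (k >= 1).  Let c = sum over the nonconstant index functions of Finsupp.single (word) 1.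
`wd L R word` is the product of the L's (lop L R (true,i,j) = L i j).
-/

set_option linter.unusedSectionVars false

namespace Pool.Agent.Work.MP_dd0ddf_al.CW

open scoped Matrix.Norms.Elementwise ComplexConjugate ContDiff Topology
open Matrix MeasureTheory Filter
open Pool.Agent.Work.MP_dd0ddf_al.AR

noncomputable section

variable {n : ℕ} {Y : Type*} [AddCommGroup Y] [Module ℂ Y]

/-- words of length `k` which are paths from `i` to `j` with an off-diagonal letter -/
private def SS (n k : ℕ) (i j : Fin n) : Set (List (Lt n)) :=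
  {w | w.length = k ∧ offd w ∧ (∀ l ∈ w, l.1 = true) ∧
    ∀ p, (w.filter fun l => l.2.1 = p).length + (if p = j then 1 else 0) =
      (w.filter fun l => l.2.2 = p).length + (if p = i then 1 else 0)}

private theorem wd_cons (L R : Fin n → Fin n → Module.End ℂ Y) (l : Lt n) (w : List (Lt n)) :
    wd L R (l :: w) = lop L R l * wd L R w := by
  simp [wd]

private theorem wd_rep (L R : Fin n → Fin n → Module.End ℂ Y) (k : ℕ) (j : Fin n) :
    wd L R (List.replicate k (true, j, j)) = L j j ^ k := by
  simp [wd, lop]

private theorem rep_mem (k : ℕ) {i j : Fin n} (h : i ≠ j) :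
    (true, i, j) :: List.replicate k (true, j, j) ∈ SS n (k + 1) i j := by
  refine ⟨by simp, ⟨(true, i, j), List.mem_cons_self, h⟩, ?_, ?_⟩
  · intro l hl
    rcases List.mem_cons.1 hl with h1 | h1
    · rw [h1]
    · rw [List.eq_of_mem_replicate h1]
  · intro p
    rw [List.filter_cons, List.filter_cons]
    by_cases h1 : p = i
    · subst h1
      have h2 : ¬ j = p := fun hh => h hh.symm
      have h3 : ¬ p = j := h
      simp [h2, h3]
    · by_cases h2 : p = j
      · subst h2
        have h3 : ¬ i = p := h
        simp [h3, h1]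
      · have h3 : ¬ i = p := fun hh => h1 hh.symm
        have h4 : ¬ j = p := fun hh => h2 hh.symm
        simp [h1, h2, h3, h4]

private theorem filt1 (i m p : Fin n) (w : List (Lt n)) :
    ((((true, i, m) : Lt n) :: w).filter fun l => l.2.1 = p).length =
      (w.filter fun l => l.2.1 = p).length + (if p = i then 1 else 0) := by
  by_cases h6 : p = i
  · subst h6
    simp
  · have h7 : ¬ i = p := fun hh => h6 hh.symm
    simp [h6, h7]

private theorem filt2 (i m p : Fin n) (w : List (Lt n)) :
    ((((true, i, m) : Lt n) :: w).filter fun l => l.2.2 = p).length =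
      (w.filter fun l => l.2.2 = p).length + (if p = m then 1 else 0) := by
  by_cases h6 : p = m
  · subst h6
    simp
  · have h7 : ¬ m = p := fun hh => h6 hh.symm
    simp [h6, h7]

private theorem cons_mem {k : ℕ} {i m j : Fin n} {w : List (Lt n)} (h : w ∈ SS n k m j) :
    (true, i, m) :: w ∈ SS n (k + 1) i j := by
  obtain ⟨h1, ⟨l0, hl0, hl1⟩, h3, h4⟩ := h
  refine ⟨by simp [h1], ⟨l0, List.mem_cons_of_mem _ hl0, hl1⟩, ?_, ?_⟩
  · intro l hl
    rcases List.mem_cons.1 hl with h5 | h5
    · rw [h5]
    · exact h3 l h5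
  · intro p
    have h5 := h4 p
    have key : ((((true, i, m) : Lt n) :: w).filter fun l => l.2.1 = p).length +
        (if p = j then 1 else 0) = ((((true, i, m) : Lt n) :: w).filter fun l => l.2.2 = p).length +
        (if p = i then 1 else 0) := by
      rw [filt1 i m p w, filt2 i m p w]
      omega
    exact key

private theorem pow_mem (L R : Fin n → Fin n → Module.End ℂ Y) (k : ℕ) (i j : Fin n) :
    ((Matrix.of L) ^ k) i j - (if i = j then L i i ^ k else 0) ∈
      Submodule.span ℂ (wd L R '' SS n k i j) := by
  induction k generalizing i j with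
  | zero =>
    rw [pow_zero, Matrix.one_apply]
    by_cases h : i = j
    · simp [h]
    · simp [h]
  | succ k ih =>
    have e : ((Matrix.of L) ^ (k + 1)) i j = ∑ m, L i m * ((Matrix.of L) ^ k) m j := by
      rw [pow_succ', Matrix.mul_apply]
      rfl
    have e2 : ((Matrix.of L) ^ (k + 1)) i j - (if i = j then L i i ^ (k + 1) else 0) =
        (∑ m, L i m * (((Matrix.of L) ^ k) m j - (if m = j then L m m ^ k else 0))) +
        (if i = j then 0 else L i j * L j j ^ k) := by
      rw [e]
      have e3 : ∑ m, L i m * (((Matrix.of L) ^ k) m j - (if m = j then L m m ^ k else 0)) =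
          (∑ m, L i m * ((Matrix.of L) ^ k) m j) - L i j * L j j ^ k := by
        simp only [mul_sub, Finset.sum_sub_distrib]
        congr 1
        rw [Finset.sum_eq_single j]
        · simp
        · intro b _ hb
          simp [hb]
        · intro hj
          exact absurd (Finset.mem_univ j) hj
      rw [e3]
      by_cases h : i = j
      · subst h
        simp [pow_succ']
      · simp [h]
    rw [e2]
    apply Submodule.add_mem
    · apply Submodule.sum_mem
      intro m _
      have h1 := ih m j
      have h2 : Submodule.span ℂ (wd L R '' SS n k m j) ≤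
          (Submodule.span ℂ (wd L R '' SS n (k + 1) i j)).comap
            (LinearMap.mulLeft ℂ (L i m)) := by
        rw [Submodule.span_le]
        rintro _ ⟨w, hw, rfl⟩
        show L i m * wd L R w ∈ Submodule.span ℂ (wd L R '' SS n (k + 1) i j)
        have e4 : L i m * wd L R w = wd L R ((true, i, m) :: w) := by
          rw [wd_cons]
          simp [lop]
        rw [e4]
        exact Submodule.subset_span ⟨_, cons_mem hw, rfl⟩
      exact h2 h1
    · by_cases h : i = j
      · rw [if_pos h]
        exact Submodule.zero_mem _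
      · rw [if_neg h]
        have e4 : L i j * L j j ^ k =
            wd L R ((true, i, j) :: List.replicate k (true, j, j)) := by
          rw [wd_cons, wd_rep]
          simp [lop]
        rw [e4]
        exact Submodule.subset_span ⟨_, rep_mem k h, rfl⟩

private theorem trx_aux (L R : Fin n → Fin n → Module.End ℂ Y) (k : ℕ) :
    ∃ c : List (Lt n) →₀ ℂ, (∀ w ∈ c.support, w.length = k ∧ offd w ∧
      (∀ l ∈ w, l.1 = true) ∧ ∀ i, (w.filter fun l => l.2.1 = i).length =
        (w.filter fun l => l.2.2 = i).length) ∧
      tz L k = (∑ i, L i i ^ k) + c.sum (fun w a => a • wd L R w) := by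
  set S : Set (List (Lt n)) := {w | w.length = k ∧ offd w ∧
      (∀ l ∈ w, l.1 = true) ∧ ∀ i, (w.filter fun l => l.2.1 = i).length =
        (w.filter fun l => l.2.2 = i).length} with hS
  have h : tz L k - (∑ i, L i i ^ k) ∈ Submodule.span ℂ (wd L R '' S) := by
    have e : tz L k - (∑ i, L i i ^ k) =
        ∑ i, (((Matrix.of L) ^ k) i i - (if i = i then L i i ^ k else 0)) := by
      rw [tz, Matrix.trace, Finset.sum_sub_distrib]
      simp [Matrix.diag]
    rw [e]
    apply Submodule.sum_mem
    intro i _
    refine Submodule.span_mono ?_ (pow_mem L R k i i)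
    apply Set.image_mono
    rintro w ⟨h1, h2, h3, h4⟩
    refine ⟨h1, h2, h3, ?_⟩
    intro p
    exact Nat.add_right_cancel (h4 p)
  rw [Finsupp.mem_span_image_iff_linearCombination] at h
  obtain ⟨c, hc, hc2⟩ := h
  refine ⟨c, ?_, ?_⟩
  · intro w hw
    exact (Finsupp.mem_supported ℂ c).1 hc hw
  · rw [Finsupp.linearCombination_apply] at hc2
    rw [hc2]
    abel

theorem trx {L R : Fin n → Fin n → Module.End ℂ Y}
    (hζ : ∀ k : ℕ, 1 ≤ k → k ≤ n → ∃ ζ : ℂ, ∀ y : Y, tz L k y = ζ • y) : HasZ L R := by
  intro k h1 h2
  obtain ⟨ζ, hζ⟩ := hζ k h1 h2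
  obtain ⟨c, hc, he⟩ := trx_aux L R k
  refine ⟨c, ζ, fun w hw => ⟨(hc w hw).1, (hc w hw).2.1⟩, ?_⟩
  intro y
  rw [← hζ y, he]
  rw [LinearMap.add_apply, LinearMap.sum_apply, Finsupp.sum, Finsupp.sum, LinearMap.sum_apply]
  rfl

/-- the expansion itself -/
theorem trx0 {L R : Fin n → Fin n → Module.End ℂ Y} (k : ℕ) (hk : 1 ≤ k) :
    ∃ c : List (Lt n) →₀ ℂ, (∀ w ∈ c.support, w.length = k ∧ offd w ∧
      (∀ l ∈ w, l.1 = true) ∧ ∀ i, (w.filter fun l => l.2.1 = i).length =
        (w.filter fun l => l.2.2 = i).length) ∧
      tz L k = (∑ i, L i i ^ k) + c.sum (fun w a => a • wd L R w) :=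
  trx_aux L R k

end

end Pool.Agent.Work.MP_dd0ddf_al.CW
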