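import Pool.Agent.Work.MP_dd0ddf_al.CW.Defs

/-!
# exponentials

PROOF. Mathlib: `Matrix.exp_add_of_commute`, `Matrix.exp_neg`, `Matrix.exp_conj`/`exp_units_conj`, `NormedSpace.exp_zero`, `hasDerivAt_exp_smul_const` (needs a normed algebra structure: use it with
`open scoped Matrix.Norms.Operator` / `attribute [local instance] Matrix.linftyOpNormedRing ...` in an auxiliary lemma and transfer: all norms on Mat n are equivalent, `HasDerivAt` only depends on the topology; or prove
the entrywise statement `hasDerivAt_pi`).  Continuity of ex: into the units: continuous val and inverse val (`Units.continuous_iff`), `NormedSpace.exp_continuous` (same remark).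
-/

set_option linter.unusedSectionVars false

private theorem exd_aux_cont (n : ℕ) : Continuous
    (NormedSpace.exp : Matrix (Fin n) (Fin n) ℂ → Matrix (Fin n) (Fin n) ℂ) := by
  open scoped Matrix.Norms.Operator in exact NormedSpace.exp_continuous

private theorem exd_aux_der (n : ℕ) (Y : Matrix (Fin n) (Fin n) ℂ) (t : ℝ) :
    HasDerivAt (fun s : ℝ => NormedSpace.exp (s • Y)) (NormedSpace.exp (t • Y) * Y) t := by
  open scoped Matrix.Norms.Operator in exact hasDerivAt_exp_smul_const Y t

namespace Pool.Agent.Work.MP_dd0ddf_al.CW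

open scoped Matrix.Norms.Elementwise ComplexConjugate ContDiff Topology
open Matrix MeasureTheory Filter
open Pool.Agent.Work.MP_dd0ddf_al.AR

noncomputable section

variable {n : ℕ}

private theorem ex_val (Y : Mat n) : ((ex Y : GLn n) : Mat n) = NormedSpace.exp Y := rfl

theorem ex_zero : ex (0 : Mat n) = 1 := by
  apply Units.ext
  rw [ex_val, NormedSpace.exp_zero, Units.val_one]

theorem ex_add (Y : Mat n) (s t : ℝ) : ex ((s + t) • Y) = ex (s • Y) * ex (t • Y) := by
  apply Units.ext
  rw [Units.val_mul, ex_val, ex_val, ex_val, add_smul]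
  exact Matrix.exp_add_of_commute _ _ (((Commute.refl Y).smul_left s).smul_right t)

theorem ex_neg (Y : Mat n) : ex (-Y) = (ex Y)⁻¹ := by
  apply Units.ext
  rfl

theorem ex_conj (g : GLn n) (Y : Mat n) :
    g * ex Y * g⁻¹ = ex ((g : Mat n) * Y * ((g⁻¹ : GLn n) : Mat n)) := by
  apply Units.ext
  rw [Units.val_mul, Units.val_mul, ex_val, ex_val]
  exact (Matrix.exp_units_conj g Y).symm

theorem ex_cont : Continuous (ex : Mat n → GLn n) := by
  rw [Units.continuous_iff]
  refine ⟨exd_aux_cont n, ?_⟩
  have h : (fun Y : Mat n => (((ex Y)⁻¹ : GLn n) : Mat n)) = fun Y => NormedSpace.exp (-Y) := rfl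
  rw [h]
  exact (exd_aux_cont n).comp continuous_neg

theorem ex_der (Y : Mat n) (t : ℝ) :
    HasDerivAt (fun s : ℝ => ((ex (s • Y) : GLn n) : Mat n)) (((ex (t • Y) : GLn n) : Mat n) * Y) t := by
  exact exd_aux_der n Y t

theorem kg_exu (Y : Mat n) (hY : star Y = -Y) : kg (exu Y hY) = ex Y := by
  apply Units.ext
  rfl

theorem ex_diag (h : Fin n → ℂ) : ((ex (Matrix.diagonal h) : GLn n) : Mat n) =
    Matrix.diagonal fun i => Complex.exp (h i) := by
  rw [ex_val, Matrix.exp_diagonal]
  congr 1
  funext i
  rw [Complex.exp_eq_exp_ℂ]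
  exact Pi.coe_exp h i

end

end Pool.Agent.Work.MP_dd0ddf_al.CW
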