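import Pool.Agent.Work.MP_dd0ddf_al.CW.Defs
import Pool.Agent.Work.MP_dd0ddf_al.CW.Defs2
import Pool.Agent.Work.MP_dd0ddf_al.CW.Exd

/-!
# Cartan decomposition, density of the regular part

PROOF. g^* g is positive definite Hermitian: spectral theorem (`Matrix.IsHermitian.spectral_theorem`): g^* g = k2^* diag(s_i^2) k2, s_i > 0; put a = diag(s_i), k1 = g k2^* a^-1: k1^* k1 = a^-1 k2 g^* g k2^* a^-1 = 1.  So g = k1 a k2,
a = ag h 1 with h_i = log s_i (`ex_diag`).
Regular elements: h' = h + eps (0, 1, 2, ..., n-1) has distinct entries for all but finitely many eps; let eps -> 0: k1 (ag h' 1) k2 -> g.  So the set of the k1 (ag h 1) k2 with h injective is dense.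
-/

set_option linter.unusedSectionVars false

namespace Pool.Agent.Work.MP_dd0ddf_al.CW

open scoped Matrix.Norms.Elementwise ComplexConjugate ContDiff Topology
open Matrix MeasureTheory Filter
open Pool.Agent.Work.MP_dd0ddf_al.AR

noncomputable section

variable {n : ℕ}

private theorem kak_ag (h : Fin n → ℝ) : ((ag h 1 : GLn n) : Mat n) =
    Matrix.diagonal fun i => ((Real.exp (h i) : ℝ) : ℂ) := by
  have h1 := ex_diag fun i => ((h i : ℝ) : ℂ)
  unfold ag Hd
  rw [one_smul, h1]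
  congr 1
  funext i
  rw [Complex.ofReal_exp]

open scoped ComplexOrder in
private theorem kak_sp (g : GLn n) : ∃ (U : UU n) (e : Fin n → ℝ), (∀ i, 0 < e i) ∧
    (g : Mat n)ᴴ * (g : Mat n) = (U : Mat n) * Matrix.diagonal (fun i => ((e i : ℝ) : ℂ)) *
      (U : Mat n)ᴴ := by
  have hA : ((g : Mat n)ᴴ * (g : Mat n)).PosDef := by
    refine Matrix.PosDef.conjTranspose_mul_self _ ?_
    intro x y hxy
    have h1 := congrArg (fun z => ((g⁻¹ : GLn n) : Mat n) *ᵥ z) hxy
    simp only [Matrix.mulVec_mulVec] at h1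
    have h2 : ((g⁻¹ : GLn n) : Mat n) * (g : Mat n) = 1 := by
      rw [← Units.val_mul, inv_mul_cancel, Units.val_one]
    rwa [h2, Matrix.one_mulVec, Matrix.one_mulVec] at h1
  refine ⟨hA.isHermitian.eigenvectorUnitary, hA.isHermitian.eigenvalues, hA.eigenvalues_pos, ?_⟩
  have h1 := hA.isHermitian.spectral_theorem
  rw [Unitary.conjStarAlgAut_apply] at h1
  exact h1

private theorem kak_val (k : UU n) : ((kg k : GLn n) : Mat n) = (k : Mat n) := rfl

private theorem kak_inj (h : Fin n → ℝ) :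
    ∀ᶠ ε in 𝓝[≠] (0 : ℝ), Function.Injective fun i : Fin n => h i + ε * (i : ℕ) := by
  have h1 : ∀ i j : Fin n, i ≠ j → ∀ᶠ ε in 𝓝[≠] (0 : ℝ), h i + ε * (i : ℕ) ≠ h j + ε * (j : ℕ) := by
    intro i j hij
    by_cases hh : h i = h j
    · filter_upwards [self_mem_nhdsWithin] with ε hε heq
      rw [hh, add_right_inj] at heq
      have h2 : ((i : ℕ) : ℝ) = ((j : ℕ) : ℝ) := mul_left_cancel₀ hε heq
      exact hij (Fin.ext (by exact_mod_cast h2))
    · apply Filter.Eventually.filter_mono nhdsWithin_le_nhds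
      have h2 : ContinuousAt (fun ε : ℝ => h i + ε * (i : ℕ) - (h j + ε * (j : ℕ))) 0 := by
        fun_prop
      have h3 : h i + (0 : ℝ) * (i : ℕ) - (h j + (0 : ℝ) * (j : ℕ)) ≠ 0 := by
        simp only [zero_mul, add_zero]
        exact sub_ne_zero.2 hh
      filter_upwards [h2.eventually_ne h3] with ε hε heq
      exact hε (sub_eq_zero.2 heq)
  have h2 : ∀ᶠ ε in 𝓝[≠] (0 : ℝ), ∀ i j : Fin n, i ≠ j →
      h i + ε * (i : ℕ) ≠ h j + ε * (j : ℕ) := by
    rw [Filter.eventually_all]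
    intro i
    rw [Filter.eventually_all]
    intro j
    by_cases hij : i = j
    · exact Filter.Eventually.of_forall fun _ h => absurd hij h
    · filter_upwards [h1 i j hij] with ε hε _
      exact hε
  filter_upwards [h2] with ε hε i j hij
  by_contra hne
  exact hε i j hne hij

private theorem kak_cont (h : Fin n → ℝ) :
    Continuous fun ε : ℝ => ag (fun i : Fin n => h i + ε * (i : ℕ)) 1 := by
  unfold ag
  refine ex_cont.comp ?_
  have h1 : Continuous fun ε : ℝ => Hd (fun i : Fin n => h i + ε * (i : ℕ)) := by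
    unfold Hd
    refine Continuous.matrix_diagonal ?_
    refine continuous_pi fun i => ?_
    fun_prop
  exact h1.const_smul (1 : ℝ)

theorem kak (g : GLn n) : ∃ (k1 k2 : UU n) (h : Fin n → ℝ), g = kg k1 * ag h 1 * kg k2 := by
  obtain ⟨U, e, he, hg⟩ := kak_sp g
  set h : Fin n → ℝ := fun i => (1 / 2) * Real.log (e i) with hh
  have ha : ((ag h 1 : GLn n) : Mat n) = Matrix.diagonal fun i => ((Real.exp (h i) : ℝ) : ℂ) :=
    kak_ag h
  have hsq : ∀ i, Real.exp (h i) * Real.exp (h i) = e i := by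
    intro i
    rw [← Real.exp_add, hh]
    beta_reduce
    rw [show 1 / 2 * Real.log (e i) + 1 / 2 * Real.log (e i) = Real.log (e i) by ring,
      Real.exp_log (he i)]
  have hUU : (U : Mat n)ᴴ * (U : Mat n) = 1 := by
    have := U.2
    rw [Matrix.mem_unitaryGroup_iff', Matrix.star_eq_conjTranspose] at this
    exact this
  have haa : ((ag h 1 : GLn n) : Mat n)ᴴ = ((ag h 1 : GLn n) : Mat n) := by
    rw [ha, Matrix.diagonal_conjTranspose]
    congr 1
    funext i
    simp only [Pi.star_apply, RCLike.star_def, Complex.conj_ofReal]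
  have ha2 : ((ag h 1 : GLn n) : Mat n) * ((ag h 1 : GLn n) : Mat n) =
      Matrix.diagonal fun i => ((e i : ℝ) : ℂ) := by
    rw [ha, Matrix.diagonal_mul_diagonal]
    congr 1
    funext i
    rw [← Complex.ofReal_mul, hsq]
  set k1g : GLn n := g * kg U * (ag h 1)⁻¹ with hk1g
  have hinv1 : ((ag h 1 : GLn n) : Mat n) * (((ag h 1)⁻¹ : GLn n) : Mat n) = 1 := by
    rw [← Units.val_mul, mul_inv_cancel, Units.val_one]
  have hinv2 : (((ag h 1)⁻¹ : GLn n) : Mat n) * ((ag h 1 : GLn n) : Mat n) = 1 := by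
    rw [← Units.val_mul, inv_mul_cancel, Units.val_one]
  have hai : (((ag h 1)⁻¹ : GLn n) : Mat n)ᴴ = (((ag h 1)⁻¹ : GLn n) : Mat n) := by
    have h1 : (((ag h 1)⁻¹ : GLn n) : Mat n)ᴴ * ((ag h 1 : GLn n) : Mat n) = 1 := by
      rw [← haa, ← Matrix.conjTranspose_mul, hinv1, Matrix.conjTranspose_one]
    calc (((ag h 1)⁻¹ : GLn n) : Mat n)ᴴ = (((ag h 1)⁻¹ : GLn n) : Mat n)ᴴ *
          (((ag h 1 : GLn n) : Mat n) * (((ag h 1)⁻¹ : GLn n) : Mat n)) := by
            rw [hinv1, Matrix.mul_one]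
      _ = (((ag h 1)⁻¹ : GLn n) : Mat n) := by
            rw [← Matrix.mul_assoc, h1, Matrix.one_mul]
  have hk1 : (k1g : Mat n) ∈ Matrix.unitaryGroup (Fin n) ℂ := by
    rw [Matrix.mem_unitaryGroup_iff', Matrix.star_eq_conjTranspose, hk1g, Units.val_mul,
      Units.val_mul, kak_val, Matrix.conjTranspose_mul, Matrix.conjTranspose_mul, hai]
    calc (((ag h 1)⁻¹ : GLn n) : Mat n) * ((U : Mat n)ᴴ * (g : Mat n)ᴴ) *
          ((g : Mat n) * (U : Mat n) * (((ag h 1)⁻¹ : GLn n) : Mat n)) =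
          (((ag h 1)⁻¹ : GLn n) : Mat n) * ((U : Mat n)ᴴ * ((g : Mat n)ᴴ * (g : Mat n)) *
            (U : Mat n)) * (((ag h 1)⁻¹ : GLn n) : Mat n) := by
            simp only [Matrix.mul_assoc]
      _ = (((ag h 1)⁻¹ : GLn n) : Mat n) * (((U : Mat n)ᴴ * (U : Mat n)) *
            (Matrix.diagonal fun i => ((e i : ℝ) : ℂ)) * ((U : Mat n)ᴴ * (U : Mat n))) *
            (((ag h 1)⁻¹ : GLn n) : Mat n) := by
            rw [hg]
            simp only [Matrix.mul_assoc]
      _ = (((ag h 1)⁻¹ : GLn n) : Mat n) * (((ag h 1 : GLn n) : Mat n) *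
            ((ag h 1 : GLn n) : Mat n)) * (((ag h 1)⁻¹ : GLn n) : Mat n) := by
            rw [hUU, Matrix.one_mul, Matrix.mul_one, ha2]
      _ = 1 := by
            rw [← Matrix.mul_assoc, hinv2, Matrix.one_mul, hinv1]
  refine ⟨⟨(k1g : Mat n), hk1⟩, U⁻¹, h, ?_⟩
  have h1 : kg ⟨(k1g : Mat n), hk1⟩ = k1g := Units.ext rfl
  rw [h1, hk1g, map_inv]
  group

theorem kak_dense : Dense {g : GLn n | ∃ (k1 k2 : UU n) (h : Fin n → ℝ), Function.Injective h ∧
    g = kg k1 * ag h 1 * kg k2} := by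
  intro g
  obtain ⟨k1, k2, h, hg⟩ := kak g
  have hc : Continuous fun ε : ℝ => kg k1 * ag (fun i : Fin n => h i + ε * (i : ℕ)) 1 * kg k2 :=
    (continuous_const.mul (kak_cont h)).mul continuous_const
  have h0 : kg k1 * ag (fun i : Fin n => h i + (0 : ℝ) * (i : ℕ)) 1 * kg k2 = g := by
    rw [hg]
    congr 3
    funext i
    rw [zero_mul, add_zero]
  have ht : Tendsto (fun ε : ℝ => kg k1 * ag (fun i : Fin n => h i + ε * (i : ℕ)) 1 * kg k2)
      (𝓝[≠] 0) (𝓝 g) := by
    have := (hc.tendsto 0).mono_left (nhdsWithin_le_nhds (s := {0}ᶜ))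
    beta_reduce at this
    rwa [h0] at this
  refine mem_closure_of_tendsto ht ?_
  filter_upwards [kak_inj h] with ε hε
  exact ⟨k1, k2, _, hε, rfl⟩

end

end Pool.Agent.Work.MP_dd0ddf_al.CW
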