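import Mathlib

/-!
# Gronwall at zero (regular singular point)

PROOF. phi(t) = sum_a |f_a(t)|^2 on (0, 1]: t |phi'(t)| <= K phi(t), K = 2 |C| card(iota).  So psi(t) = t^(-K) phi(t) (real power) has derivative
t^(-K-1)(-K phi + t phi') <= 0 on (0,1]: psi is antitone on (0,1].  By hdec with 2m > K: psi(t) <= card A^2 t^(2m-K) -> 0 as t -> 0+.
For 0 < s < t <= 1: psi(t) <= psi(s), let s -> 0: psi(t) <= 0, so phi(t) = 0.
(For the one sided derivative at t = 1 use that f_a is differentiable at every t in (0,1], derivative taken in R.)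
-/

set_option linter.unusedSectionVars false

namespace Pool.Agent.Work.MP_dd0ddf_al.CW

open scoped ComplexConjugate ContDiff Topology
open Matrix MeasureTheory Filter

noncomputable section

theorem grZ {ι : Type*} [Fintype ι] (f f' : ι → ℝ → ℂ) (C : ℝ)
    (hd : ∀ a t, 0 < t → t ≤ 1 → HasDerivAt (f a) (f' a t) t)
    (hb : ∀ a t, 0 < t → t ≤ 1 → t * ‖f' a t‖ ≤ C * ∑ b, ‖f b t‖)
    (hdec : ∀ m : ℕ, ∃ A : ℝ, ∀ a t, 0 < t → t ≤ 1 → ‖f a t‖ ≤ A * t ^ m) :
    ∀ a t, 0 < t → t ≤ 1 → f a t = 0 := by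
  classical
  obtain ⟨K, hK⟩ := exists_nat_ge (2 * |C| * Fintype.card ι)
  let φ : ℝ → ℝ := fun t => ∑ a, ‖f a t‖ ^ 2
  let φ' : ℝ → ℝ := fun t => ∑ a, 2 * inner ℝ (f a t) (f' a t)
  have hφ0 : ∀ t, 0 ≤ φ t := fun t => Finset.sum_nonneg fun a _ => by positivity
  have hφ : ∀ t, 0 < t → t ≤ 1 → HasDerivAt φ (φ' t) t := by
    intro t h0 h1
    exact HasDerivAt.fun_sum (fun a _ => (hd a t h0 h1).norm_sq)
  have hb' : ∀ t, 0 < t → t ≤ 1 → t * φ' t ≤ ((K : ℝ) + 1) * φ t := by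
    intro t h0 h1
    have hS : 0 ≤ ∑ b, ‖f b t‖ := Finset.sum_nonneg fun b _ => norm_nonneg _
    have e1 : t * φ' t ≤ ∑ a, 2 * ‖f a t‖ * (|C| * ∑ b, ‖f b t‖) := by
      change t * ∑ a, 2 * inner ℝ (f a t) (f' a t) ≤ _
      rw [Finset.mul_sum]
      refine Finset.sum_le_sum fun a _ => ?_
      have e2 : inner ℝ (f a t) (f' a t) ≤ ‖f a t‖ * ‖f' a t‖ := real_inner_le_norm _ _
      have e3 : t * ‖f' a t‖ ≤ |C| * ∑ b, ‖f b t‖ :=
        (hb a t h0 h1).trans (mul_le_mul_of_nonneg_right (le_abs_self C) hS)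
      calc t * (2 * inner ℝ (f a t) (f' a t)) ≤ t * (2 * (‖f a t‖ * ‖f' a t‖)) := by gcongr
        _ = 2 * ‖f a t‖ * (t * ‖f' a t‖) := by ring
        _ ≤ 2 * ‖f a t‖ * (|C| * ∑ b, ‖f b t‖) := by gcongr
    have e4 : ∑ a, 2 * ‖f a t‖ * (|C| * ∑ b, ‖f b t‖) = 2 * |C| * (∑ b, ‖f b t‖) ^ 2 := by
      rw [← Finset.sum_mul, ← Finset.mul_sum]
      ring
    have e5 : (∑ b, ‖f b t‖) ^ 2 ≤ (Fintype.card ι : ℝ) * φ t := by
      have h2 := sq_sum_le_card_mul_sum_sq (s := (Finset.univ : Finset ι)) (f := fun b => ‖f b t‖)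
      rwa [Finset.card_univ] at h2
    calc t * φ' t ≤ 2 * |C| * (∑ b, ‖f b t‖) ^ 2 := by rw [← e4]; exact e1
      _ ≤ 2 * |C| * ((Fintype.card ι : ℝ) * φ t) := by gcongr
      _ = (2 * |C| * Fintype.card ι) * φ t := by ring
      _ ≤ ((K : ℝ) + 1) * φ t := mul_le_mul_of_nonneg_right (by linarith) (hφ0 t)
  have hψ : ∀ t, 0 < t → t ≤ 1 → HasDerivAt (fun t => φ t / t ^ (K + 1))
      ((φ' t * t ^ (K + 1) - φ t * (((K + 1 : ℕ) : ℝ) * t ^ K)) / (t ^ (K + 1)) ^ 2) t := by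
    intro t h0 h1
    exact (hφ t h0 h1).fun_div (hasDerivAt_pow (K + 1) t) (pow_ne_zero _ h0.ne')
  have hanti : AntitoneOn (fun t => φ t / t ^ (K + 1)) (Set.Ioc 0 1) := by
    apply antitoneOn_of_deriv_nonpos (convex_Ioc 0 1)
    · intro t ht
      exact (hψ t ht.1 ht.2).continuousAt.continuousWithinAt
    · intro t ht
      rw [interior_Ioc] at ht
      exact (hψ t ht.1 ht.2.le).differentiableAt.differentiableWithinAt
    · intro t ht
      rw [interior_Ioc] at ht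
      rw [(hψ t ht.1 ht.2.le).deriv]
      apply div_nonpos_of_nonpos_of_nonneg _ (by positivity)
      have h3 := mul_le_mul_of_nonneg_right (hb' t ht.1 ht.2.le) (pow_nonneg ht.1.le K)
      push_cast
      have h4 : φ' t * t ^ (K + 1) = t * φ' t * t ^ K := by ring
      rw [h4]
      linarith
  obtain ⟨A, hA⟩ := hdec (K + 1)
  have hsmall : ∀ s, 0 < s → s ≤ 1 →
      φ s / s ^ (K + 1) ≤ ((Fintype.card ι : ℝ) * A ^ 2) * s := by
    intro s h0 h1
    rw [div_le_iff₀ (by positivity)]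
    have h5 : φ s ≤ ∑ _a : ι, (A * s ^ (K + 1)) ^ 2 := by
      refine Finset.sum_le_sum fun a _ => ?_
      have h6 := hA a s h0 h1
      gcongr
    rw [Finset.sum_const, Finset.card_univ, nsmul_eq_mul] at h5
    have h7 : s ^ (K + 1) ≤ s := by
      calc s ^ (K + 1) ≤ s ^ 1 := pow_le_pow_of_le_one h0.le h1 (by omega)
        _ = s := pow_one s
    calc φ s ≤ (Fintype.card ι : ℝ) * (A * s ^ (K + 1)) ^ 2 := h5
      _ = ((Fintype.card ι : ℝ) * A ^ 2) * s ^ (K + 1) * s ^ (K + 1) := by ring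
      _ ≤ ((Fintype.card ι : ℝ) * A ^ 2) * s * s ^ (K + 1) := by gcongr
  intro a t h0 h1
  have hle : φ t / t ^ (K + 1) ≤ 0 := by
    by_contra hcon
    push Not at hcon
    set B : ℝ := (Fintype.card ι : ℝ) * A ^ 2 with hB
    have hB0 : 0 ≤ B := by positivity
    set y := φ t / t ^ (K + 1) with hy
    have hs0 : 0 < min t (y / (2 * (B + 1))) := lt_min h0 (by positivity)
    have hst : min t (y / (2 * (B + 1))) ≤ t := min_le_left _ _
    have h8 := hanti ⟨hs0, hst.trans h1⟩ ⟨h0, h1⟩ hst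
    have h9 := hsmall _ hs0 (hst.trans h1)
    have h10 : y ≤ B * (y / (2 * (B + 1))) :=
      (h8.trans h9).trans (mul_le_mul_of_nonneg_left (min_le_right _ _) hB0)
    have h11 : B * (y / (2 * (B + 1))) = (B / (2 * (B + 1))) * y := by ring
    have h12 : B / (2 * (B + 1)) ≤ 1 / 2 := by
      rw [div_le_div_iff₀ (by positivity) (by norm_num)]
      linarith
    rw [h11] at h10
    nlinarith
  have hpos : (0 : ℝ) < t ^ (K + 1) := by positivity
  have h13 : φ t ≤ 0 := by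
    have h14 := (div_le_iff₀ hpos).1 hle
    rwa [zero_mul] at h14
  have h15 : ‖f a t‖ ^ 2 ≤ φ t :=
    Finset.single_le_sum (f := fun a => ‖f a t‖ ^ 2) (fun b _ => by positivity)
      (Finset.mem_univ a)
  have h16 : ‖f a t‖ ^ 2 = 0 := le_antisymm (h15.trans h13) (by positivity)
  exact norm_eq_zero.1 (pow_eq_zero_iff (two_ne_zero) |>.1 h16)

end

end Pool.Agent.Work.MP_dd0ddf_al.CW
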