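import Pool.Agent.Work.MP_dd0ddf_al.CW.Defs
import Pool.Agent.Work.MP_dd0ddf_al.CW.GrZ
import Pool.Agent.Work.MP_dd0ddf_al.CW.GrP
import Pool.Agent.Work.MP_dd0ddf_al.CW.Nred

/-!
# radial uniqueness at the identity

PROOF. (a) Let S = span of the wd w v, v in V0.  It is stable under all letters, hence under H = sum_i h_i (L_ii + R_ii).  For y in S, l in Lambda, k in N there is C with
|B t l y| <= C t^k for 0 <= t <= 1: induction on k; k = 0: t -> B t l y is continuous (`der`) on [0,1]; k -> k+1: B 0 l y = 0 (h0 and linearity), derivative B t l (H y) is bounded by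
C t^k on [0,1], mean value inequality: |B t l y| <= C t^(k+1).
(b) Index set as in `radI`: (a,b,m), |m| <= n*n-1; g_(a,b,m)(t) = t^|m| B t (bl a) (mon L m (bv b)).  For 0 < t <= 1: t g' = |m| g + t^(|m|+1) B t (bl a) (H mon L m (bv b)), and
`nred` (word length |m|+1, min t 1 = t) bounds the last term by C NN (n*n-1) t = C sum |g|.  `grZ` (hdec from (a), t^|m| <= 1): g = 0 on (0,1], so B t (bl a)(mon L m (bv b)) = 0 on (0,1].
`grP` with t0 = 1 for f = B t (bl a) (mon L m (bv b)) (derivative bound from `nred`: (min t 1)^(|m|+1) |f'| <= C sum |f|, min t 1 >= s on [s,1/s]) gives f = 0 on (0,oo), then `nred` again.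
-/

set_option linter.unusedSectionVars false

namespace Pool.Agent.Work.MP_dd0ddf_al.CW

open scoped Matrix.Norms.Elementwise ComplexConjugate ContDiff Topology
open Matrix MeasureTheory Filter
open Pool.Agent.Work.MP_dd0ddf_al.AR

noncomputable section

variable {n : ℕ} {Y : Type*} [AddCommGroup Y] [Module ℂ Y] {Λ : Type*} [AddCommGroup Λ] [Module ℂ Λ]

/-- the word of the monomial `mon L m` -/
private def mw (m : Fin n → ℕ) : List (Lt n) :=
  (List.ofFn fun i : Fin n => List.replicate (m i) ((true, i, i) : Lt n)).flatten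

private theorem mw_length (m : Fin n → ℕ) : (mw m).length = ∑ i, m i := by
  unfold mw
  rw [List.length_flatten, List.map_ofFn, List.sum_ofFn]
  simp

private theorem wd_mw (L R : Fin n → Fin n → Module.End ℂ Y) (m : Fin n → ℕ) :
    wd L R (mw m) = mon L m := by
  unfold wd mw mon
  rw [List.map_flatten, List.prod_flatten, List.map_ofFn, List.map_ofFn]
  congr 1
  congr 1
  funext i
  simp [lop]

private theorem wd_cons (L R : Fin n → Fin n → Module.End ℂ Y) (a : Lt n) (w : List (Lt n))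
    (v : Y) : wd L R (a :: w) v = lop L R a (wd L R w v) := by
  unfold wd
  rw [List.map_cons, List.prod_cons]
  rfl

/-- the operator `H` -/
private def Ho (h : Fin n → ℝ) (L R : Fin n → Fin n → Module.End ℂ Y) : Module.End ℂ Y :=
  ∑ i, (h i : ℂ) • (L i i + R i i)

private theorem Ho_apply (h : Fin n → ℝ) (L R : Fin n → Fin n → Module.End ℂ Y) (y : Y) :
    Ho h L R y = ∑ i, (h i : ℂ) • (L i i y + R i i y) := by
  unfold Ho
  rw [LinearMap.sum_apply]
  rfl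

private theorem Ho_wd (h : Fin n → ℝ) (L R : Fin n → Fin n → Module.End ℂ Y)
    (w : List (Lt n)) (v : Y) :
    Ho h L R (wd L R w v) = ∑ i, (h i : ℂ) • (wd L R ((true, i, i) :: w) v +
      wd L R ((false, i, i) :: w) v) := by
  rw [Ho_apply]
  refine Finset.sum_congr rfl fun i _ => ?_
  rw [wd_cons, wd_cons]
  rfl

/-- the span of the `wd w v` -/
private def Sp (L R : Fin n → Fin n → Module.End ℂ Y) (V0 : Submodule ℂ Y) : Submodule ℂ Y :=
  Submodule.span ℂ {y | ∃ (w : List (Lt n)) (v : Y), v ∈ V0 ∧ y = wd L R w v}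

private theorem wd_mem_Sp (L R : Fin n → Fin n → Module.End ℂ Y) {V0 : Submodule ℂ Y} {v : Y}
    (hv : v ∈ V0) (w : List (Lt n)) : wd L R w v ∈ Sp L R V0 :=
  Submodule.subset_span ⟨w, v, hv, rfl⟩

private theorem Ho_mem_Sp (h : Fin n → ℝ) (L R : Fin n → Fin n → Module.End ℂ Y)
    {V0 : Submodule ℂ Y} {y : Y} (hy : y ∈ Sp L R V0) : Ho h L R y ∈ Sp L R V0 := by
  have h1 : Sp L R V0 ≤ (Sp L R V0).comap (Ho h L R) := by
    unfold Sp
    rw [Submodule.span_le]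
    rintro _ ⟨w, v, hv, rfl⟩
    change Ho h L R (wd L R w v) ∈ Sp L R V0
    rw [Ho_wd]
    refine Submodule.sum_mem _ fun i _ => Submodule.smul_mem _ _ (Submodule.add_mem _ ?_ ?_)
    · exact wd_mem_Sp L R hv _
    · exact wd_mem_Sp L R hv _
  exact h1 hy

private theorem der_Ho {h : Fin n → ℝ} {L R : Fin n → Fin n → Module.End ℂ Y}
    {ZΛ : Fin n → Fin n → Module.End ℂ Λ} {B : ℝ → Λ →ₗ[ℂ] Y →ₗ[ℂ] ℂ}
    (hs : RadSys h L R ZΛ B) (t : ℝ) (l : Λ) (y : Y) :
    HasDerivAt (fun s : ℝ => B s l y) (B t l (Ho h L R y)) t := by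
  rw [Ho_apply]
  exact hs.der t l y

private theorem decay {h : Fin n → ℝ} {L R : Fin n → Fin n → Module.End ℂ Y}
    {ZΛ : Fin n → Fin n → Module.End ℂ Λ} {B : ℝ → Λ →ₗ[ℂ] Y →ₗ[ℂ] ℂ}
    (hs : RadSys h L R ZΛ B) {V0 : Submodule ℂ Y}
    (h0 : ∀ (l : Λ), ∀ v ∈ V0, ∀ (w : List (Lt n)), B 0 l (wd L R w v) = 0) (k : ℕ) :
    ∀ (l : Λ), ∀ y ∈ Sp L R V0, ∃ C : ℝ, 0 ≤ C ∧ ∀ t : ℝ, 0 ≤ t → t ≤ 1 →
      ‖B t l y‖ ≤ C * t ^ k := by
  induction k with
  | zero =>
    intro l y _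
    have hc : ContinuousOn (fun t : ℝ => ‖B t l y‖) (Set.Icc 0 1) := by
      intro t _
      exact ((der_Ho hs t l y).continuousAt.norm).continuousWithinAt
    obtain ⟨C, hC⟩ := (isCompact_Icc.image_of_continuousOn hc).bddAbove
    refine ⟨C, ?_, ?_⟩
    · have h1 := hC ⟨0, ⟨le_refl _, zero_le_one⟩, rfl⟩
      exact (norm_nonneg _).trans h1
    · intro t ht0 ht1
      rw [pow_zero, mul_one]
      exact hC ⟨t, ⟨ht0, ht1⟩, rfl⟩
  | succ k ih =>
    intro l y hy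
    obtain ⟨C, hC0, hC⟩ := ih l (Ho h L R y) (Ho_mem_Sp h L R hy)
    refine ⟨C, hC0, ?_⟩
    intro t ht0 ht1
    have hz : B 0 l y = 0 := by
      have h1 : Sp L R V0 ≤ LinearMap.ker (B 0 l) := by
        unfold Sp
        rw [Submodule.span_le]
        rintro _ ⟨w, v, hv, rfl⟩
        exact h0 l v hv w
      exact h1 hy
    have h2 := norm_image_sub_le_of_norm_deriv_le_segment' (f := fun s : ℝ => B s l y)
      (f' := fun s : ℝ => B s l (Ho h L R y)) (C := C * t ^ k) (a := 0) (b := t)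
      (fun x _ => (der_Ho hs x l y).hasDerivWithinAt)
      (fun x hx => (hC x hx.1 (hx.2.le.trans ht1)).trans
        (mul_le_mul_of_nonneg_left (pow_le_pow_left₀ hx.1 hx.2.le k) hC0)) t ⟨ht0, le_refl t⟩
    simp only [hz, sub_zero] at h2
    calc ‖B t l y‖ ≤ C * t ^ k * t := h2
      _ = C * t ^ (k + 1) := by ring

private theorem Ho_bd (hn : 0 < n) {h : Fin n → ℝ} {L R : Fin n → Fin n → Module.End ℂ Y}
    {ZΛ : Fin n → Fin n → Module.End ℂ Λ} {B : ℝ → Λ →ₗ[ℂ] Y →ₗ[ℂ] ℂ}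
    (hs : RadSys h L R ZΛ B) {V0 : Submodule ℂ Y} (hV : ∀ i j, ∀ v ∈ V0, Zo L R i j v ∈ V0)
    {α β : Type*} [Fintype α] [Fintype β] (bl : Module.Basis α ℂ Λ) (bv : Module.Basis β ℂ V0)
    (w : List (Lt n)) (l : Λ) (v : Y) (hv : v ∈ V0) :
    ∃ C : ℝ, 0 ≤ C ∧ ∀ t : ℝ, 0 < t →
      (min t 1) ^ (w.length + 1) * ‖B t l (Ho h L R (wd L R w v))‖ ≤
      C * NN L B bl (fun b => (bv b : Y)) (n * n - 1) t := by
  have h1 : ∀ i : Fin n, ∃ C : ℝ, 0 ≤ C ∧ ∀ t : ℝ, 0 < t →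
      (min t 1) ^ (w.length + 1) * ‖B t l (wd L R ((true, i, i) :: w) v)‖ ≤
      C * NN L B bl (fun b => (bv b : Y)) (n * n - 1) t := by
    intro i
    exact nred hn hs hV bl bv ((true, i, i) :: w) l v hv
  have h2 : ∀ i : Fin n, ∃ C : ℝ, 0 ≤ C ∧ ∀ t : ℝ, 0 < t →
      (min t 1) ^ (w.length + 1) * ‖B t l (wd L R ((false, i, i) :: w) v)‖ ≤
      C * NN L B bl (fun b => (bv b : Y)) (n * n - 1) t := by
    intro i
    exact nred hn hs hV bl bv ((false, i, i) :: w) l v hv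
  choose C1 hC1 h1 using h1
  choose C2 hC2 h2 using h2
  refine ⟨∑ i, |h i| * (C1 i + C2 i), Finset.sum_nonneg fun i _ =>
    mul_nonneg (abs_nonneg _) (add_nonneg (hC1 i) (hC2 i)), ?_⟩
  intro t ht
  have hm : 0 ≤ (min t 1) ^ (w.length + 1) := pow_nonneg (le_min ht.le zero_le_one) _
  rw [Ho_wd, map_sum, Finset.sum_mul]
  calc (min t 1) ^ (w.length + 1) * ‖∑ i, B t l ((h i : ℂ) • (wd L R ((true, i, i) :: w) v +
        wd L R ((false, i, i) :: w) v))‖
      ≤ (min t 1) ^ (w.length + 1) * ∑ i, ‖B t l ((h i : ℂ) • (wd L R ((true, i, i) :: w) v +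
        wd L R ((false, i, i) :: w) v))‖ := mul_le_mul_of_nonneg_left (norm_sum_le _ _) hm
    _ = ∑ i, (min t 1) ^ (w.length + 1) * ‖B t l ((h i : ℂ) •
        (wd L R ((true, i, i) :: w) v + wd L R ((false, i, i) :: w) v))‖ := Finset.mul_sum _ _ _
    _ ≤ ∑ i, |h i| * (C1 i + C2 i) * NN L B bl (fun b => (bv b : Y)) (n * n - 1) t := by
        refine Finset.sum_le_sum fun i _ => ?_
        rw [map_smul, map_add, norm_smul, Complex.norm_real, Real.norm_eq_abs]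
        have h3 := h1 i t ht
        have h4 := h2 i t ht
        calc (min t 1) ^ (w.length + 1) * (|h i| * ‖B t l (wd L R ((true, i, i) :: w) v) +
              B t l (wd L R ((false, i, i) :: w) v)‖)
            ≤ (min t 1) ^ (w.length + 1) * (|h i| * (‖B t l (wd L R ((true, i, i) :: w) v)‖ +
              ‖B t l (wd L R ((false, i, i) :: w) v)‖)) := by
              refine mul_le_mul_of_nonneg_left ?_ hm
              exact mul_le_mul_of_nonneg_left (norm_add_le _ _) (abs_nonneg _)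
          _ = |h i| * ((min t 1) ^ (w.length + 1) * ‖B t l (wd L R ((true, i, i) :: w) v)‖ +
              (min t 1) ^ (w.length + 1) * ‖B t l (wd L R ((false, i, i) :: w) v)‖) := by ring
          _ ≤ |h i| * (C1 i * NN L B bl (fun b => (bv b : Y)) (n * n - 1) t +
              C2 i * NN L B bl (fun b => (bv b : Y)) (n * n - 1) t) :=
              mul_le_mul_of_nonneg_left (add_le_add h3 h4) (abs_nonneg _)
          _ = |h i| * (C1 i + C2 i) * NN L B bl (fun b => (bv b : Y)) (n * n - 1) t := by ring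

theorem radZ (hn : 0 < n) {h : Fin n → ℝ} {L R : Fin n → Fin n → Module.End ℂ Y}
    {ZΛ : Fin n → Fin n → Module.End ℂ Λ} {B : ℝ → Λ →ₗ[ℂ] Y →ₗ[ℂ] ℂ}
    (hs : RadSys h L R ZΛ B) [FiniteDimensional ℂ Λ] {V0 : Submodule ℂ Y} [FiniteDimensional ℂ V0]
    (hV : ∀ i j, ∀ v ∈ V0, Zo L R i j v ∈ V0)
    (h0 : ∀ (l : Λ), ∀ v ∈ V0, ∀ (w : List (Lt n)), B 0 l (wd L R w v) = 0) :
    ∀ (l : Λ), ∀ v ∈ V0, ∀ (w : List (Lt n)) (t : ℝ), 0 < t → B t l (wd L R w v) = 0 := by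
  classical
  let bl := Module.finBasis ℂ Λ
  let bv := Module.finBasis ℂ V0
  let e := n * n - 1
  let ι := Fin (Module.finrank ℂ Λ) × Fin (Module.finrank ℂ V0) × ↥(mis n e)
  let d : ι → ℕ := fun q => ∑ i, q.2.2.1 i
  have hde : ∀ q : ι, d q ≤ e := by
    intro q
    exact (Finset.mem_filter.1 q.2.2.2).2
  let F : ι → ℝ → ℂ := fun q t => B t (bl q.1) (mon L q.2.2.1 (bv q.2.1))
  let F' : ι → ℝ → ℂ := fun q t => B t (bl q.1) (Ho h L R (mon L q.2.2.1 (bv q.2.1)))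
  have hNN : ∀ t, NN L B bl (fun b => (bv b : Y)) e t = ∑ q : ι, (min t 1) ^ d q * ‖F q t‖ := by
    intro t
    unfold NN
    rw [Fintype.sum_prod_type]
    refine Finset.sum_congr rfl fun a _ => ?_
    rw [Fintype.sum_prod_type]
    refine Finset.sum_congr rfl fun b _ => ?_
    exact (Finset.sum_coe_sort (mis n e) (fun m : Fin n → ℕ => (min t 1) ^ (∑ i, m i) *
      ‖B t (bl a) (mon L m (bv b))‖)).symm
  have hF : ∀ q t, HasDerivAt (F q) (F' q t) t := fun q t => der_Ho hs t _ _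
  have hbd : ∀ q : ι, ∃ C : ℝ, 0 ≤ C ∧ ∀ t : ℝ, 0 < t → (min t 1) ^ (d q + 1) * ‖F' q t‖ ≤
      C * ∑ q : ι, (min t 1) ^ d q * ‖F q t‖ := by
    intro q
    obtain ⟨C, hC, h1⟩ := Ho_bd hn hs hV bl bv (mw q.2.2.1) (bl q.1) (bv q.2.1) (bv q.2.1).2
    refine ⟨C, hC, fun t ht => ?_⟩
    have h2 := h1 t ht
    rw [mw_length, wd_mw] at h2
    rw [← hNN]
    exact h2
  choose Cq hCq hbd using hbd
  let C0 : ℝ := ∑ q, Cq q
  have hC0 : 0 ≤ C0 := Finset.sum_nonneg fun q _ => hCq q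
  have hCle : ∀ q, Cq q ≤ C0 := fun q => Finset.single_le_sum (fun q _ => hCq q)
    (Finset.mem_univ q)
  have hsum0 : ∀ t : ℝ, 0 < t → 0 ≤ ∑ q : ι, (min t 1) ^ d q * ‖F q t‖ := fun t ht =>
    Finset.sum_nonneg fun q _ =>
      mul_nonneg (pow_nonneg (le_min ht.le zero_le_one) _) (norm_nonneg _)
  have hbd0 : ∀ (q : ι) (t : ℝ), 0 < t → (min t 1) ^ (d q + 1) * ‖F' q t‖ ≤
      C0 * ∑ q : ι, (min t 1) ^ d q * ‖F q t‖ := fun q t ht =>
    (hbd q t ht).trans (mul_le_mul_of_nonneg_right (hCle q) (hsum0 t ht))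
  -- vanishing on (0, 1]
  have hz1 : ∀ (q : ι) (t : ℝ), 0 < t → t ≤ 1 → F q t = 0 := by
    have hg := grZ (fun (q : ι) (t : ℝ) => ((t ^ d q : ℝ) : ℂ) * F q t)
      (fun (q : ι) (t : ℝ) => (((d q : ℝ) * t ^ (d q - 1) : ℝ) : ℂ) * F q t +
        ((t ^ d q : ℝ) : ℂ) * F' q t) (e + C0) ?_ ?_ ?_
    · intro q t ht ht1
      have h1 := hg q t ht ht1
      rcases mul_eq_zero.1 h1 with h2 | h2
      · exfalso
        rw [Complex.ofReal_eq_zero] at h2
        exact (pow_pos ht _).ne' h2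
      · exact h2
    · intro q t _ _
      have h1 : HasDerivAt (fun s : ℝ => ((s ^ d q : ℝ) : ℂ))
          ((((d q : ℝ) * t ^ (d q - 1) : ℝ)) : ℂ) t := (hasDerivAt_pow (d q) t).ofReal_comp
      exact h1.mul (hF q t)
    · intro q t ht ht1
      have hmin : min t 1 = t := min_eq_left ht1
      have h1 := hbd0 q t ht
      rw [hmin] at h1
      have h2 : ∀ q : ι, ‖((t ^ d q : ℝ) : ℂ) * F q t‖ = t ^ d q * ‖F q t‖ := by
        intro q
        rw [norm_mul, Complex.norm_real, Real.norm_eq_abs, abs_of_nonneg (pow_nonneg ht.le _)]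
      simp only [h2]
      have h3 : t ^ d q * ‖F q t‖ ≤ ∑ q : ι, t ^ d q * ‖F q t‖ :=
        Finset.single_le_sum (f := fun q : ι => t ^ d q * ‖F q t‖)
          (fun q _ => mul_nonneg (pow_nonneg ht.le _) (norm_nonneg _)) (Finset.mem_univ q)
      have h4 : t * ((d q : ℝ) * t ^ (d q - 1)) = (d q : ℝ) * t ^ d q := by
        rcases Nat.eq_zero_or_pos (d q) with h0 | h0
        · rw [h0]
          simp
        · obtain ⟨k, hk⟩ := Nat.exists_eq_succ_of_ne_zero h0.ne'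
          rw [hk, Nat.succ_sub_one, Nat.succ_eq_add_one, pow_succ]
          ring
      have h5 : ‖(((d q : ℝ) * t ^ (d q - 1) : ℝ) : ℂ) * F q t +
          ((t ^ d q : ℝ) : ℂ) * F' q t‖ ≤ (d q : ℝ) * t ^ (d q - 1) * ‖F q t‖ +
          t ^ d q * ‖F' q t‖ := by
        refine (norm_add_le _ _).trans ?_
        rw [norm_mul, norm_mul, Complex.norm_real, Complex.norm_real, Real.norm_eq_abs,
          Real.norm_eq_abs, abs_of_nonneg (pow_nonneg ht.le _), abs_of_nonneg (mul_nonneg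
          (Nat.cast_nonneg _) (pow_nonneg ht.le _))]
      calc t * ‖(((d q : ℝ) * t ^ (d q - 1) : ℝ) : ℂ) * F q t + ((t ^ d q : ℝ) : ℂ) * F' q t‖
          ≤ t * ((d q : ℝ) * t ^ (d q - 1) * ‖F q t‖ + t ^ d q * ‖F' q t‖) :=
            mul_le_mul_of_nonneg_left h5 ht.le
        _ = (t * ((d q : ℝ) * t ^ (d q - 1))) * ‖F q t‖ + t ^ (d q + 1) * ‖F' q t‖ := by ring
        _ = (d q : ℝ) * (t ^ d q * ‖F q t‖) + t ^ (d q + 1) * ‖F' q t‖ := by rw [h4]; ring
        _ ≤ (e : ℝ) * (∑ q : ι, t ^ d q * ‖F q t‖) + C0 * ∑ q : ι, t ^ d q * ‖F q t‖ := by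
            refine add_le_add ?_ h1
            have h6 : (d q : ℝ) ≤ (e : ℝ) := by exact_mod_cast hde q
            exact mul_le_mul h6 h3 (mul_nonneg (pow_nonneg ht.le _) (norm_nonneg _))
              (Nat.cast_nonneg _)
        _ = ((e : ℝ) + C0) * ∑ q : ι, t ^ d q * ‖F q t‖ := by ring
    · intro k
      have h1 : ∀ q : ι, ∃ C : ℝ, 0 ≤ C ∧ ∀ t : ℝ, 0 ≤ t → t ≤ 1 → ‖F q t‖ ≤ C * t ^ k := by
        intro q
        refine decay hs h0 k (bl q.1) _ ?_
        rw [← wd_mw L R]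
        exact wd_mem_Sp L R (bv q.2.1).2 _
      choose A hA h1 using h1
      refine ⟨∑ q, A q, ?_⟩
      intro q t ht ht1
      rw [norm_mul, Complex.norm_real, Real.norm_eq_abs, abs_of_nonneg (pow_nonneg ht.le _)]
      calc t ^ d q * ‖F q t‖ ≤ 1 * ‖F q t‖ :=
            mul_le_mul_of_nonneg_right (pow_le_one₀ ht.le ht1) (norm_nonneg _)
        _ = ‖F q t‖ := one_mul _
        _ ≤ A q * t ^ k := h1 q t ht.le ht1
        _ ≤ (∑ q, A q) * t ^ k := mul_le_mul_of_nonneg_right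
            (Finset.single_le_sum (fun q _ => hA q) (Finset.mem_univ q)) (pow_nonneg ht.le _)
  -- vanishing on (0, ∞)
  have hz : ∀ (q : ι) (t : ℝ), 0 < t → F q t = 0 := by
    refine grP F F' (fun q t _ => hF q t) ?_ 1 one_pos (fun q => hz1 q 1 one_pos (le_refl _))
    intro s hs0 hs1
    refine ⟨C0 / s ^ (e + 1), ?_⟩
    intro q t hst _
    have ht : 0 < t := hs0.trans_le hst
    have h1 := hbd0 q t ht
    have h2 : s ≤ min t 1 := le_min hst hs1
    have h3 : s ^ (e + 1) ≤ (min t 1) ^ (d q + 1) := by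
      calc s ^ (e + 1) ≤ s ^ (d q + 1) := pow_le_pow_of_le_one hs0.le hs1
            (Nat.succ_le_succ (hde q))
        _ ≤ (min t 1) ^ (d q + 1) := pow_le_pow_left₀ hs0.le h2 _
    have h4 : ∑ q : ι, (min t 1) ^ d q * ‖F q t‖ ≤ ∑ q : ι, ‖F q t‖ := by
      refine Finset.sum_le_sum fun q _ => ?_
      calc (min t 1) ^ d q * ‖F q t‖ ≤ 1 * ‖F q t‖ := mul_le_mul_of_nonneg_right
            (pow_le_one₀ (le_min ht.le zero_le_one) (min_le_right _ _)) (norm_nonneg _)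
        _ = ‖F q t‖ := one_mul _
    rw [div_mul_eq_mul_div, le_div_iff₀ (pow_pos hs0 _)]
    calc ‖F' q t‖ * s ^ (e + 1) ≤ ‖F' q t‖ * (min t 1) ^ (d q + 1) :=
          mul_le_mul_of_nonneg_left h3 (norm_nonneg _)
      _ = (min t 1) ^ (d q + 1) * ‖F' q t‖ := mul_comm _ _
      _ ≤ C0 * ∑ q : ι, (min t 1) ^ d q * ‖F q t‖ := h1
      _ ≤ C0 * ∑ q : ι, ‖F q t‖ := mul_le_mul_of_nonneg_left h4 hC0
  intro l v hv w t ht
  obtain ⟨C, -, h1⟩ := nred hn hs hV bl bv w l v hv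
  have h2 := h1 t ht
  have h3 : NN L B bl (fun b => (bv b : Y)) (n * n - 1) t = 0 := by
    have h4 := hNN t
    rw [Finset.sum_eq_zero] at h4
    · exact h4
    · intro q _
      rw [hz q t ht, norm_zero, mul_zero]
  rw [h3, mul_zero] at h2
  have h5 : 0 < (min t 1) ^ w.length := pow_pos (lt_min ht one_pos) _
  have h6 : ‖B t l (wd L R w v)‖ ≤ 0 := by
    by_contra h7
    push Not at h7
    exact absurd h2 (not_le.2 (mul_pos h5 h7))
  exact norm_le_zero_iff.1 h6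

end

end Pool.Agent.Work.MP_dd0ddf_al.CW
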