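import Pool.Agent.Work.MP_dd0ddf_al.CW.Defs

/-!
# circle subgroups

PROOF. P = v v^* is a projection for a unit vector v (vecMulVec v (star v), P^2 = P), (i theta P)^k = (i theta)^k P for k >= 1, so exp(i theta P) = 1 + (e^(i theta) - 1) P (series; or: both sides satisfy the same linear differential equation;
or diagonalise).  The others: exp of commuting multiples; k (v v^*) k^-1 = (kv)(kv)^* for k unitary; e^(2 pi i) = 1; continuity.
-/

set_option linter.unusedSectionVars false

namespace Pool.Agent.Work.MP_dd0ddf_al.CW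

open scoped Matrix.Norms.Elementwise ComplexConjugate ContDiff Topology
open Matrix MeasureTheory Filter
open Pool.Agent.Work.MP_dd0ddf_al.AR

noncomputable section

variable {n : ℕ}

private theorem exp_idem_aux {A : Type*} [NormedRing A] [NormedAlgebra ℂ A] [CompleteSpace A]
    (z : ℂ) (P : A) (hP : P * P = P) :
    NormedSpace.exp (z • P) = 1 + (Complex.exp z - 1) • P := by
  have h1 := NormedSpace.exp_series_hasSum_exp' (𝕂 := ℂ) (z • P)
  have h2 := NormedSpace.exp_series_hasSum_exp' (𝕂 := ℂ) z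
  have h3 : HasSum (fun k : ℕ => ((k.factorial : ℂ)⁻¹ • z ^ k) • P + (if k = 0 then (1 - P) else 0))
      (NormedSpace.exp z • P + (1 - P)) :=
    (h2.smul_const P).add (hasSum_ite_eq 0 (1 - P))
  have hpow : ∀ k : ℕ, P ^ (k + 1) = P := by
    intro k
    induction k with
    | zero => simp
    | succ k ih => rw [pow_succ, ih, hP]
  have h4 : (fun k : ℕ => ((k.factorial : ℂ)⁻¹) • (z • P) ^ k) =
      fun k : ℕ => ((k.factorial : ℂ)⁻¹ • z ^ k) • P + (if k = 0 then (1 - P) else 0) := by
    funext k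
    cases k with
    | zero => simp
    | succ k =>
      rw [smul_pow, hpow, if_neg (Nat.succ_ne_zero k), add_zero, smul_smul, smul_eq_mul]
  rw [h4] at h1
  rw [h1.unique h3, Complex.exp_eq_exp_ℂ, sub_smul, one_smul]
  abel

private theorem exp_idem (z : ℂ) (P : Mat n) (hP : P * P = P) :
    NormedSpace.exp (z • P) = 1 + (Complex.exp z - 1) • P := by
  open scoped Matrix.Norms.Operator in
  exact exp_idem_aux (A := Matrix (Fin n) (Fin n) ℂ) z P hP

private theorem exp_cont_mat : Continuous (fun Y : Mat n => NormedSpace.exp Y) := by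
  open scoped Matrix.Norms.Operator in
  exact NormedSpace.exp_continuous (𝔸 := Matrix (Fin n) (Fin n) ℂ)

private theorem proj_idem (v : Fin n → ℂ) (hv : uni v) :
    Matrix.vecMulVec v (star v) * Matrix.vecMulVec v (star v) = Matrix.vecMulVec v (star v) := by
  rw [Matrix.vecMulVec_mul_vecMulVec, hv, one_smul]

private theorem smul_cY (v : Fin n → ℂ) (θ : ℝ) :
    θ • cY v = ((θ : ℂ) * Complex.I) • Matrix.vecMulVec v (star v) := by
  unfold cY
  rw [← smul_smul]
  rfl

theorem cu_eq (v : Fin n → ℂ) (hv : uni v) (θ : ℝ) :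
    ((cu v θ : UU n) : Mat n) = 1 + (Complex.exp (θ * Complex.I) - 1) • Matrix.vecMulVec v (star v) := by
  show NormedSpace.exp (θ • cY v) = _
  rw [smul_cY, exp_idem _ _ (proj_idem v hv)]

theorem cu_zero (v : Fin n → ℂ) : cu v 0 = 1 := by
  apply Subtype.ext
  show NormedSpace.exp ((0 : ℝ) • cY v) = 1
  rw [zero_smul, NormedSpace.exp_zero]

theorem cu_add (v : Fin n → ℂ) (s t : ℝ) : cu v (s + t) = cu v s * cu v t := by
  apply Subtype.ext
  show NormedSpace.exp ((s + t) • cY v) = NormedSpace.exp (s • cY v) * NormedSpace.exp (t • cY v)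
  rw [add_smul]
  apply Matrix.exp_add_of_commute
  exact ((Commute.refl (cY v)).smul_left s).smul_right t

theorem cu_period (v : Fin n → ℂ) (hv : uni v) (t : ℝ) : cu v (t + 2 * Real.pi) = cu v t := by
  apply Subtype.ext
  rw [cu_eq v hv, cu_eq v hv]
  have : Complex.exp (((t + 2 * Real.pi : ℝ) : ℂ) * Complex.I) =
      Complex.exp ((t : ℂ) * Complex.I) := by
    push_cast
    rw [add_mul, Complex.exp_add, Complex.exp_two_pi_mul_I, mul_one]
  rw [this]

theorem cu_conj (k : UU n) (v : Fin n → ℂ) (θ : ℝ) :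
    k * cu v θ * k⁻¹ = cu ((k : Mat n) *ᵥ v) θ := by
  apply Subtype.ext
  show (k : Mat n) * NormedSpace.exp (θ • cY v) * ((k⁻¹ : UU n) : Mat n) =
    NormedSpace.exp (θ • cY ((k : Mat n) *ᵥ v))
  have hk : (k : Mat n) * star (k : Mat n) = 1 := (Matrix.mem_unitaryGroup_iff).mp k.2
  have hk' : ((k⁻¹ : UU n) : Mat n) = star (k : Mat n) := rfl
  have hinv : (k : Mat n)⁻¹ = star (k : Mat n) := Matrix.inv_eq_right_inv hk
  have hu : IsUnit (k : Mat n) := by
    rw [Matrix.isUnit_iff_isUnit_det]
    exact Matrix.isUnit_det_of_right_inverse hk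
  rw [hk', ← hinv, ← Matrix.exp_conj _ _ hu, hinv]
  congr 1
  rw [smul_cY, smul_cY, Matrix.mul_smul, Matrix.smul_mul, Matrix.mul_vecMulVec,
    Matrix.vecMulVec_mul, Matrix.star_mulVec]
  rfl

theorem uni_conj (k : UU n) (v : Fin n → ℂ) (hv : uni v) : uni ((k : Mat n) *ᵥ v) := by
  unfold uni at hv ⊢
  have hk : star (k : Mat n) * (k : Mat n) = 1 := (Matrix.mem_unitaryGroup_iff').mp k.2
  rw [Matrix.star_mulVec, ← Matrix.dotProduct_mulVec, Matrix.mulVec_mulVec]
  rw [star_eq_conjTranspose] at hk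
  rw [hk, Matrix.one_mulVec, hv]

theorem cu_cont (v : Fin n → ℂ) : Continuous (cu v) := by
  have h : Continuous fun θ : ℝ => NormedSpace.exp (θ • cY v) :=
    exp_cont_mat.comp (continuous_id.smul continuous_const)
  exact h.subtype_mk _

theorem kg_cu (v : Fin n → ℂ) (θ : ℝ) : kg (cu v θ) = ex (θ • cY v) := by
  apply Units.ext
  rfl

theorem kg_cont : Continuous (kg : UU n → GLn n) := by
  rw [Units.continuous_iff]
  refine ⟨continuous_subtype_val, ?_⟩
  exact continuous_star.comp continuous_subtype_val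

theorem star_cY0 (v : Fin n → ℂ) : star (cY v) = -cY v := by
  have h := star_cY v 1
  simpa using h

end

end Pool.Agent.Work.MP_dd0ddf_al.CW
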