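import Pool.Agent.Work.MP_dd0ddf_al.CW.Defs
import Pool.Agent.Work.MP_dd0ddf_al.CW.Cug

/-!
# translates; elements of X with prescribed K-average

PROOF. bas_trans: pi(kg(cu v t)) pi(kg k) x = pi(kg k) pi(kg(k^-1 (cu v t) k)) x = pi(kg k) pi(kg(cu (k^-1 v) t)) x (`cu_conj`); apply l o pi(kg k).
bas_coef: k -> l(pi(kg k) x) is continuous (`SR.cont`, `kg_cont`) and for a, v: l(pi(kg(a cu v t)) x) = (l o pi(kg a))(pi(kg(cu v t)) x) in TPs R.  Converse: take a = 1.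
bas_y: the same for functionals: l(pi(kg(a cu v t)) x) = l(pi(kg(cu (a v) t)) pi(kg a) x).
-/

set_option linter.unusedSectionVars false

namespace Pool.Agent.Work.MP_dd0ddf_al.CW

open scoped Matrix.Norms.Elementwise ComplexConjugate ContDiff Topology
open Matrix MeasureTheory Filter
open Pool.Agent.Work.MP_dd0ddf_al.AR

noncomputable section

variable {n : ℕ} {X : Type*} [AddCommGroup X] [Module ℂ X] [UniformSpace X] [IsUniformAddGroup X]
  [ContinuousSMul ℂ X] [CompleteSpace X] [T2Space X] [IsFre X]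

variable {π : GLn n →* (X →L[ℂ] X)} {D : Mat n →ₗ[ℝ] (X →L[ℂ] X)}

theorem bas_trans (π : GLn n →* (X →L[ℂ] X)) (R : ℕ) (x : X) (hx : x ∈ XR π R) (k : UU n) :
    π (kg k) x ∈ XR π R := by
  sorry

theorem bas_transY (π : GLn n →* (X →L[ℂ] X)) (R : ℕ) (l : X →ₗ[ℂ] ℂ) (hl : l ∈ YR π R) (k : UU n) :
    l.comp (π (kg k) : X →ₗ[ℂ] X) ∈ YR π R := by
  sorry

theorem bas_coef (hS : SR π D) (R : ℕ) (x : X) :
    x ∈ XR π R ↔ ∀ l : X →L[ℂ] ℂ, (fun k : UU n => l (π (kg k) x)) ∈ SU n R := by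
  sorry

theorem bas_coefY (hS : SR π D) (R : ℕ) (l : X →ₗ[ℂ] ℂ) (hl : Continuous l) :
    l ∈ YR π R ↔ ∀ x : X, (fun k : UU n => l (π (kg k) x)) ∈ SU n R := by
  sorry

theorem bas_monoX (π : GLn n →* (X →L[ℂ] X)) {R S : ℕ} (h : R ≤ S) : XR π R ≤ XR π S := by
  sorry

theorem bas_monoY (π : GLn n →* (X →L[ℂ] X)) {R S : ℕ} (h : R ≤ S) : YR π R ≤ YR π S := by
  sorry

end

end Pool.Agent.Work.MP_dd0ddf_al.CW
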