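import Pool.Agent.Work.MP_dd0ddf_al.CW.Defs

/-!
# invariances of the Haar measure of the compact group U(n)

PROOF. Left invariance: IsHaarMeasure.  Right invariance: mu(. a) is again a left Haar measure of total mass 1, so equal to mu by uniqueness (`Measure.isHaarMeasure_eq_smul`/`isMulLeftInvariant_eq_smul_of_regular`, total mass), or by Fubini:
int f(x a) dx = int int f(x a) dx db ... .  Inversion: the same with mu.inv.
-/

set_option linter.unusedSectionVars false

namespace Pool.Agent.Work.MP_dd0ddf_al.CW

open scoped Matrix.Norms.Elementwise ComplexConjugate ContDiff Topology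
open Matrix MeasureTheory Filter
open Pool.Agent.Work.MP_dd0ddf_al.AR

noncomputable section

variable {n : ℕ}

instance hK_right : (hK n).IsMulRightInvariant := by
  constructor
  intro g
  have h1 : (Measure.map (fun x : UU n => x * g) (hK n)).IsHaarMeasure := inferInstance
  have h2 : IsProbabilityMeasure (Measure.map (fun x : UU n => x * g) (hK n)) :=
    Measure.isProbabilityMeasure_map (continuous_mul_const g).measurable.aemeasurable
  exact Measure.isHaarMeasure_eq_of_isProbabilityMeasure _ _

instance hK_inv : (hK n).IsInvInvariant := by
  constructor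
  have h0 : ∀ g : UU n, Measure.map (fun x => g * x) (hK n).inv = (hK n).inv := by
    intro g
    unfold Measure.inv
    rw [Measure.map_map (continuous_const_mul g).measurable continuous_inv.measurable]
    have e : (fun x => g * x) ∘ (Inv.inv : UU n → UU n) = Inv.inv ∘ fun x => x * g⁻¹ := by
      funext x
      simp
    rw [e, ← Measure.map_map continuous_inv.measurable (continuous_mul_const g⁻¹).measurable,
      map_mul_right_eq_self]
  have hl : ((hK n).inv).IsMulLeftInvariant := ⟨h0⟩
  have h2 : IsProbabilityMeasure ((hK n).inv) :=
    Measure.isProbabilityMeasure_map continuous_inv.measurable.aemeasurable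
  have h3 : ((hK n).inv).IsOpenPosMeasure := by
    constructor
    intro U hU hne
    unfold Measure.inv
    rw [Measure.map_apply continuous_inv.measurable hU.measurableSet]
    exact (hU.preimage continuous_inv).measure_ne_zero _ (hne.preimage inv_surjective)
  have h4 : ((hK n).inv).IsHaarMeasure := { hl, h3, (inferInstance : IsFiniteMeasureOnCompacts ((hK n).inv)) with }
  exact Measure.isHaarMeasure_eq_of_isProbabilityMeasure _ _

theorem hK_conj (f : UU n → ℂ) (a : UU n) :
    ∫ x, f (a * x * a⁻¹) ∂(hK n) = ∫ x, f x ∂(hK n) := by
  rw [integral_mul_left_eq_self (fun x => f (x * a⁻¹)) a, integral_mul_right_eq_self]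

theorem hK_open (s : Set (UU n)) (hs : IsOpen s) (hne : s.Nonempty) : 0 < (hK n) s :=
  hs.measure_pos _ hne

end

end Pool.Agent.Work.MP_dd0ddf_al.CW
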