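import Pool.Agent.Work.MP_dd0ddf_al.CW.Defs
import Pool.Agent.Work.MP_dd0ddf_al.CW.Cug

/-!
# U(n) is a finite product of fixed circle subgroups

PROOF. Induction (Givens rotations).  For i and the basis vector e_i, cu e_i theta multiplies row i by e^(i theta).  For i /= j let v+ = (e_i + i e_j)/sqrt 2, v- = (e_i - i e_j)/sqrt 2 (orthonormal, unit);
cu v+ t * cu v- (-t) acts on the plane (e_i, e_j) as exp(i t (v+ v+^* - v- v-^*)); v+ v+^* - v- v-^* = [[0,-i],[i,0]], so this is the rotation [[cos t, sin t], [-sin t, cos t]] and the identity on the other coordinates.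
Any k in U(n): multiply from the left by phases cu e_i and rotations to make, for the first column, all entries below the first zero: if entries i=1 (first) and j of the column are a, b: multiply by phases to make them real
>= 0, then rotate in the plane (1, j) to kill b.  After the first column is e_1 (phase), the first row is also e_1^T (unitary), continue with the (n-1) x (n-1) block.  The list of circles used depends only on n
(order the steps; use angle 0 when nothing is needed).  So 1 = (product of the circles in a fixed order) k, and k = product of the inverses in the opposite order, cu v (-t) = (cu v t)^-1.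
State the result by induction on the number of treated columns: for every c <= n there is a fixed list such that for every k there are angles with (product) k fixing e_0, ..., e_(c-1).
-/

set_option linter.unusedSectionVars false

namespace Pool.Agent.Work.MP_dd0ddf_al.CW

open scoped Matrix.Norms.Elementwise ComplexConjugate ContDiff Topology
open Matrix MeasureTheory Filter
open Pool.Agent.Work.MP_dd0ddf_al.AR

noncomputable section

variable {n : ℕ}

private def Gd (S : Set (UU n)) : Prop :=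
  ∃ vs : List (Fin n → ℂ), (∀ v ∈ vs, uni v) ∧
    ∀ k ∈ S, ∃ θ : List ℝ, θ.length = vs.length ∧ k = ((vs.zip θ).map fun p => cu p.1 p.2).prod

private theorem gd_mul {S T U : Set (UU n)} (hS : Gd S) (hT : Gd T)
    (h : ∀ k ∈ U, ∃ s ∈ S, ∃ t ∈ T, k = s * t) : Gd U := by
  obtain ⟨vs, h1, h2⟩ := hS
  obtain ⟨ws, h3, h4⟩ := hT
  refine ⟨vs ++ ws, ?_, ?_⟩
  · intro v hv
    rcases List.mem_append.1 hv with hv | hv
    · exact h1 v hv
    · exact h3 v hv
  · intro k hk
    obtain ⟨s, hs, t, ht, rfl⟩ := h k hk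
    obtain ⟨θ, e1, e2⟩ := h2 s hs
    obtain ⟨η, e3, e4⟩ := h4 t ht
    refine ⟨θ ++ η, by simp [e1, e3], ?_⟩
    rw [List.zip_append e1.symm, List.map_append, List.prod_append, ← e2, ← e4]

private theorem gd_circ {v : Fin n → ℂ} (hv : uni v) : Gd {k : UU n | ∃ θ : ℝ, k = cu v θ} := by
  refine ⟨[v], by simpa using hv, ?_⟩
  rintro k ⟨θ, rfl⟩
  exact ⟨[θ], by simp, by simp⟩

private theorem cu_mul_neg (v : Fin n → ℂ) (t : ℝ) : cu v (-t) * cu v t = 1 := by
  rw [← cu_add, neg_add_cancel, cu_zero]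

private theorem cu_col {v : Fin n → ℂ} (hv : uni v) (t : ℝ) (k : UU n) (i c : Fin n) :
    ((cu v t * k : UU n) : Mat n) i c = (k : Mat n) i c +
      (Complex.exp (t * Complex.I) - 1) * (star v ⬝ᵥ fun l => (k : Mat n) l c) * v i := by
  have h1 : ((cu v t * k : UU n) : Mat n) = ((cu v t : UU n) : Mat n) * (k : Mat n) := rfl
  rw [h1, cu_eq v hv, Matrix.add_mul, Matrix.one_mul, Matrix.add_apply, Matrix.smul_mul,
    Matrix.smul_apply, Matrix.vecMulVec_mul, Matrix.vecMulVec_apply, smul_eq_mul, mul_assoc]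
  congr 2
  rw [mul_comm]
  rfl

private theorem uni_single (c : Fin n) : uni (Pi.single c (1 : ℂ) : Fin n → ℂ) := by
  unfold uni
  simp

private def Sc (c : ℕ) : Set (UU n) :=
  {k | ∀ j : Fin n, (j : ℕ) < c → ∀ i, (k : Mat n) i j = if i = j then 1 else 0}

private def Sd (c : Fin n) (d : ℕ) : Set (UU n) :=
  {k | k ∈ Sc (c : ℕ) ∧ ∀ i : Fin n, d ≤ (i : ℕ) → (k : Mat n) i c = 0}

private theorem un_col (k : UU n) (a b : Fin n) :
    ∑ i, conj ((k : Mat n) i a) * (k : Mat n) i b = if a = b then 1 else 0 := by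
  have h := Matrix.mem_unitaryGroup_iff'.1 k.2
  have h1 := congrFun (congrFun h a) b
  rw [Matrix.mul_apply, Matrix.one_apply] at h1
  rw [← h1]
  rfl

private theorem sc_row {c : ℕ} {k : UU n} (hk : k ∈ Sc c) {j a : Fin n} (hj : (j : ℕ) < c)
    (ha : c ≤ (a : ℕ)) : (k : Mat n) j a = 0 := by
  have h := un_col k j a
  have hne : j ≠ a := by
    rintro rfl
    omega
  rw [if_neg hne] at h
  rw [← h, Finset.sum_eq_single j]
  · rw [hk j hj j, if_pos rfl, map_one, one_mul]
  · intro i _ hi
    rw [hk j hj i, if_neg hi, map_zero, zero_mul]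
  · intro h'
    exact absurd (Finset.mem_univ j) h'

private theorem sc_cu {c : ℕ} {k : UU n} (hk : k ∈ Sc c) {v : Fin n → ℂ} (hv : uni v)
    (hv0 : ∀ j : Fin n, (j : ℕ) < c → v j = 0) (t : ℝ) : cu v t * k ∈ Sc c := by
  intro j hj i
  rw [cu_col hv, hk j hj i]
  have : (star v ⬝ᵥ fun l => (k : Mat n) l j) = 0 := by
    unfold dotProduct
    apply Finset.sum_eq_zero
    intro l _
    show star v l * (k : Mat n) l j = 0
    rw [hk j hj l]
    by_cases h : l = j
    · subst h
      rw [Pi.star_apply, hv0 l hj, star_zero, zero_mul]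
    · rw [if_neg h, mul_zero]
  rw [this, mul_zero, zero_mul, add_zero]

private theorem step_one (c : Fin n) (h : Gd (Sc (n := n) ((c : ℕ) + 1))) :
    Gd (Sd c ((c : ℕ) + 1)) := by
  refine gd_mul (gd_circ (uni_single c)) h ?_
  rintro k ⟨hk, hk2⟩
  have hz : ∀ i : Fin n, i ≠ c → (k : Mat n) i c = 0 := by
    intro i hi
    rcases lt_or_ge (i : ℕ) (c : ℕ) with h1 | h1
    · exact sc_row hk h1 le_rfl
    · apply hk2
      have : (i : ℕ) ≠ (c : ℕ) := fun h => hi (Fin.ext h)
      omega
  have hn : ‖(k : Mat n) c c‖ = 1 := by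
    have h1 := un_col k c c
    rw [if_pos rfl, Finset.sum_eq_single c] at h1
    · rw [mul_comm, Complex.mul_conj, Complex.normSq_eq_norm_sq] at h1
      have h2 : ‖(k : Mat n) c c‖ ^ 2 = 1 := by exact_mod_cast h1
      nlinarith [norm_nonneg ((k : Mat n) c c)]
    · intro i _ hi
      rw [hz i hi, mul_zero]
    · intro h'
      exact absurd (Finset.mem_univ c) h'
  obtain ⟨φ, hφ⟩ : ∃ φ : ℝ, φ = Complex.arg ((k : Mat n) c c) := ⟨_, rfl⟩
  have he : (k : Mat n) c c = Complex.exp (φ * Complex.I) := by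
    have := Complex.norm_mul_exp_arg_mul_I ((k : Mat n) c c)
    rw [hn, Complex.ofReal_one, one_mul] at this
    rw [hφ, this]
  refine ⟨cu (Pi.single c 1) φ, ⟨φ, rfl⟩, cu (Pi.single c 1) (-φ) * k, ?_, ?_⟩
  · intro j hj i
    rcases (Nat.lt_succ_iff_lt_or_eq.1 hj) with h1 | h1
    · exact sc_cu hk (uni_single c) (fun j hj => by
        rw [Pi.single_eq_of_ne]
        rintro rfl
        omega) (-φ) j h1 i
    · have hjc : j = c := Fin.ext h1
      subst hjc
      rw [cu_col (uni_single j)]
      have hd : (star (Pi.single j (1 : ℂ) : Fin n → ℂ) ⬝ᵥ fun l => (k : Mat n) l j) =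
          (k : Mat n) j j := by
        rw [← Pi.single_star, star_one, single_one_dotProduct]
      rw [hd]
      by_cases hij : i = j
      · subst hij
        rw [Pi.single_eq_same, if_pos rfl, he, mul_one, sub_mul, ← Complex.exp_add, one_mul]
        have : ((-φ : ℝ) : ℂ) * Complex.I + (φ : ℂ) * Complex.I = 0 := by push_cast; ring
        rw [this, Complex.exp_zero]
        ring
      · rw [Pi.single_eq_of_ne hij, if_neg hij, hz i hij]
        ring
  · rw [← mul_assoc]
    have := cu_mul_neg (Pi.single c (1 : ℂ) : Fin n → ℂ) (-φ)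
    rw [neg_neg] at this
    rw [this, one_mul]

private theorem phase1 (z : ℂ) : ∃ φ : ℝ, (Complex.exp (φ * Complex.I) * z).re = 0 := by
  refine ⟨Real.pi / 2 - Complex.arg z, ?_⟩
  have h := Complex.norm_mul_exp_arg_mul_I z
  have : Complex.exp (((Real.pi / 2 - Complex.arg z : ℝ) : ℂ) * Complex.I) * z =
      (‖z‖ : ℂ) * Complex.I := by
    have e : ((Real.pi / 2 - Complex.arg z : ℝ) : ℂ) * Complex.I + (Complex.arg z : ℂ) * Complex.I
        = (Real.pi : ℂ) / 2 * Complex.I := by
      push_cast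
      ring
    calc Complex.exp (((Real.pi / 2 - Complex.arg z : ℝ) : ℂ) * Complex.I) * z =
        Complex.exp (((Real.pi / 2 - Complex.arg z : ℝ) : ℂ) * Complex.I) *
          ((‖z‖ : ℂ) * Complex.exp (Complex.arg z * Complex.I)) := by rw [h]
      _ = (‖z‖ : ℂ) * Complex.I := by
        rw [mul_left_comm, ← Complex.exp_add, e, Complex.exp_pi_div_two_mul_I]
  rw [this]
  simp

private theorem phase2 (a b : ℂ) (h : (a * conj b).re = 0) :
    ∃ θ : ℝ, b + (Complex.exp (θ * Complex.I) - 1) * ((a + b) / 2) = 0 := by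
  have h1 : ‖a - b‖ = ‖a + b‖ := by
    have e1 : ‖a - b‖ ^ 2 = ‖a + b‖ ^ 2 := by
      rw [← Complex.normSq_eq_norm_sq, ← Complex.normSq_eq_norm_sq, Complex.normSq_sub,
        Complex.normSq_add, h]
      ring
    exact (pow_left_inj₀ (norm_nonneg _) (norm_nonneg _) two_ne_zero).1 e1
  by_cases h0 : a + b = 0
  · have h2 : a - b = 0 := by
      rw [h0, norm_zero] at h1
      exact norm_eq_zero.1 h1
    have h3 : b = 0 := by
      have : (2 : ℂ) * b = 0 := by
        calc (2 : ℂ) * b = (a + b) - (a - b) := by ring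
          _ = 0 := by rw [h0, h2, sub_zero]
      exact (mul_eq_zero.1 this).resolve_left two_ne_zero
    exact ⟨0, by rw [h0, h3]; simp⟩
  · obtain ⟨z, hz⟩ : ∃ z, z = (a - b) / (a + b) := ⟨_, rfl⟩
    have hn : ‖z‖ = 1 := by
      rw [hz, norm_div, h1, div_self]
      exact norm_ne_zero_iff.2 h0
    refine ⟨Complex.arg z, ?_⟩
    have he := Complex.norm_mul_exp_arg_mul_I z
    rw [hn, Complex.ofReal_one, one_mul] at he
    rw [he, hz]
    field_simp
    ring

private def vcd (c d : Fin n) : Fin n → ℂ :=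
  fun i => ((Real.sqrt 2)⁻¹ : ℝ) * ((if i = c then 1 else 0) + (if i = d then 1 else 0))

private theorem vcd_dot (c d : Fin n) (w : Fin n → ℂ) :
    (star (vcd c d) ⬝ᵥ w) = ((Real.sqrt 2)⁻¹ : ℝ) * (w c + w d) := by
  unfold dotProduct vcd
  have : ∀ i : Fin n, (star (fun i => (((Real.sqrt 2)⁻¹ : ℝ) : ℂ) *
      ((if i = c then 1 else 0) + (if i = d then 1 else 0))) : Fin n → ℂ) i * w i =
      ((Real.sqrt 2)⁻¹ : ℝ) * ((if i = c then w i else 0) + (if i = d then w i else 0)) := by
    intro i
    rw [Pi.star_apply, star_mul', RCLike.star_def, Complex.conj_ofReal, mul_assoc]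
    congr 1
    rw [map_add, add_mul]
    congr 1
    · split_ifs <;> simp
    · split_ifs <;> simp
  rw [Finset.sum_congr rfl (fun i _ => this i), ← Finset.mul_sum, Finset.sum_add_distrib,
    Finset.sum_ite_eq' Finset.univ c, Finset.sum_ite_eq' Finset.univ d, if_pos (Finset.mem_univ _),
    if_pos (Finset.mem_univ _)]

private theorem sqrt_sq : (((Real.sqrt 2)⁻¹ : ℝ) : ℂ) * (((Real.sqrt 2)⁻¹ : ℝ) : ℂ) = 1 / 2 := by
  rw [← Complex.ofReal_mul, ← mul_inv, Real.mul_self_sqrt (by norm_num)]
  push_cast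
  norm_num

private theorem uni_vcd {c d : Fin n} (h : c ≠ d) : uni (vcd c d) := by
  unfold uni
  rw [vcd_dot]
  unfold vcd
  rw [if_pos rfl, if_neg h, if_neg (Ne.symm h), if_pos rfl, add_zero, zero_add, ← mul_add,
    ← mul_assoc, sqrt_sq]
  norm_num

private theorem step_two (c d : Fin n) (hcd : (c : ℕ) < (d : ℕ)) (h : Gd (Sd c (d : ℕ))) :
    Gd (Sd c ((d : ℕ) + 1)) := by
  have hne : c ≠ d := by
    rintro rfl
    omega
  refine gd_mul (gd_circ (uni_single c)) (gd_mul (U := {k : UU n | ∃ θ : ℝ, cu (vcd c d) θ * k ∈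
    Sd c (d : ℕ)}) (gd_circ (uni_vcd hne)) h ?_) ?_
  · rintro k ⟨θ, hk⟩
    refine ⟨cu (vcd c d) (-θ), ⟨-θ, rfl⟩, _, hk, ?_⟩
    rw [← mul_assoc, cu_mul_neg, one_mul]
  · rintro k ⟨hk, hk2⟩
    obtain ⟨φ, hφ⟩ := phase1 ((k : Mat n) c c * conj ((k : Mat n) d c))
    have hc0 : ∀ j : Fin n, (j : ℕ) < (c : ℕ) → (Pi.single c (1 : ℂ) : Fin n → ℂ) j = 0 := by
      intro j hj
      rw [Pi.single_eq_of_ne]
      rintro rfl
      omega
    refine ⟨cu (Pi.single c 1) (-φ), ⟨-φ, rfl⟩, cu (Pi.single c 1) φ * k, ?_, ?_⟩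
    · obtain ⟨k1, hk1⟩ : ∃ k1, k1 = cu (Pi.single c (1 : ℂ) : Fin n → ℂ) φ * k := ⟨_, rfl⟩
      have h1 : k1 ∈ Sc (c : ℕ) := by
        rw [hk1]
        exact sc_cu hk (uni_single c) hc0 φ
      have hd : (star (Pi.single c (1 : ℂ) : Fin n → ℂ) ⬝ᵥ fun l => (k : Mat n) l c) =
          (k : Mat n) c c := by
        rw [← Pi.single_star, star_one, single_one_dotProduct]
      have hcc : (k1 : Mat n) c c = Complex.exp (φ * Complex.I) * (k : Mat n) c c := by
        rw [hk1, cu_col (uni_single c), hd, Pi.single_eq_same]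
        ring
      have hic : ∀ i, i ≠ c → (k1 : Mat n) i c = (k : Mat n) i c := by
        intro i hi
        rw [hk1, cu_col (uni_single c), Pi.single_eq_of_ne hi]
        ring
      have hre : ((k1 : Mat n) c c * conj ((k1 : Mat n) d c)).re = 0 := by
        rw [hcc, hic d (Ne.symm hne), mul_assoc]
        exact hφ
      obtain ⟨θ, hθ⟩ := phase2 _ _ hre
      rw [← hk1]
      refine ⟨θ, ?_, ?_⟩
      · refine sc_cu h1 (uni_vcd hne) ?_ θ
        intro j hj
        have e1 : j ≠ c := by
          rintro rfl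
          omega
        have e2 : j ≠ d := by
          rintro rfl
          omega
        unfold vcd
        rw [if_neg e1, if_neg e2]
        ring
      · intro i hi
        rw [cu_col (uni_vcd hne), vcd_dot]
        have e1 : i ≠ c := by
          rintro rfl
          omega
        by_cases hid : i = d
        · subst hid
          unfold vcd
          rw [if_neg (Ne.symm hne), if_pos rfl, zero_add, mul_one]
          have := sqrt_sq
          calc _ = (k1 : Mat n) i c + (Complex.exp (θ * Complex.I) - 1) *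
              (((k1 : Mat n) c c + (k1 : Mat n) i c) *
                ((((Real.sqrt 2)⁻¹ : ℝ) : ℂ) * (((Real.sqrt 2)⁻¹ : ℝ) : ℂ))) := by ring
            _ = 0 := by
              rw [this, ← hθ]
              ring
        · unfold vcd
          rw [if_neg e1, if_neg hid, hic i e1, hk2 i (by
            have : (i : ℕ) ≠ (d : ℕ) := fun h => hid (Fin.ext h)
            omega)]
          ring
    · rw [← mul_assoc, cu_mul_neg, one_mul]

private theorem step_all (c : Fin n) (h : Gd (Sc (n := n) ((c : ℕ) + 1))) (d : ℕ)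
    (hd : (c : ℕ) + 1 ≤ d) (hdn : d ≤ n) : Gd (Sd c d) := by
  induction d, hd using Nat.le_induction with
  | base => exact step_one c h
  | succ d hd ih => exact step_two c ⟨d, by omega⟩ (by simp; omega) (ih (by omega))

private theorem gd_all (m : ℕ) (hm : m ≤ n) : Gd (Sc (n := n) (n - m)) := by
  induction m with
  | zero =>
    refine ⟨[], by simp, ?_⟩
    intro k hk
    refine ⟨[], rfl, ?_⟩
    simp only [List.zip_nil_left, List.map_nil, List.prod_nil]
    apply Subtype.ext
    ext i j
    rw [hk j (by omega) i]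
    rfl
  | succ m ih =>
    have h1 := ih (by omega)
    have hc : n - (m + 1) < n := by omega
    have h2 := step_all (n := n) ⟨n - (m + 1), hc⟩ (by
      have : n - (m + 1) + 1 = n - m := by omega
      show Gd (Sc (n := n) (n - (m + 1) + 1))
      rw [this]
      exact h1) n (by simp; omega) le_rfl
    obtain ⟨vs, h3, h4⟩ := h2
    refine ⟨vs, h3, fun k hk => h4 k ⟨hk, fun i hi => ?_⟩⟩
    exact absurd i.2 (by omega)

theorem cirg (n : ℕ) : ∃ vs : List (Fin n → ℂ), (∀ v ∈ vs, uni v) ∧
    ∀ k : UU n, ∃ θ : List ℝ, θ.length = vs.length ∧ k = ((vs.zip θ).map fun p => cu p.1 p.2).prod := by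
  obtain ⟨vs, h1, h2⟩ := gd_all (n := n) n le_rfl
  refine ⟨vs, h1, fun k => h2 k ?_⟩
  intro j hj
  omega

end

end Pool.Agent.Work.MP_dd0ddf_al.CW
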