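import Pool.Agent.Work.MP_dd0ddf_al.CW.Defs

/-!
# trigonometric polynomials

PROOF. The functions theta -> e^(i m theta) are linearly independent; f in TPs R is a combination sum_(|m| <= R) c_m e^(i m theta) (finite set of m), c_m = (1/2pi) int_0^(2pi) f e^(-i m theta).
Shift, reflection (m -> -m), products (m + m') on generators (`Submodule.span_induction`).  Derivative: sum i m c_m e^(i m theta), |c_m| <= sup |f|, at most 2R+1 terms, |m| <= R.
Closedness: TPs R is finite dimensional, so closed under pointwise limits: pointwise limit of f_k in TPs R: the evaluation at 2R+1 points theta_j = 2 pi j/(2R+1) determines the coefficients (discrete Fourier transform),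
so the coefficients converge.  tp_int: the coefficients c_m(x) = (1/(2R+1)) sum_j F(x, theta_j) e^(-i m theta_j) are integrable in x, and F(x, theta) = sum c_m(x) e^(i m theta).
-/

set_option linter.unusedSectionVars false

namespace Pool.Agent.Work.MP_dd0ddf_al.CW

open scoped Matrix.Norms.Elementwise ComplexConjugate ContDiff Topology
open Matrix MeasureTheory Filter
open Pool.Agent.Work.MP_dd0ddf_al.AR

noncomputable section

private theorem ind {R : ℕ} {P : (ℝ → ℂ) → Prop}
    (hg : ∀ m : ℤ, |m| ≤ (R : ℤ) → P (fun θ : ℝ => Complex.exp ((m : ℂ) * (θ : ℂ) * Complex.I)))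
    (h0 : P 0) (ha : ∀ f g, P f → P g → P (f + g)) (hs : ∀ (c : ℂ) f, P f → P (c • f))
    {f : ℝ → ℂ} (hf : f ∈ TPs R) : P f := by
  unfold TPs at hf
  induction hf using Submodule.span_induction with
  | mem x hx =>
    obtain ⟨m, hm, rfl⟩ := hx
    exact hg m hm
  | zero => exact h0
  | add x y _ _ hx hy => exact ha x y hx hy
  | smul a x _ hx => exact hs a x hx

private theorem gen {R : ℕ} (m : ℤ) (hm : |m| ≤ (R : ℤ)) :
    (fun θ : ℝ => Complex.exp ((m : ℂ) * (θ : ℂ) * Complex.I)) ∈ TPs R :=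
  Submodule.subset_span ⟨m, hm, rfl⟩

theorem tp_mul {R S : ℕ} {f g : ℝ → ℂ} (hf : f ∈ TPs R) (hg : g ∈ TPs S) :
    (fun θ => f θ * g θ) ∈ TPs (R + S) := by
  refine ind (P := fun f => (fun θ => f θ * g θ) ∈ TPs (R + S)) ?_ ?_ ?_ ?_ hf
  · intro m hm
    refine ind (P := fun g : ℝ → ℂ => (fun θ : ℝ => Complex.exp ((m : ℂ) * (θ : ℂ) * Complex.I) * g θ) ∈
      TPs (R + S)) ?_ ?_ ?_ ?_ hg
    · intro k hk
      have h : (fun θ : ℝ => Complex.exp ((m : ℂ) * (θ : ℂ) * Complex.I) *
          Complex.exp ((k : ℂ) * (θ : ℂ) * Complex.I)) =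
          fun θ : ℝ => Complex.exp (((m + k : ℤ) : ℂ) * (θ : ℂ) * Complex.I) := by
        funext θ
        rw [← Complex.exp_add]
        congr 1
        push_cast
        ring
      rw [h]
      refine gen _ ?_
      push_cast
      exact (abs_add_le m k).trans (add_le_add hm hk)
    · have h : (fun θ : ℝ => Complex.exp ((m : ℂ) * (θ : ℂ) * Complex.I) * (0 : ℝ → ℂ) θ) = 0 := by
        funext θ
        simp
      rw [h]
      exact Submodule.zero_mem _
    · intro f g hf hg
      have h := Submodule.add_mem _ hf hg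
      convert h using 1
      funext θ
      simp only [Pi.add_apply]
      ring
    · intro c f hf
      have h := Submodule.smul_mem _ c hf
      convert h using 1
      funext θ
      simp only [Pi.smul_apply, smul_eq_mul]
      ring
  · have h : (fun θ : ℝ => (0 : ℝ → ℂ) θ * g θ) = 0 := by
      funext θ
      simp
    rw [h]
    exact Submodule.zero_mem _
  · intro f f' hf hf'
    have h := Submodule.add_mem _ hf hf'
    convert h using 1
    funext θ
    simp only [Pi.add_apply]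
    ring
  · intro c f hf
    have h := Submodule.smul_mem _ c hf
    convert h using 1
    funext θ
    simp only [Pi.smul_apply, smul_eq_mul]
    ring

theorem tp_shift {R : ℕ} {f : ℝ → ℂ} (hf : f ∈ TPs R) (a : ℝ) : (fun θ => f (θ + a)) ∈ TPs R := by
  refine ind (P := fun f : ℝ → ℂ => (fun θ => f (θ + a)) ∈ TPs R) ?_ ?_ ?_ ?_ hf
  · intro m hm
    have h := Submodule.smul_mem (TPs R) (Complex.exp ((m : ℂ) * (a : ℂ) * Complex.I)) (gen m hm)
    convert h using 1
    funext θ
    simp only [Pi.smul_apply, smul_eq_mul]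
    rw [← Complex.exp_add]
    congr 1
    push_cast
    ring
  · exact Submodule.zero_mem _
  · intro f g hf hg
    exact Submodule.add_mem _ hf hg
  · intro c f hf
    exact Submodule.smul_mem _ c hf

theorem tp_neg {R : ℕ} {f : ℝ → ℂ} (hf : f ∈ TPs R) : (fun θ => f (-θ)) ∈ TPs R := by
  refine ind (P := fun f : ℝ → ℂ => (fun θ => f (-θ)) ∈ TPs R) ?_ ?_ ?_ ?_ hf
  · intro m hm
    have h := gen (R := R) (-m) (by rwa [abs_neg])
    convert h using 1
    funext θ
    congr 1
    push_cast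
    ring
  · exact Submodule.zero_mem _
  · intro f g hf hg
    exact Submodule.add_mem _ hf hg
  · intro c f hf
    exact Submodule.smul_mem _ c hf

theorem tp_conj {R : ℕ} {f : ℝ → ℂ} (hf : f ∈ TPs R) : (fun θ => conj (f θ)) ∈ TPs R := by
  refine ind (P := fun f : ℝ → ℂ => (fun θ => conj (f θ)) ∈ TPs R) ?_ ?_ ?_ ?_ hf
  · intro m hm
    have h := gen (R := R) (-m) (by rwa [abs_neg])
    convert h using 1
    funext θ
    rw [← Complex.exp_conj]
    congr 1
    simp
  · have h : (fun θ : ℝ => conj ((0 : ℝ → ℂ) θ)) = 0 := by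
      funext θ
      simp
    rw [h]
    exact Submodule.zero_mem _
  · intro f g hf hg
    have h := Submodule.add_mem _ hf hg
    convert h using 1
    funext θ
    simp only [Pi.add_apply, map_add]
  · intro c f hf
    have h := Submodule.smul_mem _ (conj c) hf
    convert h using 1
    funext θ
    simp only [Pi.smul_apply, smul_eq_mul, map_mul]

theorem tp_exp (R : ℕ) (m : ℤ) (hm : |m| ≤ (R : ℤ)) :
    (fun θ : ℝ => Complex.exp (m * θ * Complex.I)) ∈ TPs R := gen m hm

theorem tp_const (R : ℕ) (c : ℂ) : (fun _ : ℝ => c) ∈ TPs R := by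
  have h := Submodule.smul_mem (TPs R) c (gen (R := R) 0 (by simp))
  convert h using 1
  funext θ
  simp

private theorem sum_mem_tp (R : ℕ) (c : ℤ → ℂ) :
    (fun θ : ℝ => ∑ m ∈ Finset.Icc (-(R : ℤ)) R, c m * Complex.exp (m * θ * Complex.I)) ∈
      TPs R := by
  have h := Submodule.sum_mem (TPs R) (t := Finset.Icc (-(R : ℤ)) R)
    (f := fun m => c m • fun θ : ℝ => Complex.exp ((m : ℂ) * (θ : ℂ) * Complex.I))
    (fun m hm => Submodule.smul_mem _ _ (gen m (abs_le.2 (Finset.mem_Icc.1 hm))))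
  convert h using 1
  funext θ
  rw [Finset.sum_apply]
  rfl

private theorem orth (R : ℕ) {k m : ℤ} (hk : |k| ≤ (R : ℤ)) (hm : |m| ≤ (R : ℤ)) :
    ∑ j ∈ Finset.range (2 * R + 1),
      Complex.exp ((k : ℂ) * ((2 * Real.pi * j / (2 * R + 1) : ℝ) : ℂ) * Complex.I) *
      Complex.exp (-(m * (2 * Real.pi * j / (2 * R + 1)) * Complex.I)) =
      if m = k then (2 * R + 1 : ℂ) else 0 := by
  have hN : ((2 : ℂ) * R + 1) ≠ 0 := by
    have : ((2 * R + 1 : ℕ) : ℂ) ≠ 0 := Nat.cast_ne_zero.2 (by omega)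
    push_cast at this
    exact this
  have h1 : ∀ j ∈ Finset.range (2 * R + 1),
      Complex.exp ((k : ℂ) * ((2 * Real.pi * j / (2 * R + 1) : ℝ) : ℂ) * Complex.I) *
      Complex.exp (-(m * (2 * Real.pi * j / (2 * R + 1)) * Complex.I)) =
      (Complex.exp (((k - m : ℤ) : ℂ) * (2 * Real.pi * Complex.I) / (2 * R + 1))) ^ j := by
    intro j _
    rw [← Complex.exp_add, ← Complex.exp_nat_mul]
    congr 1
    push_cast
    field_simp
    ring
  rw [Finset.sum_congr rfl h1]
  by_cases h : m = k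
  · rw [if_pos h, h]
    simp
  · rw [if_neg h]
    have hζ : Complex.exp (((k - m : ℤ) : ℂ) * (2 * Real.pi * Complex.I) / (2 * R + 1)) ≠ 1 := by
      intro he
      rw [Complex.exp_eq_one_iff] at he
      obtain ⟨n, hn⟩ := he
      have h2πi : (2 * Real.pi * Complex.I : ℂ) ≠ 0 := Complex.two_pi_I_ne_zero
      have h3 : ((k - m : ℤ) : ℂ) = n * (2 * R + 1) := by
        rw [div_eq_iff hN] at hn
        have h4 : ((k - m : ℤ) : ℂ) * (2 * Real.pi * Complex.I) =
            (n * (2 * R + 1)) * (2 * Real.pi * Complex.I) := by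
          rw [hn]; ring
        exact mul_right_cancel₀ h2πi h4
      have h5 : k - m = n * (2 * R + 1) := by exact_mod_cast h3
      have h6 := abs_le.1 hk
      have h7 := abs_le.1 hm
      have h8 : n ≠ 0 := by
        rintro rfl
        apply h
        omega
      rcases lt_or_gt_of_ne h8 with h9 | h9
      · nlinarith [h6.1, h6.2, h7.1, h7.2]
      · nlinarith [h6.1, h6.2, h7.1, h7.2]
    rw [geom_sum_eq hζ, ← Complex.exp_nat_mul]
    have h10 : Complex.exp (((2 * R + 1 : ℕ) : ℂ) *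
        (((k - m : ℤ) : ℂ) * (2 * Real.pi * Complex.I) / (2 * R + 1))) = 1 := by
      rw [Complex.exp_eq_one_iff]
      refine ⟨k - m, ?_⟩
      push_cast
      field_simp
    rw [h10, sub_self, zero_div]

/-- finite sum form with the discrete Fourier coefficients -/
theorem tp_coeff {R : ℕ} {f : ℝ → ℂ} (hf : f ∈ TPs R) (θ : ℝ) :
    f θ = ∑ m ∈ Finset.Icc (-(R : ℤ)) R, ((1 / (2 * R + 1) : ℂ) * ∑ j ∈ Finset.range (2 * R + 1),
      f (2 * Real.pi * j / (2 * R + 1)) * Complex.exp (-(m * (2 * Real.pi * j / (2 * R + 1)) * Complex.I))) *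
        Complex.exp (m * θ * Complex.I) := by
  have hN : ((2 : ℂ) * R + 1) ≠ 0 := by
    have : ((2 * R + 1 : ℕ) : ℂ) ≠ 0 := Nat.cast_ne_zero.2 (by omega)
    push_cast at this
    exact this
  refine ind (P := fun f : ℝ → ℂ => f θ = ∑ m ∈ Finset.Icc (-(R : ℤ)) R,
    ((1 / (2 * R + 1) : ℂ) * ∑ j ∈ Finset.range (2 * R + 1),
      f (2 * Real.pi * j / (2 * R + 1)) * Complex.exp (-(m * (2 * Real.pi * j / (2 * R + 1)) * Complex.I))) *
        Complex.exp (m * θ * Complex.I)) ?_ ?_ ?_ ?_ hf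
  · intro k hk
    show Complex.exp ((k : ℂ) * (θ : ℂ) * Complex.I) = _
    rw [Finset.sum_eq_single k]
    · rw [orth R hk hk, if_pos rfl]
      field_simp
    · intro m hm hmk
      rw [orth R hk (abs_le.2 (Finset.mem_Icc.1 hm)), if_neg hmk]
      ring
    · intro h
      exact absurd (Finset.mem_Icc.2 (abs_le.1 hk)) h
  · simp
  · intro f g hf hg
    rw [Pi.add_apply, hf, hg, ← Finset.sum_add_distrib]
    refine Finset.sum_congr rfl fun m _ => ?_
    simp only [Pi.add_apply, add_mul, Finset.sum_add_distrib, mul_add]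
  · intro c f hf
    rw [Pi.smul_apply, hf, smul_eq_mul, Finset.mul_sum]
    refine Finset.sum_congr rfl fun m _ => ?_
    have h1 : ∑ j ∈ Finset.range (2 * R + 1), (c • f) (2 * Real.pi * j / (2 * R + 1)) *
        Complex.exp (-(m * (2 * Real.pi * j / (2 * R + 1)) * Complex.I)) =
        c * ∑ j ∈ Finset.range (2 * R + 1), f (2 * Real.pi * j / (2 * R + 1)) *
        Complex.exp (-(m * (2 * Real.pi * j / (2 * R + 1)) * Complex.I)) := by
      rw [Finset.mul_sum]
      refine Finset.sum_congr rfl fun j _ => ?_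
      rw [Pi.smul_apply, smul_eq_mul]
      ring
    rw [h1]
    ring

private def cf (R : ℕ) (f : ℝ → ℂ) (m : ℤ) : ℂ :=
  (1 / (2 * R + 1) : ℂ) * ∑ j ∈ Finset.range (2 * R + 1),
      f (2 * Real.pi * j / (2 * R + 1)) * Complex.exp (-(m * (2 * Real.pi * j / (2 * R + 1)) * Complex.I))

private theorem norm_e (m : ℤ) (θ : ℝ) : ‖Complex.exp ((m : ℂ) * (θ : ℂ) * Complex.I)‖ = 1 := by
  have : (m : ℂ) * (θ : ℂ) * Complex.I = ((m * θ : ℝ) : ℂ) * Complex.I := by push_cast; ring
  rw [this, Complex.norm_exp_ofReal_mul_I]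

private theorem norm_e' (R : ℕ) (m : ℤ) (j : ℕ) :
    ‖Complex.exp (-(m * (2 * Real.pi * j / (2 * R + 1)) * Complex.I))‖ = 1 := by
  have : -((m : ℂ) * (2 * Real.pi * j / (2 * R + 1)) * Complex.I) =
      ((-(m * (2 * Real.pi * j / (2 * R + 1))) : ℝ) : ℂ) * Complex.I := by push_cast; ring
  rw [this, Complex.norm_exp_ofReal_mul_I]

private theorem cf_bound (R : ℕ) (f : ℝ → ℂ) (A : ℝ) (hA : ∀ θ, ‖f θ‖ ≤ A) (m : ℤ) :
    ‖cf R f m‖ ≤ A := by
  unfold cf
  rw [norm_mul]
  have h1 : ‖(1 / (2 * R + 1) : ℂ)‖ = 1 / (2 * R + 1) := by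
    have : (1 / (2 * R + 1) : ℂ) = ((1 / (2 * R + 1) : ℝ) : ℂ) := by push_cast; ring
    rw [this, Complex.norm_real, Real.norm_of_nonneg (by positivity)]
  have h2 : ‖∑ j ∈ Finset.range (2 * R + 1), f (2 * Real.pi * j / (2 * R + 1)) *
      Complex.exp (-(m * (2 * Real.pi * j / (2 * R + 1)) * Complex.I))‖ ≤ (2 * R + 1) * A := by
    refine (norm_sum_le _ _).trans ?_
    have h3 : ∀ j ∈ Finset.range (2 * R + 1), ‖f (2 * Real.pi * j / (2 * R + 1)) *
      Complex.exp (-(m * (2 * Real.pi * j / (2 * R + 1)) * Complex.I))‖ ≤ A := by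
      intro j _
      rw [norm_mul, norm_e', mul_one]
      exact hA _
    refine (Finset.sum_le_card_nsmul _ _ _ h3).trans ?_
    rw [Finset.card_range, nsmul_eq_mul]
    push_cast
    exact le_rfl
  rw [h1]
  have hpos : (0 : ℝ) < 2 * R + 1 := by positivity
  calc 1 / (2 * (R : ℝ) + 1) * _ ≤ 1 / (2 * (R : ℝ) + 1) * ((2 * R + 1) * A) :=
        mul_le_mul_of_nonneg_left h2 (by positivity)
    _ = A := by field_simp

theorem tp_der {R : ℕ} {f : ℝ → ℂ} (hf : f ∈ TPs R) (A : ℝ) (hA : ∀ θ, ‖f θ‖ ≤ A) :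
    ∃ f' : ℝ → ℂ, f' ∈ TPs R ∧ (∀ θ, HasDerivAt f (f' θ) θ) ∧
      ∀ θ, ‖f' θ‖ ≤ (2 * R + 1) * R * A := by
  have hA0 : 0 ≤ A := (norm_nonneg _).trans (hA 0)
  refine ⟨fun θ => ∑ m ∈ Finset.Icc (-(R : ℤ)) R, (cf R f m * (m * Complex.I)) *
    Complex.exp (m * θ * Complex.I), sum_mem_tp R _, ?_, ?_⟩
  · intro θ
    have hfe : f = fun θ : ℝ => ∑ m ∈ Finset.Icc (-(R : ℤ)) R, cf R f m *
        Complex.exp (m * θ * Complex.I) := funext fun θ => tp_coeff hf θ
    have h1 : ∀ m ∈ Finset.Icc (-(R : ℤ)) R, HasDerivAt (fun θ : ℝ => cf R f m *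
        Complex.exp (m * θ * Complex.I)) ((cf R f m * (m * Complex.I)) *
          Complex.exp (m * θ * Complex.I)) θ := by
      intro m _
      have h2 : HasDerivAt (fun θ : ℝ => (m : ℂ) * (θ : ℂ) * Complex.I) (m * Complex.I) θ := by
        have := ((Complex.ofRealCLM.hasDerivAt (x := θ)).const_mul (m : ℂ)).mul_const Complex.I
        simpa using this
      refine ((h2.cexp).const_mul (cf R f m)).congr_deriv ?_
      ring
    have h3 := HasDerivAt.fun_sum h1
    rw [← hfe] at h3
    exact h3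
  · intro θ
    refine (norm_sum_le _ _).trans ?_
    have h3 : ∀ m ∈ Finset.Icc (-(R : ℤ)) (R : ℤ), ‖(cf R f m * (m * Complex.I)) *
        Complex.exp (m * θ * Complex.I)‖ ≤ R * A := by
      intro m hm
      rw [norm_mul, norm_e, mul_one, norm_mul, norm_mul, Complex.norm_I, mul_one,
        Complex.norm_intCast]
      have h4 : |(m : ℝ)| ≤ R := by
        have := abs_le.2 (Finset.mem_Icc.1 hm)
        exact_mod_cast this
      calc ‖cf R f m‖ * |(m : ℝ)| ≤ A * R :=
            mul_le_mul (cf_bound R f A hA m) h4 (abs_nonneg _) hA0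
        _ = R * A := mul_comm _ _
    refine (Finset.sum_le_card_nsmul _ _ _ h3).trans ?_
    rw [Int.card_Icc, nsmul_eq_mul]
    have h5 : ((((R : ℤ) + 1 - -(R : ℤ)).toNat : ℕ) : ℝ) = 2 * R + 1 := by
      have : ((R : ℤ) + 1 - -(R : ℤ)).toNat = 2 * R + 1 := by omega
      rw [this]
      push_cast
      ring
    rw [h5]
    apply le_of_eq
    ring

/-- an integral of trigonometric polynomials is a trigonometric polynomial -/
theorem tp_int {R : ℕ} {Z : Type*} [MeasurableSpace Z] (μ : Measure Z) (F : Z → ℝ → ℂ)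
    (hF : ∀ z, F z ∈ TPs R) (hi : ∀ θ, Integrable (fun z => F z θ) μ) :
    (fun θ => ∫ z, F z θ ∂μ) ∈ TPs R := by
  have hci : ∀ m : ℤ, Integrable (fun z => cf R (F z) m) μ := by
    intro m
    unfold cf
    refine Integrable.const_mul (integrable_finset_sum _ fun j _ => ?_) _
    exact (hi _).mul_const _
  have h := sum_mem_tp R (fun m => ∫ z, cf R (F z) m ∂μ)
  convert h using 1
  funext θ
  have h1 : ∀ z, F z θ = ∑ m ∈ Finset.Icc (-(R : ℤ)) R, cf R (F z) m *
      Complex.exp (m * θ * Complex.I) := fun z => tp_coeff (hF z) θ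
  simp only [h1]
  rw [integral_finset_sum _ fun m _ => (hci m).mul_const _]
  exact Finset.sum_congr rfl fun m _ => integral_mul_const _ _

/-- pointwise limits -/
theorem tp_lim {R : ℕ} (F : ℕ → ℝ → ℂ) (f : ℝ → ℂ) (hF : ∀ k, F k ∈ TPs R)
    (h : ∀ θ, Tendsto (fun k => F k θ) atTop (𝓝 (f θ))) : f ∈ TPs R := by
  have h1 := sum_mem_tp R (fun m => cf R f m)
  convert h1 using 1
  funext θ
  refine tendsto_nhds_unique (h θ) ?_
  have h2 : (fun k => F k θ) = fun k => ∑ m ∈ Finset.Icc (-(R : ℤ)) R, cf R (F k) m *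
      Complex.exp (m * θ * Complex.I) := funext fun k => tp_coeff (hF k) θ
  rw [h2]
  refine tendsto_finset_sum _ fun m _ => Tendsto.mul_const _ ?_
  unfold cf
  refine Tendsto.const_mul _ (tendsto_finset_sum _ fun j _ => Tendsto.mul_const _ (h _))

end

end Pool.Agent.Work.MP_dd0ddf_al.CW
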