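import Pool.Agent.Work.MP_dd0ddf_al.CW.Defs
import Pool.Agent.Work.MP_dd0ddf_al.CW.Cug
import Pool.Agent.Work.MP_dd0ddf_al.CW.Cirg
import Pool.Agent.Work.MP_dd0ddf_al.CW.Tpf

/-!
# the spaces SU n R are finite dimensional, of polynomially bounded dimension

PROOF. Let vs (length N) be the list of `cirg`.  For f in SU n R the function F(theta_1, ..., theta_N) = f(prod cu v_j theta_j) is, in each variable separately, in TPs R: theta_j -> f(a cu v_j theta_j b) with b fixed:
cu v theta b = b cu (b^-1 v) theta (`cu_conj`), so it is theta -> f((a b) cu (b^-1 v) theta), in TPs R by definition of SU.  A function of N variables which is in TPs R in each variable is determined by its values on the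
grid (2 pi j/(2R+1))^N (induction on N with `tp_coeff`: a function in TPs R vanishing at the 2R+1 points vanishes).  So f -> (values at the (2R+1)^N products) is linear and injective on SU n R (vs covers U(n)).
Invariances: left translation f(a x cu v theta) trivial; right translation: f(x cu v theta a) = f(x a cu (a^-1 v) theta); inverse: f((x cu v theta)^-1) = f(cu v (-theta) x^-1) = f(x^-1 cu (x v) (-theta)); conj, product: `tp_conj`, `tp_mul`.
-/

set_option linter.unusedSectionVars false

namespace Pool.Agent.Work.MP_dd0ddf_al.CW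

open scoped Matrix.Norms.Elementwise ComplexConjugate ContDiff Topology
open Matrix MeasureTheory Filter
open Pool.Agent.Work.MP_dd0ddf_al.AR

noncomputable section

variable {n : ℕ}

private theorem move_right (b : UU n) (v : Fin n → ℂ) (θ : ℝ) :
    cu v θ * b = b * cu (((b⁻¹ : UU n) : Mat n) *ᵥ v) θ := by
  rw [← cu_conj b⁻¹ v θ]
  group

private theorem vanish {R : ℕ} {g : ℝ → ℂ} (hg : g ∈ TPs R)
    (h : ∀ j : ℕ, j < 2 * R + 1 → g (2 * Real.pi * j / (2 * R + 1)) = 0) (θ : ℝ) : g θ = 0 := by
  rw [tp_coeff hg θ]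
  apply Finset.sum_eq_zero
  intro m _
  rw [Finset.sum_eq_zero, mul_zero, zero_mul]
  intro j hj
  rw [h j (Finset.mem_range.mp hj), zero_mul]

private theorem grid_vanish {R : ℕ} {f : UU n → ℂ} (hf : f ∈ SU n R) (vs : List (Fin n → ℂ))
    (hvs : ∀ v ∈ vs, uni v) : ∀ a : UU n,
    (∀ js : List ℕ, js.length = vs.length → (∀ j ∈ js, j < 2 * R + 1) →
      f (a * ((vs.zip (js.map fun j : ℕ => (2 * Real.pi * (j : ℝ) / (2 * R + 1) : ℝ))).map
        fun p => cu p.1 p.2).prod) = 0) →
    ∀ θ : List ℝ, θ.length = vs.length → f (a * ((vs.zip θ).map fun p => cu p.1 p.2).prod) = 0 := by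
  induction vs with
  | nil =>
    intro a h θ hθ
    have := h [] rfl (by simp)
    simpa using this
  | cons v vs ih =>
    intro a h θ hθ
    cases θ with
    | nil => simp at hθ
    | cons t θ =>
      have hlen : θ.length = vs.length := by simpa using hθ
      have hv : uni v := hvs v (by simp)
      have hvs' : ∀ w ∈ vs, uni w := fun w hw => hvs w (by simp [hw])
      set b : UU n := ((vs.zip θ).map fun p => cu p.1 p.2).prod with hb
      have key : ∀ s : ℝ, f (a * (cu v s * b)) =
          (fun θ : ℝ => f (a * b * cu (((b⁻¹ : UU n) : Mat n) *ᵥ v) θ)) s := by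
        intro s
        simp only
        rw [move_right b v s, mul_assoc]
      have htp : (fun θ : ℝ => f (a * b * cu (((b⁻¹ : UU n) : Mat n) *ᵥ v) θ)) ∈ TPs R :=
        hf.2 (a * b) _ (uni_conj _ _ hv)
      have hz : ∀ j : ℕ, j < 2 * R + 1 →
          (fun θ : ℝ => f (a * b * cu (((b⁻¹ : UU n) : Mat n) *ᵥ v) θ))
            (2 * Real.pi * j / (2 * R + 1)) = 0 := by
        intro j hj
        rw [← key, ← mul_assoc]
        apply ih hvs' (a * cu v (2 * Real.pi * j / (2 * R + 1)))
        · intro js hjs hjs'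
          have := h (j :: js) (by simp [hjs]) (by
            intro k hk
            rcases List.mem_cons.mp hk with rfl | hk
            · exact hj
            · exact hjs' k hk)
          simpa [mul_assoc] using this
        · exact hlen
      have h3 : f (a * (cu v t * b)) = 0 := by
        rw [key]
        exact vanish htp hz t
      simpa [hb] using h3

private def gp (vs : List (Fin n → ℂ)) (R : ℕ) (J : Fin vs.length → Fin (2 * R + 1)) : UU n :=
  ((vs.zip ((List.ofFn fun i => (J i : ℕ)).map
    fun j : ℕ => (2 * Real.pi * (j : ℝ) / (2 * R + 1) : ℝ))).map fun p => cu p.1 p.2).prod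

private def ev (vs : List (Fin n → ℂ)) (R : ℕ) :
    SU n R →ₗ[ℂ] ((Fin vs.length → Fin (2 * R + 1)) → ℂ) where
  toFun f := fun J => (f : UU n → ℂ) (gp vs R J)
  map_add' := by
    intro f g
    rfl
  map_smul' := by
    intro c f
    rfl

theorem suf (n : ℕ) : ∃ N : ℕ, ∀ R : ℕ, FiniteDimensional ℂ (SU n R) ∧
    Module.finrank ℂ (SU n R) ≤ (2 * R + 1) ^ N := by
  obtain ⟨vs, hvs, hcov⟩ := cirg n
  refine ⟨vs.length, fun R => ?_⟩
  have hinj : Function.Injective (ev vs R) := by
    rw [← LinearMap.ker_eq_bot, LinearMap.ker_eq_bot']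
    intro f hf
    have h0 : ∀ J, (f : UU n → ℂ) (gp vs R J) = 0 := fun J => congrFun hf J
    apply Subtype.ext
    funext k
    obtain ⟨θ, hθ, hk⟩ := hcov k
    have := grid_vanish f.2 vs hvs 1 (by
      intro js hjs hjs'
      have h1 := h0 (fun i => ⟨js[(i : ℕ)]'(by rw [hjs]; exact i.2),
        hjs' _ (List.getElem_mem _)⟩)
      unfold gp at h1
      have h2 : (List.ofFn fun i : Fin vs.length => js[(i : ℕ)]'(by rw [hjs]; exact i.2)) = js := by
        apply List.ext_getElem
        · simp [hjs]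
        · intro i hi hi'
          simp
      simp only at h1
      rw [h2] at h1
      rw [one_mul]
      exact h1) θ hθ
    rw [one_mul] at this
    rw [hk]
    exact this
  have hfd : FiniteDimensional ℂ (SU n R) := FiniteDimensional.of_injective (ev vs R) hinj
  refine ⟨hfd, ?_⟩
  have := LinearMap.finrank_le_finrank_of_injective hinj
  simpa using this

instance suf_fd (n R : ℕ) : FiniteDimensional ℂ (SU n R) := by
  obtain ⟨N, hN⟩ := suf n
  exact (hN R).1

theorem su_left (R : ℕ) (f : UU n → ℂ) (hf : f ∈ SU n R) (a : UU n) :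
    (fun x => f (a * x)) ∈ SU n R := by
  refine ⟨hf.1.comp (continuous_const.mul continuous_id), fun x v hv => ?_⟩
  have := hf.2 (a * x) v hv
  simpa [mul_assoc] using this

theorem su_right (R : ℕ) (f : UU n → ℂ) (hf : f ∈ SU n R) (a : UU n) :
    (fun x => f (x * a)) ∈ SU n R := by
  refine ⟨hf.1.comp (continuous_id.mul continuous_const), fun x v hv => ?_⟩
  have := hf.2 (x * a) _ (uni_conj a⁻¹ v hv)
  have h2 : (fun θ : ℝ => f (x * cu v θ * a)) =
      fun θ : ℝ => f (x * a * cu (((a⁻¹ : UU n) : Mat n) *ᵥ v) θ) := by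
    funext θ
    rw [mul_assoc, move_right a v θ, mul_assoc]
  simp only
  rw [h2]
  exact this

theorem su_inv (R : ℕ) (f : UU n → ℂ) (hf : f ∈ SU n R) : (fun x => f x⁻¹) ∈ SU n R := by
  refine ⟨hf.1.comp continuous_inv, fun x v hv => ?_⟩
  have := tp_neg (hf.2 x⁻¹ _ (uni_conj x v hv))
  have hneg : ∀ θ : ℝ, (cu v θ)⁻¹ = cu v (-θ) := by
    intro θ
    rw [inv_eq_iff_mul_eq_one, ← cu_add, add_neg_cancel, cu_zero]
  have h2 : (fun θ : ℝ => f (x * cu v θ)⁻¹) =
      fun θ : ℝ => f (x⁻¹ * cu ((x : Mat n) *ᵥ v) (-θ)) := by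
    funext θ
    rw [_root_.mul_inv_rev, hneg, ← cu_conj x v (-θ)]
    congr 1
    group
  simp only
  rw [h2]
  exact this

theorem su_conj (R : ℕ) (f : UU n → ℂ) (hf : f ∈ SU n R) : (fun x => conj (f x)) ∈ SU n R :=
  ⟨Complex.continuous_conj.comp hf.1, fun x v hv => tp_conj (hf.2 x v hv)⟩

theorem su_mul (R S : ℕ) (f g : UU n → ℂ) (hf : f ∈ SU n R) (hg : g ∈ SU n S) :
    (fun x => f x * g x) ∈ SU n (R + S) :=
  ⟨hf.1.mul hg.1, fun x v hv => tp_mul (hf.2 x v hv) (hg.2 x v hv)⟩

theorem su_mono {R S : ℕ} (h : R ≤ S) : SU n R ≤ SU n S :=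
  fun _ hf => ⟨hf.1, fun x v hv => TPs_mono h (hf.2 x v hv)⟩

/-- matrix entries have frequency at most 1 -/
theorem su_entry (i j : Fin n) : (fun x : UU n => (x : Mat n) i j) ∈ SU n 1 := by
  refine ⟨?_, fun x v hv => ?_⟩
  · exact (continuous_apply_apply i j).comp continuous_subtype_val
  · have h2 : (fun θ : ℝ => ((x * cu v θ : UU n) : Mat n) i j) =
        (((x : Mat n) i j - ((x : Mat n) * Matrix.vecMulVec v (star v)) i j) •
          (fun _ : ℝ => (1 : ℂ))) +
        ((x : Mat n) * Matrix.vecMulVec v (star v)) i j •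
          (fun θ : ℝ => Complex.exp (((1 : ℤ) : ℂ) * (θ : ℂ) * Complex.I)) := by
      funext θ
      have : ((x * cu v θ : UU n) : Mat n) = (x : Mat n) * ((cu v θ : UU n) : Mat n) := rfl
      rw [this, cu_eq v hv, mul_add, mul_one, Matrix.mul_smul]
      simp only [Matrix.add_apply, Matrix.smul_apply, Pi.add_apply, Pi.smul_apply, smul_eq_mul,
        Int.cast_one, one_mul, mul_one]
      ring
    simp only
    rw [h2]
    exact (TPs 1).add_mem ((TPs 1).smul_mem _ (tp_const 1 1))
      ((TPs 1).smul_mem _ (tp_exp 1 1 (by simp)))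

end

end Pool.Agent.Work.MP_dd0ddf_al.CW
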