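import Pool.Agent.Work.MP_dd0ddf_al.CW.Defs

/-!
# Hahn-Banach for a continuous seminorm

PROOF. Real Hahn-Banach (`exists_extension_of_le_sublinear`) on the real span of x, functional t x -> t p(x), dominated by p: a real linear g <= p with g x = p x, |g| <= p (p(-y) = p y).
Complexify: l y = g y - i g(i y) (`LinearMap.extendTo𝕜'` / `Module.Dual.extendRCLike`), |l y| <= p y (choose the phase: |l y| = l(c y) = g(c y) <= p(c y) = p y, |c| = 1), Re l x = g x = p x and |l x| <= p x give
l x = p x.  Continuity: |l| <= p, p continuous, p 0 = 0 (`Seminorm` continuity, `AddMonoidHom` continuous at 0).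
Second statement: IsFre gives seminorms p_k generating the topology (`WithSeminorms`); if x /= 0 some p_k x /= 0 (T2), p_k is continuous.
-/

set_option linter.unusedSectionVars false

namespace Pool.Agent.Work.MP_dd0ddf_al.CW

open scoped Matrix.Norms.Elementwise ComplexConjugate ContDiff Topology
open Matrix MeasureTheory Filter
open Pool.Agent.Work.MP_dd0ddf_al.AR

noncomputable section

theorem hba {X : Type*} [AddCommGroup X] [Module ℂ X] [TopologicalSpace X]
    [IsTopologicalAddGroup X] [ContinuousSMul ℂ X] (p : Seminorm ℂ X) (hp : Continuous p) (x : X) :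
    ∃ l : X →L[ℂ] ℂ, (∀ y, ‖l y‖ ≤ p y) ∧ l x = p x := by
  have hcont : ∀ g : X →ₗ[ℂ] ℂ, (∀ y, ‖g y‖ ≤ p y) → Continuous g := by
    intro g hg
    have h0 : ContinuousAt g 0 := by
      unfold ContinuousAt
      rw [map_zero]
      refine squeeze_zero_norm hg ?_
      have := hp.tendsto 0
      rwa [map_zero] at this
    exact continuous_of_continuousAt_zero g h0
  rcases eq_or_ne x 0 with rfl | hx
  · exact ⟨0, fun y => by simp, by simp⟩
  · set φ : (Submodule.span ℂ {x} : Submodule ℂ X) →ₗ[ℂ] ℂ :=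
      ((p x : ℝ) : ℂ) • ((LinearEquiv.toSpanNonzeroSingleton ℂ X x hx).symm :
        (Submodule.span ℂ {x} : Submodule ℂ X) →ₗ[ℂ] ℂ) with hφ
    have hφv : ∀ c : ℂ, ∀ hc : c • x ∈ (Submodule.span ℂ {x} : Submodule ℂ X),
        φ ⟨c • x, hc⟩ = (p x : ℂ) * c := by
      intro c hc
      have h1 : (LinearEquiv.toSpanNonzeroSingleton ℂ X x hx).symm ⟨c • x, hc⟩ = c := by
        rw [LinearEquiv.symm_apply_eq]
        ext
        simp
      simp only [hφ, LinearMap.smul_apply, LinearEquiv.coe_coe, smul_eq_mul]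
      rw [h1]
    have hle : ∀ y : (Submodule.span ℂ {x} : Submodule ℂ X), ‖φ y‖ ≤ p y := by
      rintro ⟨y, hy⟩
      obtain ⟨c, rfl⟩ := Submodule.mem_span_singleton.mp hy
      rw [hφv c hy]
      have h2 : p (c • x) = ‖c‖ * p x := map_smul_eq_mul p c x
      simp only [norm_mul, Complex.norm_real, Real.norm_eq_abs, abs_of_nonneg (apply_nonneg p x)]
      rw [h2, mul_comm]
    obtain ⟨g, hg1, hg2⟩ := Module.Dual.exists_extension_of_le_seminorm
      (Submodule.span ℂ {x}) φ hle
    refine ⟨⟨g, hcont g hg2⟩, hg2, ?_⟩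
    have h3 : (1 : ℂ) • x ∈ (Submodule.span ℂ {x} : Submodule ℂ X) :=
      Submodule.smul_mem _ _ (Submodule.mem_span_singleton_self x)
    have h4 := hg1 ⟨(1 : ℂ) • x, h3⟩
    rw [hφv 1 h3] at h4
    simp only [one_smul, mul_one] at h4
    exact h4

theorem hsep {X : Type*} [AddCommGroup X] [Module ℂ X] [UniformSpace X] [IsUniformAddGroup X]
    [ContinuousSMul ℂ X] [T2Space X] [IsFre X] (x : X) (h : ∀ l : X →L[ℂ] ℂ, l x = 0) : x = 0 := by
  by_contra hx
  obtain ⟨p, hp⟩ := (IsFre.ex : ∃ p : ℕ → Seminorm ℂ X, WithSeminorms p)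
  obtain ⟨i, hi⟩ := hp.separating_of_T1 x hx
  obtain ⟨l, _, hl⟩ := hba (p i) (hp.continuous_seminorm i) x
  rw [h l] at hl
  exact hi (by exact_mod_cast hl.symm)

end

end Pool.Agent.Work.MP_dd0ddf_al.CW
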