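import Pool.Agent.Work.MP_dd0ddf_al.CW.Defs
import Pool.Agent.Work.MP_dd0ddf_al.CW.Hba

/-!
# integrals of continuous compactly supported functions with values in a Frechet space

PROOF. Let p_k, k in N, be the seminorms of IsFre, q_j = max of p_0..p_j (continuous).  S = tsupport f compact, mu(S) < oo.  For each j: the open sets {g : q_j(f g - f g0) < 1/(j+1)}, g0 in S, cover S; a finite subcover
made disjoint gives finitely many disjoint Borel sets A_(j,i) covering S with points g_(j,i) such that q_j(f g - f g_(j,i)) <= 1/(j+1) on A_(j,i).  Put s_j = sum_i mu(A_(j,i) inter S) f(g_(j,i)).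
For j <= k: q_j(s_j - s_k) <= sum_(i,i') mu(A_(j,i) inter A_(k,i') inter S) q_j(f(g_(j,i)) - f(g_(k,i'))) <= mu(S) (1/(j+1) + 1/(k+1)) (nonempty intersections; q_j <= q_k).  So (s_j) is Cauchy (uniformity given by
the seminorms), s_j -> x.  For l continuous linear: |l| <= C q_j0 for some j0 (`WithSeminorms`, `Seminorm.bound_of_continuous`), and for j >= j0
|l(s_j) - int l(f)| <= C mu(S) /(j+1) -> 0.  Hence l x = int l(f g) dmu (f = 0 off S).  The bound: `hba` gives l with |l| <= p, l x = p x, so p x = |int l(f)| <= int p(f g) dmu.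
(l o f and p o f are continuous with compact support, so integrable.)
-/

set_option linter.unusedSectionVars false

namespace Pool.Agent.Work.MP_dd0ddf_al.CW

open scoped Matrix.Norms.Elementwise ComplexConjugate ContDiff Topology
open Matrix MeasureTheory Filter
open Pool.Agent.Work.MP_dd0ddf_al.AR

noncomputable section

private theorem tendsto_const_div_add_atTop_nhds_zero_nat' (C : ℝ) :
    Tendsto (fun n : ℕ => C / ((n : ℝ) + 1)) atTop (𝓝 0) := by
  have h := (tendsto_one_div_add_atTop_nhds_zero_nat (𝕜 := ℝ)).const_mul C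
  rw [mul_zero] at h
  refine h.congr fun n => ?_
  ring

private theorem vin_int {G : Type*} [TopologicalSpace G] [MeasurableSpace G] [BorelSpace G]
    (μ : Measure G) [IsFiniteMeasureOnCompacts μ]
    {X : Type*} [AddCommGroup X] [Module ℂ X] [UniformSpace X] [IsUniformAddGroup X]
    [ContinuousSMul ℂ X] (f : G → X) (hf : Continuous f) (hc : HasCompactSupport f)
    (l : X →L[ℂ] ℂ) : Integrable (fun g => l (f g)) μ :=
  (l.continuous.comp hf).integrable_of_hasCompactSupport (hc.comp_left (map_zero l))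

/-- approximation of the integral by a finite sum -/
private theorem vin_key {G : Type*} [TopologicalSpace G] [MeasurableSpace G] [BorelSpace G]
    (μ : Measure G) [IsFiniteMeasureOnCompacts μ]
    {X : Type*} [AddCommGroup X] [Module ℂ X] [UniformSpace X] [IsUniformAddGroup X]
    [ContinuousSMul ℂ X] (f : G → X) (hf : Continuous f) (hc : HasCompactSupport f)
    (q : Seminorm ℂ X) (hq : Continuous q) {ε : ℝ} (hε : 0 < ε) :
    ∃ s : X, ∀ (l : X →L[ℂ] ℂ) (C : ℝ), 0 ≤ C → (∀ x, ‖l x‖ ≤ C * q x) →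
      ‖l s - ∫ g, l (f g) ∂μ‖ ≤ C * ε * (μ (tsupport f)).toReal := by
  have hfin : μ (tsupport f) < ⊤ := (show IsCompact (tsupport f) from hc).measure_lt_top
  have hP : ∃ T' : Set G, tsupport f ⊆ T' ∧ MeasurableSet T' ∧ ∀ A ⊆ T', MeasurableSet A →
      A ⊆ tsupport f → ∃ s : X, ∀ (l : X →L[ℂ] ℂ) (C : ℝ), 0 ≤ C → (∀ x, ‖l x‖ ≤ C * q x) →
      ‖l s - ∫ g in A, l (f g) ∂μ‖ ≤ C * ε * (μ A).toReal := by
    refine IsCompact.induction_on (s := tsupport f) hc
      (p := fun T => ∃ T' : Set G, T ⊆ T' ∧ MeasurableSet T' ∧ ∀ A ⊆ T', MeasurableSet A →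
      A ⊆ tsupport f → ∃ s : X, ∀ (l : X →L[ℂ] ℂ) (C : ℝ), 0 ≤ C → (∀ x, ‖l x‖ ≤ C * q x) →
      ‖l s - ∫ g in A, l (f g) ∂μ‖ ≤ C * ε * (μ A).toReal) ?_ ?_ ?_ ?_
    · refine ⟨∅, Set.Subset.rfl, MeasurableSet.empty, fun A hA _ _ => ⟨0, fun l C _ _ => ?_⟩⟩
      rw [Set.subset_empty_iff.1 hA]
      simp
    · rintro s t hst ⟨T', h1, h2⟩
      exact ⟨T', hst.trans h1, h2⟩
    · rintro s t ⟨T1, a1, m1, h1⟩ ⟨T2, a2, m2, h2⟩
      refine ⟨T1 ∪ T2, Set.union_subset_union a1 a2, m1.union m2, fun A hA mA hAS => ?_⟩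
      obtain ⟨s1, hs1⟩ := h1 (A ∩ T1) Set.inter_subset_right (mA.inter m1)
        (Set.inter_subset_left.trans hAS)
      obtain ⟨s2, hs2⟩ := h2 (A \ T1) (by
        rintro x ⟨hx, hx1⟩
        exact (hA hx).resolve_left hx1) (mA.diff m1) (Set.diff_subset.trans hAS)
      refine ⟨s1 + s2, fun l C hC hl => ?_⟩
      have hi := integral_inter_add_sdiff (s := A) m1
        (vin_int μ f hf hc l).integrableOn
      have hm := measure_inter_add_diff (μ := μ) A m1
      have hA1 : μ (A ∩ T1) < ⊤ :=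
        (measure_mono (Set.inter_subset_left.trans hAS)).trans_lt hfin
      have hA2 : μ (A \ T1) < ⊤ := (measure_mono (Set.diff_subset.trans hAS)).trans_lt hfin
      rw [← hi, ← hm, ENNReal.toReal_add hA1.ne hA2.ne, map_add]
      have e1 := hs1 l C hC hl
      have e2 := hs2 l C hC hl
      calc ‖l s1 + l s2 - (∫ g in A ∩ T1, l (f g) ∂μ + ∫ g in A \ T1, l (f g) ∂μ)‖
          = ‖(l s1 - ∫ g in A ∩ T1, l (f g) ∂μ) + (l s2 - ∫ g in A \ T1, l (f g) ∂μ)‖ := by
            congr 1
            ring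
        _ ≤ _ := norm_add_le _ _
        _ ≤ C * ε * (μ (A ∩ T1)).toReal + C * ε * (μ (A \ T1)).toReal := add_le_add e1 e2
        _ = _ := by ring
    · intro x hx
      have hU : IsOpen {g | q (f g - f x) < ε} :=
        isOpen_lt (hq.comp (hf.sub continuous_const)) continuous_const
      have hxU : x ∈ {g | q (f g - f x) < ε} := by
        simp only [Set.mem_setOf_eq, sub_self, map_zero]
        exact hε
      refine ⟨_, mem_nhdsWithin_of_mem_nhds (hU.mem_nhds hxU), _, Set.Subset.rfl,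
        hU.measurableSet, fun A hA mA hAS => ⟨(((μ A).toReal : ℝ) : ℂ) • f x, fun l C hC hl => ?_⟩⟩
      have hAf : μ A < ⊤ := (measure_mono hAS).trans_lt hfin
      have h1 : l ((((μ A).toReal : ℝ) : ℂ) • f x) = ∫ _g in A, l (f x) ∂μ := by
        rw [map_smul, setIntegral_const]
        simp [Measure.real]
      rw [h1, ← integral_sub (integrableOn_const (C := l (f x)) hAf.ne) (vin_int μ f hf hc l).integrableOn]
      refine norm_setIntegral_le_of_norm_le_const hAf fun g hg => ?_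
      rw [← map_sub]
      refine (hl _).trans (mul_le_mul_of_nonneg_left ?_ hC)
      rw [map_sub_rev]
      exact (hA hg).le
  obtain ⟨T', hT, mT, h⟩ := hP
  obtain ⟨s, hs⟩ := h (tsupport f) hT (isClosed_tsupport f).measurableSet Set.Subset.rfl
  refine ⟨s, fun l C hC hl => ?_⟩
  have h1 := hs l C hC hl
  rwa [setIntegral_eq_integral_of_forall_compl_eq_zero] at h1
  intro g hg
  rw [image_eq_zero_of_notMem_tsupport hg, map_zero]

theorem vin {G : Type*} [TopologicalSpace G] [MeasurableSpace G] [BorelSpace G] (μ : Measure G)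
    [IsFiniteMeasureOnCompacts μ]
    {X : Type*} [AddCommGroup X] [Module ℂ X] [UniformSpace X] [IsUniformAddGroup X]
    [ContinuousSMul ℂ X] [CompleteSpace X] [T2Space X] [IsFre X]
    (f : G → X) (hf : Continuous f) (hc : HasCompactSupport f) :
    ∃ x : X, (∀ l : X →L[ℂ] ℂ, l x = ∫ g, l (f g) ∂μ) ∧
      ∀ p : Seminorm ℂ X, Continuous p → p x ≤ ∫ g, p (f g) ∂μ := by
  obtain ⟨p, hp⟩ := IsFre.ex (X := X)
  set M : ℝ := (μ (tsupport f)).toReal with hM
  have hM0 : 0 ≤ M := ENNReal.toReal_nonneg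
  set Q : ℕ → Seminorm ℂ X := fun j => (Finset.range (j + 1)).sup p with hQ
  have hQc : ∀ j, Continuous (Q j) := fun j =>
    Seminorm.continuous_finsetSup fun i _ => hp.continuous_seminorm i
  have hQm : ∀ j k, j ≤ k → Q j ≤ Q k := fun j k h =>
    Finset.sup_mono (Finset.range_mono (by omega))
  have hkey : ∀ j : ℕ, ∃ s : X, ∀ (l : X →L[ℂ] ℂ) (C : ℝ), 0 ≤ C →
      (∀ x, ‖l x‖ ≤ C * Q j x) → ‖l s - ∫ g, l (f g) ∂μ‖ ≤ C / ((j : ℝ) + 1) := by
    intro j
    have hε : 0 < 1 / (((j : ℝ) + 1) * (M + 1)) := by positivity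
    obtain ⟨s, hs⟩ := vin_key μ f hf hc (Q j) (hQc j) hε
    refine ⟨s, fun l C hC hl => (hs l C hC hl).trans ?_⟩
    rw [← hM]
    have h1 : C * (1 / (((j : ℝ) + 1) * (M + 1))) * M = C / ((j : ℝ) + 1) * (M / (M + 1)) := by
      field_simp
    rw [h1]
    have h2 : M / (M + 1) ≤ 1 := by
      rw [div_le_one (by positivity)]
      linarith
    exact mul_le_of_le_one_right (by positivity) h2
  choose s hs using hkey
  have hdiff : ∀ N a b : ℕ, N ≤ a → N ≤ b → Q N (s a - s b) ≤ 2 / ((N : ℝ) + 1) := by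
    intro N a b ha hb
    obtain ⟨l, hl, hlx⟩ := hba (Q N) (hQc N) (s a - s b)
    have e1 := hs a l 1 zero_le_one fun x => by
      rw [one_mul]
      exact (hl x).trans (hQm N a ha x)
    have e2 := hs b l 1 zero_le_one fun x => by
      rw [one_mul]
      exact (hl x).trans (hQm N b hb x)
    have h1 : Q N (s a - s b) = ‖l (s a - s b)‖ := by
      rw [hlx, Complex.norm_real, Real.norm_of_nonneg (apply_nonneg _ _)]
    have h2 : l (s a - s b) = (l (s a) - ∫ g, l (f g) ∂μ) - (l (s b) - ∫ g, l (f g) ∂μ) := by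
      rw [map_sub]
      ring
    rw [h1, h2]
    have e3 : 1 / ((a : ℝ) + 1) ≤ 1 / ((N : ℝ) + 1) := by
      apply one_div_le_one_div_of_le (by positivity)
      have : (N : ℝ) ≤ a := by exact_mod_cast ha
      linarith
    have e4 : 1 / ((b : ℝ) + 1) ≤ 1 / ((N : ℝ) + 1) := by
      apply one_div_le_one_div_of_le (by positivity)
      have : (N : ℝ) ≤ b := by exact_mod_cast hb
      linarith
    have e5 := norm_sub_le (l (s a) - ∫ g, l (f g) ∂μ) (l (s b) - ∫ g, l (f g) ∂μ)
    have e6 : 2 / ((N : ℝ) + 1) = 1 / ((N : ℝ) + 1) + 1 / ((N : ℝ) + 1) := by ring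
    linarith
  have hlim : Tendsto (fun n : ℕ => 2 / ((n : ℝ) + 1)) atTop (𝓝 0) :=
    tendsto_const_div_add_atTop_nhds_zero_nat' 2
  have hcau : CauchySeq s := by
    rw [cauchySeq_iff_tendsto, uniformity_eq_comap_nhds_zero X, tendsto_comap_iff,
      hp.tendsto_nhds]
    intro i ε hε
    obtain ⟨N, hN⟩ := ((hlim.eventually_lt_const hε).and (eventually_ge_atTop i)).exists
    rw [eventually_atTop]
    refine ⟨(N, N), ?_⟩
    rintro ⟨a, b⟩ ⟨ha, hb⟩
    have h1 : p i ≤ Q N := Finset.le_sup (f := p) (Finset.mem_range.2 (by omega))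
    have h2 := h1 (s b - s a)
    have h3 := hdiff N b a hb ha
    simp only [Function.comp_apply, Prod.map_apply, sub_zero]
    linarith [hN.1]
  obtain ⟨x, hx⟩ := cauchySeq_tendsto_of_complete hcau
  have hlx : ∀ l : X →L[ℂ] ℂ, l x = ∫ g, l (f g) ∂μ := by
    intro l
    obtain ⟨t, C, -, hC⟩ := Seminorm.bound_of_continuous hp
      ((normSeminorm ℂ ℂ).comp (l : X →ₗ[ℂ] ℂ)) l.continuous.norm
    have hle : ∀ j, t.sup id ≤ j → ∀ y, ‖l y‖ ≤ (C : ℝ) * Q j y := by
      intro j hj y
      have h1 : ‖l y‖ ≤ (C : ℝ) * (t.sup p) y := hC y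
      refine h1.trans (mul_le_mul_of_nonneg_left ?_ C.2)
      have h2 : t.sup p ≤ Q j := by
        refine Finset.sup_mono fun i hi => Finset.mem_range.2 ?_
        have h3 : id i ≤ t.sup id := Finset.le_sup (f := id) hi
        simp only [id] at h3
        omega
      exact h2 y
    have h1 : Tendsto (fun j => l (s j)) atTop (𝓝 (l x)) := (l.continuous.tendsto x).comp hx
    have h2 : Tendsto (fun j => l (s j)) atTop (𝓝 (∫ g, l (f g) ∂μ)) := by
      rw [tendsto_iff_norm_sub_tendsto_zero]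
      refine squeeze_zero' (Eventually.of_forall fun _ => norm_nonneg _) ?_
        (tendsto_const_div_add_atTop_nhds_zero_nat' (C : ℝ))
      filter_upwards [eventually_ge_atTop (t.sup id)] with j hj
      exact hs j l C C.2 (hle j hj)
    exact tendsto_nhds_unique h1 h2
  refine ⟨x, hlx, fun r hr => ?_⟩
  obtain ⟨l, hl, hlr⟩ := hba r hr x
  have h1 : r x = ‖∫ g, l (f g) ∂μ‖ := by
    rw [← hlx l, hlr, Complex.norm_real, Real.norm_of_nonneg (apply_nonneg _ _)]
  rw [h1]
  exact norm_integral_le_of_norm_le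
    ((hr.comp hf).integrable_of_hasCompactSupport (hc.comp_left (map_zero r)))
    (Eventually.of_forall fun g => hl (f g))

end

end Pool.Agent.Work.MP_dd0ddf_al.CW
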