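import Pool.Agent.Work.MP_dd0ddf_al.CW.Defs
import Pool.Agent.Work.MP_dd0ddf_al.CW.Vin
import Pool.Agent.Work.MP_dd0ddf_al.CW.Bas
import Pool.Agent.Work.MP_dd0ddf_al.CW.Suf
import Pool.Agent.Work.MP_dd0ddf_al.CW.Tpf
import Pool.Agent.Work.MP_dd0ddf_al.CW.Kri

/-!
# averages over U(n)

PROOF. avgX: `vin` with G = UU n (compact), f k = phi k • pi(kg k) x; additivity etc. in x follow from uniqueness (functionals separate points, `hsep`); boundedness: p(x') <= int |phi| p(pi(kg k) x); the seminorm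
x -> sup_k p(pi(kg k) x) is continuous: by `SR.grow` p(pi(g) x) <= (|g| + |g^-1|)^N q(x) and |kg k| <= 1 entrywise.  So x -> x' is a continuous linear map A.
avgX_mem (phi in SU n R): l(pi(kg(cu v t)) A x) = int phi(k) l(pi(kg(cu v t k)) x) dk = int phi((cu v t)^-1 k) l(pi(kg k) x) dk (left invariance); t -> phi((cu v t)^-1 k) = phi(cu v (-t) k) = phi(k cu (k^-1 v) (-t)) is in TPs R; `tp_int`.
avgY: l -> (x -> int phi(k) l(pi(kg k) x) dk) is l o A, and for phi in SU n R, l continuous: l(A pi(kg (cu v t)) x) = int phi(k) l(pi(kg(k cu v t)) x) dk = int phi(k (cu v t)^-1) l(pi(kg k) x) dk (right invariance `hK_right`): in TPs R.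
-/

set_option linter.unusedSectionVars false

namespace Pool.Agent.Work.MP_dd0ddf_al.CW

open scoped Matrix.Norms.Elementwise ComplexConjugate ContDiff Topology
open Matrix MeasureTheory Filter
open Pool.Agent.Work.MP_dd0ddf_al.AR

noncomputable section

variable {n : ℕ} {X : Type*} [AddCommGroup X] [Module ℂ X] [UniformSpace X] [IsUniformAddGroup X]
  [ContinuousSMul ℂ X] [CompleteSpace X] [T2Space X] [IsFre X]

variable {π : GLn n →* (X →L[ℂ] X)} {D : Mat n →ₗ[ℝ] (X →L[ℂ] X)}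

theorem avgX (hS : SR π D) (φ : UU n → ℂ) (hφ : Continuous φ) :
    ∃ A : X →L[ℂ] X, (∀ (l : X →L[ℂ] ℂ) (x : X), l (A x) = ∫ k, φ k * l (π (kg k) x) ∂(hK n)) ∧
      (∀ (p : Seminorm ℂ X), Continuous p → ∀ x, p (A x) ≤ ∫ k, ‖φ k‖ * p (π (kg k) x) ∂(hK n)) ∧
      (∀ R, φ ∈ SU n R → (∀ x, A x ∈ XR π R) ∧
        ∀ l : X →L[ℂ] ℂ, (l : X →ₗ[ℂ] ℂ).comp (A : X →ₗ[ℂ] X) ∈ YR π R) := by
  sorry

/-- every continuous seminorm is dominated by a continuous U(n)-invariant one -/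
theorem avg_inv (hS : SR π D) (p : Seminorm ℂ X) (hp : Continuous p) :
    ∃ q : Seminorm ℂ X, Continuous q ∧ (∀ x, p x ≤ q x) ∧ ∀ (k : UU n) (x : X),
      q (π (kg k) x) = q x := by
  sorry

end

end Pool.Agent.Work.MP_dd0ddf_al.CW
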