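import Pool.Agent.Work.MP_dd0ddf_al.CW.Defs
import Pool.Agent.Work.MP_dd0ddf_al.CW.Suf

/-!
# functions of bounded frequency are dense in C(U(n))

PROOF. Stone-Weierstrass (`ContinuousMap.starSubalgebra_topologicalClosure_eq_top_of_separatesPoints` for C(UU n, ℂ)): the union of the SU n R is a unital star subalgebra (`su_mul`, `su_conj`, `su_mono`, constants), and it
separates points (`su_entry`).
-/

set_option linter.unusedSectionVars false

namespace Pool.Agent.Work.MP_dd0ddf_al.CW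

open scoped Matrix.Norms.Elementwise ComplexConjugate ContDiff Topology
open Matrix MeasureTheory Filter
open Pool.Agent.Work.MP_dd0ddf_al.AR

noncomputable section

variable {n : ℕ}

private theorem const_mem (c : ℂ) : (fun _ : UU n => c) ∈ SU n 0 :=
  ⟨continuous_const, fun _ _ _ => tp_const 0 c⟩

private def SA (n : ℕ) : StarSubalgebra ℂ C(UU n, ℂ) where
  carrier := {f | ∃ R, (f : UU n → ℂ) ∈ SU n R}
  mul_mem' := by
    rintro f g ⟨R, hf⟩ ⟨S, hg⟩
    exact ⟨R + S, su_mul R S f g hf hg⟩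
  one_mem' := ⟨0, const_mem 1⟩
  add_mem' := by
    rintro f g ⟨R, hf⟩ ⟨S, hg⟩
    exact ⟨max R S, Submodule.add_mem _ (su_mono (le_max_left R S) hf)
      (su_mono (le_max_right R S) hg)⟩
  zero_mem' := ⟨0, const_mem 0⟩
  algebraMap_mem' := fun c => ⟨0, const_mem c⟩
  star_mem' := by
    rintro f ⟨R, hf⟩
    exact ⟨R, su_conj R f hf⟩

theorem sud (f : UU n → ℂ) (hf : Continuous f) (ε : ℝ) (hε : 0 < ε) :
    ∃ (R : ℕ) (g : UU n → ℂ), g ∈ SU n R ∧ ∀ x, ‖f x - g x‖ ≤ ε := by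
  have hsep : (SA n).SeparatesPoints := by
    intro x y hxy
    have h1 : ∃ i j, (x : Mat n) i j ≠ (y : Mat n) i j := by
      by_contra h
      push_neg at h
      exact hxy (Subtype.ext (Matrix.ext h))
    obtain ⟨i, j, hij⟩ := h1
    refine ⟨fun x : UU n => (x : Mat n) i j, ⟨⟨fun x : UU n => (x : Mat n) i j,
      (su_entry (n := n) i j).1⟩, ⟨1, su_entry i j⟩, rfl⟩, hij⟩
  have htop := ContinuousMap.starSubalgebra_topologicalClosure_eq_top_of_separatesPoints (SA n) hsep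
  have hmem : (⟨f, hf⟩ : C(UU n, ℂ)) ∈ (SA n).topologicalClosure := by
    rw [htop]
    exact StarSubalgebra.mem_top
  have hcl : (⟨f, hf⟩ : C(UU n, ℂ)) ∈ closure ((SA n : StarSubalgebra ℂ C(UU n, ℂ)) : Set C(UU n, ℂ)) :=
    hmem
  obtain ⟨g, ⟨R, hg⟩, hd⟩ := Metric.mem_closure_iff.1 hcl ε hε
  refine ⟨R, g, hg, fun x => ?_⟩
  have h := ContinuousMap.dist_apply_le_dist (f := (⟨f, hf⟩ : C(UU n, ℂ))) (g := g) x
  rw [dist_eq_norm] at h
  exact h.trans hd.le

end

end Pool.Agent.Work.MP_dd0ddf_al.CW
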