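import Pool.Agent.Work.MP_dd0ddf_al.CW.Defs
import Pool.Agent.Work.MP_dd0ddf_al.CW.Defs2
import Pool.Agent.Work.MP_dd0ddf_al.CW.Sud
import Pool.Agent.Work.MP_dd0ddf_al.CW.Bas
import Pool.Agent.Work.MP_dd0ddf_al.CW.Avg
import Pool.Agent.Work.MP_dd0ddf_al.CW.Hba
import Pool.Agent.Work.MP_dd0ddf_al.CW.Kri

/-!
# density

PROOF. dnsY: Let l(x) = 0 for all l in Yf.  If x /= 0 there is l0 continuous with l0 x /= 0 (`hsep`).  F(k) = l0(pi(kg k) x) is continuous, F(1) /= 0, so int conj(F) F > 0 (hK_open).  By `sud` there are R, phi in SU n R with |phi - conj F| small, so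
int phi F /= 0.  With A from `avgX` for phi: l0 o A in YR and l0(A x) = int phi F /= 0, contradiction.
dnsX: if Xf is not dense there is l0 /= 0 continuous vanishing on the closure of Xf (Hahn-Banach for Frechet = locally convex spaces; or: for x with l0 x /= 0 and F as above int phi F = l0(A x) /= 0 but A x in XR: contradiction; so l0 = 0; then
density: closure of Xf is a closed subspace; if x is not in it, Hahn-Banach separation gives l0 vanishing on it with l0 x /= 0; use a continuous seminorm p with p(x - y) >= 1 for all y in Xf and `hba` on the quotient seminorm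
q(z) = inf_(y in Xf) p(z - y), a continuous seminorm with q(x) >= 1, q = 0 on Xf; |l0| <= q, l0 x = q x).
dnsE: for x in X with E R x = 0 for all R: l(x) = l(E R x) = 0 for l in YR.
-/

set_option linter.unusedSectionVars false

namespace Pool.Agent.Work.MP_dd0ddf_al.CW

open scoped Matrix.Norms.Elementwise ComplexConjugate ContDiff Topology
open Matrix MeasureTheory Filter
open Pool.Agent.Work.MP_dd0ddf_al.AR

noncomputable section

variable {n : ℕ} {X : Type*} [AddCommGroup X] [Module ℂ X] [UniformSpace X] [IsUniformAddGroup X]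
  [ContinuousSMul ℂ X] [CompleteSpace X] [T2Space X] [IsFre X]

variable {π : GLn n →* (X →L[ℂ] X)} {D : Mat n →ₗ[ℝ] (X →L[ℂ] X)}

theorem dnsY (hS : SR π D) (x : X) (h : ∀ l ∈ Yf π, l x = 0) : x = 0 := by
  sorry

theorem dnsX (hS : SR π D) : Dense (Xf π : Set X) := by
  sorry

theorem dnsL (hS : SR π D) (l : X →L[ℂ] ℂ) (h : ∀ x ∈ Xf π, l x = 0) : l = 0 := by
  sorry

end

end Pool.Agent.Work.MP_dd0ddf_al.CW
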