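import Pool.Agent.Work.MP_dd0ddf_al.CW.Defs
import Pool.Agent.Work.MP_dd0ddf_al.CW.Defs2
import Pool.Agent.Work.MP_dd0ddf_al.CW.Suf
import Pool.Agent.Work.MP_dd0ddf_al.CW.Kri

/-!
# the reproducing kernel

PROOF. SU n R is a finite dimensional space of continuous functions on U(n) with the positive definite Hermitian form <f,g> = int conj(f) g dx (hK is positive on open sets, `hK_open`: a continuous f with int |f|^2 = 0 is 0).
The functional f -> f(1) is f -> int conj(e0) f for a unique e0 in SU n R (Riesz in finite dimension; an orthonormal basis b_i, e0 = sum conj(b_i(1)) b_i).  For a in U(n): f(a x a^-1) is in SU (`su_left`, `su_right`), and by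
uniqueness and `hK_conj` e0(a x a^-1) = e0(x).  f -> conj(f(x^-1)) preserves SU n R and the form up to conjugation: e0(x^-1) = conj e0(x).  SU n R is stable under conj: conj e0 also represents: f(1) = conj(conj f (1)) =
conj(int conj(e0) conj f) = int e0 f; so e0 = conj e0 is real, and e0(x^-1) = e0(x).  Put e = e0: int e f = f(1).  Bound: e(x) = <L, ..>: e(x) = int e(y) e(y x..)...: by the reproducing property applied to y -> e(y x) resp. y -> e(x^-1 y):
e(x) = <e, e(. x)>, |e(x)| <= ||e||_2^2 = e(1) = sum |b_i(1)|^2; and sum_i |b_i(x)|^2 is independent of x (it is the reproducing kernel of the translated functional), so e(1) = int sum |b_i|^2 = dim SU n R.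
-/

set_option linter.unusedSectionVars false

namespace Pool.Agent.Work.MP_dd0ddf_al.CW

open scoped Matrix.Norms.Elementwise ComplexConjugate ContDiff Topology
open Matrix MeasureTheory Filter
open Pool.Agent.Work.MP_dd0ddf_al.AR

noncomputable section

variable {n : ℕ}

private theorem int_cont {f : UU n → ℂ} (hf : Continuous f) : Integrable f (hK n) :=
  (hf.integrable_of_hasCompactSupport (HasCompactSupport.of_compactSpace f))

/-- the bilinear form on `SU n R` -/
private def bfm (n R : ℕ) : SU n R →ₗ[ℂ] Module.Dual ℂ (SU n R) where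
  toFun e :=
    { toFun := fun f => ∫ k, (e : UU n → ℂ) k * (f : UU n → ℂ) k ∂(hK n)
      map_add' := fun f g => by
        have h : ∀ k, (e : UU n → ℂ) k * ((f + g : SU n R) : UU n → ℂ) k =
            (e : UU n → ℂ) k * (f : UU n → ℂ) k + (e : UU n → ℂ) k * (g : UU n → ℂ) k := by
          intro k
          simp [mul_add]
        simp only [h]
        exact integral_add (int_cont (e.2.1.mul f.2.1)) (int_cont (e.2.1.mul g.2.1))
      map_smul' := fun c f => by
        have h : ∀ k, (e : UU n → ℂ) k * ((c • f : SU n R) : UU n → ℂ) k =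
            c * ((e : UU n → ℂ) k * (f : UU n → ℂ) k) := by
          intro k
          simp only [Submodule.coe_smul, Pi.smul_apply, smul_eq_mul]
          ring
        simp only [h, RingHom.id_apply, smul_eq_mul]
        exact integral_const_mul _ _ }
  map_add' e e' := by
    ext f
    have h : ∀ k, ((e + e' : SU n R) : UU n → ℂ) k * (f : UU n → ℂ) k =
        (e : UU n → ℂ) k * (f : UU n → ℂ) k + (e' : UU n → ℂ) k * (f : UU n → ℂ) k := by
      intro k
      simp [add_mul]
    simp only [h, LinearMap.coe_mk, AddHom.coe_mk, LinearMap.add_apply]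
    exact integral_add (int_cont (e.2.1.mul f.2.1)) (int_cont (e'.2.1.mul f.2.1))
  map_smul' c e := by
    ext f
    have h : ∀ k, ((c • e : SU n R) : UU n → ℂ) k * (f : UU n → ℂ) k =
        c * ((e : UU n → ℂ) k * (f : UU n → ℂ) k) := by
      intro k
      simp only [Submodule.coe_smul, Pi.smul_apply, smul_eq_mul]
      ring
    simp only [h, LinearMap.coe_mk, AddHom.coe_mk, LinearMap.smul_apply, RingHom.id_apply, smul_eq_mul]
    exact integral_const_mul _ _

private theorem bfm_inj (n R : ℕ) : Function.Injective (bfm n R) := by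
  rw [← LinearMap.ker_eq_bot, LinearMap.ker_eq_bot']
  intro e he
  have h1 := LinearMap.congr_fun he ⟨fun x => conj ((e : UU n → ℂ) x), su_conj R _ e.2⟩
  simp only [bfm, LinearMap.coe_mk, AddHom.coe_mk, LinearMap.zero_apply] at h1
  have h2 : ∫ k, ‖(e : UU n → ℂ) k‖ ^ 2 ∂(hK n) = 0 := by
    have h3 : ((∫ k, ‖(e : UU n → ℂ) k‖ ^ 2 ∂(hK n) : ℝ) : ℂ) = 0 := by
      rw [← integral_complex_ofReal, ← h1]
      apply integral_congr_ae
      refine ae_of_all _ fun k => ?_
      simp only
      rw [Complex.mul_conj']
      push_cast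
      rfl
    exact_mod_cast h3
  have hc : Continuous fun k => ‖(e : UU n → ℂ) k‖ ^ 2 := (e.2.1.norm).pow 2
  have h4 : (fun k => ‖(e : UU n → ℂ) k‖ ^ 2) = fun _ => (0 : ℝ) := by
    have h5 := (integral_eq_zero_iff_of_nonneg (μ := hK n) (fun k => by positivity)
      (hc.integrable_of_hasCompactSupport (HasCompactSupport.of_compactSpace _))).1 h2
    exact Continuous.ae_eq_iff_eq (hK n) hc continuous_const |>.1 h5
  apply Subtype.ext
  funext k
  have h6 : ‖(e : UU n → ℂ) k‖ ^ 2 = 0 := congrFun h4 k
  have h7 : ‖(e : UU n → ℂ) k‖ = 0 := by nlinarith [norm_nonneg ((e : UU n → ℂ) k)]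
  simpa using h7

private theorem uniq {n R : ℕ} {e e' : UU n → ℂ} (he : e ∈ SU n R) (he' : e' ∈ SU n R)
    (h : ∀ f ∈ SU n R, ∫ k, e k * f k ∂(hK n) = f 1)
    (h' : ∀ f ∈ SU n R, ∫ k, e' k * f k ∂(hK n) = f 1) : e = e' := by
  have h1 : (bfm n R) ⟨e, he⟩ = (bfm n R) ⟨e', he'⟩ := by
    ext f
    simp only [bfm, LinearMap.coe_mk, AddHom.coe_mk]
    rw [h f f.2, h' f f.2]
  have h2 := bfm_inj n R h1
  exact congrArg Subtype.val h2

private theorem ex0 (n R : ℕ) : ∃ e ∈ SU n R, ∀ f ∈ SU n R, ∫ k, e k * f k ∂(hK n) = f 1 := by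
  have hs : Function.Surjective (bfm n R) := by
    rw [← LinearMap.injective_iff_surjective_of_finrank_eq_finrank]
    · exact bfm_inj n R
    · exact (Subspace.dual_finrank_eq).symm
  obtain ⟨e, he⟩ := hs ((LinearMap.proj (1 : UU n)).comp (SU n R).subtype)
  refine ⟨e, e.2, fun f hf => ?_⟩
  have := LinearMap.congr_fun he ⟨f, hf⟩
  exact this

theorem ker_ex (n R : ℕ) : ∃ e, IsKer n R e := by
  obtain ⟨e, he, hr⟩ := ex0 n R
  have hcent : ∀ k k', e (k * k' * k⁻¹) = e k' := by
    intro a
    have h1 : (fun x => e (a * x * a⁻¹)) ∈ SU n R := su_left R _ (su_right R _ he a⁻¹) a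
    have h2 := uniq h1 he (fun f hf => ?_) hr
    · intro k'
      exact congrFun h2 k'
    · have h3 := hK_conj (n := n) (fun x => e x * f (a⁻¹ * x * a)) a
      have h4 : ∀ x : UU n, a⁻¹ * (a * x * a⁻¹) * a = x := by
        intro x
        group
      simp only [h4] at h3
      rw [h3]
      have h5 := hr (fun x => f (a⁻¹ * x * a)) (su_left R _ (su_right R _ hf a) a⁻¹)
      simp only [mul_one, inv_mul_cancel] at h5
      exact h5
  have hinv : ∀ k, e k⁻¹ = e k := by
    have h2 := uniq (su_inv R _ he) he (fun f hf => ?_) hr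
    · intro k
      exact congrFun h2 k
    · have h3 := integral_inv_eq_self (fun x => e x * f x⁻¹) (hK n)
      simp only [inv_inv] at h3
      rw [h3]
      have h5 := hr (fun x => f x⁻¹) (su_inv R _ hf)
      simp only [inv_one] at h5
      exact h5
  have hreal : ∀ k, conj (e k) = e k := by
    have h2 := uniq (su_conj R _ he) he (fun f hf => ?_) hr
    · intro k
      exact congrFun h2 k
    · have h5 := hr (fun x => conj (f x)) (su_conj R _ hf)
      have h6 := congrArg conj h5
      rw [← integral_conj] at h6
      simpa using h6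
  have hrep : ∀ f ∈ SU n R, ∀ x, ∫ k, e k * f (k * x) ∂(hK n) = f x := by
    intro f hf x
    have h5 := hr (fun y => f (y * x)) (su_right R _ hf x)
    simpa using h5
  have hsq : ((∫ k, ‖e k‖ ^ 2 ∂(hK n) : ℝ) : ℂ) = e 1 := by
    rw [← hr e he, ← integral_complex_ofReal]
    apply integral_congr_ae
    refine ae_of_all _ fun k => ?_
    simp only
    nth_rewrite 2 [← hreal k]
    rw [Complex.conj_mul']
    push_cast
    rfl
  have hdim : e 1 = Module.finrank ℂ (SU n R) := by
    -- kernel as a continuous function with values in `SU n R`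
    have hmem : ∀ z : UU n, (fun x => e (z * x⁻¹)) ∈ SU n R := by
      intro z
      exact su_inv R _ (su_left R _ he z)
    set b := Module.finBasis ℂ (SU n R) with hb
    set κ : UU n → SU n R := fun z => ⟨fun x => e (z * x⁻¹), hmem z⟩ with hκ
    have hκc : Continuous κ := by
      refine Continuous.subtype_mk ?_ _
      refine continuous_pi fun x => ?_
      exact he.1.comp (continuous_id.mul continuous_const)
    have hci : ∀ i, Continuous fun z => b.repr (κ z) i := by
      intro i
      have h1 : Continuous (b.coord i) := LinearMap.continuous_of_finiteDimensional _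
      exact h1.comp hκc
    have hK1 : ∀ z x, e (z * x⁻¹) = ∑ i, b.repr (κ z) i * ((b i : SU n R) : UU n → ℂ) x := by
      intro z x
      have h1 := b.sum_repr (κ z)
      have h2 := congrArg (fun f : SU n R => (f : UU n → ℂ) x) h1
      simp only [Submodule.coe_sum, Submodule.coe_smul, Finset.sum_apply, Pi.smul_apply,
        smul_eq_mul] at h2
      exact h2.symm
    have hK2 : ∀ f : SU n R, ∀ x, ∫ z, e (z * x⁻¹) * (f : UU n → ℂ) z ∂(hK n) =
        (f : UU n → ℂ) x := by
      intro f x
      rw [← hrep f f.2 x]
      have h1 := integral_mul_right_eq_self (μ := hK n)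
        (fun z => e (z * x⁻¹) * (f : UU n → ℂ) z) x
      simp only [mul_inv_cancel_right] at h1
      exact h1.symm
    have hK3 : ∀ i j, ∫ z, b.repr (κ z) i * ((b j : SU n R) : UU n → ℂ) z ∂(hK n) =
        if i = j then 1 else 0 := by
      intro i j
      have h1 : (∑ i, (∫ z, b.repr (κ z) i * ((b j : SU n R) : UU n → ℂ) z ∂(hK n)) • b i) =
          b j := by
        apply Subtype.ext
        funext x
        rw [← hK2 (b j) x]
        simp only [Submodule.coe_sum, Submodule.coe_smul, Finset.sum_apply, Pi.smul_apply,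
          smul_eq_mul]
        simp only [← integral_mul_const]
        rw [← integral_finsetSum]
        · apply integral_congr_ae
          refine ae_of_all _ fun z => ?_
          simp only
          rw [hK1 z x, Finset.sum_mul]
          refine Finset.sum_congr rfl fun i _ => ?_
          ring
        · intro i _
          exact int_cont (((hci i).mul (b j).2.1).mul continuous_const)
      have h2 := congrArg (fun f => b.repr f i) h1
      simp only [map_sum, map_smul, Module.Basis.repr_self, Finsupp.smul_single, smul_eq_mul, mul_one,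
        Finsupp.coe_finsetSum, Finset.sum_apply] at h2
      rw [Finset.sum_eq_single i] at h2
      · rw [Finsupp.single_eq_same] at h2
        rw [h2, Finsupp.single_apply]
        simp only [eq_comm]
      · intro k _ hk
        rw [Finsupp.single_eq_of_ne]
        exact fun h => hk h.symm
      · intro h
        exact absurd (Finset.mem_univ i) h
    have h1 : (∑ i, ∫ z, b.repr (κ z) i * ((b i : SU n R) : UU n → ℂ) z ∂(hK n)) = e 1 := by
      rw [← integral_finsetSum]
      · have h2 : ∀ z : UU n, (∑ i, b.repr (κ z) i * ((b i : SU n R) : UU n → ℂ) z) = e 1 := by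
          intro z
          rw [← hK1 z z, mul_inv_cancel]
        simp only [h2]
        simp
      · intro i _
        exact int_cont ((hci i).mul (b i).2.1)
    rw [← h1]
    simp only [hK3]
    simp
  refine ⟨e, he, hr, hinv, hcent, fun x => ?_⟩
  have h1 : e x = ∫ k, e k * e (k * x) ∂(hK n) := (hrep e he x).symm
  have hI : Integrable (fun k => ‖e k‖ ^ 2) (hK n) :=
    ((he.1.norm).pow 2).integrable_of_hasCompactSupport (HasCompactSupport.of_compactSpace _)
  have hI' : Integrable (fun k => ‖e (k * x)‖ ^ 2) (hK n) :=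
    (((he.1.comp (continuous_id.mul continuous_const)).norm).pow 2).integrable_of_hasCompactSupport
      (HasCompactSupport.of_compactSpace _)
  have h2 : ‖e x‖ ≤ ∫ k, ‖e k‖ ^ 2 ∂(hK n) := by
    rw [h1]
    refine (norm_integral_le_integral_norm _).trans ?_
    have h3 : ∫ k, ‖e k * e (k * x)‖ ∂(hK n) ≤
        ∫ k, ((1 / 2 : ℝ) * ‖e k‖ ^ 2 + (1 / 2 : ℝ) * ‖e (k * x)‖ ^ 2) ∂(hK n) := by
      apply integral_mono
      · exact (int_cont (he.1.mul (he.1.comp (continuous_id.mul continuous_const)))).norm
      · exact (hI.const_mul _).add (hI'.const_mul _)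
      · intro k
        simp only [norm_mul]
        nlinarith [sq_nonneg (‖e k‖ - ‖e (k * x)‖)]
    refine h3.trans (le_of_eq ?_)
    rw [integral_add (hI.const_mul _) (hI'.const_mul _), integral_const_mul, integral_const_mul,
      integral_mul_right_eq_self (μ := hK n) (fun k => ‖e k‖ ^ 2) x]
    ring
  refine h2.trans (le_of_eq ?_)
  have h3 : ((∫ k, ‖e k‖ ^ 2 ∂(hK n) : ℝ) : ℂ) = ((Module.finrank ℂ (SU n R) : ℝ) : ℂ) := by
    rw [hsq, hdim]
    push_cast
    rfl
  exact_mod_cast h3

theorem ker_eK (n R : ℕ) : IsKer n R (eK n R) := by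
  unfold eK
  rw [dif_pos (ker_ex n R)]
  exact Classical.choose_spec (ker_ex n R)

/-- convolution with the kernel is the identity on SU n R and maps continuous functions to SU n R -/
theorem ker_conv (n R : ℕ) (f : UU n → ℂ) (hf : Continuous f) :
    (fun x => ∫ k, eK n R k * f (k * x) ∂(hK n)) ∈ SU n R ∧
    (f ∈ SU n R → ∀ x, ∫ k, eK n R k * f (k * x) ∂(hK n) = f x) := by
  have hk := ker_eK n R
  constructor
  · have h1 : ∀ x, ∫ k, eK n R k * f (k * x) ∂(hK n) =
        ∫ z, eK n R (z * x⁻¹) * f z ∂(hK n) := by
      intro x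
      have h1 := integral_mul_right_eq_self (μ := hK n) (fun z => eK n R (z * x⁻¹) * f z) x
      simp only [mul_inv_cancel_right] at h1
      exact h1
    simp only [h1]
    constructor
    · have h2 := continuous_parametric_integral_of_continuous (μ := hK n)
        (f := fun x z : UU n => eK n R (z * x⁻¹) * f z)
        (by
          have hc := hk.mem.1
          exact (hc.comp (continuous_snd.mul continuous_fst.inv)).mul (hf.comp continuous_snd))
        (isCompact_univ (X := UU n))
      simpa using h2
    · intro x v hv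
      refine tp_int (hK n) (fun z θ => eK n R (z * (x * cu v θ)⁻¹) * f z) (fun z => ?_) (fun θ => ?_)
      · have h3 := (su_inv R _ (su_left R _ hk.mem z)).2 x v hv
        have h4 := (TPs R).smul_mem (f z) h3
        convert h4 using 1
        funext θ
        simp only [Pi.smul_apply, smul_eq_mul]
        ring
      · exact int_cont ((hk.mem.1.comp (continuous_id.mul continuous_const)).mul hf)
  · intro hfS x
    have h5 := hk.rep (fun y => f (y * x)) (su_right R _ hfS x)
    simpa using h5

/-- polynomial bound -/
theorem ker_bound (n : ℕ) : ∃ N : ℕ, ∀ (R : ℕ) (k : UU n), ‖eK n R k‖ ≤ (2 * R + 1) ^ N := by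
  obtain ⟨N, hN⟩ := suf n
  refine ⟨N, fun R k => ((ker_eK n R).bound k).trans ?_⟩
  exact_mod_cast (hN R).2

end

end Pool.Agent.Work.MP_dd0ddf_al.CW
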