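import Pool.Agent.Work.MP_dd0ddf_al.CW.Defs
import Pool.Agent.Work.MP_dd0ddf_al.CW.Defs2
import Pool.Agent.Work.MP_dd0ddf_al.CW.Ker
import Pool.Agent.Work.MP_dd0ddf_al.CW.Bas
import Pool.Agent.Work.MP_dd0ddf_al.CW.Avg

/-!
# the projections E_R

PROOF. E = the average of `avgX` with phi = eK n R (`ker_eK`, in SU n R).  Range in XR (avgX, last item).  For x in XR: l(E x) = int eK(k) l(pi(kg k) x) dk = l(x) since k -> l(pi(kg k) x) is in SU n R (`bas_coef`) and the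
reproducing property; `hsep`.  Commutes with pi(kg a): l(E pi(kg a) x) = int eK(k) l(pi(kg(k a)) x) = int eK(a^-1 k a ...): substitute k -> a k a^-1 ... : int eK(k) l(pi(kg (k a)) x) dk, k = a k' a^-1: = int eK(k') l(pi(kg(a k')) x) dk'
= l(pi(kg a) E x) (`central`, `hK_conj`).  Bound: avgX and `ker_bound`, p invariant under U(n), total mass 1.  l o E in YR: avgX.  l in YR: l o E = l: l(E x) = int eK(k) l(pi(kg k) x) dk = l x by `bas_coefY` (k -> l(pi(kg k) x) in SU n R).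
-/

set_option linter.unusedSectionVars false

namespace Pool.Agent.Work.MP_dd0ddf_al.CW

open scoped Matrix.Norms.Elementwise ComplexConjugate ContDiff Topology
open Matrix MeasureTheory Filter
open Pool.Agent.Work.MP_dd0ddf_al.AR

noncomputable section

variable {n : ℕ} {X : Type*} [AddCommGroup X] [Module ℂ X] [UniformSpace X] [IsUniformAddGroup X]
  [ContinuousSMul ℂ X] [CompleteSpace X] [T2Space X] [IsFre X]

variable {π : GLn n →* (X →L[ℂ] X)} {D : Mat n →ₗ[ℝ] (X →L[ℂ] X)}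

theorem er (hS : SR π D) : ∃ E : ℕ → (X →L[ℂ] X),
    (∀ R x, E R x ∈ XR π R) ∧ (∀ R, ∀ x ∈ XR π R, E R x = x) ∧
    (∀ R (k : UU n) x, E R (π (kg k) x) = π (kg k) (E R x)) ∧
    (∀ R (l : X →L[ℂ] ℂ), (l : X →ₗ[ℂ] ℂ).comp (E R : X →ₗ[ℂ] X) ∈ YR π R) ∧
    (∀ R, ∀ l ∈ YR π R, l.comp (E R : X →ₗ[ℂ] X) = l) ∧
    (∀ R (l : X →L[ℂ] ℂ) (x : X), l (E R x) = ∫ k, eK n R k * l (π (kg k) x) ∂(hK n)) ∧
    ∃ N : ℕ, ∀ (R : ℕ) (p : Seminorm ℂ X), Continuous p →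
      (∀ (k : UU n) (x : X), p (π (kg k) x) = p x) → ∀ x, p (E R x) ≤ (2 * R + 1) ^ N * p x := by
  sorry

end

end Pool.Agent.Work.MP_dd0ddf_al.CW
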