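import Pool.Agent.Work.MP_dd0ddf_al.CW.Defs
import Pool.Agent.Work.MP_dd0ddf_al.CW.Defs2
import Pool.Agent.Work.MP_dd0ddf_al.CW.Suf
import Pool.Agent.Work.MP_dd0ddf_al.CW.Bas
import Pool.Agent.Work.MP_dd0ddf_al.CW.Er

/-!
# the spaces XR, YR are finite dimensional

PROOF. Let b_1..b_m be a basis of SU n R.  The vectors c(k) = (b_j(k))_j in C^m, k in U(n), span C^m (otherwise a nontrivial combination of the b_j vanishes on U(n)).  b_j(k' x) = sum_i A_ij(k') b_i(x) (`su_left`), so c(k' k) = A(k')^T c(k);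
tau(k') = A(k')^T is a homomorphism U(n) -> GL_m(C) (tau(k')tau(k'')c(k) = c(k'k''k)), continuous (the coefficients A_ij(k') are obtained from finitely many values b_j(k' x_s), x_s chosen with (b_i(x_s)) invertible).
For x in XR define T_x : C^m -> X, T_x(c(k)) = pi(kg k) x: well defined and linear: if sum_s a_s c(k_s) = 0 then sum a_s f(k_s) = 0 for all f in SU n R, so sum a_s l(pi(kg k_s) x) = 0 for all l (`bas_coef`), so
sum a_s pi(kg k_s) x = 0 (`hsep`).  T_x in intw pi tau: T_x(tau(k') c(k)) = pi(kg(k'k)) x.  x -> T_x is linear and injective (T_x(c(1)) = x).  So dim XR <= dim intw < oo (`SR.adm`).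
YR: l -> l restricted to XR is injective on YR since l = l o E R (`er`); so dim YR <= dim XR.  The pairing YR x XR is perfect: a functional on XR composed with E R is in YR (extend it continuously: XR is finite dimensional, the functional
m on XR, m o E R is continuous, in YR as E R x depends .. : k -> m(E R pi(kg k) x) is in SU n R; or use avgX).
-/

set_option linter.unusedSectionVars false

namespace Pool.Agent.Work.MP_dd0ddf_al.CW

open scoped Matrix.Norms.Elementwise ComplexConjugate ContDiff Topology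
open Matrix MeasureTheory Filter
open Pool.Agent.Work.MP_dd0ddf_al.AR

noncomputable section

variable {n : ℕ} {X : Type*} [AddCommGroup X] [Module ℂ X] [UniformSpace X] [IsUniformAddGroup X]
  [ContinuousSMul ℂ X] [CompleteSpace X] [T2Space X] [IsFre X]

variable {π : GLn n →* (X →L[ℂ] X)} {D : Mat n →ₗ[ℝ] (X →L[ℂ] X)}

/-- left translation on `SU n R` -/
private def lamb (n R : ℕ) (k : UU n) : SU n R →ₗ[ℂ] SU n R where
  toFun f := ⟨fun x => f.1 (k * x), su_left R f.1 f.2 k⟩
  map_add' _ _ := rfl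
  map_smul' _ _ := rfl

private theorem lamb_mul (R : ℕ) (k k' : UU n) :
    lamb n R (k * k') = lamb n R k' ∘ₗ lamb n R k := by
  apply LinearMap.ext
  intro f
  apply Subtype.ext
  funext x
  show f.1 (k * k' * x) = f.1 (k * (k' * x))
  rw [mul_assoc]

private theorem lamb_one (R : ℕ) : lamb n R 1 = LinearMap.id := by
  apply LinearMap.ext
  intro f
  apply Subtype.ext
  funext x
  show f.1 (1 * x) = f.1 x
  rw [one_mul]

/-- evaluation on `SU n R` -/
private def evl (n R : ℕ) (k : UU n) : SU n R →ₗ[ℂ] ℂ where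
  toFun f := f.1 k
  map_add' _ _ := rfl
  map_smul' _ _ := rfl

private theorem evl_span (n R : ℕ) : Submodule.span ℂ (Set.range (evl n R)) = ⊤ := by
  have : FiniteDimensional ℂ (SU n R) := suf_fd n R
  have h1 : (Submodule.span ℂ (Set.range (evl n R))).dualCoannihilator = ⊥ := by
    rw [eq_bot_iff]
    intro f hf
    rw [Submodule.mem_bot]
    apply Subtype.ext
    funext k
    rw [Submodule.mem_dualCoannihilator] at hf
    exact hf _ (Submodule.subset_span ⟨k, rfl⟩)
  have h2 := Subspace.dualCoannihilator_dualAnnihilator_eq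
    (W := Submodule.span ℂ (Set.range (evl n R)))
  rw [← h2, h1, Submodule.dualAnnihilator_bot]

private theorem dual_ind {R : ℕ} {p : (SU n R →ₗ[ℂ] ℂ) → Prop} (h1 : ∀ k, p (evl n R k))
    (h0 : p 0) (ha : ∀ x y, p x → p y → p (x + y)) (hs : ∀ (c : ℂ) x, p x → p (c • x))
    (δ : SU n R →ₗ[ℂ] ℂ) : p δ := by
  have h : δ ∈ Submodule.span ℂ (Set.range (evl n R)) := by
    rw [evl_span]
    trivial
  induction h using Submodule.span_induction with
  | mem x hx =>
    obtain ⟨k, rfl⟩ := hx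
    exact h1 k
  | zero => exact h0
  | add x y _ _ hx hy => exact ha x y hx hy
  | smul c x _ hx => exact hs c x hx

private theorem lamb_cont (R : ℕ) (δ : SU n R →ₗ[ℂ] ℂ) :
    ∀ f : SU n R, Continuous fun k => δ (lamb n R k f) := by
  refine dual_ind (p := fun δ => ∀ f : SU n R, Continuous fun k => δ (lamb n R k f))
    ?_ ?_ ?_ ?_ δ
  · intro x f
    exact f.2.1.comp (continuous_mul_right x)
  · intro f
    exact continuous_const
  · intro δ δ' h h' f
    exact (h f).add (h' f)
  · intro c δ h f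
    exact (h f).const_smul c

private theorem sep_eq {y y' : X} (h : ∀ l : X →L[ℂ] ℂ, l y = l y') : y = y' := by
  rw [← sub_eq_zero]
  refine hsep _ fun l => ?_
  rw [map_sub, h l, sub_self]

/-- the coefficient function -/
private def cf (hS : SR π D) (R : ℕ) (x : XR π R) (l : X →L[ℂ] ℂ) : SU n R :=
  ⟨fun k => l (π (kg k) x), (bas_coef hS R x).1 x.2 l⟩

private theorem ex_T (hS : SR π D) (R : ℕ) (x : XR π R) (δ : SU n R →ₗ[ℂ] ℂ) :
    ∃ y : X, ∀ l : X →L[ℂ] ℂ, l y = δ (cf hS R x l) := by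
  refine dual_ind (p := fun δ => ∃ y : X, ∀ l : X →L[ℂ] ℂ, l y = δ (cf hS R x l))
    ?_ ?_ ?_ ?_ δ
  · intro k
    exact ⟨π (kg k) x, fun l => rfl⟩
  · refine ⟨0, fun l => ?_⟩
    rw [map_zero, LinearMap.zero_apply]
  · rintro δ δ' ⟨y, hy⟩ ⟨y', hy'⟩
    refine ⟨y + y', fun l => ?_⟩
    rw [map_add, hy, hy', LinearMap.add_apply]
  · rintro c δ ⟨y, hy⟩
    refine ⟨c • y, fun l => ?_⟩
    rw [map_smul, hy, LinearMap.smul_apply]

/-- the map `x, δ ↦ ∑ a_s π(k_s) x`, `δ = ∑ a_s ev(k_s)` -/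
private def TT (hS : SR π D) (R : ℕ) : XR π R →ₗ[ℂ] (SU n R →ₗ[ℂ] ℂ) →ₗ[ℂ] X :=
  LinearMap.mk₂ ℂ (fun x δ => Classical.choose (ex_T hS R x δ))
    (by
      intro x x' δ
      refine sep_eq fun l => ?_
      rw [map_add, Classical.choose_spec (ex_T hS R (x + x') δ) l,
        Classical.choose_spec (ex_T hS R x δ) l, Classical.choose_spec (ex_T hS R x' δ) l,
        ← map_add]
      congr 1
      apply Subtype.ext
      funext k
      show l (π (kg k) ((x : X) + x')) = l (π (kg k) x) + l (π (kg k) x')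
      rw [map_add, map_add])
    (by
      intro c x δ
      refine sep_eq fun l => ?_
      rw [map_smul, Classical.choose_spec (ex_T hS R (c • x) δ) l,
        Classical.choose_spec (ex_T hS R x δ) l, ← map_smul]
      congr 1
      apply Subtype.ext
      funext k
      show l (π (kg k) (c • (x : X))) = c • l (π (kg k) x)
      rw [map_smul, map_smul])
    (by
      intro x δ δ'
      refine sep_eq fun l => ?_
      rw [map_add, Classical.choose_spec (ex_T hS R x (δ + δ')) l,
        Classical.choose_spec (ex_T hS R x δ) l, Classical.choose_spec (ex_T hS R x δ') l,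
        LinearMap.add_apply])
    (by
      intro c x δ
      refine sep_eq fun l => ?_
      rw [map_smul, Classical.choose_spec (ex_T hS R x (c • δ)) l,
        Classical.choose_spec (ex_T hS R x δ) l, LinearMap.smul_apply])

private theorem TT_spec (hS : SR π D) (R : ℕ) (x : XR π R) (δ : SU n R →ₗ[ℂ] ℂ)
    (l : X →L[ℂ] ℂ) : l (TT hS R x δ) = δ (cf hS R x l) :=
  Classical.choose_spec (ex_T hS R x δ) l

private theorem TT_lamb (hS : SR π D) (R : ℕ) (x : XR π R) (δ : SU n R →ₗ[ℂ] ℂ) (k : UU n) :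
    TT hS R x (δ ∘ₗ lamb n R k) = π (kg k) (TT hS R x δ) := by
  refine sep_eq fun l => ?_
  rw [TT_spec]
  have h1 := TT_spec hS R x δ (l.comp (π (kg k)))
  rw [ContinuousLinearMap.comp_apply] at h1
  rw [h1]
  show δ (lamb n R k (cf hS R x l)) = _
  congr 1
  apply Subtype.ext
  funext y
  show l (π (kg (k * y)) x) = l (π (kg k) (π (kg y) x))
  rw [map_mul, map_mul]
  rfl

/-- the representation of `U(n)` on the dual of `SU n R`, in coordinates -/
private def Mh (n R : ℕ) {m : ℕ} (b : Module.Basis (Fin m) ℂ (SU n R)) :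
    UU n →* Matrix (Fin m) (Fin m) ℂ where
  toFun k := (LinearMap.toMatrix b b (lamb n R k))ᵀ
  map_one' := by
    rw [lamb_one, LinearMap.toMatrix_id, Matrix.transpose_one]
  map_mul' k k' := by
    rw [lamb_mul, LinearMap.toMatrix_comp b b b, Matrix.transpose_mul]

private theorem Mh_cont (n R : ℕ) {m : ℕ} (b : Module.Basis (Fin m) ℂ (SU n R)) :
    Continuous (Mh n R b) := by
  refine continuous_matrix fun i j => ?_
  have h1 : (fun k => Mh n R b k i j) = fun k => b.coord j (lamb n R k (b i)) := by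
    funext k
    show (LinearMap.toMatrix b b (lamb n R k)) j i = _
    rw [LinearMap.toMatrix_apply]
    rfl
  rw [h1]
  exact lamb_cont R (b.coord j) (b i)

private theorem Mh_constr (n R : ℕ) {m : ℕ} (b : Module.Basis (Fin m) ℂ (SU n R)) (k : UU n)
    (v : Fin m → ℂ) : b.constr ℂ (Mh n R b k *ᵥ v) = (b.constr ℂ v) ∘ₗ lamb n R k := by
  refine b.ext fun j => ?_
  rw [Module.Basis.constr_basis, LinearMap.comp_apply, Module.Basis.constr_apply_fintype]
  show ∑ i, (LinearMap.toMatrix b b (lamb n R k)) i j * v i = _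
  refine Finset.sum_congr rfl fun i _ => ?_
  rw [LinearMap.toMatrix_apply]
  rfl

theorem xfd (hS : SR π D) (R : ℕ) : FiniteDimensional ℂ (XR π R) := by
  have : FiniteDimensional ℂ (SU n R) := suf_fd n R
  let b := Module.finBasis ℂ (SU n R)
  let τ : UU n →* GL (Fin (Module.finrank ℂ (SU n R))) ℂ := (Mh n R b).toHomUnits
  have hval : ∀ k, ((τ k : GL _ ℂ) : Matrix _ _ ℂ) = Mh n R b k := fun k => rfl
  have hτ : Continuous τ := by
    rw [Units.continuous_iff]
    refine ⟨Mh_cont n R b, ?_⟩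
    have h1 : (fun k => ((((τ k)⁻¹ : GL _ ℂ)) : Matrix _ _ ℂ)) = fun k => Mh n R b k⁻¹ := by
      funext k
      rw [← map_inv]
      rfl
    rw [h1]
    exact (Mh_cont n R b).comp continuous_inv
  have := hS.adm _ τ hτ
  let Φ₀ : XR π R →ₗ[ℂ] ((Fin (Module.finrank ℂ (SU n R)) → ℂ) →ₗ[ℂ] X) :=
    (LinearMap.lcomp ℂ X (b.constr ℂ).toLinearMap) ∘ₗ TT hS R
  have hΦ : ∀ x v, Φ₀ x v = TT hS R x (b.constr ℂ v) := fun x v => rfl
  have hmem : ∀ x, Φ₀ x ∈ intw π τ := by
    intro x k v
    rw [hΦ, hΦ, hval, Mh_constr, TT_lamb]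
  refine Module.Finite.of_injective (Φ₀.codRestrict (intw π τ) hmem) ?_
  intro x x' h
  have h1 : Φ₀ x = Φ₀ x' := congrArg Subtype.val h
  have h2 : TT hS R x (evl n R 1) = TT hS R x' (evl n R 1) := by
    have h3 := congrArg (fun T : (Fin (Module.finrank ℂ (SU n R)) → ℂ) →ₗ[ℂ] X =>
      T ((b.constr ℂ).symm (evl n R 1))) h1
    simp only [hΦ, LinearEquiv.apply_symm_apply] at h3
    exact h3
  apply Subtype.ext
  refine sep_eq fun l => ?_
  have h3 : ∀ x : XR π R, l (TT hS R x (evl n R 1)) = l x := by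
    intro x
    rw [TT_spec]
    show l (π (kg 1) x) = l x
    rw [map_one, map_one]
    rfl
  rw [← h3 x, ← h3 x', h2]

/-- restriction of the functionals to `XR` -/
private def rst (π : GLn n →* (X →L[ℂ] X)) (R : ℕ) : YR π R →ₗ[ℂ] (XR π R →ₗ[ℂ] ℂ) where
  toFun l := (l : X →ₗ[ℂ] ℂ) ∘ₗ (XR π R).subtype
  map_add' _ _ := rfl
  map_smul' _ _ := rfl

private theorem rst_inj (hS : SR π D) (R : ℕ) : Function.Injective (rst π R) := by
  obtain ⟨E, h1, h2, h3, h4, h5, -⟩ := er hS
  rw [← LinearMap.ker_eq_bot, eq_bot_iff]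
  intro l hl
  rw [Submodule.mem_bot]
  rw [LinearMap.mem_ker] at hl
  apply Subtype.ext
  rw [← h5 R l l.2]
  apply LinearMap.ext
  intro x
  exact congrArg (fun f : XR π R →ₗ[ℂ] ℂ => f ⟨E R x, h1 R x⟩) hl

theorem yfd (hS : SR π D) (R : ℕ) : FiniteDimensional ℂ (YR π R) := by
  have := xfd hS R
  exact Module.Finite.of_injective (rst π R) (rst_inj hS R)

/-- every linear functional on XR is the restriction of an element of YR -/
theorem xy_dual (hS : SR π D) (R : ℕ) (m : XR π R →ₗ[ℂ] ℂ) :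
    ∃ l ∈ YR π R, ∀ x : XR π R, l x = m x := by
  have := xfd hS R
  obtain ⟨E, h1, h2, h3, h4, h5, -⟩ := er hS
  have hm : Continuous m := LinearMap.continuous_of_finiteDimensional m
  let E' : X →L[ℂ] XR π R := (E R).codRestrict (XR π R) (h1 R)
  let l' : X →L[ℂ] ℂ := (⟨m, hm⟩ : XR π R →L[ℂ] ℂ).comp E'
  refine ⟨_, h4 R l', fun x => ?_⟩
  show m (E' (E R x)) = m x
  congr 1
  apply Subtype.ext
  show E R (E R x) = x
  rw [h2 R x x.2, h2 R x x.2]

/-- every linear functional on YR is given by an element of XR -/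
theorem yx_dual (hS : SR π D) (R : ℕ) (m : YR π R →ₗ[ℂ] ℂ) :
    ∃ x ∈ XR π R, ∀ l : YR π R, m l = (l : X →ₗ[ℂ] ℂ) x := by
  have := xfd hS R
  have hsur : Function.Surjective (rst π R) := by
    intro m'
    obtain ⟨l, hl, h⟩ := xy_dual hS R m'
    exact ⟨⟨l, hl⟩, LinearMap.ext h⟩
  let Ψ := LinearEquiv.ofBijective (rst π R) ⟨rst_inj hS R, hsur⟩
  obtain ⟨x, hx⟩ := (Module.bijective_dual_eval ℂ (XR π R)).2 (m ∘ₗ Ψ.symm.toLinearMap)
  refine ⟨x, x.2, fun l => ?_⟩
  have h1 := congrArg (fun f => f (Ψ l)) hx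
  simp only [LinearMap.comp_apply, LinearEquiv.coe_coe, LinearEquiv.symm_apply_apply] at h1
  exact h1.symm

end

end Pool.Agent.Work.MP_dd0ddf_al.CW
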