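import Pool.Agent.Work.MP_dd0ddf_al.CW.Defs
import Pool.Agent.Work.MP_dd0ddf_al.CW.Exd

/-!
# the derived representation

PROOF. rep_conj: pi(g) (t^-1 (pi(ex tY) x - x)) = t^-1 (pi(ex(t gYg^-1)) pi(g) x - pi(g) x) (`ex_conj`), limits t -> 0 (continuity of pi g, `der`), uniqueness of limits (T2).
rep_der: s -> l(pi(ex(s Y)) x): pi(ex((t+s)Y)) x = pi(ex(tY)) pi(ex(sY)) x (`ex_add`), difference quotient at s = 0 composed with the continuous linear l o pi(ex tY).  rep_der' in the same way with g, h.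
rep_br: for Y, Z: by rep_conj D(e^(sZ) Y e^(-sZ)) x = pi(ex sZ) D(Y) pi(ex(-sZ)) x for all s.  Apply l and differentiate at s = 0.  Left: D is linear on a finite dimensional space, s -> e^(sZ) Y e^(-sZ) has derivative ZY - YZ
(entrywise, `ex_der`), so derivative l(D(ZY-YZ) x) (expand D in the real basis of Mat n).  Right: l pi(ex sZ) D(Y) pi(ex(-sZ)) x: difference quotient = l pi(ex sZ) D(Y) [(pi(ex(-sZ)) x - x)/s] + l [(pi(ex sZ) - 1)/s] D(Y) x; the first term
tends to -l D(Y) D(Z) x by joint continuity of pi (`cont`) and continuity of D(Y), the second to l D(Z) D(Y) x.  So D(ZY - YZ) x = D(Z)D(Y) x - D(Y)D(Z) x (continuous functionals separate points: `IsFre`; or use uniqueness of limits in X directly).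
-/

set_option linter.unusedSectionVars false

namespace Pool.Agent.Work.MP_dd0ddf_al.CW

open scoped Matrix.Norms.Elementwise ComplexConjugate ContDiff Topology
open Matrix MeasureTheory Filter
open Pool.Agent.Work.MP_dd0ddf_al.AR

noncomputable section

variable {n : ℕ} {X : Type*} [AddCommGroup X] [Module ℂ X] [UniformSpace X] [IsUniformAddGroup X]
  [ContinuousSMul ℂ X] [CompleteSpace X] [T2Space X] [IsFre X]

variable {π : GLn n →* (X →L[ℂ] X)} {D : Mat n →ₗ[ℝ] (X →L[ℂ] X)}

theorem rep_conj (hS : SR π D) (g : GLn n) (Y : Mat n) (x : X) :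
    π g (D Y x) = D ((g : Mat n) * Y * ((g⁻¹ : GLn n) : Mat n)) (π g x) := by
  sorry

theorem rep_der (hS : SR π D) (l : X →L[ℂ] ℂ) (Y : Mat n) (x : X) (t : ℝ) :
    HasDerivAt (fun s : ℝ => l (π (ex (s • Y)) x)) (l (π (ex (t • Y)) (D Y x))) t := by
  sorry

theorem rep_der' (hS : SR π D) (l : X →L[ℂ] ℂ) (g h : GLn n) (Y : Mat n) (x : X) (t : ℝ) :
    HasDerivAt (fun s : ℝ => l (π (g * ex (s • Y) * h) x))
      (l (π (g * ex (t • Y)) (D Y (π h x)))) t := by
  sorry

theorem rep_br (hS : SR π D) (Y Z : Mat n) (x : X) :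
    D Y (D Z x) - D Z (D Y x) = D (Y * Z - Z * Y) x := by
  sorry

end

end Pool.Agent.Work.MP_dd0ddf_al.CW
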