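import Pool.Agent.Work.MP_dd0ddf_al.CW.Defs
import Pool.Agent.Work.MP_dd0ddf_al.CW.Defs2
import Pool.Agent.Work.MP_dd0ddf_al.CW.Rep1

/-!
# the complexified derived representation

PROOF. rep_D: Y = sum_ij ((Re Y_ij) E_ij + (Im Y_ij) i E_ij), D real linear, D(E_ij) = DL + DR, D(i E_ij) = i (DL - DR).  rep_gg: insert the definitions and use `rep_br` for Y, Z in {E_ij, i E_ij}, {E_kl, i E_kl}
and E_ij E_kl = [j=k] E_il (`Matrix.single_mul_single_same`, `..._of_ne`).  rep_conjL: gE_ijg^-1 = sum_kl g_ki (g^-1)_jl E_kl, and D(zY) for complex z: (DL part is complex linear): from rep_conj for E_ij and i E_ij.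
For DR the coefficients are conjugated.
-/

set_option linter.unusedSectionVars false

namespace Pool.Agent.Work.MP_dd0ddf_al.CW

open scoped Matrix.Norms.Elementwise ComplexConjugate ContDiff Topology
open Matrix MeasureTheory Filter
open Pool.Agent.Work.MP_dd0ddf_al.AR

noncomputable section

variable {n : ℕ} {X : Type*} [AddCommGroup X] [Module ℂ X] [UniformSpace X] [IsUniformAddGroup X]
  [ContinuousSMul ℂ X] [CompleteSpace X] [T2Space X] [IsFre X]

variable {π : GLn n →* (X →L[ℂ] X)} {D : Mat n →ₗ[ℝ] (X →L[ℂ] X)}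

theorem rep_D (D : Mat n →ₗ[ℝ] (X →L[ℂ] X)) (Y : Mat n) (x : X) :
    D Y x = ∑ i, ∑ j, (Y i j • DL D i j x + conj (Y i j) • DR D i j x) := by
  sorry

theorem rep_gg (hS : SR π D) : GG (dL D) (dR D) := by
  sorry

theorem rep_conjL (hS : SR π D) (g : GLn n) (i j : Fin n) (x : X) :
    π g (DL D i j x) = ∑ k, ∑ l, ((g : Mat n) k i * ((g⁻¹ : GLn n) : Mat n) j l) •
      DL D k l (π g x) := by
  sorry

theorem rep_conjR (hS : SR π D) (g : GLn n) (i j : Fin n) (x : X) :
    π g (DR D i j x) = ∑ k, ∑ l, (conj ((g : Mat n) k i) * conj (((g⁻¹ : GLn n) : Mat n) j l)) •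
      DR D k l (π g x) := by
  sorry

end

end Pool.Agent.Work.MP_dd0ddf_al.CW
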