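import Pool.Agent.Work.MP_dd0ddf_al.CW.Defs
import Pool.Agent.Work.MP_dd0ddf_al.CW.Defs2
import Pool.Agent.Work.MP_dd0ddf_al.CW.Bas
import Pool.Agent.Work.MP_dd0ddf_al.CW.Rep1
import Pool.Agent.Work.MP_dd0ddf_al.CW.Rep2
import Pool.Agent.Work.MP_dd0ddf_al.CW.Cug
import Pool.Agent.Work.MP_dd0ddf_al.CW.Tpf

/-!
# stability under the Lie algebra

PROOF. x in XR: l(pi(kg(cu v t)) D(Y) x) = l(D(g Y g^-1) pi(g) x), g = kg(cu v t) (`rep_conj`).  By `cu_eq` g = 1 + (e^(it)-1) P, g^-1 = 1 + (e^(-it)-1) P; the entries of g Y g^-1 are in the span of 1, e^(it), e^(-it) (in TPs 1; also the conjugates).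
D(gYg^-1) z = sum_ij ((gYg^-1)_ij DL_ij z + conj DR_ij z) (`rep_D`), and t -> l(DL_ij pi(g) x) is in TPs R (x in XR, the functional l o DL_ij is continuous).  `tp_mul`: in TPs (R+1).  The same for functionals: l(D(Y) pi(g) x) = l(pi(g) D(g^-1 Y g) x), and
t -> l(pi(g) DL_ij x) in TPs R.  DL, DR are combinations of D's.
xop, yop, mop: `dif_pos`.
xopGG: products and sums: the operators xL are restrictions of dL; `rep_gg`.  yop is an antihomomorphism: yop(T) yop(T') l = l o T' o T ... (l ↦ l∘T' ↦ (l∘T')∘T): so yop(S) * yop(T) = yop(T * S)-like; with the sign -, yL = -yop(DL) satisfies GG: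
(yL_ij yL_kl - yL_kl yL_ij) l = l∘DL_kl∘DL_ij - l∘DL_ij∘DL_kl = -l∘[DL_ij, DL_kl].  mL: (mL_ij mL_kl u)(l) = (mL_kl u)(l∘DL_ij) = u(l∘DL_ij∘DL_kl): a left action, GG.
-/

set_option linter.unusedSectionVars false

namespace Pool.Agent.Work.MP_dd0ddf_al.CW

open scoped Matrix.Norms.Elementwise ComplexConjugate ContDiff Topology
open Matrix MeasureTheory Filter
open Pool.Agent.Work.MP_dd0ddf_al.AR

noncomputable section

variable {n : ℕ} {X : Type*} [AddCommGroup X] [Module ℂ X] [UniformSpace X] [IsUniformAddGroup X]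
  [ContinuousSMul ℂ X] [CompleteSpace X] [T2Space X] [IsFre X]

variable {π : GLn n →* (X →L[ℂ] X)} {D : Mat n →ₗ[ℝ] (X →L[ℂ] X)}

theorem xst (hS : SR π D) (R : ℕ) (x : X) (hx : x ∈ XR π R) (Y : Mat n) : D Y x ∈ XR π (R + 1) := by
  sorry

theorem xstL (hS : SR π D) (R : ℕ) (x : X) (hx : x ∈ XR π R) (i j : Fin n) :
    DL D i j x ∈ XR π (R + 1) ∧ DR D i j x ∈ XR π (R + 1) := by
  sorry

theorem yst (hS : SR π D) (R : ℕ) (l : X →ₗ[ℂ] ℂ) (hl : l ∈ YR π R) (Y : Mat n) :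
    l.comp (D Y : X →ₗ[ℂ] X) ∈ YR π (R + 1) := by
  sorry

theorem ystL (hS : SR π D) (R : ℕ) (l : X →ₗ[ℂ] ℂ) (hl : l ∈ YR π R) (i j : Fin n) :
    l.comp (DL D i j : X →ₗ[ℂ] X) ∈ YR π (R + 1) ∧ l.comp (DR D i j : X →ₗ[ℂ] X) ∈ YR π (R + 1) := by
  sorry

theorem xL_apply (hS : SR π D) (i j : Fin n) (x : Xf π) :
    ((xL π D i j x : Xf π) : X) = DL D i j x ∧ ((xR π D i j x : Xf π) : X) = DR D i j x := by
  sorry

theorem yop_apply (hS : SR π D) (i j : Fin n) (l : Yf π) :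
    ((yop π (DL D i j) l : Yf π) : X →ₗ[ℂ] ℂ) = (l : X →ₗ[ℂ] ℂ).comp (DL D i j : X →ₗ[ℂ] X) ∧
    ((yop π (DR D i j) l : Yf π) : X →ₗ[ℂ] ℂ) = (l : X →ₗ[ℂ] ℂ).comp (DR D i j : X →ₗ[ℂ] X) := by
  sorry

theorem yopD_apply (hS : SR π D) (Y : Mat n) (l : Yf π) :
    ((yop π (D Y) l : Yf π) : X →ₗ[ℂ] ℂ) = (l : X →ₗ[ℂ] ℂ).comp (D Y : X →ₗ[ℂ] X) := by
  sorry

theorem yopk_apply (π : GLn n →* (X →L[ℂ] X)) (k : UU n) (l : Yf π) :
    ((yop π (π (kg k)) l : Yf π) : X →ₗ[ℂ] ℂ) = (l : X →ₗ[ℂ] ℂ).comp (π (kg k) : X →ₗ[ℂ] X) := by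
  sorry

theorem xopGG (hS : SR π D) : GG (xL π D) (xR π D) := by
  sorry

theorem yopGG (hS : SR π D) : GG (yL π D) (yR π D) := by
  sorry

theorem mopGG (hS : SR π D) : GG (mL π D) (mR π D) := by
  sorry

end

end Pool.Agent.Work.MP_dd0ddf_al.CW
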