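import Pool.Agent.Work.MP_dd0ddf_al.CW.Defs
import Pool.Agent.Work.MP_dd0ddf_al.CW.Defs2
import Pool.Agent.Work.MP_dd0ddf_al.CW.Er
import Pool.Agent.Work.MP_dd0ddf_al.CW.Xfd
import Pool.Agent.Work.MP_dd0ddf_al.CW.Xst
import Pool.Agent.Work.MP_dd0ddf_al.CW.Tpf

/-!
# U(n)-finite functionals on Yf are vectors

PROOF. Restrict w to YR R: by `yx_dual` there is x in XR R with w l = l x for l in YR R.  For general l in Yf, l in YR S: w(l o E_R) = w(l): k -> w(l o pi(kg k)) is a function F in SU n R (hypothesis; it is continuous: l o pi(kg k) moves continuously in the finite dimensional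
space YR S; frequencies: F(a cu v t) = w((l o pi(kg a)) o pi(kg (cu v t)))), and w(l o E_R) = int eK(k) w(l o pi(kg k)) dk (w is linear on the finite dimensional space YR S, l o E_R = int eK(k) l o pi(kg k) dk in YR S pointwise) = F(1) = w(l)
by the reproducing property.  l o E_R in YR R (`er`), so w l = (l o E_R)(x) = l(E_R x) = l(x).
-/

set_option linter.unusedSectionVars false

namespace Pool.Agent.Work.MP_dd0ddf_al.CW

open scoped Matrix.Norms.Elementwise ComplexConjugate ContDiff Topology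
open Matrix MeasureTheory Filter
open Pool.Agent.Work.MP_dd0ddf_al.AR

noncomputable section

variable {n : ℕ} {X : Type*} [AddCommGroup X] [Module ℂ X] [UniformSpace X] [IsUniformAddGroup X]
  [ContinuousSMul ℂ X] [CompleteSpace X] [T2Space X] [IsFre X]

variable {π : GLn n →* (X →L[ℂ] X)} {D : Mat n →ₗ[ℝ] (X →L[ℂ] X)}

theorem dua (hS : SR π D) (w : Yf π →ₗ[ℂ] ℂ) (R : ℕ)
    (hw : ∀ (l : Yf π) (v : Fin n → ℂ), uni v → (fun θ : ℝ => w (yop π (π (kg (cu v θ))) l)) ∈ TPs R) :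
    ∃ x ∈ XR π R, ∀ l : Yf π, w l = (l : X →ₗ[ℂ] ℂ) x := by
  sorry

/-- for l in Yf and w linear, k ↦ w(l ∘ π(k)) is in some SU n R (the frequency of l) -/
theorem dua_coef (hS : SR π D) (w : Yf π →ₗ[ℂ] ℂ) (R : ℕ) (l : Yf π)
    (hl : (l : X →ₗ[ℂ] ℂ) ∈ YR π R) : (fun k : UU n => w (yop π (π (kg k)) l)) ∈ SU n R := by
  sorry

/-- the component of a formal vector -/
theorem dua_comp (hS : SR π D) (w : Yf π →ₗ[ℂ] ℂ) (R : ℕ) :
    ∃ x ∈ XR π R, ∀ l : Yf π, (l : X →ₗ[ℂ] ℂ) ∈ YR π R → w l = (l : X →ₗ[ℂ] ℂ) x := by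
  sorry

end

end Pool.Agent.Work.MP_dd0ddf_al.CW
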