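import Pool.Agent.Work.MP_dd0ddf_al.CW.Defs
import Pool.Agent.Work.MP_dd0ddf_al.CW.Trx

/-!
# traces on a functional killed by the strictly upper triangular operators

PROOF. CLAIM: for a word w with all letters of the form (true,i,j) and with, for every i, as many letters with first index i as letters with second index i (weight zero), there is c with
eps(wd w y) = c eps(y) for all y.  Strong induction on the length.  If w has a raising letter (i < j): move the first one to the front; the commutators [y, x] of a letter y with the letter x are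
combinations of letters (GG.LL), so the corrections are words of length - 1, again of weight zero (E_ij E_jl -> E_il and so on); eps(x ...) = 0 by h1.  If w has no raising letter:
the sum over the letters of (first index - second index) is zero (weight zero) and all terms are >= 0, so all letters are diagonal, eps(wd w y) = (product of a_i) eps(y) by h2.
Apply it to the words of `trx0` and to L_ii^k (k >= 1; for k = 0 tz L 0 = n).
-/

set_option linter.unusedSectionVars false

namespace Pool.Agent.Work.MP_dd0ddf_al.CW

open scoped Matrix.Norms.Elementwise ComplexConjugate ContDiff Topology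
open Matrix MeasureTheory Filter
open Pool.Agent.Work.MP_dd0ddf_al.AR

noncomputable section

variable {n : ℕ} {Y : Type*} [AddCommGroup Y] [Module ℂ Y]

/-- the product of the operators of a word of index pairs -/
private def poH (L : Fin n → Fin n → Module.End ℂ Y) (u : List (Fin n × Fin n)) :
    Module.End ℂ Y :=
  (u.map fun p => L p.1 p.2).prod

/-- the weight of a word of index pairs -/
private def wtH (u : List (Fin n × Fin n)) (i : Fin n) : ℤ :=
  (u.map fun p => (if p.1 = i then (1 : ℤ) else 0) - (if p.2 = i then (1 : ℤ) else 0)).sum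

private theorem wtH_cons (p : Fin n × Fin n) (u : List (Fin n × Fin n)) (i : Fin n) :
    wtH (p :: u) i = ((if p.1 = i then (1 : ℤ) else 0) - (if p.2 = i then (1 : ℤ) else 0)) +
      wtH u i := by
  simp [wtH]

private theorem wtH_append (u w : List (Fin n × Fin n)) (i : Fin n) :
    wtH (u ++ w) i = wtH u i + wtH w i := by
  simp [wtH]

private theorem poH_cons (L : Fin n → Fin n → Module.End ℂ Y) (p : Fin n × Fin n)
    (u : List (Fin n × Fin n)) : poH L (p :: u) = L p.1 p.2 * poH L u := by
  simp [poH]

private theorem poH_append (L : Fin n → Fin n → Module.End ℂ Y) (u w : List (Fin n × Fin n)) :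
    poH L (u ++ w) = poH L u * poH L w := by
  simp [poH]

private theorem sum_zero_all {α : Type*} (f : α → ℤ) : ∀ u : List α, (∀ x ∈ u, 0 ≤ f x) →
    (u.map f).sum = 0 → ∀ x ∈ u, f x = 0 := by
  intro u
  induction u with
  | nil => intro _ _ x hx; simp at hx
  | cons b u ih =>
    intro h0 hs x hx
    rw [List.map_cons, List.sum_cons] at hs
    have h1 : 0 ≤ f b := h0 b (by simp)
    have h2 : 0 ≤ (u.map f).sum := by
      apply List.sum_nonneg
      intro z hz
      obtain ⟨w, hw, rfl⟩ := List.mem_map.1 hz
      exact h0 w (by simp [hw])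
    rcases List.mem_cons.1 hx with rfl | hx
    · omega
    · exact ih (fun z hz => h0 z (by simp [hz])) (by omega) x hx

private theorem sum_wtH (u : List (Fin n × Fin n)) :
    ∑ i : Fin n, ((i : ℕ) : ℤ) * wtH u i =
      (u.map fun p => ((p.1 : ℕ) : ℤ) - ((p.2 : ℕ) : ℤ)).sum := by
  induction u with
  | nil => simp [wtH]
  | cons p u ih =>
    rw [List.map_cons, List.sum_cons, ← ih]
    simp only [wtH_cons, mul_add, Finset.sum_add_distrib, mul_sub, Finset.sum_sub_distrib]
    simp

private theorem clH {L R : Fin n → Fin n → Module.End ℂ Y} (gg : GG L R) (ε : Y →ₗ[ℂ] ℂ)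
    (a : Fin n → ℂ) (h1 : ∀ i j, i < j → ∀ y, ε (L i j y) = 0)
    (h2 : ∀ i y, ε (L i i y) = a i * ε y) : ∀ (m : ℕ) (u : List (Fin n × Fin n)),
    u.length = m → (∀ i, wtH u i = 0) → ∃ c : ℂ, ∀ y, ε (poH L u y) = c * ε y := by
  intro m
  induction m using Nat.strong_induction_on with
  | _ m ih =>
  have inner : ∀ (x : Fin n × Fin n), x.1 < x.2 → ∀ (u1 u2 : List (Fin n × Fin n)),
      (u1 ++ x :: u2).length = m → (∀ i, wtH (u1 ++ x :: u2) i = 0) →
      ∃ c : ℂ, ∀ y, ε (poH L (u1 ++ x :: u2) y) = c * ε y := by
    intro x hx u1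
    induction u1 using List.reverseRecOn with
    | nil =>
      intro u2 _ _
      refine ⟨0, fun y => ?_⟩
      rw [List.nil_append, poH_cons, Module.End.mul_apply, h1 _ _ hx, zero_mul]
    | append_singleton u1 z ihu =>
      intro u2 hlen hW
      have hlen' : u1.length + 1 + (u2.length + 1) = m := by
        have h := hlen
        simp only [List.length_append, List.length_cons, List.length_nil] at h
        omega
      have hW' : ∀ i, wtH u1 i + (((if z.1 = i then (1 : ℤ) else 0) -
          (if z.2 = i then (1 : ℤ) else 0)) + (((if x.1 = i then (1 : ℤ) else 0) -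
          (if x.2 = i then (1 : ℤ) else 0)) + wtH u2 i)) = 0 := by
        intro i
        have h := hW i
        rw [List.append_assoc, wtH_append, List.singleton_append, wtH_cons, wtH_cons] at h
        exact h
      obtain ⟨c1, hc1⟩ := ihu (z :: u2) (by
          simp only [List.length_append, List.length_cons]
          omega) (by
          intro i
          rw [wtH_append, wtH_cons, wtH_cons]
          have h := hW' i
          linarith)
      have hA : z.2 = x.1 → ∃ c : ℂ, ∀ y, ε (poH L (u1 ++ (z.1, x.2) :: u2) y) = c * ε y := by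
        intro hzx
        apply ih (u1.length + 1 + u2.length) (by omega)
        · simp only [List.length_append, List.length_cons]
          omega
        · intro i
          rw [wtH_append, wtH_cons]
          have h := hW' i
          rw [hzx] at h
          change wtH u1 i + ((if z.1 = i then (1 : ℤ) else 0) -
            (if x.2 = i then (1 : ℤ) else 0) + wtH u2 i) = 0
          linarith
      have hB : z.1 = x.2 → ∃ c : ℂ, ∀ y, ε (poH L (u1 ++ (x.1, z.2) :: u2) y) = c * ε y := by
        intro hzx
        apply ih (u1.length + 1 + u2.length) (by omega)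
        · simp only [List.length_append, List.length_cons]
          omega
        · intro i
          rw [wtH_append, wtH_cons]
          have h := hW' i
          rw [hzx] at h
          change wtH u1 i + ((if x.1 = i then (1 : ℤ) else 0) -
            (if z.2 = i then (1 : ℤ) else 0) + wtH u2 i) = 0
          linarith
      have hcomm : L z.1 z.2 * L x.1 x.2 = L x.1 x.2 * L z.1 z.2 +
          ((if z.2 = x.1 then L z.1 x.2 else 0) - (if z.1 = x.2 then L x.1 z.2 else 0)) := by
        rw [← gg.LL z.1 z.2 x.1 x.2]
        abel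
      have hpo : poH L (u1 ++ [z] ++ x :: u2) = poH L (u1 ++ x :: z :: u2) +
          ((if z.2 = x.1 then poH L (u1 ++ (z.1, x.2) :: u2) else 0) -
            (if z.1 = x.2 then poH L (u1 ++ (x.1, z.2) :: u2) else 0)) := by
        have e1 : poH L (u1 ++ [z] ++ x :: u2) =
            poH L u1 * (L z.1 z.2 * L x.1 x.2) * poH L u2 := by
          rw [List.append_assoc, List.singleton_append, poH_append, poH_cons, poH_cons]
          simp only [mul_assoc]
        have e2 : poH L (u1 ++ x :: z :: u2) =
            poH L u1 * (L x.1 x.2 * L z.1 z.2) * poH L u2 := by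
          rw [poH_append, poH_cons, poH_cons]
          simp only [mul_assoc]
        have e3 : poH L (u1 ++ (z.1, x.2) :: u2) = poH L u1 * L z.1 x.2 * poH L u2 := by
          rw [poH_append, poH_cons, mul_assoc]
        have e4 : poH L (u1 ++ (x.1, z.2) :: u2) = poH L u1 * L x.1 z.2 * poH L u2 := by
          rw [poH_append, poH_cons, mul_assoc]
        rw [e1, e2, e3, e4, hcomm]
        split_ifs <;> simp [mul_add, add_mul, mul_sub, sub_mul]
      rw [hpo]
      by_cases hz1 : z.2 = x.1 <;> by_cases hz2 : z.1 = x.2
      · obtain ⟨c2, hc2⟩ := hA hz1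
        obtain ⟨c3, hc3⟩ := hB hz2
        refine ⟨c1 + (c2 - c3), fun y => ?_⟩
        rw [if_pos hz1, if_pos hz2, LinearMap.add_apply, LinearMap.sub_apply, map_add, map_sub,
          hc1, hc2, hc3]
        ring
      · obtain ⟨c2, hc2⟩ := hA hz1
        refine ⟨c1 + c2, fun y => ?_⟩
        rw [if_pos hz1, if_neg hz2, sub_zero, LinearMap.add_apply, map_add, hc1, hc2]
        ring
      · obtain ⟨c3, hc3⟩ := hB hz2
        refine ⟨c1 - c3, fun y => ?_⟩
        rw [if_neg hz1, if_pos hz2, zero_sub, LinearMap.add_apply, LinearMap.neg_apply, map_add,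
          map_neg, hc1, hc3]
        ring
      · refine ⟨c1, fun y => ?_⟩
        rw [if_neg hz1, if_neg hz2, sub_zero, add_zero, hc1]
  intro u hu hW
  by_cases hr : ∃ x ∈ u, x.1 < x.2
  · obtain ⟨x, hx, hlt⟩ := hr
    obtain ⟨u1, u2, rfl⟩ := List.append_of_mem hx
    exact inner x hlt u1 u2 hu hW
  · have hr' : ∀ x ∈ u, x.2 ≤ x.1 := by
      intro x hx
      by_contra hlt
      exact hr ⟨x, hx, not_le.1 hlt⟩
    have hsum : (u.map fun p => ((p.1 : ℕ) : ℤ) - ((p.2 : ℕ) : ℤ)).sum = 0 := by
      rw [← sum_wtH]
      simp [hW]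
    have hdiag := sum_zero_all (fun p : Fin n × Fin n => ((p.1 : ℕ) : ℤ) - ((p.2 : ℕ) : ℤ)) u
      (by
        intro x hx
        have h := hr' x hx
        have h' : (x.2 : ℕ) ≤ (x.1 : ℕ) := h
        change 0 ≤ ((x.1 : ℕ) : ℤ) - ((x.2 : ℕ) : ℤ)
        omega) hsum
    have hdiag' : ∀ x ∈ u, x.1 = x.2 := by
      intro x hx
      have h := hdiag x hx
      change ((x.1 : ℕ) : ℤ) - ((x.2 : ℕ) : ℤ) = 0 at h
      apply Fin.ext
      omega
    clear hsum hdiag hr hr' hW hu inner ih
    induction u with
    | nil => exact ⟨1, fun y => by simp [poH]⟩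
    | cons x u ihd =>
      obtain ⟨c, hc⟩ := ihd (fun z hz => hdiag' z (by simp [hz]))
      refine ⟨a x.1 * c, fun y => ?_⟩
      have hx := hdiag' x (by simp)
      rw [poH_cons, Module.End.mul_apply, ← hx, h2, hc]
      ring

theorem hwz {L R : Fin n → Fin n → Module.End ℂ Y} (gg : GG L R) (ε : Y →ₗ[ℂ] ℂ) (a : Fin n → ℂ)
    (h1 : ∀ i j, i < j → ∀ y, ε (L i j y) = 0) (h2 : ∀ i y, ε (L i i y) = a i * ε y) (k : ℕ) :
    ∃ ζ : ℂ, ∀ y : Y, ε (tz L k y) = ζ * ε y := by
  rcases Nat.eq_zero_or_pos k with rfl | hk
  · refine ⟨(n : ℂ), fun y => ?_⟩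
    have h : tz L 0 = ((n : ℕ) : Module.End ℂ Y) := by
      simp [tz]
    rw [h]
    have h' : ((n : ℕ) : Module.End ℂ Y) y = (n : ℂ) • y := by
      rw [Module.End.natCast_apply]
      exact (Nat.cast_smul_eq_nsmul ℂ n y).symm
    rw [h', map_smul, smul_eq_mul]
  · obtain ⟨c, hc, htz⟩ := trx0 (L := L) (R := R) k hk
    have hw : ∀ w ∈ c.support, ∃ ζ : ℂ, ∀ y, ε (wd L R w y) = ζ * ε y := by
      intro w hwc
      obtain ⟨-, -, htrue, hcount⟩ := hc w hwc
      have h3 : wd L R w = poH L (w.map fun l => l.2) := by
        unfold wd poH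
        rw [List.map_map]
        congr 1
        apply List.map_congr_left
        intro l hl
        simp [lop, htrue l hl]
      rw [h3]
      refine clH gg ε a h1 h2 _ _ rfl ?_
      intro i
      have h4 : ∀ w : List (Lt n), wtH (w.map fun l => l.2) i =
          ((w.filter fun l => l.2.1 = i).length : ℤ) - ((w.filter fun l => l.2.2 = i).length : ℤ) := by
        intro w
        induction w with
        | nil => simp [wtH]
        | cons l w ihw =>
          rw [List.map_cons, wtH_cons, ihw, List.filter_cons, List.filter_cons]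
          by_cases h5 : l.2.1 = i <;> by_cases h6 : l.2.2 = i <;> simp [h5, h6] <;> ring
      rw [h4, hcount i, sub_self]
    choose ζ hζ using hw
    have hpow : ∀ (i : Fin n) (j : ℕ) (y : Y), ε ((L i i ^ j) y) = a i ^ j * ε y := by
      intro i j
      induction j with
      | zero => intro y; simp
      | succ j ihj =>
        intro y
        rw [pow_succ', Module.End.mul_apply, h2, ihj, pow_succ']
        ring
    refine ⟨(∑ i, a i ^ k) + ∑ w ∈ c.support.attach, c w.1 * ζ w.1 w.2, fun y => ?_⟩
    rw [htz, LinearMap.add_apply, map_add, add_mul]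
    congr 1
    · rw [LinearMap.sum_apply, map_sum, Finset.sum_mul]
      exact Finset.sum_congr rfl fun i _ => hpow i k y
    · rw [Finsupp.sum, ← Finset.sum_attach, LinearMap.sum_apply, map_sum, Finset.sum_mul]
      refine Finset.sum_congr rfl fun w _ => ?_
      rw [LinearMap.smul_apply, map_smul, smul_eq_mul, hζ w.1 w.2 y]
      ring

end

end Pool.Agent.Work.MP_dd0ddf_al.CW
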